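import Mathlib
import Pool.Agent.TH278.DX.Defs

/-!
# Improving an invariant operator by a commuting one (job 4632, helper858)
-/

set_option autoImplicit false

namespace Pool.Agent.TH278.DX.J4632

section abs

set_option linter.unusedSectionVars false

variable {A : Type*} [CStarAlgebra A] [PartialOrder A] [StarOrderedRing A]

noncomputable def sq (a : A) : A := cfc Real.sqrt a
noncomputable def sqi (a : A) : A := cfc (fun x : ℝ => (Real.sqrt x)⁻¹) a
noncomputable def iv (a : A) : A := cfc (fun x : ℝ => x⁻¹) a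
noncomputable def bb (a : A) : A := (1 / 2 : ℝ) • CFC.log a

lemma spec_ge {a : A} (hsa : IsSelfAdjoint a) (h1 : 1 ≤ a) : ∀ x ∈ spectrum ℝ a, 1 ≤ x := by
  have : algebraMap ℝ A 1 ≤ a := by rw [map_one]; exact h1
  exact (algebraMap_le_iff_le_spectrum (ha := hsa)).1 this

lemma cont_sqi {a : A} (hsa : IsSelfAdjoint a) (h1 : 1 ≤ a) :
    ContinuousOn (fun x : ℝ => (Real.sqrt x)⁻¹) (spectrum ℝ a) :=
  ContinuousOn.inv₀ Real.continuous_sqrt.continuousOn fun x hx =>
    (Real.sqrt_pos.2 (by linarith [spec_ge hsa h1 x hx])).ne'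

lemma cont_iv {a : A} (hsa : IsSelfAdjoint a) (h1 : 1 ≤ a) :
    ContinuousOn (fun x : ℝ => x⁻¹) (spectrum ℝ a) :=
  ContinuousOn.inv₀ continuousOn_id fun x hx => by
    have h0 := spec_ge hsa h1 x hx
    exact (by linarith : (0 : ℝ) < x).ne'

lemma sq_sa (a : A) : IsSelfAdjoint (sq a) := cfc_predicate _ a
lemma sqi_sa (a : A) : IsSelfAdjoint (sqi a) := cfc_predicate _ a
lemma iv_sa (a : A) : IsSelfAdjoint (iv a) := cfc_predicate _ a

lemma bb_sa (a : A) : IsSelfAdjoint (bb a) := by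
  unfold bb
  exact IsSelfAdjoint.smul (IsSelfAdjoint.all _) IsSelfAdjoint.log

lemma sq_mul_sqi {a : A} (hsa : IsSelfAdjoint a) (h1 : 1 ≤ a) : sq a * sqi a = 1 := by
  unfold sq sqi
  rw [← cfc_mul Real.sqrt (fun x : ℝ => (Real.sqrt x)⁻¹) a Real.continuous_sqrt.continuousOn (cont_sqi hsa h1)]
  rw [cfc_congr (g := fun _ : ℝ => (1 : ℝ)) fun x hx => by
    have := (Real.sqrt_pos.2 (by linarith [spec_ge hsa h1 x hx] : (0 : ℝ) < x)).ne'
    simp only
    field_simp]
  exact cfc_const_one ℝ a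

lemma sqi_mul_sq {a : A} (hsa : IsSelfAdjoint a) (h1 : 1 ≤ a) : sqi a * sq a = 1 := by
  have h := congrArg star (sq_mul_sqi hsa h1)
  rw [star_mul, star_one, (sq_sa a).star_eq, (sqi_sa a).star_eq] at h
  exact h

lemma sq_mul_sq {a : A} (hsa : IsSelfAdjoint a) (h1 : 1 ≤ a) : sq a * sq a = a := by
  unfold sq
  rw [← cfc_mul Real.sqrt Real.sqrt a Real.continuous_sqrt.continuousOn Real.continuous_sqrt.continuousOn]
  rw [cfc_congr (g := fun x : ℝ => x) fun x hx => by
    exact Real.mul_self_sqrt (by linarith [spec_ge hsa h1 x hx])]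
  exact cfc_id' ℝ a

lemma sqi_mul_sqi {a : A} (hsa : IsSelfAdjoint a) (h1 : 1 ≤ a) : sqi a * sqi a = iv a := by
  unfold sqi iv
  rw [← cfc_mul _ _ a (cont_sqi hsa h1) (cont_sqi hsa h1)]
  refine cfc_congr fun x hx => ?_
  rw [← mul_inv, Real.mul_self_sqrt (by linarith [spec_ge hsa h1 x hx])]

lemma iv_mul {a : A} (hsa : IsSelfAdjoint a) (h1 : 1 ≤ a) : iv a * a = 1 := by
  rw [← sqi_mul_sqi hsa h1]
  nth_rewrite 3 [← sq_mul_sq hsa h1]
  rw [mul_assoc, ← mul_assoc (sqi a) (sq a) (sq a), sqi_mul_sq hsa h1, one_mul, sqi_mul_sq hsa h1]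

lemma mul_iv {a : A} (hsa : IsSelfAdjoint a) (h1 : 1 ≤ a) : a * iv a = 1 := by
  have h := congrArg star (iv_mul hsa h1)
  rw [star_mul, star_one, (iv_sa a).star_eq, hsa.star_eq] at h
  exact h

lemma log_iv {a : A} (hsa : IsSelfAdjoint a) (h1 : 1 ≤ a) : CFC.log (iv a) = -CFC.log a := by
  unfold CFC.log iv
  have hne : ∀ x ∈ spectrum ℝ a, x ≠ 0 := fun x hx => by linarith [spec_ge hsa h1 x hx]
  rw [← cfc_comp' Real.log (fun x : ℝ => x⁻¹) a (by
    refine ContinuousOn.log continuousOn_id ?_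
    rintro y ⟨x, hx, rfl⟩
    exact inv_ne_zero (hne x hx)) (cont_iv hsa h1), ← cfc_neg]
  refine cfc_congr fun x hx => ?_
  exact Real.log_inv x

lemma iv_nonneg {a : A} (hsa : IsSelfAdjoint a) (h1 : 1 ≤ a) : 0 ≤ iv a := by
  unfold iv
  refine cfc_nonneg fun x hx => ?_
  have := spec_ge hsa h1 x hx
  positivity

lemma iv_pos {a : A} (hsa : IsSelfAdjoint a) (h1 : 1 ≤ a) : IsStrictlyPositive (iv a) :=
  ⟨iv_nonneg hsa h1, ⟨⟨iv a, a, iv_mul hsa h1, mul_iv hsa h1⟩, rfl⟩⟩

lemma conj_pos (u : unitary A) (x : A) (hx : IsStrictlyPositive x) : IsStrictlyPositive (star (u : A) * x * u) := by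
  refine ⟨star_left_conjugate_nonneg hx.nonneg _, ?_⟩
  have hu : IsUnit (u : A) := ⟨Unitary.toUnits u, rfl⟩
  have hus : IsUnit (star (u : A)) := hu.star
  exact (hus.mul hx.isUnit).mul hu

lemma log_conj (u : unitary A) (x : A) (hx : IsStrictlyPositive x) :
    CFC.log (star (u : A) * x * u) = star (u : A) * CFC.log x * u := by
  have hxs : IsSelfAdjoint x := IsSelfAdjoint.of_nonneg hx.nonneg
  have h1 := StarAlgHomClass.map_cfc (R := ℝ) (S := ℝ) (p := IsSelfAdjoint) (q := IsSelfAdjoint)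
    (Unitary.conjStarAlgAut ℝ A (star u)) Real.log x
    (ContinuousOn.log continuousOn_id fun y hy => by
      have : 0 < y := hx.spectrum_pos hy
      exact this.ne')
    (by
      have : (⇑(Unitary.conjStarAlgAut ℝ A (star u)) : A → A) = fun y => star (u : A) * y * u := by
        funext y
        exact Unitary.conjStarAlgAut_star_apply u y
      rw [this]
      fun_prop)
    hxs
    (by
      rw [Unitary.conjStarAlgAut_star_apply]
      exact IsSelfAdjoint.of_nonneg (conj_pos u x hx).nonneg)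
  rw [Unitary.conjStarAlgAut_star_apply, Unitary.conjStarAlgAut_star_apply] at h1
  exact h1.symm

/-- the main inequality -/
lemma key {a : A} (hsa : IsSelfAdjoint a) (h1 : 1 ≤ a) (u : unitary A) (c : ℝ) (hc : 1 ≤ c)
    (h : star (u : A) * iv a * u ≤ (c ^ 2) • iv a) :
    bb a - star (u : A) * bb a * u ≤ algebraMap ℝ A (Real.log c) := by
  have hc0 : 0 < c := by linarith
  have h2 := CFC.log_le_log h (conj_pos u (iv a) (iv_pos hsa h1))
  rw [log_conj u _ (iv_pos hsa h1), CFC.log_smul' (iv a) (by positivity) (iv_pos hsa h1), log_iv hsa h1,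
    Real.log_pow] at h2
  have h3 : CFC.log a - star (u : A) * CFC.log a * u ≤ algebraMap ℝ A (((2 : ℕ) : ℝ) * Real.log c) := by
    have h4 := add_le_add_right h2 (CFC.log a)
    calc CFC.log a - star (u : A) * CFC.log a * u = CFC.log a + star (u : A) * -CFC.log a * u := by
          rw [mul_neg, neg_mul, sub_eq_add_neg]
      _ ≤ CFC.log a + (algebraMap ℝ A (((2 : ℕ) : ℝ) * Real.log c) + -CFC.log a) := h4
      _ = _ := by abel
  have h5 : bb a - star (u : A) * bb a * u = (1 / 2 : ℝ) • (CFC.log a - star (u : A) * CFC.log a * u) := by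
    unfold bb
    rw [smul_sub, mul_smul_comm, smul_mul_assoc]
  have h6 : algebraMap ℝ A (Real.log c) = (1 / 2 : ℝ) • algebraMap ℝ A (((2 : ℕ) : ℝ) * Real.log c) := by
    rw [Algebra.algebraMap_eq_smul_one, Algebra.algebraMap_eq_smul_one, smul_smul]
    congr 1
    push_cast
    ring
  rw [h5, h6]
  exact smul_le_smul_of_nonneg_left h3 (by norm_num)

lemma norm_le_of_both {D : A} (hD : IsSelfAdjoint D) (r : ℝ) (hr : 0 ≤ r) (h1 : D ≤ algebraMap ℝ A r)
    (h2 : -D ≤ algebraMap ℝ A r) : ‖D‖ ≤ r := by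
  rcases subsingleton_or_nontrivial A with h | h
  · rw [Subsingleton.elim D 0, norm_zero]
    exact hr
  · rcases CStarAlgebra.norm_or_neg_norm_mem_spectrum hD with h3 | h3
    · exact (le_algebraMap_iff_spectrum_le (ha := hD)).1 h1 _ h3
    · have h4 : algebraMap ℝ A (-r) ≤ D := by
        rw [map_neg]
        exact neg_le.1 h2
      have := (algebraMap_le_iff_le_spectrum (ha := hD)).1 h4 _ h3
      linarith

lemma form1 {a : A} (hsa : IsSelfAdjoint a) (h1 : 1 ≤ a) (T : A) (hinv : star T * a * T = a) :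
    star (sq a * T * sqi a) * (sq a * T * sqi a) = 1 := by
  rw [star_mul, star_mul, (sq_sa a).star_eq, (sqi_sa a).star_eq]
  calc sqi a * (star T * sq a) * (sq a * T * sqi a) = sqi a * (star T * (sq a * sq a) * T) * sqi a := by
        simp only [mul_assoc]
    _ = sqi a * (sq a * sq a) * sqi a := by rw [sq_mul_sq hsa h1, hinv]
    _ = (sqi a * sq a) * (sq a * sqi a) := by simp only [mul_assoc]
    _ = 1 := by rw [sqi_mul_sq hsa h1, sq_mul_sqi hsa h1, one_mul]

lemma form2 {a : A} (hsa : IsSelfAdjoint a) (h1 : 1 ≤ a) (T : A) (c : ℝ) (hc : 1 ≤ c) (hT : ‖T‖ ≤ c) :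
    star (sq a * T * sqi a) * iv a * (sq a * T * sqi a) ≤ (c ^ 2) • iv a := by
  have h2 : star T * T ≤ algebraMap ℝ A (c ^ 2) := by
    refine CStarAlgebra.star_mul_le_algebraMap_norm_sq.trans ?_
    have : ‖T‖ ^ 2 ≤ c ^ 2 := pow_le_pow_left₀ (norm_nonneg _) hT 2
    exact algebraMap_mono A this
  have h3 := star_left_conjugate_le_conjugate h2 (sqi a)
  rw [(sqi_sa a).star_eq] at h3
  have e1 : star (sq a * T * sqi a) * iv a * (sq a * T * sqi a) = sqi a * (star T * T) * sqi a := by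
    rw [star_mul, star_mul, (sq_sa a).star_eq, (sqi_sa a).star_eq, ← sqi_mul_sqi hsa h1]
    calc sqi a * (star T * sq a) * (sqi a * sqi a) * (sq a * T * sqi a)
        = sqi a * (star T * (sq a * sqi a) * (sqi a * sq a) * T) * sqi a := by simp only [mul_assoc]
      _ = _ := by rw [sq_mul_sqi hsa h1, sqi_mul_sq hsa h1, mul_one, mul_one]
  have e2 : sqi a * algebraMap ℝ A (c ^ 2) * sqi a = (c ^ 2) • iv a := by
    rw [Algebra.algebraMap_eq_smul_one, mul_smul_comm, mul_one, smul_mul_assoc, sqi_mul_sqi hsa h1]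
  rw [e1, ← e2]
  exact h3

/-- the commutator estimate -/
lemma comm {a : A} (hsa : IsSelfAdjoint a) (h1 : 1 ≤ a) (T : Aˣ) (c : ℝ) (hc : 1 ≤ c) (hT : ‖(T : A)‖ ≤ c)
    (hT' : ‖((T⁻¹ : Aˣ) : A)‖ ≤ c) (hinv : star (T : A) * a * T = a) :
    sq a * T * sqi a ∈ unitary A ∧
      ‖(sq a * T * sqi a) * bb a - bb a * (sq a * T * sqi a)‖ ≤ Real.log c := by
  have hinv' : star ((T⁻¹ : Aˣ) : A) * a * ((T⁻¹ : Aˣ) : A) = a := by
    have e1 : star ((T⁻¹ : Aˣ) : A) * star (T : A) = 1 := by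
      rw [← star_mul, Units.mul_inv, star_one]
    calc star ((T⁻¹ : Aˣ) : A) * a * ((T⁻¹ : Aˣ) : A)
        = star ((T⁻¹ : Aˣ) : A) * (star (T : A) * a * T) * ((T⁻¹ : Aˣ) : A) := by rw [hinv]
      _ = (star ((T⁻¹ : Aˣ) : A) * star (T : A)) * a * (T * ((T⁻¹ : Aˣ) : A)) := by simp only [mul_assoc]
      _ = a := by rw [e1, Units.mul_inv, one_mul, mul_one]
  obtain ⟨U, hU⟩ : ∃ U : A, U = sq a * T * sqi a := ⟨_, rfl⟩
  obtain ⟨V, hV⟩ : ∃ V : A, V = sq a * ((T⁻¹ : Aˣ) : A) * sqi a := ⟨_, rfl⟩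
  have hUV : U * V = 1 := by
    rw [hU, hV]
    calc sq a * (T : A) * sqi a * (sq a * ((T⁻¹ : Aˣ) : A) * sqi a)
        = sq a * (T : A) * (sqi a * sq a) * ((T⁻¹ : Aˣ) : A) * sqi a := by simp only [mul_assoc]
      _ = sq a * ((T : A) * ((T⁻¹ : Aˣ) : A)) * sqi a := by
          rw [sqi_mul_sq hsa h1, mul_one]; simp only [mul_assoc]
      _ = 1 := by rw [Units.mul_inv, mul_one, sq_mul_sqi hsa h1]
  have hUU : star U * U = 1 := by rw [hU]; exact form1 hsa h1 T hinv
  have hVs : star U = V := by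
    calc star U = star U * (U * V) := by rw [hUV, mul_one]
      _ = (star U * U) * V := by rw [mul_assoc]
      _ = V := by rw [hUU, one_mul]
  have hUU' : U * star U = 1 := by rw [hVs, hUV]
  have hUm : U ∈ unitary A := by
    rw [Unitary.mem_iff]
    exact ⟨hUU, hUU'⟩
  have hVm : V ∈ unitary A := by
    rw [← hVs]
    exact Unitary.star_mem hUm
  have hVs' : star V = U := by rw [← hVs, star_star]
  rw [← hU]
  refine ⟨hUm, ?_⟩
  have k1 := key hsa h1 ⟨U, hUm⟩ c hc (by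
    show star U * iv a * U ≤ _
    rw [hU]
    exact form2 hsa h1 T c hc hT)
  have k2 := key hsa h1 ⟨V, hVm⟩ c hc (by
    show star V * iv a * V ≤ _
    rw [hV]
    exact form2 hsa h1 _ c hc hT')
  change bb a - star U * bb a * U ≤ _ at k1
  change bb a - star V * bb a * V ≤ _ at k2
  rw [hVs', ← hVs] at k2
  have k3 := star_left_conjugate_le_conjugate k2 U
  have e3 : star U * (bb a - U * bb a * star U) * U = -(bb a - star U * bb a * U) := by
    have : star U * (U * bb a * star U) * U = bb a := by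
      calc star U * (U * bb a * star U) * U = (star U * U) * bb a * (star U * U) := by simp only [mul_assoc]
        _ = bb a := by rw [hUU, one_mul, mul_one]
    rw [mul_sub, sub_mul, this]
    abel
  have e4 : star U * algebraMap ℝ A (Real.log c) * U = algebraMap ℝ A (Real.log c) := by
    rw [Algebra.algebraMap_eq_smul_one, mul_smul_comm, mul_one, smul_mul_assoc, hUU]
  rw [e3, e4] at k3
  have hDsa : IsSelfAdjoint (bb a - star U * bb a * U) := by
    refine (bb_sa a).sub ?_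
    rw [IsSelfAdjoint, star_mul, star_mul, star_star, (bb_sa a).star_eq, mul_assoc]
  have hD := norm_le_of_both hDsa (Real.log c) (Real.log_nonneg hc) k1 k3
  have e5 : U * bb a - bb a * U = U * (bb a - star U * bb a * U) := by
    rw [mul_sub]
    congr 1
    calc bb a * U = (U * star U) * (bb a * U) := by rw [hUU', one_mul]
      _ = _ := by simp only [mul_assoc]
  rw [e5]
  have e6 := CStarRing.norm_coe_unitary_mul (⟨U, hUm⟩ : unitary A) (bb a - star U * bb a * U)
  change ‖U * (bb a - star U * bb a * U)‖ = _ at e6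
  rw [e6]
  exact hD

lemma cont_log {a : A} (hsa : IsSelfAdjoint a) (h1 : 1 ≤ a) : ContinuousOn Real.log (spectrum ℝ a) :=
  ContinuousOn.log continuousOn_id fun x hx => by
    have h0 := spec_ge hsa h1 x hx
    exact (by linarith : (0 : ℝ) < x).ne'

lemma sq_bb_sq {a : A} (hsa : IsSelfAdjoint a) (h1 : 1 ≤ a) :
    sq a * bb a * sq a = cfc (fun x : ℝ => (1 / 2) * (x * Real.log x)) a := by
  have hl := cont_log hsa h1
  have hs : ContinuousOn Real.sqrt (spectrum ℝ a) := Real.continuous_sqrt.continuousOn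
  unfold sq bb CFC.log
  rw [mul_smul_comm, smul_mul_assoc, ← cfc_mul Real.sqrt Real.log a hs hl,
    ← cfc_mul (fun x : ℝ => Real.sqrt x * Real.log x) Real.sqrt a (hs.mul hl) hs,
    cfc_const_mul (1 / 2) (fun x : ℝ => x * Real.log x) a (continuousOn_id.mul hl)]
  congr 1
  refine cfc_congr fun x hx => ?_
  have h0 := spec_ge hsa h1 x hx
  have h2 := Real.mul_self_sqrt (by linarith : (0 : ℝ) ≤ x)
  calc Real.sqrt x * Real.log x * Real.sqrt x = (Real.sqrt x * Real.sqrt x) * Real.log x := by ring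
    _ = x * Real.log x := by rw [h2]

lemma lower {a : A} (hsa : IsSelfAdjoint a) (h1 : 1 ≤ a) (m : ℝ) (hm : a ≤ algebraMap ℝ A m) (t r : ℝ) (ht : 0 < t)
    (hr : 0 ≤ r) (htm : t * (2 * r + m) ≤ 1 / 2) :
    algebraMap ℝ A (1 - 2 * t * r) + (2 * t) • (sq a * bb a * sq a) ≤ (1 - 2 * t * r) • a := by
  have hl := cont_log hsa h1
  have hc : ContinuousOn (fun x : ℝ => (1 / 2) * (x * Real.log x)) (spectrum ℝ a) :=
    continuousOn_const.mul (continuousOn_id.mul hl)
  have e1 : algebraMap ℝ A (1 - 2 * t * r) + (2 * t) • (sq a * bb a * sq a) =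
      cfc (fun x : ℝ => (1 - 2 * t * r) + (2 * t) * ((1 / 2) * (x * Real.log x))) a := by
    rw [sq_bb_sq hsa h1, cfc_const_add (1 - 2 * t * r) (fun x : ℝ => (2 * t) * ((1 / 2) * (x * Real.log x))) a
      (continuousOn_const.mul hc), cfc_const_mul (2 * t) (fun x : ℝ => (1 / 2) * (x * Real.log x)) a hc]
  have e2 : (1 - 2 * t * r) • a = cfc (fun x : ℝ => (1 - 2 * t * r) * x) a := by
    rw [cfc_const_mul (1 - 2 * t * r) (fun x : ℝ => x) a continuousOn_id, cfc_id' ℝ a]
  rw [e1, e2]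
  refine cfc_mono (fun x hx => ?_) (continuousOn_const.add (continuousOn_const.mul hc))
    (continuousOn_const.mul continuousOn_id)
  have h0 := spec_ge hsa h1 x hx
  have hxm := (le_algebraMap_iff_spectrum_le (ha := hsa)).1 hm x hx
  have hlog : Real.log x ≤ x - 1 := by
    have := Real.log_le_sub_one_of_pos (by linarith : 0 < x)
    exact this
  have h2 : t * (2 * r + x) ≤ 1 := by nlinarith
  have h3 : t * (x * Real.log x) ≤ t * (x * (x - 1)) :=
    mul_le_mul_of_nonneg_left (mul_le_mul_of_nonneg_left hlog (by linarith)) ht.le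
  nlinarith [mul_nonneg (by linarith : (0 : ℝ) ≤ 1 - t * (2 * r + x)) (by linarith : (0 : ℝ) ≤ x - 1)]

lemma upper {a : A} (hsa : IsSelfAdjoint a) (h1 : 1 ≤ a) (m : ℝ) (hm1 : 1 < m) (hm : a ≤ algebraMap ℝ A m) (t r : ℝ)
    (ht : 0 < t) (hr : 0 ≤ r) (htm : t * (1 + Real.log m) ≤ 1) :
    (1 + 2 * t * r) • a ≤ algebraMap ℝ A (m * (1 + 2 * t * r - t * Real.log m)) +
      (2 * t) • (sq a * bb a * sq a) := by
  have hl := cont_log hsa h1
  have hc : ContinuousOn (fun x : ℝ => (1 / 2) * (x * Real.log x)) (spectrum ℝ a) :=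
    continuousOn_const.mul (continuousOn_id.mul hl)
  have e1 : algebraMap ℝ A (m * (1 + 2 * t * r - t * Real.log m)) + (2 * t) • (sq a * bb a * sq a) =
      cfc (fun x : ℝ => (m * (1 + 2 * t * r - t * Real.log m)) + (2 * t) * ((1 / 2) * (x * Real.log x))) a := by
    rw [sq_bb_sq hsa h1, cfc_const_add (m * (1 + 2 * t * r - t * Real.log m))
      (fun x : ℝ => (2 * t) * ((1 / 2) * (x * Real.log x))) a
      (continuousOn_const.mul hc), cfc_const_mul (2 * t) (fun x : ℝ => (1 / 2) * (x * Real.log x)) a hc]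
  have e2 : (1 + 2 * t * r) • a = cfc (fun x : ℝ => (1 + 2 * t * r) * x) a := by
    rw [cfc_const_mul (1 + 2 * t * r) (fun x : ℝ => x) a continuousOn_id, cfc_id' ℝ a]
  rw [e1, e2]
  refine cfc_mono (fun x hx => ?_) (continuousOn_const.mul continuousOn_id)
    (continuousOn_const.add (continuousOn_const.mul hc))
  have h0 := spec_ge hsa h1 x hx
  have hx0 : 0 < x := by linarith
  have hm0 : 0 < m := by linarith
  have hxm := (le_algebraMap_iff_spectrum_le (ha := hsa)).1 hm x hx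
  have hlog : Real.log m - Real.log x ≤ m / x - 1 := by
    rw [← Real.log_div hm0.ne' hx0.ne']
    exact Real.log_le_sub_one_of_pos (by positivity)
  have h2 : m * Real.log m - x * Real.log x ≤ (m - x) * (1 + Real.log m) := by
    have h3 : x * (Real.log m - Real.log x) ≤ x * (m / x - 1) := mul_le_mul_of_nonneg_left hlog hx0.le
    have h4 : x * (m / x - 1) = m - x := by field_simp
    nlinarith
  have h3 : t * (m * Real.log m - x * Real.log x) ≤ t * ((m - x) * (1 + Real.log m)) :=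
    mul_le_mul_of_nonneg_left h2 ht.le
  have h4 : t * ((m - x) * (1 + Real.log m)) ≤ m - x := by
    have : t * ((m - x) * (1 + Real.log m)) = (m - x) * (t * (1 + Real.log m)) := by ring
    rw [this]
    nlinarith
  have h5 : 0 ≤ t * r * (m - x) := mul_nonneg (mul_nonneg ht.le hr) (by linarith)
  nlinarith

end abs

section op

variable {H : Type} [NormedAddCommGroup H] [InnerProductSpace ℂ H] [CompleteSpace H]

lemma sa_of {A : H →L[ℂ] H} (hA : ∀ x y : H, inner ℂ (A x) y = inner ℂ x (A y)) : IsSelfAdjoint A := by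
  rw [ContinuousLinearMap.isSelfAdjoint_iff_isSymmetric]
  exact fun x y => hA x y

lemma sa_inner {A : H →L[ℂ] H} (hA : IsSelfAdjoint A) (x y : H) : inner ℂ (A x) y = inner ℂ x (A y) := by
  rw [ContinuousLinearMap.isSelfAdjoint_iff_isSymmetric] at hA
  exact hA x y

lemma re_mono {X Y : H →L[ℂ] H} (h : X ≤ Y) (x : H) : (inner ℂ (X x) x).re ≤ (inner ℂ (Y x) x).re := by
  rw [ContinuousLinearMap.le_def] at h
  have h1 := h.re_inner_nonneg_left x
  rw [ContinuousLinearMap.sub_apply, inner_sub_left, map_sub] at h1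
  have h2 : RCLike.re (inner ℂ (Y x) x) = (inner ℂ (Y x) x).re := rfl
  have h3 : RCLike.re (inner ℂ (X x) x) = (inner ℂ (X x) x).re := rfl
  linarith

lemma le_of_re {X Y : H →L[ℂ] H} (hX : IsSelfAdjoint X) (hY : IsSelfAdjoint Y)
    (h : ∀ x, (inner ℂ (X x) x).re ≤ (inner ℂ (Y x) x).re) : X ≤ Y := by
  rw [ContinuousLinearMap.le_def, ContinuousLinearMap.isPositive_def']
  refine ⟨hY.sub hX, fun x => ?_⟩
  rw [ContinuousLinearMap.reApplyInnerSelf_apply, ContinuousLinearMap.sub_apply, inner_sub_left, map_sub]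
  exact sub_nonneg.2 (h x)

lemma re_smul' (r : ℝ) (y x : H) : (inner ℂ (r • y) x).re = r * (inner ℂ y x).re := by
  have h : (r • y : H) = ((r : ℝ) : ℂ) • y := (Complex.coe_smul r y).symm
  rw [h, inner_smul_left, Complex.conj_ofReal, Complex.re_ofReal_mul]

lemma re_self (x : H) : (inner ℂ x x).re = ‖x‖ ^ 2 := by
  have := inner_self_eq_norm_sq (𝕜 := ℂ) x
  exact this

lemma re_algebraMap (r : ℝ) (x : H) : (inner ℂ ((algebraMap ℝ (H →L[ℂ] H) r) x) x).re = r * ‖x‖ ^ 2 := by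
  rw [Algebra.algebraMap_eq_smul_one]
  change (inner ℂ (r • x) x).re = _
  rw [re_smul', re_self]

lemma re_smulop (r : ℝ) (X : H →L[ℂ] H) (x : H) : (inner ℂ ((r • X) x) x).re = r * (inner ℂ (X x) x).re := by
  change (inner ℂ (r • (X x)) x).re = _
  rw [re_smul']

lemma re_addop (X Y : H →L[ℂ] H) (x : H) :
    (inner ℂ ((X + Y) x) x).re = (inner ℂ (X x) x).re + (inner ℂ (Y x) x).re := by
  change (inner ℂ (X x + Y x) x).re = _
  rw [inner_add_left, Complex.add_re]

end op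

/-- **Descent**: improving an invariant operator by a commuting one. -/
theorem descent {H : Type} [NormedAddCommGroup H] [InnerProductSpace ℂ H] [CompleteSpace H]
    (A : H →L[ℂ] H) (m : ℝ) (hm : 1 < m) (hA : ∀ x y : H, inner ℂ (A x) y = inner ℂ x (A y))
    (h1 : ∀ x : H, 1 * ‖x‖ ^ 2 ≤ (inner ℂ (A x) x).re)
    (h2 : ∀ x : H, (inner ℂ (A x) x).re ≤ m * ‖x‖ ^ 2) :
    ∃ (R : (H →L[ℂ] H)ˣ) (B : H →L[ℂ] H),
      (∀ x y : H, inner ℂ ((R : H →L[ℂ] H) x) y = inner ℂ x ((R : H →L[ℂ] H) y)) ∧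
      (∀ x y : H, inner ℂ (B x) y = inner ℂ x (B y)) ∧
      (∀ (T : (H →L[ℂ] H)ˣ) (c : ℝ), 1 ≤ c → ‖(T : H →L[ℂ] H)‖ ≤ c →
        ‖((T⁻¹ : (H →L[ℂ] H)ˣ) : H →L[ℂ] H)‖ ≤ c →
        (∀ x y : H, inner ℂ (A ((T : H →L[ℂ] H) x)) ((T : H →L[ℂ] H) y) = inner ℂ (A x) y) →
        ((R * T * R⁻¹ : (H →L[ℂ] H)ˣ) : H →L[ℂ] H) ∈ unitary (H →L[ℂ] H) ∧
        ‖((R * T * R⁻¹ : (H →L[ℂ] H)ˣ) : H →L[ℂ] H) * B -
          B * ((R * T * R⁻¹ : (H →L[ℂ] H)ˣ) : H →L[ℂ] H)‖ ≤ Real.log c) ∧
      ∀ C : H →L[ℂ] H, (∀ x y : H, inner ℂ (C x) y = inner ℂ x (C y)) →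
        4 * ‖B - C‖ < Real.log m → ∃ α β m' : ℝ, m' < m ∧ ∀ x : H,
          ‖x‖ ^ 2 ≤ (inner ℂ ((((α : ℝ) : ℂ) • (1 : H →L[ℂ] H) + ((β : ℝ) : ℂ) • C)
            ((R : H →L[ℂ] H) x)) ((R : H →L[ℂ] H) x)).re ∧
          (inner ℂ ((((α : ℝ) : ℂ) • (1 : H →L[ℂ] H) + ((β : ℝ) : ℂ) • C)
            ((R : H →L[ℂ] H) x)) ((R : H →L[ℂ] H) x)).re ≤ m' * ‖x‖ ^ 2 := by
  have hsa : IsSelfAdjoint A := sa_of hA
  have hA1 : 1 ≤ A := by
    refine le_of_re (IsSelfAdjoint.one _) hsa fun x => ?_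
    have := h1 x
    change (inner ℂ x x).re ≤ _
    rw [re_self]
    linarith
  have hAm : A ≤ algebraMap ℝ (H →L[ℂ] H) m := by
    refine le_of_re hsa (IsSelfAdjoint.algebraMap _ (IsSelfAdjoint.all m)) fun x => ?_
    rw [re_algebraMap]
    exact h2 x
  refine ⟨⟨sq A, sqi A, sq_mul_sqi hsa hA1, sqi_mul_sq hsa hA1⟩, bb A, sa_inner (sq_sa A), sa_inner (bb_sa A), ?_, ?_⟩
  · intro T c hc hT hT' hinv
    have hinv' : star (T : H →L[ℂ] H) * A * T = A := by
      ext x
      refine ext_inner_right ℂ fun y => ?_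
      have := hinv x y
      rw [← this]
      exact ContinuousLinearMap.adjoint_inner_left (T : H →L[ℂ] H) y (A ((T : H →L[ℂ] H) x))
    exact comm hsa hA1 T c hc hT hT' hinv'
  · intro C hC hlt
    obtain ⟨r, hr⟩ : ∃ r : ℝ, r = ‖bb A - C‖ := ⟨_, rfl⟩
    have hr0 : 0 ≤ r := by rw [hr]; exact norm_nonneg _
    have hlm : 0 < Real.log m := Real.log_pos hm
    rw [← hr] at hlt
    obtain ⟨t, ht, ht1, ht2⟩ : ∃ t : ℝ, 0 < t ∧ t * (2 * r + m) ≤ 1 / 2 ∧ t * (1 + Real.log m) ≤ 1 := by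
      have e1 : 0 < 2 * r + m := by linarith
      have e2 : 0 < 1 + Real.log m := by linarith
      refine ⟨min (1 / (2 * (2 * r + m))) (1 / (1 + Real.log m)), by positivity, ?_, ?_⟩
      · calc min (1 / (2 * (2 * r + m))) (1 / (1 + Real.log m)) * (2 * r + m)
            ≤ 1 / (2 * (2 * r + m)) * (2 * r + m) :=
              mul_le_mul_of_nonneg_right (min_le_left _ _) e1.le
          _ = 1 / 2 := by field_simp
      · calc min (1 / (2 * (2 * r + m))) (1 / (1 + Real.log m)) * (1 + Real.log m)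
            ≤ 1 / (1 + Real.log m) * (1 + Real.log m) :=
              mul_le_mul_of_nonneg_right (min_le_right _ _) e2.le
          _ = 1 := by field_simp
    have hd : 0 < 1 - 2 * t * r := by nlinarith [mul_pos ht (by linarith : (0 : ℝ) < m)]
    have hL := lower hsa hA1 m hAm t r ht hr0 ht1
    have hU := upper hsa hA1 m hm hAm t r ht hr0 ht2
    refine ⟨1 / (1 - 2 * t * r), -(2 * t) / (1 - 2 * t * r),
      m * (1 + 2 * t * r - t * Real.log m) / (1 - 2 * t * r), ?_, fun x => ?_⟩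
    · rw [div_lt_iff₀ hd]
      have : t * (4 * r) < t * Real.log m := mul_lt_mul_of_pos_left hlt ht
      nlinarith
    · obtain ⟨y, hy⟩ : ∃ y : H, y = sq A x := ⟨_, rfl⟩
      have hyn : ‖y‖ ^ 2 = (inner ℂ (A x) x).re := by
        rw [← re_self, hy]
        have e1 : inner ℂ (sq A x) (sq A x) = inner ℂ (sq A (sq A x)) x :=
          (sa_inner (sq_sa A) (sq A x) x).symm
        have e2 : sq A (sq A x) = A x := by
          have := congrArg (fun f : H →L[ℂ] H => f x) (sq_mul_sq hsa hA1)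
          exact this
        rw [e1, e2]
      have hyB : (inner ℂ (bb A y) y).re = (inner ℂ ((sq A * bb A * sq A) x) x).re := by
        rw [hy]
        have e1 : inner ℂ (bb A (sq A x)) (sq A x) = inner ℂ (sq A (bb A (sq A x))) x :=
          (sa_inner (sq_sa A) (bb A (sq A x)) x).symm
        rw [e1]
        rfl
      have hdiff : |(inner ℂ ((bb A - C) y) y).re| ≤ r * ‖y‖ ^ 2 := by
        refine (Complex.abs_re_le_norm _).trans ((norm_inner_le_norm _ _).trans ?_)
        have := (bb A - C).le_opNorm y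
        rw [hr, pow_two, ← mul_assoc]
        exact mul_le_mul_of_nonneg_right this (norm_nonneg _)
      have hsub : (inner ℂ ((bb A - C) y) y).re = (inner ℂ (bb A y) y).re - (inner ℂ (C y) y).re := by
        change (inner ℂ (bb A y - C y) y).re = _
        rw [inner_sub_left, Complex.sub_re]
      rw [hsub] at hdiff
      have hform : (inner ℂ ((((1 / (1 - 2 * t * r) : ℝ) : ℂ) • (1 : H →L[ℂ] H) +
          ((-(2 * t) / (1 - 2 * t * r) : ℝ) : ℂ) • C) y) y).re =
          (‖y‖ ^ 2 - 2 * t * (inner ℂ (C y) y).re) / (1 - 2 * t * r) := by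
        change (inner ℂ (((1 / (1 - 2 * t * r) : ℝ) : ℂ) • y + ((-(2 * t) / (1 - 2 * t * r) : ℝ) : ℂ) • (C y)) y).re = _
        rw [inner_add_left, Complex.add_re, inner_smul_left, inner_smul_left, Complex.conj_ofReal,
          Complex.conj_ofReal, Complex.re_ofReal_mul, Complex.re_ofReal_mul, re_self]
        field_simp
        ring
      have hL' := re_mono hL x
      have hU' := re_mono hU x
      rw [re_addop, re_algebraMap, re_smulop, re_smulop] at hL' hU'
      rw [← hyB] at hL' hU'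
      rw [← hyn] at hL' hU'
      change ‖x‖ ^ 2 ≤ (inner ℂ ((((1 / (1 - 2 * t * r) : ℝ) : ℂ) • (1 : H →L[ℂ] H) +
          ((-(2 * t) / (1 - 2 * t * r) : ℝ) : ℂ) • C) (sq A x)) (sq A x)).re ∧
          (inner ℂ ((((1 / (1 - 2 * t * r) : ℝ) : ℂ) • (1 : H →L[ℂ] H) +
          ((-(2 * t) / (1 - 2 * t * r) : ℝ) : ℂ) • C) (sq A x)) (sq A x)).re ≤ _
      rw [← hy, hform]
      have hd1 := abs_le.1 hdiff
      constructor
      · rw [le_div_iff₀ hd]
        nlinarith [mul_le_mul_of_nonneg_left hd1.1 ht.le, mul_le_mul_of_nonneg_left hd1.2 ht.le]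
      · rw [div_mul_eq_mul_div]
        refine div_le_div_of_nonneg_right ?_ hd.le
        nlinarith [mul_le_mul_of_nonneg_left hd1.1 ht.le, mul_le_mul_of_nonneg_left hd1.2 ht.le]

end Pool.Agent.TH278.DX.J4632
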