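import Mathlib
import Pool.Agent.TH949.TX.Defs

set_option autoImplicit false

open Complex MeasureTheory Set Filter Topology
open Pool.Agent.W189.TP (DS)

namespace Pool.Agent.TH858.J3045

open Pool.Agent.TH949.TX

theorem order_ne_top {G : ℂ → ℂ} (hG : Differentiable ℂ G) (hG0 : ∃ z, G z ≠ 0) (z : ℂ) :
    analyticOrderAt G z ≠ ⊤ := by
  intro h
  rw [analyticOrderAt_eq_top] at h
  obtain ⟨w, hw⟩ := hG0
  apply hw
  have h1 : AnalyticOnNhd ℂ G univ := fun x _ => hG.analyticAt x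
  have h2 : AnalyticOnNhd ℂ (fun _ : ℂ => (0 : ℂ)) univ := fun x _ => analyticAt_const
  have h3 := AnalyticOnNhd.eq_of_eventuallyEq h1 h2 (z₀ := z) h
  exact congrFun h3 w

theorem t_quot {G V : ℂ → ℂ} (hG : Differentiable ℂ G) (hV : Differentiable ℂ V) (hV0 : ∃ z, V z ≠ 0)
    (hG0 : ∃ z, G z ≠ 0) :
    ∃ F : ℂ → ℂ, MeromorphicOn F univ ∧
      (∀ z, V z ≠ 0 → F z = G z / V z ∧ DifferentiableAt ℂ F z) ∧
      (∀ z, meromorphicOrderAt F z = 0 ↔ analyticOrderAt G z = analyticOrderAt V z) ∧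
      ∀ z, meromorphicOrderAt F z = 0 → DifferentiableAt ℂ F z ∧ F z ≠ 0 ∧ G z = V z * F z := by
  have hGa : ∀ z, AnalyticAt ℂ G z := fun z => hG.analyticAt z
  have hVa : ∀ z, AnalyticAt ℂ V z := fun z => hV.analyticAt z
  have hf : MeromorphicOn (G / V) univ := fun z _ =>
    (hGa z).meromorphicAt.div (hVa z).meromorphicAt
  set F := toMeromorphicNFOn (G / V) univ with hF
  have hNF : MeromorphicNFOn F univ := meromorphicNFOn_toMeromorphicNFOn (G / V) univ
  have hord : ∀ z, meromorphicOrderAt F z = meromorphicOrderAt (G / V) z := fun z =>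
    meromorphicOrderAt_toMeromorphicNFOn hf (mem_univ z)
  have hdiv : ∀ z, meromorphicOrderAt (G / V) z =
      meromorphicOrderAt G z - meromorphicOrderAt V z := fun z =>
    meromorphicOrderAt_div (hGa z).meromorphicAt (hVa z).meromorphicAt
  refine ⟨F, hNF.meromorphicOn, ?_, ?_, ?_⟩
  · intro z hz
    have han : AnalyticAt ℂ (G / V) z := (hGa z).div (hVa z) hz
    have h1 : toMeromorphicNFAt (G / V) z = G / V :=
      toMeromorphicNFAt_eq_self.2 han.meromorphicNFAt
    have h2 : F =ᶠ[𝓝 z] G / V := by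
      have := toMeromorphicNFOn_eq_toMeromorphicNFAt_on_nhds hf (mem_univ z)
      rwa [h1] at this
    refine ⟨h2.eq_of_nhds, ?_⟩
    exact (han.congr h2.symm).differentiableAt
  · intro z
    rw [hord, hdiv, (hGa z).meromorphicOrderAt_eq, (hVa z).meromorphicOrderAt_eq]
    obtain ⟨n, hn⟩ := ENat.ne_top_iff_exists.mp (order_ne_top hG hG0 z)
    obtain ⟨m, hm⟩ := ENat.ne_top_iff_exists.mp (order_ne_top hV hV0 z)
    rw [← hn, ← hm, ENat.map_natCast, ENat.map_natCast]
    have h0 : (((n : ℤ) : WithTop ℤ) - ((m : ℤ) : WithTop ℤ)) = (((n : ℤ) - (m : ℤ) : ℤ) : WithTop ℤ) :=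
      rfl
    rw [h0]
    constructor
    · intro h
      have h1 : ((n : ℤ) - (m : ℤ) : ℤ) = 0 := by exact_mod_cast h
      have h2 : n = m := by omega
      rw [h2]
    · intro h
      have h2 : n = m := by exact_mod_cast h
      rw [h2, sub_self]
      rfl
  · intro z hz
    have hnz := hNF (mem_univ z)
    have han : AnalyticAt ℂ F z := hnz.meromorphicOrderAt_nonneg_iff_analyticAt.1 (le_of_eq hz.symm)
    refine ⟨han.differentiableAt, hnz.meromorphicOrderAt_eq_zero_iff.1 hz, ?_⟩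
    have h1 : F =ᶠ[𝓝[≠] z] G / V := hf.toMeromorphicNFOn_eq_self_on_nhdsNE (mem_univ z)
    have h2 : ∀ᶠ w in 𝓝[≠] z, V w ≠ 0 := by
      rcases (hVa z).eventually_eq_zero_or_eventually_ne_zero with h | h
      · exact absurd (analyticOrderAt_eq_top.2 h) (order_ne_top hV hV0 z)
      · exact h
    have h3 : G =ᶠ[𝓝[≠] z] (V * F) := by
      filter_upwards [h1, h2] with w hw1 hw2
      rw [Pi.mul_apply, hw1, Pi.div_apply, mul_div_cancel₀ _ hw2]
    have h4 : G =ᶠ[𝓝 z] (V * F) :=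
      (AnalyticAt.frequently_eq_iff_eventually_eq (hGa z) ((hVa z).mul han)).1
        (Filter.Eventually.frequently h3)
    exact h4.eq_of_nhds

end Pool.Agent.TH858.J3045
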