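import Pool.Agent.TH605.AP.WF

set_option autoImplicit false

open Set Topology Filter

namespace Pool.Agent.TH858.J2846

open Pool.Agent.TH605.AP

theorem xi_eq : (xi : ℝ) ^ 2 + 2 * xi - 1 = 0 := by
  unfold xi
  have h := Real.sq_sqrt (show (0 : ℝ) ≤ 2 by norm_num)
  nlinarith

theorem xi_pos : 0 < xi := by
  unfold xi
  have h := Real.lt_sqrt (show (0 : ℝ) ≤ 1 by norm_num) (y := 2)
  have h2 : (1 : ℝ) < Real.sqrt 2 := h.mpr (by norm_num)
  linarith

theorem xi_eqC : ((xi : ℝ) : ℂ) ^ 2 + 2 * (xi : ℂ) - 1 = 0 := by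
  exact_mod_cast xi_eq

theorem lam_gt : 1 < lam := by
  unfold lam
  nlinarith [xi_pos]

theorem fx_infty : fx (OnePoint.infty : OnePoint ℂ) = 0 := rfl

theorem fx_coe (z : ℂ) : fx (z : OnePoint ℂ) = (1 / (z - (xi : ℂ))).im := rfl

theorem fx_xi : fx ((xi : ℂ) : OnePoint ℂ) = 0 := by
  rw [fx_coe]; simp

theorem fx_eq_zero (z : OnePoint ℂ) : fx z = 0 ↔ z ∈ RL := by
  induction z using OnePoint.rec with
  | infty => simp [fx_infty, RL]
  | coe z =>
    rw [fx_coe]
    have h1 : ((z : OnePoint ℂ) ∈ RL) ↔ z.im = 0 := by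
      unfold RL
      rw [Set.mem_insert_iff]
      constructor
      · rintro (h | ⟨x, hx⟩)
        · exact absurd h (OnePoint.coe_ne_infty z)
        · have : ((x : ℂ)) = z := by
            exact OnePoint.coe_injective hx
          rw [← this]; simp
      · intro h
        right
        refine ⟨z.re, ?_⟩
        have : ((z.re : ℝ) : ℂ) = z := by
          apply Complex.ext <;> simp [h]
        show ((((z.re : ℝ) : ℂ)) : OnePoint ℂ) = _
        rw [this]
    rw [h1, one_div, Complex.inv_im]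
    constructor
    · intro h
      rw [div_eq_zero_iff] at h
      rcases h with h | h
      · have : (z - (xi : ℂ)).im = z.im := by simp
        rw [this] at h; linarith
      · have h2 := Complex.normSq_eq_zero.mp h
        have : z = (xi : ℂ) := sub_eq_zero.mp h2
        rw [this]; simp
    · intro h
      have : (z - (xi : ℂ)).im = z.im := by simp
      rw [this, h]; simp

theorem uu_00 (t : ℝ) : (uu t) 0 0 = 1 + Complex.I * t * xi := by
  simp [uu, Matrix.GeneralLinearGroup.mkOfDetNeZero]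

theorem uu_01 (t : ℝ) : (uu t) 0 1 = -(Complex.I * t * xi ^ 2) := by
  simp [uu, Matrix.GeneralLinearGroup.mkOfDetNeZero]

theorem uu_10 (t : ℝ) : (uu t) 1 0 = Complex.I * t := by
  simp [uu, Matrix.GeneralLinearGroup.mkOfDetNeZero]

theorem uu_11 (t : ℝ) : (uu t) 1 1 = 1 - Complex.I * t * xi := by
  simp [uu, Matrix.GeneralLinearGroup.mkOfDetNeZero]

theorem uu_smul_xi (t : ℝ) : uu t • ((xi : ℂ) : OnePoint ℂ) = ((xi : ℂ) : OnePoint ℂ) := by
  rw [OnePoint.smul_some_eq_ite, uu_00, uu_01, uu_10, uu_11]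
  have h : Complex.I * t * (xi : ℂ) + (1 - Complex.I * t * xi) = 1 := by ring
  rw [h, if_neg one_ne_zero]
  congr 1
  ring

theorem fx_uu (t : ℝ) (z : OnePoint ℂ) (hz : z ≠ ((xi : ℂ) : OnePoint ℂ)) :
    fx (uu t • z) = fx z + t := by
  induction z using OnePoint.rec with
  | infty =>
    rw [OnePoint.smul_infty_eq_ite, uu_00, uu_10]
    by_cases ht : t = 0
    · subst ht
      simp [fx_infty]
    · have htc : Complex.I * (t : ℂ) ≠ 0 := by
        simp [ht]
      rw [if_neg htc, fx_coe, fx_infty]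
      have : (1 + Complex.I * t * xi) / (Complex.I * t) - (xi : ℂ) = 1 / (Complex.I * t) := by
        rw [add_div, mul_div_cancel_left₀ _ htc]
        ring
      rw [this, one_div_one_div]
      simp
  | coe z =>
    have hz' : z - (xi : ℂ) ≠ 0 := by
      intro h
      apply hz
      rw [sub_eq_zero.mp h]
    rw [OnePoint.smul_some_eq_ite, uu_00, uu_01, uu_10, uu_11]
    split_ifs with h
    · rw [fx_infty, fx_coe]
      have h1 : 1 / (z - (xi : ℂ)) = -(Complex.I * t) := by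
        rw [div_eq_iff hz']
        linear_combination h
      rw [h1]
      simp
    · rw [fx_coe, fx_coe]
      have h2 : 1 + Complex.I * t * (z - xi) ≠ 0 := by
        intro h3; apply h; linear_combination h3
      have h1 : ((1 + Complex.I * t * xi) * z + -(Complex.I * t * xi ^ 2)) /
          (Complex.I * t * z + (1 - Complex.I * t * xi)) - (xi : ℂ) =
          (z - xi) / (1 + Complex.I * t * (z - xi)) := by
        rw [eq_div_iff h2, sub_mul, div_mul_eq_mul_div, sub_eq_iff_eq_add, div_eq_iff h]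
        ring
      rw [h1, one_div_div]
      have h3 : (1 + Complex.I * t * (z - xi)) / (z - xi) = 1 / (z - (xi : ℂ)) + Complex.I * t := by
        field_simp
      rw [h3]
      simp

theorem gen_none_mat : (gen none : Matrix (Fin 2) (Fin 2) ℂ) = !![-1, -2; -2, -5] := by
  unfold gen
  ext i j
  fin_cases i <;> fin_cases j <;>
    simp [pw, mw, mW, M, cjG, Matrix.mul_apply, Fin.sum_univ_two,
      Matrix.GeneralLinearGroup.mkOfDetNeZero, Matrix.GeneralLinearGroup.map] <;> norm_num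

theorem g00 : (gen none) 0 0 = -1 := by
  have := congrFun (congrFun gen_none_mat 0) 0
  simpa using this

theorem g01 : (gen none) 0 1 = -2 := by
  have := congrFun (congrFun gen_none_mat 0) 1
  simpa using this

theorem g10 : (gen none) 1 0 = -2 := by
  have := congrFun (congrFun gen_none_mat 1) 0
  simpa using this

theorem g11 : (gen none) 1 1 = -5 := by
  have := congrFun (congrFun gen_none_mat 1) 1
  simpa using this

theorem lamC : (lam : ℂ) = (2 * (xi : ℂ) + 5) ^ 2 := by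
  unfold lam
  push_cast
  ring

theorem two_xi_ne : (2 * (xi : ℂ) + 5) ≠ 0 := by
  have h : (2 * xi + 5 : ℝ) ≠ 0 := by
    have := xi_pos
    positivity
  exact_mod_cast h

theorem gen_xi : gen none • ((xi : ℂ) : OnePoint ℂ) = ((xi : ℂ) : OnePoint ℂ) := by
  rw [OnePoint.smul_some_eq_ite, g00, g01, g10, g11]
  have h : (-2 * (xi : ℂ) + -5) ≠ 0 := by
    intro h
    apply two_xi_ne
    linear_combination -h
  rw [if_neg h]
  congr 1
  rw [div_eq_iff h]
  linear_combination 2 * xi_eqC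

theorem fx_gen (z : OnePoint ℂ) : fx (gen none • z) = lam * fx z := by
  induction z using OnePoint.rec with
  | infty =>
    rw [OnePoint.smul_infty_eq_ite, g00, g10]
    have h2 : (-2 : ℂ) ≠ 0 := by norm_num
    rw [if_neg h2, fx_coe, fx_infty]
    have : (-1 : ℂ) / -2 - (xi : ℂ) = ((1 / 2 - xi : ℝ) : ℂ) := by
      push_cast
      ring
    rw [this, one_div, ← Complex.ofReal_inv, Complex.ofReal_im]
    ring
  | coe z =>
    by_cases hz : z = (xi : ℂ)
    · rw [hz, gen_xi, fx_xi]; ring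
    have hz' : z - (xi : ℂ) ≠ 0 := sub_ne_zero.mpr hz
    have key : ((-1) * z + (-2)) - (xi : ℂ) * ((-2) * z + (-5)) = (2 * (xi : ℂ) - 1) * (z - xi) := by
      linear_combination (2 : ℂ) * xi_eqC
    have hinv : (2 * (xi : ℂ) - 1) * (2 * (xi : ℂ) + 5) = -1 := by
      linear_combination (4 : ℂ) * xi_eqC
    have hxn : (2 * (xi : ℂ) - 1) ≠ 0 := by
      intro h
      rw [h] at hinv
      simp at hinv
    rw [OnePoint.smul_some_eq_ite, g00, g01, g10, g11]
    have hmain : ((-2) * z + (-5)) / ((2 * (xi : ℂ) - 1) * (z - xi)) =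
        (lam : ℂ) * (1 / (z - xi)) + (2 * (2 * (xi : ℂ) + 5)) := by
      rw [lamC, div_eq_iff (mul_ne_zero hxn hz')]
      have : ((2 * (xi : ℂ) + 5) ^ 2 * (1 / (z - xi)) + 2 * (2 * (xi : ℂ) + 5)) *
          ((2 * (xi : ℂ) - 1) * (z - xi)) = ((2 * (xi : ℂ) - 1) * (2 * (xi : ℂ) + 5)) *
          ((2 * (xi : ℂ) + 5) * ((z - xi) * (1 / (z - xi))) + 2 * (z - xi)) := by ring
      rw [this, hinv, mul_one_div_cancel hz']
      ring
    have him : ((lam : ℂ) * (1 / (z - xi)) + (2 * (2 * (xi : ℂ) + 5))).im =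
        lam * (1 / (z - (xi : ℂ))).im := by
      have h5 : (2 * (2 * (xi : ℂ) + 5)) = ((2 * (2 * xi + 5) : ℝ) : ℂ) := by push_cast; ring
      rw [h5, Complex.add_im, Complex.ofReal_im, Complex.im_ofReal_mul]
      ring
    split_ifs with h
    · rw [fx_infty, fx_coe, ← him, ← hmain, h]
      simp
    · rw [fx_coe, fx_coe, ← him, ← hmain]
      have h7 : (-1 * z + -2) / (-2 * z + -5) - (xi : ℂ) =
          ((2 * (xi : ℂ) - 1) * (z - xi)) / (-2 * z + -5) := by
        rw [eq_div_iff h, sub_mul, div_mul_cancel₀ _ h]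
        exact key
      rw [h7, one_div_div]

theorem mem_smul_image (g : Matrix.GeneralLinearGroup (Fin 2) ℂ) (S : Set (OnePoint ℂ))
    (y : OnePoint ℂ) : y ∈ (fun w : OnePoint ℂ => g • w) '' S ↔ g⁻¹ • y ∈ S := by
  constructor
  · rintro ⟨w, hw, rfl⟩
    show g⁻¹ • (g • w) ∈ S
    rwa [inv_smul_smul]
  · intro h
    exact ⟨g⁻¹ • y, h, smul_inv_smul g y⟩

theorem fx_uu_inv (t : ℝ) (y : OnePoint ℂ) (hy : y ≠ ((xi : ℂ) : OnePoint ℂ)) :
    fx ((uu t)⁻¹ • y) = fx y - t := by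
  have h1 : (uu t)⁻¹ • y ≠ ((xi : ℂ) : OnePoint ℂ) := by
    intro h
    apply hy
    rw [inv_smul_eq_iff] at h
    rw [h, uu_smul_xi]
  have h2 := fx_uu t _ h1
  rw [smul_inv_smul] at h2
  linarith

theorem uu_RL (t : ℝ) : (fun w : OnePoint ℂ => uu t • w) '' RL =
    insert ((xi : ℂ) : OnePoint ℂ) {z | fx z = t} := by
  ext y
  rw [mem_smul_image, Set.mem_insert_iff, ← fx_eq_zero, Set.mem_setOf_eq]
  by_cases hy : y = ((xi : ℂ) : OnePoint ℂ)
  · have : (uu t)⁻¹ • y = ((xi : ℂ) : OnePoint ℂ) := by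
      rw [inv_smul_eq_iff, uu_smul_xi, hy]
    rw [this, fx_xi]
    simp [hy]
  · rw [fx_uu_inv t y hy]
    simp only [hy, false_or]
    exact sub_eq_zero

theorem lam_ne : lam ≠ 0 := by
  have := lam_gt
  positivity

theorem fx_gen_inv (z : OnePoint ℂ) : fx ((gen none)⁻¹ • z) = lam⁻¹ * fx z := by
  have h := fx_gen ((gen none)⁻¹ • z)
  rw [smul_inv_smul] at h
  rw [h, ← mul_assoc, inv_mul_cancel₀ lam_ne, one_mul]

theorem fx_zpow (n : ℤ) (z : OnePoint ℂ) : fx ((gen none ^ n) • z) = lam ^ n * fx z := by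
  induction n using Int.induction_on with
  | zero => simp
  | succ n ih =>
    rw [add_comm, zpow_add, mul_smul, zpow_one, fx_gen, ih, zpow_add₀ lam_ne, zpow_one]
    ring
  | pred n ih =>
    rw [sub_eq_add_neg, add_comm, zpow_add, mul_smul, zpow_neg_one, fx_gen_inv, ih,
      zpow_add₀ lam_ne, zpow_neg_one]
    ring

theorem zpow_xi (n : ℤ) : (gen none ^ n) • ((xi : ℂ) : OnePoint ℂ) = ((xi : ℂ) : OnePoint ℂ) := by
  have hinv : (gen none)⁻¹ • ((xi : ℂ) : OnePoint ℂ) = ((xi : ℂ) : OnePoint ℂ) := by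
    rw [inv_smul_eq_iff, gen_xi]
  induction n using Int.induction_on with
  | zero => simp
  | succ n ih => rw [add_comm, zpow_add, mul_smul, zpow_one, ih, gen_xi]
  | pred n ih => rw [sub_eq_add_neg, add_comm, zpow_add, mul_smul, zpow_neg_one, ih, hinv]

theorem zpow_eq_xi (n : ℤ) (z : OnePoint ℂ) : (gen none ^ n) • z = ((xi : ℂ) : OnePoint ℂ) ↔
    z = ((xi : ℂ) : OnePoint ℂ) := by
  constructor
  · intro h
    have h1 := congrArg (fun w => (gen none ^ n)⁻¹ • w) h
    simp only [inv_smul_smul] at h1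
    rw [h1, ← zpow_neg, zpow_xi]
  · rintro rfl
    exact zpow_xi n

theorem gen_zpow_CC (n : ℤ) : (fun w : OnePoint ℂ => (gen none ^ n) • w) '' CC =
    insert ((xi : ℂ) : OnePoint ℂ) {z | fx z = lam ^ n} := by
  ext y
  rw [mem_smul_image, ← zpow_neg]
  unfold CC
  rw [uu_RL, Set.mem_insert_iff, Set.mem_insert_iff, zpow_eq_xi, Set.mem_setOf_eq,
    Set.mem_setOf_eq, fx_zpow, zpow_neg]
  have hn : lam ^ n ≠ 0 := zpow_ne_zero n lam_ne
  rw [inv_mul_eq_iff_eq_mul₀ hn, mul_one]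

theorem gen_KK (n : ℤ) (z : OnePoint ℂ) : (gen none ^ n) • z ∈ KK ↔ z ∈ KK := by
  unfold KK
  rw [Set.mem_union, Set.mem_union, ← fx_eq_zero, ← fx_eq_zero, Set.mem_setOf_eq,
    Set.mem_setOf_eq, fx_zpow]
  have hn : lam ^ n ≠ 0 := zpow_ne_zero n lam_ne
  constructor
  · rintro (h | ⟨m, hm⟩)
    · left
      rcases mul_eq_zero.mp h with h | h
      · exact absurd h hn
      · exact h
    · right
      refine ⟨m - n, ?_⟩
      rw [zpow_sub₀ lam_ne, ← hm]
      field_simp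
  · rintro (h | ⟨m, hm⟩)
    · left; rw [h, mul_zero]
    · right
      refine ⟨n + m, ?_⟩
      rw [zpow_add₀ lam_ne, hm]

theorem kf1 (B : BF) (M : MF) :
    (∀ z : OnePoint ℂ, fx z = 0 ↔ z ∈ RL) ∧
    (∀ (t : ℝ) (z : OnePoint ℂ), z ≠ ((xi : ℂ) : OnePoint ℂ) → fx (uu t • z) = fx z + t) ∧
    (∀ t : ℝ, uu t • ((xi : ℂ) : OnePoint ℂ) = ((xi : ℂ) : OnePoint ℂ)) ∧
    (∀ z : OnePoint ℂ, fx (gen none • z) = lam * fx z) ∧
    (gen none • ((xi : ℂ) : OnePoint ℂ) = ((xi : ℂ) : OnePoint ℂ)) ∧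
    (∀ t : ℝ, t ≠ 0 →
      (fun w : OnePoint ℂ => uu t • w) '' RL = insert ((xi : ℂ) : OnePoint ℂ) {z | fx z = t}) ∧
    (∀ n : ℤ, (fun w : OnePoint ℂ => (gen none ^ n) • w) '' CC =
      insert ((xi : ℂ) : OnePoint ℂ) {z | fx z = lam ^ n}) ∧
    (∀ (n : ℤ) (z : OnePoint ℂ), (gen none ^ n) • z ∈ KK ↔ z ∈ KK) ∧ 1 < lam :=
  ⟨fx_eq_zero, fx_uu, uu_smul_xi, fx_gen, gen_xi, fun t _ => uu_RL t, gen_zpow_CC, gen_KK, lam_gt⟩

end Pool.Agent.TH858.J2846
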