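import Pool.Agent.TH858.ED3

/-! Sweepable implies polynomial growth. -/

set_option autoImplicit false

namespace Pool.Agent.TH719.ED.H858

open scoped Pointwise

variable {G : Type} [Group G] {α : Type}

theorem Node_update (e : α → List G) (p : G) (R N : ℕ) (lam : ℕ → α) (j k a : ℕ) (s0 : α)
    (h : Node e p R N (Function.update lam j s0) j k a) : Node e p R N lam j k a := by
  obtain ⟨pre, post, h1, h2⟩ := h
  refine ⟨pre, post, h1, fun s => ?_⟩
  have h3 := h2 s
  rw [Function.update_idem] at h3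
  have h4 : W e p R k (Function.update lam j s0) (j + 1) = W e p R k lam (j + 1) :=
    W_congr e p R k _ _ _ fun i hi _ => by
      rw [Function.update_of_ne]
      omega
  rw [h3, h4]

theorem main_bound [DecidableEq G] (E : Finset G) (hE : ∀ x ∈ E, x⁻¹ ∈ E) {p : G} (hp : p ∈ E)
    (r c : ℕ) (hsw : ∀ (m : ℕ) (S : ℕ → G), S 0 = 1 → S m = 1 →
      (∀ i < m, (S i)⁻¹ * S (i + 1) ∈ (E : Set G)) →
      ∃ (T : ℕ) (L : ℕ → List (ℕ × ℕ)), Sweep r c (c * (Nat.log 2 m + 1)) m S T L)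
    (R : ℕ) (hR : 1 ≤ R) (hK : c * (Nat.log 2 (ll R (2 * r)) + 1) < 2 * R) :
    (E ^ R).card ≤ nn (2 * r) * (((2 * r + 1) * (ll R (2 * r) + 1)) *
      ((ll R (2 * r) + 1) ^ 2 + (E.card + 1) ^ (c * (Nat.log 2 (ll R (2 * r)) + 1)) + 1) ^ c) := by
  classical
  set N := 2 * r with hN
  set m := ll R N with hm
  set K := c * (Nat.log 2 m + 1) with hKdef
  by_contra hcon
  push Not at hcon
  let α := {x : G // x ∈ E ^ R}
  have hcardα : Fintype.card α = (E ^ R).card := Fintype.card_coe _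
  have hex : ∀ s : α, ∃ l : List G, l.length = R ∧ (∀ x ∈ l, x ∈ E) ∧ l.prod = s.1 := by
    intro s
    obtain ⟨f, hf⟩ := Finset.mem_pow.1 s.2
    refine ⟨List.ofFn fun i => (f i : G), by simp, ?_, hf⟩
    intro x hx
    rw [List.mem_ofFn] at hx
    obtain ⟨i, rfl⟩ := hx
    exact (f i).2
  choose e hlen hmem hprod using hex
  have hinj : ∀ s s', (e s).prod = (e s').prod → s = s' := by
    intro s s' h
    rw [hprod, hprod] at h
    exact Subtype.ext h
  -- the sweeps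
  have hs : ∀ lam : ℕ → α, ∃ (T : ℕ) (L : ℕ → List (ℕ × ℕ)),
      Sweep r c K m (pth (W e p R N lam 0)) T L := by
    intro lam
    have hwl := W_length e p R hlen N lam 0
    apply hsw m (pth (W e p R N lam 0)) (pth_zero _)
    · rw [hm, ← hwl, pth_length, W_prod]
    · intro i hi
      exact pth_step _ (W_mem e p R hE hp hmem N lam 0) i (by rw [hwl]; exact hi)
  choose Tf Lf hTL using hs
  have hne : Nonempty α := by
    rw [← Fintype.card_pos_iff, hcardα]
    omega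
  obtain ⟨s0⟩ := hne
  obtain ⟨lam, hlam⟩ := avoid (nn N)
    (((N + 1) * (m + 1)) * ((m + 1) ^ 2 + (E.card + 1) ^ K + 1) ^ c)
    (fun j lam => ∃ k ≤ N, ∃ a ≤ m, Node e p R N lam j k a ∧ ∃ t,
      Crossing (fun x => a + R ≤ x ∧ x ≤ a + R + ll R k)
        (fun x => x ≤ a ∨ a + (2 * R + ll R k) ≤ x) (Lf lam t)) (fun _ => s0)
    (by
      intro lam j _ B hB
      let Bk : ℕ × ℕ → Finset α := fun q => B.filter (fun s =>
        Node e p R N (Function.update lam j s) j q.1 q.2 ∧ ∃ t,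
          Crossing (fun x => q.2 + R ≤ x ∧ x ≤ q.2 + R + ll R q.1)
          (fun x => x ≤ q.2 ∨ q.2 + (2 * R + ll R q.1) ≤ x) (Lf (Function.update lam j s) t))
      have h1 : B ⊆ ((Finset.range (N + 1)) ×ˢ (Finset.range (m + 1))).biUnion Bk := by
        intro s hs
        obtain ⟨k, hk, a, ha, h2, h3⟩ := hB s hs
        rw [Finset.mem_biUnion]
        refine ⟨(k, a), ?_, Finset.mem_filter.2 ⟨hs, h2, h3⟩⟩
        rw [Finset.mem_product, Finset.mem_range, Finset.mem_range]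
        exact ⟨Nat.lt_succ_of_le hk, Nat.lt_succ_of_le ha⟩
      have h4 : ∀ q ∈ (Finset.range (N + 1)) ×ˢ (Finset.range (m + 1)), (Bk q).card ≤
          ((m + 1) ^ 2 + (E.card + 1) ^ K + 1) ^ c := by
        intro q _
        rcases (Bk q).eq_empty_or_nonempty with h5 | ⟨s1, hs1⟩
        · rw [h5]; simp
        · have h6 := (Finset.mem_filter.1 hs1).2.1
          exact bad_card e p R N E hE hp hlen hmem hinj r c K lam j q.1 q.2
            (Node_update e p R N lam j q.1 q.2 s1 h6) (fun s => Tf (Function.update lam j s))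
            (fun s => Lf (Function.update lam j s)) (fun s => hTL _) (Bk q)
            (fun s hs => (Finset.mem_filter.1 hs).2.2)
      calc B.card ≤ (((Finset.range (N + 1)) ×ˢ (Finset.range (m + 1))).biUnion Bk).card :=
            Finset.card_le_card h1
        _ ≤ ∑ q ∈ (Finset.range (N + 1)) ×ˢ (Finset.range (m + 1)), (Bk q).card :=
            Finset.card_biUnion_le
        _ ≤ ∑ _q ∈ (Finset.range (N + 1)) ×ˢ (Finset.range (m + 1)),
            ((m + 1) ^ 2 + (E.card + 1) ^ K + 1) ^ c := Finset.sum_le_sum h4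
        _ = ((N + 1) * (m + 1)) * ((m + 1) ^ 2 + (E.card + 1) ^ K + 1) ^ c := by
            rw [Finset.sum_const, Finset.card_product, Finset.card_range, Finset.card_range,
              smul_eq_mul])
    (by rw [hcardα]; exact hcon)
  obtain ⟨t, -, -, ht⟩ := claim e p R N hlen hR lam (hTL lam) hK (by
    intro j hj k hk a ha hnode t hc
    exact hlam j hj ⟨k, hk, a, ha, hnode, t, hc⟩) N 0 0 le_rfl (by omega)
    (Sub_root e p R N lam)
  have h1 : (ends (Lf lam t)).countP (fun z => decide (0 < z ∧ z < 0 + ll R N)) ≤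
      (ends (Lf lam t)).length := List.countP_le_length
  rw [ends_length] at h1
  have h2 := (hTL lam).len t
  omega

theorem ll_mul (R k : ℕ) : ll R k = ll 1 k * R := by
  induction k with
  | zero => simp [ll]
  | succ k ih => simp only [ll, ih]; ring

theorem sq_le_pow (y : ℕ) : (y + 1) ^ 2 ≤ 4 * 2 ^ y := by
  induction y with
  | zero => norm_num
  | succ y ih =>
    rcases Nat.lt_or_ge y 2 with h | h
    · interval_cases y <;> norm_num
    · have h1 : (y + 1 + 1) ^ 2 ≤ 2 * (y + 1) ^ 2 := by nlinarith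
      calc (y + 1 + 1) ^ 2 ≤ 2 * (y + 1) ^ 2 := h1
        _ ≤ 2 * (4 * 2 ^ y) := by omega
        _ = 4 * 2 ^ (y + 1) := by ring

theorem log_small (M c R : ℕ) (hM : 1 ≤ M) (hR : M * c ^ 2 < R) :
    c * (Nat.log 2 (M * R) + 1) < 2 * R := by
  by_contra hcon
  push Not at hcon
  set y := Nat.log 2 (M * R) with hy
  have hR1 : 1 ≤ R := by omega
  have hMR : M * R ≠ 0 := by positivity
  have h1 : 2 ^ y ≤ M * R := Nat.pow_log_le_self 2 hMR
  have h2 := sq_le_pow y
  have h3 : (y + 1) ^ 2 ≤ 2 * M * c * (y + 1) := by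
    calc (y + 1) ^ 2 ≤ 4 * 2 ^ y := h2
      _ ≤ 4 * (M * R) := by omega
      _ = 2 * M * (2 * R) := by ring
      _ ≤ 2 * M * (c * (y + 1)) := Nat.mul_le_mul_left _ hcon
      _ = 2 * M * c * (y + 1) := by ring
  have h4 : y + 1 ≤ 2 * M * c := by
    rw [pow_two] at h3
    exact Nat.le_of_mul_le_mul_right h3 (Nat.succ_pos y)
  have h5 : 2 * R ≤ c * (2 * M * c) := hcon.trans (Nat.mul_le_mul_left _ h4)
  have h6 : c * (2 * M * c) = 2 * (M * c ^ 2) := by ring
  omega

theorem poly_bound (M c n₁ q b R : ℕ) (hM : 1 ≤ M) (hR : 1 ≤ R) (hb : b + 1 ≤ 2 ^ (b + 1)) :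
    n₁ * ((q * (M * R + 1)) * ((M * R + 1) ^ 2 +
      (b + 1) ^ (c * (Nat.log 2 (M * R) + 1)) + 1) ^ c) ≤
    (n₁ * q * 3 ^ c * (2 * M) ^ (((b + 1) * c + 2) * c + 1)) *
      (R + 1) ^ (((b + 1) * c + 2) * c + 1) := by
  set y := Nat.log 2 (M * R) with hy
  have hMR : M * R ≠ 0 := by positivity
  have h1 : 2 ^ y ≤ M * R := Nat.pow_log_le_self 2 hMR
  set X := 2 * M * (R + 1) with hX
  have hX1 : 1 ≤ X := Nat.succ_le_of_lt (by positivity)
  have hX2 : M * R + 1 ≤ X := by rw [hX]; nlinarith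
  have hX3 : 2 * (M * R) ≤ X := by rw [hX]; nlinarith
  have h2 : (b + 1) ^ (c * (y + 1)) ≤ X ^ ((b + 1) * c) := by
    calc (b + 1) ^ (c * (y + 1)) ≤ (2 ^ (b + 1)) ^ (c * (y + 1)) := Nat.pow_le_pow_left hb _
      _ = (2 * 2 ^ y) ^ ((b + 1) * c) := by
        rw [← pow_succ', ← pow_mul, ← pow_mul]; congr 1; ring
      _ ≤ X ^ ((b + 1) * c) := Nat.pow_le_pow_left (by omega) _
  have h3 : (M * R + 1) ^ 2 + (b + 1) ^ (c * (y + 1)) + 1 ≤ 3 * X ^ ((b + 1) * c + 2) := by
    have a1 : (M * R + 1) ^ 2 ≤ X ^ ((b + 1) * c + 2) :=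
      (Nat.pow_le_pow_left hX2 2).trans (Nat.pow_le_pow_right hX1 (by omega))
    have a2 : (b + 1) ^ (c * (y + 1)) ≤ X ^ ((b + 1) * c + 2) :=
      h2.trans (Nat.pow_le_pow_right hX1 (by omega))
    have a3 : 1 ≤ X ^ ((b + 1) * c + 2) := Nat.one_le_pow _ _ hX1
    omega
  calc n₁ * ((q * (M * R + 1)) * ((M * R + 1) ^ 2 + (b + 1) ^ (c * (y + 1)) + 1) ^ c)
      ≤ n₁ * ((q * X) * (3 * X ^ ((b + 1) * c + 2)) ^ c) := by gcongr
    _ = n₁ * q * 3 ^ c * X ^ (((b + 1) * c + 2) * c + 1) := by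
        rw [mul_pow, ← pow_mul, pow_succ]; ring
    _ = _ := by rw [hX, mul_pow]; ring

end Pool.Agent.TH719.ED.H858

namespace Pool.Agent.TH719.ED

open scoped Pointwise
open H858

theorem growth_of_sweepable {G : Type} [Group G] (E : Finset G) (hE : ∀ x ∈ E, x⁻¹ ∈ E)
    (h : Sweepable (E : Set G)) :
    ∃ C d : ℕ, ∀ n : ℕ, ((E : Set G) ^ n).ncard ≤ C * (n + 1) ^ d := by
  classical
  rcases E.eq_empty_or_nonempty with hE0 | ⟨p, hp⟩
  · subst hE0
    refine ⟨1, 0, fun n => ?_⟩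
    cases n with
    | zero => rw [pow_zero, ← Set.singleton_one, Set.ncard_singleton]; norm_num
    | succ n => simp
  obtain ⟨r, c, hsw⟩ := h
  set M := ll 1 (2 * r) with hM
  have hM1 : 1 ≤ M := by
    rw [hM]
    cases (2 * r) with
    | zero => simp [ll]
    | succ k => simp only [ll]; omega
  set d := ((E.card + 1) * c + 2) * c + 1 with hd
  set C1 := nn (2 * r) * (2 * r + 1) * 3 ^ c * (2 * M) ^ d with hC1
  have hcard : ∀ n : ℕ, ((E : Set G) ^ n).ncard = (E ^ n).card := by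
    intro n
    rw [← Finset.coe_pow, Set.ncard_coe_finset]
  refine ⟨C1 + ∑ i ∈ Finset.range (M * c ^ 2 + 1), (E ^ i).card, d, fun n => ?_⟩
  rw [hcard]
  have hpos : 1 ≤ (n + 1) ^ d := Nat.one_le_pow _ _ (Nat.succ_pos n)
  rcases Nat.lt_or_ge (M * c ^ 2) n with hn | hn
  · have hll : ll n (2 * r) = M * n := ll_mul n (2 * r)
    have h1 := main_bound E hE hp r c hsw n (by omega) (by
      rw [hll]; exact log_small M c n hM1 hn)
    rw [hll] at h1
    have h2 := poly_bound M c (nn (2 * r)) (2 * r + 1) E.card n hM1 (by omega)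
      (Nat.lt_two_pow_self).le
    calc (E ^ n).card ≤ _ := h1
      _ ≤ C1 * (n + 1) ^ d := h2
      _ ≤ _ := Nat.mul_le_mul_right _ (Nat.le_add_right _ _)
  · have h1 : (E ^ n).card ≤ ∑ i ∈ Finset.range (M * c ^ 2 + 1), (E ^ i).card :=
      Finset.single_le_sum (f := fun i => (E ^ i).card) (fun _ _ => Nat.zero_le _)
        (Finset.mem_range.2 (by omega))
    calc (E ^ n).card ≤ ∑ i ∈ Finset.range (M * c ^ 2 + 1), (E ^ i).card := h1
      _ ≤ C1 + ∑ i ∈ Finset.range (M * c ^ 2 + 1), (E ^ i).card := Nat.le_add_left _ _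
      _ = (C1 + ∑ i ∈ Finset.range (M * c ^ 2 + 1), (E ^ i).card) * 1 := (mul_one _).symm
      _ ≤ _ := Nat.mul_le_mul_left _ hpos

end Pool.Agent.TH719.ED
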