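import Pool.Agent.TH858.CR_TOOLS

set_option autoImplicit false

namespace Pool.Agent.TH858.CR

open Set MeasureTheory

namespace Greedy

variable {X : Type} (s : ℕ → X → X) (U V : Set X)

/-- the used points of `U` and of `V` before stage `n` -/
def used : ℕ → Set X × Set X
  | 0 => (∅, ∅)
  | n + 1 => ((used n).1 ∪ {x | x ∈ U ∧ x ∉ (used n).1 ∧ s n x ∈ V ∧ s n x ∉ (used n).2},
      (used n).2 ∪ {y | s n y ∈ U ∧ s n y ∉ (used n).1 ∧ y ∈ V ∧ y ∉ (used n).2})

/-- the points matched at stage `n` -/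
def M (n : ℕ) : Set X := {x | x ∈ U ∧ x ∉ (used s U V n).1 ∧ s n x ∈ V ∧ s n x ∉ (used s U V n).2}

theorem used_succ (n : ℕ) : (used s U V (n + 1)).1 = (used s U V n).1 ∪ M s U V n := rfl

theorem used_succ2 (hinv : ∀ n x, s n (s n x) = x) (n : ℕ) :
    (used s U V (n + 1)).2 = (used s U V n).2 ∪ {y | s n y ∈ M s U V n} := by
  show (used s U V n).2 ∪ _ = _
  congr 1
  ext y
  simp only [M, mem_ofPred_eq, hinv]

theorem used_mono {m n : ℕ} (h : m ≤ n) : (used s U V m).1 ⊆ (used s U V n).1 := by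
  induction h with
  | refl => exact subset_rfl
  | step _ ih => exact ih.trans subset_union_left

theorem used_mono2 {m n : ℕ} (h : m ≤ n) : (used s U V m).2 ⊆ (used s U V n).2 := by
  induction h with
  | refl => exact subset_rfl
  | step _ ih => exact ih.trans subset_union_left

theorem mem_used1 {n : ℕ} {x : X} (h : x ∈ (used s U V n).1) : ∃ k, k < n ∧ x ∈ M s U V k := by
  induction n with
  | zero => exact absurd h (notMem_empty x)
  | succ n ih =>
    rw [used_succ] at h
    rcases h with h | h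
    · obtain ⟨k, hk, hx⟩ := ih h
      exact ⟨k, by omega, hx⟩
    · exact ⟨n, by omega, h⟩

theorem mem_used2 (hinv : ∀ n x, s n (s n x) = x) {n : ℕ} {y : X} (h : y ∈ (used s U V n).2) :
    ∃ k, k < n ∧ s k y ∈ M s U V k := by
  induction n with
  | zero => exact absurd h (notMem_empty y)
  | succ n ih =>
    rw [used_succ2 s U V hinv] at h
    rcases h with h | h
    · obtain ⟨k, hk, hx⟩ := ih h
      exact ⟨k, by omega, hx⟩
    · exact ⟨n, by omega, h⟩

theorem meas [MeasurableSpace X] (hs : ∀ n, Measurable (s n)) (hU : MeasurableSet U)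
    (hV : MeasurableSet V) (n : ℕ) :
    MeasurableSet (used s U V n).1 ∧ MeasurableSet (used s U V n).2 := by
  induction n with
  | zero => exact ⟨MeasurableSet.empty, MeasurableSet.empty⟩
  | succ n ih =>
    refine ⟨ih.1.union ?_, ih.2.union ?_⟩
    · exact hU.inter (ih.1.compl.inter (((hs n) hV).inter ((hs n) ih.2.compl)))
    · exact ((hs n) hU).inter (((hs n) ih.1.compl).inter (hV.inter ih.2.compl))

theorem measM [MeasurableSpace X] (hs : ∀ n, Measurable (s n)) (hU : MeasurableSet U)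
    (hV : MeasurableSet V) (n : ℕ) : MeasurableSet (M s U V n) := by
  have ih := meas s U V hs hU hV n
  exact hU.inter (ih.1.compl.inter (((hs n) hV).inter ((hs n) ih.2.compl)))

end Greedy

open Greedy in
/-- JOB GREEDY: greedy matching of two sets inside the relation. -/
theorem greedy {X : Type} [MeasurableSpace X] [StandardBorelSpace X] (s : ℕ → X → X)
    (hs : ∀ n, Measurable (s n)) (hinv : ∀ n x, s n (s n x) = x) (E : X → X → Prop)
    (hE : Equivalence E) (hsE : ∀ x y, E x y ↔ ∃ n, s n x = y)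
    (U V : Set X) (hU : MeasurableSet U) (hV : MeasurableSet V) :
    ∃ (M : Set X) (f : X → X), MeasurableSet M ∧ M ⊆ U ∧ Measurable f ∧ (∀ x, E x (f x)) ∧
      InjOn f M ∧ MapsTo f M V ∧ MeasurableSet (f '' M) ∧
      ∀ x ∈ U, ∀ y ∈ V, E x y → x ∈ M ∨ y ∈ f '' M := by
  have hdis : ∀ m n x, x ∈ M s U V m → x ∈ M s U V n → m = n := by
    intro m n x hm hn
    rcases lt_trichotomy m n with h | h | h
    · exact absurd (used_mono s U V (Nat.succ_le_of_lt h) (Or.inr hm)) hn.2.1
    · exact h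
    · exact absurd (used_mono s U V (Nat.succ_le_of_lt h) (Or.inr hn)) hm.2.1
  obtain ⟨f, hf, hfM, hfid⟩ := glue (M s U V) (measM s U V hs hU hV) hdis s hs
  have himg : f '' (⋃ n, M s U V n) = ⋃ n, (s n) ⁻¹' (M s U V n) := by
    ext y
    simp only [mem_image, mem_iUnion, mem_preimage]
    constructor
    · rintro ⟨x, ⟨n, hx⟩, rfl⟩
      refine ⟨n, ?_⟩
      rw [hfM n x hx, hinv]
      exact hx
    · rintro ⟨n, hn⟩
      exact ⟨s n y, ⟨n, hn⟩, by rw [hfM n _ hn, hinv]⟩
  refine ⟨⋃ n, M s U V n, f, MeasurableSet.iUnion (measM s U V hs hU hV), ?_, hf, ?_, ?_, ?_, ?_,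
    ?_⟩
  · exact iUnion_subset fun n x hx => hx.1
  · intro x
    by_cases hx : ∃ n, x ∈ M s U V n
    · obtain ⟨n, hn⟩ := hx
      rw [hfM n x hn]
      exact (hsE _ _).2 ⟨n, rfl⟩
    · push Not at hx
      rw [hfid x hx]
      exact hE.refl x
  · intro x hx y hy hxy
    rw [mem_iUnion] at hx hy
    obtain ⟨m, hm⟩ := hx
    obtain ⟨n, hn⟩ := hy
    rw [hfM m x hm, hfM n y hn] at hxy
    rcases lt_trichotomy m n with h | h | h
    · exfalso
      apply hn.2.2.2
      rw [← hxy]
      apply used_mono2 s U V (Nat.succ_le_of_lt h)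
      rw [used_succ2 s U V hinv]
      right
      rw [mem_ofPred_eq, hinv]
      exact hm
    · subst h
      have := congrArg (s m) hxy
      rwa [hinv, hinv] at this
    · exfalso
      apply hm.2.2.2
      rw [hxy]
      apply used_mono2 s U V (Nat.succ_le_of_lt h)
      rw [used_succ2 s U V hinv]
      right
      rw [mem_ofPred_eq, hinv]
      exact hn
  · intro x hx
    rw [mem_iUnion] at hx
    obtain ⟨m, hm⟩ := hx
    rw [hfM m x hm]
    exact hm.2.2.1
  · rw [himg]
    exact MeasurableSet.iUnion fun n => (hs n) (measM s U V hs hU hV n)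
  · intro x hx y hy hxy
    by_contra hcon
    push Not at hcon
    obtain ⟨h1, h2⟩ := hcon
    rw [himg] at h2
    rw [mem_iUnion] at h1 h2
    push Not at h1 h2
    obtain ⟨n, hn⟩ := (hsE x y).1 hxy
    apply h1 n
    refine ⟨hx, ?_, by rw [hn]; exact hy, ?_⟩
    · intro h
      obtain ⟨k, _, hk⟩ := mem_used1 s U V h
      exact h1 k hk
    · rw [hn]
      intro h
      obtain ⟨k, _, hk⟩ := mem_used2 s U V hinv h
      exact h2 k hk

end Pool.Agent.TH858.CR
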