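import Pool.Agent.TH858.CR_TOOLS

set_option autoImplicit false

namespace Pool.Agent.TH858.CR

open Set MeasureTheory

namespace Halve

variable {X : Type} (s : ℕ → X → X) (e : X → ℝ) (C : Set X)

/-- the used points before stage `n` -/
def used : ℕ → Set X
  | 0 => ∅
  | n + 1 => (used n ∪ {x | x ∈ C ∧ x ∉ used n ∧ s n x ∈ C ∧ s n x ∉ used n ∧ e x < e (s n x)}) ∪
      {y | s n y ∈ C ∧ s n y ∉ used n ∧ y ∈ C ∧ y ∉ used n ∧ e (s n y) < e y}

/-- the points matched at stage `n` -/
def M (n : ℕ) : Set X :=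
  {x | x ∈ C ∧ x ∉ used s e C n ∧ s n x ∈ C ∧ s n x ∉ used s e C n ∧ e x < e (s n x)}

theorem used_succ (hinv : ∀ n x, s n (s n x) = x) (n : ℕ) :
    used s e C (n + 1) = (used s e C n ∪ M s e C n) ∪ {y | s n y ∈ M s e C n} := by
  show (used s e C n ∪ M s e C n) ∪ _ = _
  congr 1
  ext y
  simp only [M, mem_ofPred_eq, hinv]

theorem used_mono {m n : ℕ} (h : m ≤ n) : used s e C m ⊆ used s e C n := by
  induction h with
  | refl => exact subset_rfl
  | step _ ih => exact ih.trans (subset_union_left.trans subset_union_left)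

theorem mem_used (hinv : ∀ n x, s n (s n x) = x) {n : ℕ} {x : X} (h : x ∈ used s e C n) :
    ∃ k, k < n ∧ (x ∈ M s e C k ∨ s k x ∈ M s e C k) := by
  induction n with
  | zero => exact absurd h (notMem_empty x)
  | succ n ih =>
    rw [used_succ s e C hinv] at h
    rcases h with (h | h) | h
    · obtain ⟨k, hk, hx⟩ := ih h
      exact ⟨k, by omega, hx⟩
    · exact ⟨n, by omega, Or.inl h⟩
    · exact ⟨n, by omega, Or.inr h⟩

theorem M_used (hinv : ∀ n x, s n (s n x) = x) {m n : ℕ} (h : m < n) {x : X}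
    (hx : x ∈ M s e C m) : x ∈ used s e C n := by
  apply used_mono s e C (Nat.succ_le_of_lt h)
  rw [used_succ s e C hinv]
  exact Or.inl (Or.inr hx)

theorem sM_used (hinv : ∀ n x, s n (s n x) = x) {m n : ℕ} (h : m < n) {x : X}
    (hx : s m x ∈ M s e C m) : x ∈ used s e C n := by
  apply used_mono s e C (Nat.succ_le_of_lt h)
  rw [used_succ s e C hinv]
  exact Or.inr hx

theorem meas [MeasurableSpace X] (hs : ∀ n, Measurable (s n)) (he : Measurable e)
    (hC : MeasurableSet C) (n : ℕ) : MeasurableSet (used s e C n) := by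
  induction n with
  | zero => exact MeasurableSet.empty
  | succ n ih =>
    refine (ih.union ?_).union ?_
    · exact hC.inter (ih.compl.inter (((hs n) hC).inter (((hs n) ih.compl).inter
        (measurableSet_lt he (he.comp (hs n))))))
    · exact ((hs n) hC).inter (((hs n) ih.compl).inter (hC.inter (ih.compl.inter
        (measurableSet_lt (he.comp (hs n)) he))))

theorem measM [MeasurableSpace X] (hs : ∀ n, Measurable (s n)) (he : Measurable e)
    (hC : MeasurableSet C) (n : ℕ) : MeasurableSet (M s e C n) := by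
  have ih := meas s e C hs he hC n
  exact hC.inter (ih.compl.inter (((hs n) hC).inter (((hs n) ih.compl).inter
        (measurableSet_lt he (he.comp (hs n))))))

end Halve

/-- a measurable partial transversal of an aperiodic relation of finite type is null -/
theorem null_transversal {X : Type} [MeasurableSpace X] [StandardBorelSpace X] (s : ℕ → X → X)
    (hs : ∀ n, Measurable (s n)) (hinv : ∀ n x, s n (s n x) = x) (E : X → X → Prop)
    (hE : Equivalence E) (hsE : ∀ x y, E x y ↔ ∃ n, s n x = y)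
    (hinf : ∀ x, {y | E x y}.Infinite) (μ : Measure X)
    (hqi : ∀ n V, MeasurableSet V → μ V = 0 → μ (s n ⁻¹' V) = 0)
    (hfin : ∀ f : X → X, Measurable f → Function.Injective f → (∀ x, E x (f x)) →
      μ (range f)ᶜ = 0)
    (L : Set X) (hL : MeasurableSet L) (htr : ∀ x ∈ L, ∀ y ∈ L, E x y → x = y) : μ L = 0 := by
  classical
  -- the projection to `L`
  let p0 : ℕ → X → Prop := fun k x => match k with
    | 0 => ∀ k, s k x ∉ L
    | k + 1 => s k x ∈ L
  let F0 : ℕ → X → X := fun k => match k with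
    | 0 => id
    | k + 1 => s k
  have hp0 : ∀ n, MeasurableSet {x | p0 n x} := by
    intro n
    cases n with
    | zero =>
      show MeasurableSet {x | ∀ k, s k x ∉ L}
      have : {x | ∀ k, s k x ∉ L} = ⋂ k, (s k ⁻¹' L)ᶜ := by ext x; simp
      rw [this]
      exact MeasurableSet.iInter fun k => ((hs k) hL).compl
    | succ n => exact (hs n) hL
  have hF0 : ∀ n, Measurable (F0 n) := by
    intro n
    cases n with
    | zero => exact measurable_id
    | succ n => exact hs n
  have h0 : ∀ x, ∃ n, p0 n x := by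
    intro x
    by_cases hx : ∀ k, s k x ∉ L
    · exact ⟨0, hx⟩
    · push Not at hx
      obtain ⟨k, hk⟩ := hx
      exact ⟨k + 1, hk⟩
  let p : X → X := fun x => F0 (Nat.find (h0 x)) x
  have hp : Measurable p := Measurable.find hF0 hp0 h0
  have hpE : ∀ x, E x (p x) := by
    intro x
    show E x (F0 (Nat.find (h0 x)) x)
    cases Nat.find (h0 x) with
    | zero => exact hE.refl x
    | succ n => exact (hsE _ _).2 ⟨n, rfl⟩
  have hpL : ∀ x, (∃ y ∈ L, E x y) → p x ∈ L := by
    rintro x ⟨y, hy, hxy⟩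
    have h1 := Nat.find_spec (h0 x)
    show F0 (Nat.find (h0 x)) x ∈ L
    cases h2 : Nat.find (h0 x) with
    | zero =>
      rw [h2] at h1
      obtain ⟨k, hk⟩ := (hsE x y).1 hxy
      exact absurd (by rw [hk]; exact hy) (h1 k)
    | succ n =>
      rw [h2] at h1
      exact h1
  -- the successor map
  let Q : ℕ → X → Prop := fun m y =>
    (∃ n, n < m ∧ s n (p y) = y) ∧ ∀ i, i < m → s i (p y) ≠ s m (p y)
  have hQ : ∀ m, MeasurableSet {y | Q m y} := by
    intro m
    refine MeasurableSet.inter ?_ ?_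
    · have : {y | ∃ n, n < m ∧ s n (p y) = y} = ⋃ n, ⋃ (_ : n < m), {y | s n (p y) = y} := by
        ext y; simp
      show MeasurableSet {y | ∃ n, n < m ∧ s n (p y) = y}
      rw [this]
      exact MeasurableSet.iUnion fun n => MeasurableSet.iUnion fun _ =>
        eqset ((hs n).comp hp) measurable_id
    · have : {y | ∀ i, i < m → s i (p y) ≠ s m (p y)} =
          ⋂ i, ⋂ (_ : i < m), {y | s i (p y) = s m (p y)}ᶜ := by
        ext y; simp
      show MeasurableSet {y | ∀ i, i < m → s i (p y) ≠ s m (p y)}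
      rw [this]
      exact MeasurableSet.iInter fun n => MeasurableSet.iInter fun _ =>
        (eqset ((hs n).comp hp) ((hs m).comp hp)).compl
  have hQex : ∀ y, ∃ m, Q m y := by
    intro y
    obtain ⟨n, hn⟩ := (hsE (p y) y).1 (hE.symm (hpE y))
    by_contra hcon
    push Not at hcon
    have h1 : ∀ m, ∃ i, i ≤ n ∧ s i (p y) = s m (p y) := by
      intro m
      induction m using Nat.strong_induction_on with
      | _ m ih =>
        by_cases hm : m ≤ n
        · exact ⟨m, hm, rfl⟩
        · have h2 := hcon m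
          have h3 : ∃ i, i < m ∧ s i (p y) = s m (p y) := by
            by_contra h4
            push Not at h4
            exact h2 ⟨⟨n, by omega, hn⟩, h4⟩
          obtain ⟨i, hi, hi2⟩ := h3
          obtain ⟨j, hj, hj2⟩ := ih i hi
          exact ⟨j, hj, hj2.trans hi2⟩
    apply hinf (p y)
    refine Set.Finite.subset ((Finset.range (n + 1)).image (fun i => s i (p y))).finite_toSet ?_
    intro z hz
    obtain ⟨m, hm⟩ := (hsE (p y) z).1 hz
    obtain ⟨i, hi, hi2⟩ := h1 m
    rw [Finset.mem_coe, Finset.mem_image]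
    exact ⟨i, Finset.mem_range.2 (by omega), hi2.trans hm⟩
  let G : X → X := fun y => s (Nat.find (hQex y)) (p y)
  have hG : Measurable G :=
    Measurable.find (f := fun n y => s n (p y)) (fun n => (hs n).comp hp) hQ hQex
  have hGE : ∀ y, E (p y) (G y) := fun y => (hsE _ _).2 ⟨_, rfl⟩
  -- the saturation
  let S : Set X := ⋃ k, s k ⁻¹' L
  have hS : MeasurableSet S := MeasurableSet.iUnion fun k => (hs k) hL
  have hSmem : ∀ x, x ∈ S ↔ ∃ y ∈ L, E x y := by
    intro x
    show x ∈ ⋃ k, s k ⁻¹' L ↔ _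
    rw [mem_iUnion]
    constructor
    · rintro ⟨k, hk⟩
      exact ⟨_, hk, (hsE _ _).2 ⟨k, rfl⟩⟩
    · rintro ⟨y, hy, hxy⟩
      obtain ⟨k, hk⟩ := (hsE _ _).1 hxy
      exact ⟨k, by rw [mem_preimage, hk]; exact hy⟩
  let F : X → X := S.piecewise G id
  have hFmeas : Measurable F := Measurable.piecewise hS hG measurable_id
  have hFE : ∀ x, E x (F x) := by
    intro x
    by_cases hx : x ∈ S
    · show E x (S.piecewise G id x)
      rw [Set.piecewise_eq_of_mem _ _ _ hx]
      exact hE.trans (hpE x) (hGE x)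
    · show E x (S.piecewise G id x)
      rw [Set.piecewise_eq_of_notMem _ _ _ hx]
      exact hE.refl x
  have hSE : ∀ x y, E x y → x ∈ S → y ∈ S := by
    intro x y hxy hx
    rw [hSmem] at hx ⊢
    obtain ⟨z, hz, hxz⟩ := hx
    exact ⟨z, hz, hE.trans (hE.symm hxy) hxz⟩
  have hFinj : Function.Injective F := by
    intro x y hxy
    have hxyE : E x y := hE.trans (hFE x) (by rw [hxy]; exact hE.symm (hFE y))
    by_cases hx : x ∈ S
    · have hy := hSE x y hxyE hx
      have h1 : F x = G x := Set.piecewise_eq_of_mem _ _ _ hx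
      have h2 : F y = G y := Set.piecewise_eq_of_mem _ _ _ hy
      rw [h1, h2] at hxy
      have hpp : p x = p y := htr _ (hpL x ((hSmem x).1 hx)) _ (hpL y ((hSmem y).1 hy))
        (hE.trans (hE.symm (hpE x)) (hE.trans hxyE (hpE y)))
      have hmx := Nat.find_spec (hQex x)
      have hmy := Nat.find_spec (hQex y)
      have hmxy : Nat.find (hQex x) = Nat.find (hQex y) := by
        rcases lt_trichotomy (Nat.find (hQex x)) (Nat.find (hQex y)) with h | h | h
        · exfalso
          exact hmy.2 _ h ((congrArg (s (Nat.find (hQex x))) hpp).symm.trans hxy)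
        · exact h
        · exfalso
          exact hmx.2 _ h ((congrArg (s (Nat.find (hQex y))) hpp).trans hxy.symm)
      -- first appearances
      have hax : ∃ n, s n (p x) = x := by
        obtain ⟨n, _, hn⟩ := hmx.1
        exact ⟨n, hn⟩
      have hay : ∃ n, s n (p x) = y := by
        obtain ⟨n, _, hn⟩ := hmy.1
        exact ⟨n, by rw [hpp]; exact hn⟩
      have hax1 := Nat.find_spec hax
      have hay1 := Nat.find_spec hay
      have hax2 : Nat.find hax < Nat.find (hQex x) := by
        obtain ⟨n, hn, hn2⟩ := hmx.1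
        exact lt_of_le_of_lt (Nat.find_min' hax hn2) hn
      have hay2 : Nat.find hay < Nat.find (hQex y) := by
        obtain ⟨n, hn, hn2⟩ := hmy.1
        exact lt_of_le_of_lt (Nat.find_min' hay (by rw [hpp]; exact hn2)) hn
      rcases lt_trichotomy (Nat.find hax) (Nat.find hay) with h | h | h
      · exfalso
        have h3 : Q (Nat.find hay) x := by
          refine ⟨⟨_, h, hax1⟩, fun i hi => ?_⟩
          rw [hay1]
          exact Nat.find_min hay hi
        have := Nat.find_min' (hQex x) h3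
        omega
      · rw [← hax1, ← hay1, h]
      · exfalso
        have h3 : Q (Nat.find hax) y := by
          refine ⟨⟨_, h, by rw [← hpp]; exact hay1⟩, fun i hi => ?_⟩
          rw [← hpp, hax1]
          exact Nat.find_min hax hi
        have := Nat.find_min' (hQex y) h3
        omega
    · have hy : y ∉ S := fun hy => hx (hSE y x (hE.symm hxyE) hy)
      have h1 : F x = x := Set.piecewise_eq_of_notMem _ _ _ hx
      have h2 : F y = y := Set.piecewise_eq_of_notMem _ _ _ hy
      rwa [h1, h2] at hxy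
  have h1 := hfin F hFmeas hFinj hFE
  have h2 : s 0 ⁻¹' L ⊆ (range F)ᶜ := by
    rintro y hy ⟨x, hx⟩
    have hxyE : E x y := by rw [← hx]; exact hFE x
    have hyS : y ∈ S := (hSmem y).2 ⟨_, hy, (hsE _ _).2 ⟨0, rfl⟩⟩
    have hxS : x ∈ S := hSE y x (hE.symm hxyE) hyS
    have h3 : F x = G x := Set.piecewise_eq_of_mem _ _ _ hxS
    have hp1 : p x = s 0 y := htr _ (hpL x ((hSmem x).1 hxS)) _ hy
      (hE.trans (hE.symm (hpE x)) (hE.trans hxyE ((hsE _ _).2 ⟨0, rfl⟩)))
    have hmx := Nat.find_spec (hQex x)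
    obtain ⟨n, hn, _⟩ := hmx.1
    apply hmx.2 0 (by omega)
    have h4 : s (Nat.find (hQex x)) (p x) = y := by
      rw [← hx, h3]
    rw [h4, hp1, hinv]
  have h3 : μ (s 0 ⁻¹' L) = 0 := measure_mono_null h2 h1
  have h4 := hqi 0 _ ((hs 0) hL) h3
  have h5 : s 0 ⁻¹' (s 0 ⁻¹' L) = L := by
    ext x
    simp [hinv]
  rwa [h5] at h4

open Halve in
/-- JOB HALVE: every set is divided into two equidecomposable halves modulo null. -/
theorem halve {X : Type} [MeasurableSpace X] [StandardBorelSpace X] (s : ℕ → X → X)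
    (hs : ∀ n, Measurable (s n)) (hinv : ∀ n x, s n (s n x) = x) (E : X → X → Prop)
    (hE : Equivalence E) (hsE : ∀ x y, E x y ↔ ∃ n, s n x = y)
    (hinf : ∀ x, {y | E x y}.Infinite) (μ : Measure X) [IsProbabilityMeasure μ]
    (hqi : ∀ n V, MeasurableSet V → μ V = 0 → μ (s n ⁻¹' V) = 0)
    (hfin : ∀ f : X → X, Measurable f → Function.Injective f → (∀ x, E x (f x)) →
      μ (range f)ᶜ = 0)
    (C : Set X) (hC : MeasurableSet C) :
    ∃ (D : Set X) (f : X → X), MeasurableSet D ∧ D ⊆ C ∧ Measurable f ∧ (∀ x, E x (f x)) ∧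
      InjOn f D ∧ MapsTo f D C ∧ Disjoint D (f '' D) ∧ μ (C \ (D ∪ f '' D)) = 0 := by
  have heE := MeasureTheory.measurableEmbedding_embeddingReal X
  set e : X → ℝ := embeddingReal X with he_def
  have he : Measurable e := heE.measurable
  have hei : Function.Injective e := heE.injective
  have hdis : ∀ m n x, x ∈ M s e C m → x ∈ M s e C n → m = n := by
    intro m n x hm hn
    rcases lt_trichotomy m n with h | h | h
    · exact absurd (M_used s e C hinv h hm) hn.2.1
    · exact h
    · exact absurd (M_used s e C hinv h hn) hm.2.1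
  obtain ⟨f, hf, hfM, hfid⟩ := glue (M s e C) (measM s e C hs he hC) hdis s hs
  have himg : f '' (⋃ n, M s e C n) = ⋃ n, (s n) ⁻¹' (M s e C n) := by
    ext y
    simp only [mem_image, mem_iUnion, mem_preimage]
    constructor
    · rintro ⟨x, ⟨n, hx⟩, rfl⟩
      refine ⟨n, ?_⟩
      rw [hfM n x hx, hinv]
      exact hx
    · rintro ⟨n, hn⟩
      exact ⟨s n y, ⟨n, hn⟩, by rw [hfM n _ hn, hinv]⟩
  refine ⟨⋃ n, M s e C n, f, MeasurableSet.iUnion (measM s e C hs he hC), ?_, hf, ?_, ?_, ?_, ?_,
    ?_⟩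
  · exact iUnion_subset fun n x hx => hx.1
  · intro x
    by_cases hx : ∃ n, x ∈ M s e C n
    · obtain ⟨n, hn⟩ := hx
      rw [hfM n x hn]
      exact (hsE _ _).2 ⟨n, rfl⟩
    · push Not at hx
      rw [hfid x hx]
      exact hE.refl x
  · intro x hx y hy hxy
    rw [mem_iUnion] at hx hy
    obtain ⟨m, hm⟩ := hx
    obtain ⟨n, hn⟩ := hy
    rw [hfM m x hm, hfM n y hn] at hxy
    rcases lt_trichotomy m n with h | h | h
    · exfalso
      apply hn.2.2.2.1
      rw [← hxy]
      exact sM_used s e C hinv h (by rw [hinv]; exact hm)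
    · subst h
      have := congrArg (s m) hxy
      rwa [hinv, hinv] at this
    · exfalso
      apply hm.2.2.2.1
      rw [hxy]
      exact sM_used s e C hinv h (by rw [hinv]; exact hn)
  · intro x hx
    rw [mem_iUnion] at hx
    obtain ⟨m, hm⟩ := hx
    rw [hfM m x hm]
    exact hm.2.2.1
  · rw [himg, Set.disjoint_left]
    intro x hx hx2
    rw [mem_iUnion] at hx hx2
    obtain ⟨m, hm⟩ := hx
    obtain ⟨n, hn⟩ := hx2
    rw [mem_preimage] at hn
    rcases lt_trichotomy m n with h | h | h
    · have h1 : x ∈ used s e C n := M_used s e C hinv h hm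
      have h2 := hn.2.2.2.1
      rw [hinv] at h2
      exact h2 h1
    · subst h
      have h1 := hm.2.2.2.2
      have h2 := hn.2.2.2.2
      rw [hinv] at h2
      exact lt_asymm h1 h2
    · exact hm.2.1 (sM_used s e C hinv h hn)
  · rw [himg]
    have hLm : MeasurableSet (C \ ((⋃ n, M s e C n) ∪ ⋃ n, (s n) ⁻¹' (M s e C n))) :=
      hC.diff ((MeasurableSet.iUnion (measM s e C hs he hC)).union
        (MeasurableSet.iUnion fun n => (hs n) (measM s e C hs he hC n)))
    refine null_transversal s hs hinv E hE hsE hinf μ hqi hfin _ hLm ?_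
    have hnu : ∀ x ∈ (C \ ((⋃ n, M s e C n) ∪ ⋃ n, (s n) ⁻¹' (M s e C n))), ∀ n,
        x ∉ used s e C n := by
      intro x hx n hn
      apply hx.2
      obtain ⟨k, _, hk | hk⟩ := mem_used s e C hinv hn
      · exact Or.inl (mem_iUnion.2 ⟨k, hk⟩)
      · exact Or.inr (mem_iUnion.2 ⟨k, hk⟩)
    have key : ∀ x ∈ (C \ ((⋃ n, M s e C n) ∪ ⋃ n, (s n) ⁻¹' (M s e C n))),
        ∀ y ∈ (C \ ((⋃ n, M s e C n) ∪ ⋃ n, (s n) ⁻¹' (M s e C n))), E x y → ¬ e x < e y := by
      intro x hx y hy hxy hlt
      obtain ⟨n, hn⟩ := (hsE x y).1 hxy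
      apply hx.2
      refine Or.inl (mem_iUnion.2 ⟨n, hx.1, hnu x hx n, ?_, ?_, ?_⟩)
      · rw [hn]; exact hy.1
      · rw [hn]; exact hnu y hy n
      · rw [hn]; exact hlt
    intro x hx y hy hxy
    apply hei
    exact le_antisymm (not_lt.1 (key y hy x hx (hE.symm hxy))) (not_lt.1 (key x hx y hy hxy))

end Pool.Agent.TH858.CR
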