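import Pool.Agent.TH858.CR_TOOLS

set_option autoImplicit false

namespace Pool.Agent.TH858.CR

open Set MeasureTheory TopologicalSpace

/-- an open set of a compact zero-dimensional second countable space is a countable disjoint union
of clopen sets -/
theorem open_clopen {Y : Type} [TopologicalSpace Y] [T2Space Y] [CompactSpace Y]
    [TotallyDisconnectedSpace Y] [SecondCountableTopology Y] (O : Set Y) (hO : IsOpen O) :
    ∃ R : ℕ → Set Y, (∀ n, IsClopen (R n)) ∧ (∀ m n x, x ∈ R m → x ∈ R n → m = n) ∧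
      O = ⋃ n, R n := by
  obtain ⟨S, hS, hOS⟩ := (isTopologicalBasis_isClopen (X := Y)).open_eq_sUnion hO
  obtain ⟨T, hT, hTS, hTU⟩ := isOpen_sUnion_countable S fun s hs => (hS hs).isOpen
  obtain ⟨C, hC⟩ := (hT.insert ∅).exists_eq_range (insert_nonempty _ _)
  have hCc : ∀ n, IsClopen (C n) := by
    intro n
    have h1 : C n ∈ insert ∅ T := by rw [hC]; exact mem_range_self n
    rcases h1 with h1 | h1
    · rw [h1]; exact isClopen_empty
    · exact hS (hTS h1)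
  have hU : O = ⋃ n, C n := by
    rw [hOS, ← hTU]
    ext x
    rw [mem_sUnion, mem_iUnion]
    constructor
    · rintro ⟨t, ht, hx⟩
      have h1 : t ∈ range C := by rw [← hC]; exact mem_insert_of_mem _ ht
      obtain ⟨n, rfl⟩ := h1
      exact ⟨n, hx⟩
    · rintro ⟨n, hx⟩
      have h1 : C n ∈ insert ∅ T := by rw [hC]; exact mem_range_self n
      rcases h1 with h1 | h1
      · rw [h1] at hx; exact absurd hx (notMem_empty x)
      · exact ⟨_, h1, hx⟩
  refine ⟨fun n => C n \ ⋃ k, ⋃ (_ : k < n), C k, ?_, ?_, ?_⟩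
  · intro n
    refine (hCc n).diff ?_
    exact (Set.finite_lt_nat n).isClopen_biUnion fun k _ => hCc k
  · intro m n x hm hn
    rcases lt_trichotomy m n with h | h | h
    · exact absurd (mem_iUnion₂.2 ⟨m, h, hm.1⟩) hn.2
    · exact h
    · exact absurd (mem_iUnion₂.2 ⟨n, h, hn.1⟩) hm.2
  · rw [hU]
    ext x
    rw [mem_iUnion, mem_iUnion]
    constructor
    · intro hx
      classical
      refine ⟨Nat.find hx, Nat.find_spec hx, ?_⟩
      rw [mem_iUnion₂]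
      rintro ⟨k, hk, hxk⟩
      exact Nat.find_min hx hk hxk
    · rintro ⟨n, hn⟩
      exact ⟨n, hn.1⟩

theorem sec_clopen {Z Ω : Type} [TopologicalSpace Z] [TopologicalSpace Ω] (P : Set (Z × Ω))
    (hP : IsClopen P) (z : Z) : IsClopen {x | (z, x) ∈ P} :=
  hP.preimage (Continuous.prodMk_right z)

theorem sec_image {Z : Type} [TopologicalSpace Z] (N : ℕ → ℕ) (lam : Measure (∀ k, Fin (N k)))
    (hlaminv : ∀ S : Set (∀ k, Fin (N k)), MeasurableSet S →
      ∀ f : (∀ k, Fin (N k)) → ∀ k, Fin (N k), Measurable f → InjOn f S →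
      (∀ x ∈ S, ∃ k, ∀ i, k ≤ i → x i = f x i) → lam (f '' S) = lam S)
    (T : (Z × ∀ k, Fin (N k)) ≃ₜ (Z × ∀ k, Fin (N k)))
    (hT : ∀ p, p.1 = (T p).1 ∧ ∃ k, ∀ i, k ≤ i → p.2 i = (T p).2 i)
    (R : Set (Z × ∀ k, Fin (N k))) (hR : IsClopen R) (z : Z) :
    lam {x | (z, x) ∈ T '' R} = lam {x | (z, x) ∈ R} := by
  have h1 : {x | (z, x) ∈ T '' R} = (fun x => (T (z, x)).2) '' {x | (z, x) ∈ R} := by
    ext y
    constructor
    · rintro ⟨⟨z', x⟩, hx, hxy⟩
      have h2 := (hT (z', x)).1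
      rw [hxy] at h2
      have h3 : z' = z := h2
      subst h3
      exact ⟨x, hx, by show (T (z', x)).2 = y; rw [hxy]⟩
    · rintro ⟨x, hx, hxy⟩
      refine ⟨(z, x), hx, ?_⟩
      have h2 := (hT (z, x)).1
      exact Prod.ext h2.symm hxy
  rw [h1]
  refine hlaminv _ (sec_clopen R hR z).isOpen.measurableSet _ ?_ ?_ ?_
  · exact (continuous_snd.comp (T.continuous.comp (Continuous.prodMk_right z))).measurable
  · intro x _ y _ hxy
    have h2 : T (z, x) = T (z, y) := Prod.ext ((hT (z, x)).1.symm.trans (hT (z, y)).1) hxy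
    exact (Prod.ext_iff.1 (T.injective h2)).2
  · intro x _
    exact (hT (z, x)).2

/-- injection of an open set with small fibres into a clopen set with constant fibre measure -/
theorem inject_open {Z : Type} [TopologicalSpace Z] [CompactSpace Z]
    [TopologicalSpace.MetrizableSpace Z] [TotallyDisconnectedSpace Z] [MeasurableSpace Z]
    [BorelSpace Z] (N : ℕ → ℕ) (lam : Measure (∀ k, Fin (N k)))
    [IsProbabilityMeasure lam]
    (hlaminv : ∀ S : Set (∀ k, Fin (N k)), MeasurableSet S →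
      ∀ f : (∀ k, Fin (N k)) → ∀ k, Fin (N k), Measurable f → InjOn f S →
      (∀ x ∈ S, ∃ k, ∀ i, k ≤ i → x i = f x i) → lam (f '' S) = lam S)
    (hcmp : ∀ P Q : Set (Z × ∀ k, Fin (N k)), IsClopen P → IsClopen Q →
      (∀ z, lam {x | (z, x) ∈ P} ≤ lam {x | (z, x) ∈ Q}) →
      ∃ T : (Z × ∀ k, Fin (N k)) ≃ₜ (Z × ∀ k, Fin (N k)),
        (∀ p, p.1 = (T p).1 ∧ ∃ k, ∀ i, k ≤ i → p.2 i = (T p).2 i) ∧ T '' P ⊆ Q)
    (O V : Set (Z × ∀ k, Fin (N k))) (hO : IsOpen O) (hV : IsClopen V)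
    (hOV : ∀ z, lam {x | (z, x) ∈ O} ≤ lam {x | (z, x) ∈ V}) :
    ∃ g : (Z × ∀ k, Fin (N k)) → (Z × ∀ k, Fin (N k)), Measurable g ∧ MapsTo g O V ∧
      InjOn g O ∧ ∀ p, p.1 = (g p).1 ∧ ∃ k, ∀ i, k ≤ i → p.2 i = (g p).2 i := by
  have hsc : SecondCountableTopology Z := by
    let := TopologicalSpace.metrizableSpaceMetric Z
    infer_instance
  obtain ⟨R, hR, hRd, hRO⟩ := open_clopen O hO
  let A : ℕ → Set (Z × ∀ k, Fin (N k)) := fun l => ⋃ k, ⋃ (_ : k < l), R k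
  have hAc : ∀ l, IsClopen (A l) := fun l => (Set.finite_lt_nat l).isClopen_biUnion fun k _ => hR k
  have hAO : ∀ l, A l ⊆ O := by
    intro l x hx
    rw [mem_iUnion₂] at hx
    obtain ⟨k, _, hx⟩ := hx
    rw [hRO]
    exact mem_iUnion.2 ⟨k, hx⟩
  have hAsucc : ∀ l, A (l + 1) = A l ∪ R l := by
    intro l
    ext x
    simp only [A, mem_union, mem_iUnion₂, Nat.lt_succ_iff_lt_or_eq]
    constructor
    · rintro ⟨k, hk | rfl, hx⟩
      · exact Or.inl ⟨k, hk, hx⟩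
      · exact Or.inr hx
    · rintro (⟨k, hk, hx⟩ | hx)
      · exact ⟨k, Or.inl hk, hx⟩
      · exact ⟨l, Or.inr rfl, hx⟩
  have hAR : ∀ l, Disjoint (A l) (R l) := by
    intro l
    rw [Set.disjoint_left]
    intro x hx hx2
    rw [mem_iUnion₂] at hx
    obtain ⟨k, hk, hx⟩ := hx
    have := hRd k l x hx hx2
    omega
  have hsecU : ∀ (P Q : Set (Z × ∀ k, Fin (N k))) (z : Z), IsClopen Q → Disjoint P Q →
      lam {x | (z, x) ∈ P ∪ Q} = lam {x | (z, x) ∈ P} + lam {x | (z, x) ∈ Q} := by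
    intro P Q z hQ hPQ
    have h1 : {x | (z, x) ∈ P ∪ Q} = {x | (z, x) ∈ P} ∪ {x | (z, x) ∈ Q} := rfl
    rw [h1]
    refine measure_union ?_ (sec_clopen Q hQ z).isOpen.measurableSet
    rw [Set.disjoint_left] at hPQ ⊢
    intro x hx hx2
    exact hPQ hx hx2
  let Cond : ℕ → Set (Z × ∀ k, Fin (N k)) → Prop := fun l W =>
    IsClopen W ∧ W ⊆ V ∧ ∀ z, lam {x | (z, x) ∈ W} = lam {x | (z, x) ∈ A l}
  have step : ∀ (l : ℕ) (W : Set (Z × ∀ k, Fin (N k))), Cond l W →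
      ∃ T : (Z × ∀ k, Fin (N k)) ≃ₜ (Z × ∀ k, Fin (N k)),
        (∀ p, p.1 = (T p).1 ∧ ∃ k, ∀ i, k ≤ i → p.2 i = (T p).2 i) ∧ T '' (R l) ⊆ V \ W ∧
        Cond (l + 1) (W ∪ T '' (R l)) := by
    rintro l W ⟨hW1, hW2, hW3⟩
    obtain ⟨T, hT, hTR⟩ := hcmp (R l) (V \ W) (hR l) (hV.diff hW1) (by
      intro z
      have h1 : {x | (z, x) ∈ V \ W} = {x | (z, x) ∈ V} \ {x | (z, x) ∈ W} := rfl
      have h2 : {x | (z, x) ∈ W} ⊆ {x | (z, x) ∈ V} := fun x hx => hW2 hx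
      have h3 : NullMeasurableSet {x | (z, x) ∈ W} lam :=
        (sec_clopen W hW1 z).isOpen.measurableSet.nullMeasurableSet
      rw [h1, measure_sdiff h2 h3 (measure_ne_top _ _), hW3 z]
      refine ENNReal.le_sub_of_add_le_left (measure_ne_top _ _) ?_
      rw [← hsecU _ _ z (hR l) (hAR l), ← hAsucc]
      have h4 : {x | (z, x) ∈ A (l + 1)} ⊆ {x | (z, x) ∈ O} := fun x hx => hAO _ hx
      exact (measure_mono h4).trans (hOV z))
    have himc : IsClopen (T '' (R l)) :=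
      ⟨T.isClosed_image.2 (hR l).isClosed, T.isOpen_image.2 (hR l).isOpen⟩
    refine ⟨T, hT, hTR, hW1.union himc, union_subset hW2 (hTR.trans sdiff_subset), ?_⟩
    intro z
    rw [hsecU _ _ z himc (Set.disjoint_left.2 fun x hx hx2 => (hTR hx2).2 hx), hW3 z, hAsucc,
      hsecU _ _ z (hR l) (hAR l), sec_image N lam hlaminv T hT (R l) (hR l) z]
  choose T hT hTR hTC using step
  have h0 : Cond 0 ∅ := by
    refine ⟨isClopen_empty, empty_subset _, ?_⟩
    intro z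
    have : A 0 = ∅ := by
      ext x
      simp [A]
    rw [this]
  let W : (l : ℕ) → {W : Set (Z × ∀ k, Fin (N k)) // Cond l W} := fun l =>
    Nat.rec ⟨∅, h0⟩ (fun l W => ⟨W.1 ∪ T l W.1 W.2 '' (R l), hTC l W.1 W.2⟩) l
  let Tl : ℕ → (Z × ∀ k, Fin (N k)) ≃ₜ (Z × ∀ k, Fin (N k)) := fun l => T l (W l).1 (W l).2
  have hWs : ∀ l, (W (l + 1)).1 = (W l).1 ∪ Tl l '' (R l) := fun l => rfl
  have hWm : ∀ m n, m ≤ n → (W m).1 ⊆ (W n).1 := by
    intro m n h
    induction h with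
    | refl => exact subset_rfl
    | step _ ih => exact ih.trans (by rw [Nat.succ_eq_add_one, hWs]; exact subset_union_left)
  have hTlR : ∀ l, Tl l '' (R l) ⊆ V \ (W l).1 := fun l => hTR l (W l).1 (W l).2
  have hTlrel : ∀ l p, p.1 = (Tl l p).1 ∧ ∃ k, ∀ i, k ≤ i → p.2 i = (Tl l p).2 i :=
    fun l => hT l (W l).1 (W l).2
  obtain ⟨g, hg, hgR, hgid⟩ := glue R (fun n => (hR n).isOpen.measurableSet) hRd (fun l => Tl l)
    (fun l => (Tl l).continuous.measurable)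
  refine ⟨g, hg, ?_, ?_, ?_⟩
  · intro p hp
    rw [hRO, mem_iUnion] at hp
    obtain ⟨l, hl⟩ := hp
    rw [hgR l p hl]
    exact (hTlR l ⟨p, hl, rfl⟩).1
  · intro p hp q hq hpq
    rw [hRO, mem_iUnion] at hp hq
    obtain ⟨l, hl⟩ := hp
    obtain ⟨m, hm⟩ := hq
    rw [hgR l p hl, hgR m q hm] at hpq
    rcases lt_trichotomy l m with h | h | h
    · exfalso
      apply (hTlR m ⟨q, hm, rfl⟩).2
      rw [← hpq]
      apply hWm _ _ (Nat.succ_le_of_lt h)
      rw [Nat.succ_eq_add_one, hWs]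
      exact Or.inr ⟨p, hl, rfl⟩
    · subst h
      exact (Tl l).injective hpq
    · exfalso
      apply (hTlR l ⟨p, hl, rfl⟩).2
      rw [hpq]
      apply hWm _ _ (Nat.succ_le_of_lt h)
      rw [Nat.succ_eq_add_one, hWs]
      exact Or.inr ⟨q, hm, rfl⟩
  · intro p
    by_cases hp : ∃ l, p ∈ R l
    · obtain ⟨l, hl⟩ := hp
      rw [hgR l p hl]
      exact hTlrel l p
    · push Not at hp
      rw [hgid p hp]
      exact ⟨rfl, 0, fun _ _ => rfl⟩

/-- JOB STAB: a fibrewise null set is compressible inside the AF relation. -/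
theorem af_stable {Z : Type} [TopologicalSpace Z] [CompactSpace Z]
    [TopologicalSpace.MetrizableSpace Z] [TotallyDisconnectedSpace Z] [MeasurableSpace Z]
    [BorelSpace Z] (N : ℕ → ℕ) (hN : ∀ k, 2 ≤ N k) (lam : Measure (∀ k, Fin (N k)))
    [IsProbabilityMeasure lam]
    (hlam : ∀ (k : ℕ) (u : ∀ k, Fin (N k)),
      lam {x | ∀ i, i < k → x i = u i} = (∏ i ∈ Finset.range k, (N i : ENNReal))⁻¹)
    -- the conclusion of job LAMINV:
    (hlaminv : ∀ S : Set (∀ k, Fin (N k)), MeasurableSet S →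
      ∀ f : (∀ k, Fin (N k)) → ∀ k, Fin (N k), Measurable f → InjOn f S →
      (∀ x ∈ S, ∃ k, ∀ i, k ≤ i → x i = f x i) → lam (f '' S) = lam S)
    -- the conclusion of job AF1:
    (hcmp : ∀ P Q : Set (Z × ∀ k, Fin (N k)), IsClopen P → IsClopen Q →
      (∀ z, lam {x | (z, x) ∈ P} ≤ lam {x | (z, x) ∈ Q}) →
      ∃ T : (Z × ∀ k, Fin (N k)) ≃ₜ (Z × ∀ k, Fin (N k)),
        (∀ p, p.1 = (T p).1 ∧ ∃ k, ∀ i, k ≤ i → p.2 i = (T p).2 i) ∧ T '' P ⊆ Q)
    (S : Set (Z × ∀ k, Fin (N k)))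
    (hS : ∀ ε : ENNReal, 0 < ε → ∃ O : Set (Z × ∀ k, Fin (N k)), IsOpen O ∧ S ⊆ O ∧
      ∀ z, lam {x | (z, x) ∈ O} ≤ ε) :
    ∃ st : (Z × ∀ k, Fin (N k)) → ℕ → (Z × ∀ k, Fin (N k)),
      (∀ n, Measurable fun p => st p n) ∧
      (∀ p ∈ S, ∀ n, p.1 = (st p n).1 ∧ ∃ k, ∀ i, k ≤ i → p.2 i = (st p n).2 i) ∧
      ∀ p ∈ S, ∀ q ∈ S, ∀ m n, st p m = st q n → p = q ∧ m = n := by
  classical
  let u : ℕ → ∀ k, Fin (N k) := fun n k =>
    if k = n then ⟨1, hN k⟩ else ⟨0, lt_of_lt_of_le two_pos (hN k)⟩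
  let V : ℕ → Set (Z × ∀ k, Fin (N k)) := fun n => {p | ∀ i, i < n + 1 → p.2 i = u n i}
  have hVc : ∀ n, IsClopen (V n) := by
    intro n
    have h1 : V n = ⋂ i, ⋂ (_ : i < n + 1), {p : Z × ∀ k, Fin (N k) | p.2 i = u n i} := by
      ext p
      simp [V]
    rw [h1]
    refine (Set.finite_lt_nat (n + 1)).isClopen_biInter fun i _ => ?_
    have h2 : IsClopen ({u n i} : Set (Fin (N i))) := isClopen_discrete _
    exact h2.preimage ((continuous_apply i).comp continuous_snd)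
  have hVd : ∀ m n p, p ∈ V m → p ∈ V n → m = n := by
    have key : ∀ m n p, m < n → p ∈ V m → p ∉ V n := by
      intro m n p h hm hn
      have h1 := hm m (by omega)
      have h2 := hn m (by omega)
      rw [h1] at h2
      simp only [u, if_pos, if_neg h.ne] at h2
      have := congrArg Fin.val h2
      simp at this
    intro m n p hm hn
    rcases lt_trichotomy m n with h | h | h
    · exact absurd hn (key m n p h hm)
    · exact h
    · exact absurd hm (key n m p h hn)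
  have hVm : ∀ n z, lam {x | (z, x) ∈ V n} = (∏ i ∈ Finset.range (n + 1), (N i : ENNReal))⁻¹ :=
    fun n z => hlam (n + 1) (u n)
  have hpos : ∀ n, (0 : ENNReal) < (∏ i ∈ Finset.range (n + 1), (N i : ENNReal))⁻¹ := by
    intro n
    rw [ENNReal.inv_pos]
    exact ENNReal.prod_ne_top fun i _ => ENNReal.natCast_ne_top _
  have hex : ∀ n, ∃ g : (Z × ∀ k, Fin (N k)) → (Z × ∀ k, Fin (N k)), Measurable g ∧
      MapsTo g S (V n) ∧ InjOn g S ∧
      ∀ p, p.1 = (g p).1 ∧ ∃ k, ∀ i, k ≤ i → p.2 i = (g p).2 i := by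
    intro n
    obtain ⟨O, hO, hSO, hOm⟩ := hS _ (hpos n)
    obtain ⟨g, hg, hg1, hg2, hg3⟩ := inject_open N lam hlaminv hcmp O (V n) hO (hVc n)
      (fun z => by rw [hVm n z]; exact hOm z)
    exact ⟨g, hg, hg1.mono_left hSO, hg2.mono hSO, hg3⟩
  choose g hg hg1 hg2 hg3 using hex
  refine ⟨fun p n => g n p, hg, fun p _ n => hg3 n p, ?_⟩
  intro p hp q hq m n h
  have h1 := hg1 m hp
  have h2 := hg1 n hq
  have h' : g m p = g n q := h
  rw [h'] at h1
  have hmn := hVd m n _ h1 h2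
  subst hmn
  exact ⟨hg2 m hp hq h', rfl⟩

end Pool.Agent.TH858.CR
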