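import Mathlib

set_option autoImplicit false

namespace Pool.Agent.TH858.CR

open Set MeasureTheory

namespace Tail

/-- the word `x[j, j+n)` -/
def seg (x : ℕ → Bool) (j n : ℕ) : List Bool := (List.range n).map fun i => x (j + i)

theorem seg_succ (x : ℕ → Bool) (j n : ℕ) : seg x j (n + 1) = seg x j n ++ [x (j + n)] := by
  simp [seg, List.range_succ]

theorem seg_zero (x : ℕ → Bool) (j : ℕ) : seg x j 0 = [] := rfl

theorem seg_length (x : ℕ → Bool) (j n : ℕ) : (seg x j n).length = n := by simp [seg]

theorem seg_eq_iff (x y : ℕ → Bool) (j k n : ℕ) :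
    seg x j n = seg y k n ↔ ∀ i, i < n → x (j + i) = y (k + i) := by
  unfold seg
  rw [List.map_inj_left]
  simp

/-- `u` occurs infinitely often in `x` -/
def Inf (x : ℕ → Bool) (u : List Bool) : Prop := ∀ k, ∃ j, k ≤ j ∧ seg x j u.length = u

open Classical in
/-- the lexicographically least word of length `n` occurring infinitely often -/
noncomputable def W (x : ℕ → Bool) : ℕ → List Bool
  | 0 => []
  | n + 1 => W x n ++ [if Inf x (W x n ++ [false]) then false else true]

open Classical in
/-- the limit of these words -/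
noncomputable def w (x : ℕ → Bool) (n : ℕ) : Bool :=
  if Inf x (W x n ++ [false]) then false else true

theorem W_succ (x : ℕ → Bool) (n : ℕ) : W x (n + 1) = W x n ++ [w x n] := rfl

theorem W_eq (x : ℕ → Bool) (n : ℕ) : W x n = seg (w x) 0 n := by
  induction n with
  | zero => rfl
  | succ n ih => rw [W_succ, seg_succ, ih, zero_add]

theorem W_length (x : ℕ → Bool) (n : ℕ) : (W x n).length = n := by
  rw [W_eq, seg_length]

theorem Inf_W (x : ℕ → Bool) (n : ℕ) : Inf x (W x n) := by
  induction n with
  | zero => exact fun k => ⟨k, le_rfl, rfl⟩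
  | succ n ih =>
    rw [W_succ]
    by_cases h : Inf x (W x n ++ [false])
    · have : w x n = false := if_pos h
      rw [this]
      exact h
    · have hw : w x n = true := if_neg h
      rw [hw]
      unfold Inf at h
      push Not at h
      obtain ⟨k0, hk0⟩ := h
      intro k
      obtain ⟨j, hj, hjs⟩ := ih (max k k0)
      refine ⟨j, le_trans (le_max_left _ _) hj, ?_⟩
      have h1 := hk0 j (le_trans (le_max_right _ _) hj)
      rw [List.length_append, List.length_singleton, seg_succ, hjs] at h1 ⊢
      cases hx : x (j + (W x n).length) with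
      | false => rw [hx] at h1; exact absurd rfl h1
      | true => rfl

theorem Inf_tail {x y : ℕ → Bool} {m m' : ℕ} (h : ∀ i, x (m + i) = y (m' + i)) (u : List Bool)
    (hu : Inf x u) : Inf y u := by
  intro k
  obtain ⟨j, hj, hjs⟩ := hu (m + k)
  obtain ⟨j', rfl⟩ : ∃ j', j = m + j' := ⟨j - m, by omega⟩
  refine ⟨m' + j', by omega, ?_⟩
  rw [← hjs, seg_length, seg_eq_iff]
  intro i _
  rw [add_assoc, add_assoc, h]

theorem W_tail {x y : ℕ → Bool} {m m' : ℕ} (h : ∀ i, x (m + i) = y (m' + i)) (n : ℕ) :
    W x n = W y n := by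
  have hI : ∀ u, Inf x u ↔ Inf y u := fun u =>
    ⟨Inf_tail h u, Inf_tail (fun i => (h i).symm) u⟩
  induction n with
  | zero => rfl
  | succ n ih =>
    have h1 : w x n = w y n := by
      unfold w
      rw [ih]
      by_cases h2 : Inf x (W y n ++ [false])
      · rw [if_pos h2, if_pos ((hI _).1 h2)]
      · rw [if_neg h2, if_neg (fun h' => h2 ((hI _).2 h'))]
    rw [W_succ, W_succ, ih, h1]

theorem w_tail {x y : ℕ → Bool} {m m' : ℕ} (h : ∀ i, x (m + i) = y (m' + i)) : w x = w y := by
  funext n
  have h1 := W_tail h (n + 1)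
  rw [W_succ, W_succ, W_tail h n] at h1
  simpa using h1

theorem w_of_W {x y : ℕ → Bool} {N : ℕ} (h : ∀ n, N ≤ n → W x n = W y n) : w x = w y := by
  funext i
  have h1 := h (N + i + 1) (by omega)
  rw [W_eq, W_eq, seg_eq_iff] at h1
  have := h1 i (by omega)
  simpa using this

/-- `x` is tail equivalent to `w x` -/
def B (x : ℕ → Bool) : Prop := ∃ m n, ∀ i, x (m + i) = w x (n + i)

theorem B_tail {x y : ℕ → Bool} {m m' : ℕ} (h : ∀ i, x (m + i) = y (m' + i)) (hx : B x) :
    B y := by
  obtain ⟨a, b, hab⟩ := hx
  refine ⟨m' + a, m + b, fun i => ?_⟩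
  rw [← w_tail h]
  have h1 := hab (m + i)
  have h2 := h (a + i)
  rw [show a + (m + i) = m + (a + i) by ring, h2] at h1
  rw [show m' + a + i = m' + (a + i) by ring, h1]
  congr 1
  ring

theorem exK (x : ℕ → Bool) (n : ℕ) : ∃ k, seg x k n = W x n := by
  obtain ⟨j, _, hj⟩ := Inf_W x n 0
  rw [W_length] at hj
  exact ⟨j, hj⟩

open Classical in
/-- the first occurrence of `W x n` -/
noncomputable def K (x : ℕ → Bool) (n : ℕ) : ℕ := Nat.find (exK x n)

theorem K_spec (x : ℕ → Bool) (n : ℕ) : seg x (K x n) n = W x n := by
  classical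
  exact Nat.find_spec (exK x n)

theorem K_le {x : ℕ → Bool} {n k : ℕ} (h : seg x k n = W x n) : K x n ≤ k := by
  classical
  exact Nat.find_min' (exK x n) h

theorem K_zero (x : ℕ → Bool) : K x 0 = 0 := by
  have : K x 0 ≤ 0 := K_le rfl
  omega

theorem K_mono (x : ℕ → Bool) (n : ℕ) : K x n ≤ K x (n + 1) := by
  apply K_le
  have h := K_spec x (n + 1)
  rw [W_eq, seg_eq_iff] at h ⊢
  exact fun i hi => h i (by omega)

theorem K_mono' (x : ℕ → Bool) {m n : ℕ} (h : m ≤ n) : K x m ≤ K x n := monotone_nat_of_le_succ (K_mono x) h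

theorem K_unbounded {x : ℕ → Bool} (hx : ¬ B x) (L : ℕ) : ∃ n, L ≤ K x n := by
  have h1 : ∀ k, ∃ i, x (k + i) ≠ w x i := by
    intro k
    by_contra hc
    push Not at hc
    exact hx ⟨k, 0, fun i => by rw [zero_add]; exact hc i⟩
  choose f hf using h1
  refine ⟨(Finset.range L).sup (fun k => f k + 1), ?_⟩
  by_contra hc
  push Not at hc
  have h2 := K_spec x ((Finset.range L).sup (fun k => f k + 1))
  rw [W_eq, seg_eq_iff] at h2
  have h3 : f (K x ((Finset.range L).sup (fun k => f k + 1))) <
      (Finset.range L).sup (fun k => f k + 1) := by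
    have := Finset.le_sup (f := fun k => f k + 1) (Finset.mem_range.2 hc)
    exact this
  have h4 := h2 _ h3
  rw [zero_add] at h4
  exact hf _ h4

/-- the word between the first occurrences -/
noncomputable def v (x : ℕ → Bool) (n : ℕ) : List Bool := seg x (K x n) (K x (n + 1) - K x n)

theorem concat {x y : ℕ → Bool} (hx : ¬ B x) {N : ℕ} (h : ∀ n, N ≤ n → v x n = v y n) :
    ∀ i, x (K x N + i) = y (K y N + i) := by
  have key : ∀ n, K x (N + n) - K x N = K y (N + n) - K y N ∧
      ∀ i, i < K x (N + n) - K x N → x (K x N + i) = y (K y N + i) := by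
    intro n
    induction n with
    | zero => simp
    | succ n ih =>
      obtain ⟨ih1, ih2⟩ := ih
      have h1 := h (N + n) (by omega)
      have hlen := congrArg List.length h1
      unfold v at hlen h1
      rw [seg_length, seg_length] at hlen
      rw [hlen, seg_eq_iff] at h1
      have e1 := K_mono' x (show N ≤ N + n by omega)
      have e2 := K_mono' y (show N ≤ N + n by omega)
      have e3 := K_mono x (N + n)
      have e4 := K_mono y (N + n)
      rw [← add_assoc]
      refine ⟨by omega, fun i hi => ?_⟩
      by_cases hlt : i < K x (N + n) - K x N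
      · exact ih2 i hlt
      · have h2 := h1 (i - (K x (N + n) - K x N)) (by omega)
        have e5 : K x (N + n) + (i - (K x (N + n) - K x N)) = K x N + i := by omega
        have e6 : K y (N + n) + (i - (K x (N + n) - K x N)) = K y N + i := by omega
        rwa [e5, e6] at h2
  intro i
  obtain ⟨n, hn⟩ := K_unbounded hx (K x N + i + 1)
  have h1 := K_mono' x (show n ≤ N + n by omega)
  exact (key n).2 i (by omega)

theorem K_tail {x y : ℕ → Bool} {m m' : ℕ} (h : ∀ i, x (m + i) = y (m' + i)) {n : ℕ}
    (hx : m ≤ K x n) (hy : m' ≤ K y n) : K x n - m = K y n - m' := by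
  have key : ∀ {x y : ℕ → Bool} {m m' : ℕ}, (∀ i, x (m + i) = y (m' + i)) →
      m ≤ K x n → m' ≤ K y n → K y n - m' ≤ K x n - m := by
    intro x y m m' h hx hy
    have h1 := K_spec x n
    have h2 : K y n ≤ m' + (K x n - m) := by
      apply K_le
      rw [← W_tail h, ← h1, seg_eq_iff]
      intro i _
      rw [add_assoc, ← h]
      congr 1
      omega
    omega
  exact le_antisymm (key (fun i => (h i).symm) hy hx) (key h hx hy)

theorem v_tail {x y : ℕ → Bool} {m m' : ℕ} (h : ∀ i, x (m + i) = y (m' + i)) {n : ℕ}
    (hx : m ≤ K x n) (hy : m' ≤ K y n) : v x n = v y n := by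
  have h1 := K_tail h hx hy
  have h2 := K_tail h (hx.trans (K_mono x n)) (hy.trans (K_mono y n))
  have e3 := K_mono x n
  have e4 := K_mono y n
  unfold v
  have e5 : K x (n + 1) - K x n = K y (n + 1) - K y n := by omega
  rw [e5, seg_eq_iff]
  intro i _
  have h3 := h (K x n - m + i)
  have e6 : m + (K x n - m + i) = K x n + i := by omega
  have e7 : m' + (K x n - m + i) = K y n + i := by omega
  rwa [e6, e7] at h3

open Classical in
theorem exq (x : ℕ → Bool) :
    ∃ q : ℕ, ¬ B x ∨ ∀ i, x ((Nat.unpair q).1 + i) = w x ((Nat.unpair q).2 + i) := by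
  by_cases hx : B x
  · obtain ⟨m, n, h⟩ := hx
    refine ⟨Nat.pair m n, Or.inr ?_⟩
    rw [Nat.unpair_pair]
    exact h
  · exact ⟨0, Or.inl hx⟩

open Classical in
/-- the position of the tail of `w x` in `x` -/
noncomputable def q (x : ℕ → Bool) : ℕ := Nat.find (exq x)

theorem q_spec {x : ℕ → Bool} (hx : B x) :
    ∀ i, x ((Nat.unpair (q x)).1 + i) = w x ((Nat.unpair (q x)).2 + i) := by
  classical
  rcases Nat.find_spec (exq x) with h | h
  · exact absurd hx h
  · exact h

open Classical in
/-- the code -/
noncomputable def c (x : ℕ → Bool) (n : ℕ) : ℕ :=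
  if B x then
    Encodable.encode ((true, W x n, if n = 0 then (q x, seg x 0 (Nat.unpair (q x)).1) else (0, [])) :
      Bool × List Bool × ℕ × List Bool)
  else Encodable.encode ((false, v x n, (0, [])) : Bool × List Bool × ℕ × List Bool)

theorem c_inj {x y : ℕ → Bool} {n : ℕ} (h : c x n = c y n) :
    (B x ∧ B y ∧ W x n = W y n ∧ (n = 0 → q x = q y ∧
      seg x 0 (Nat.unpair (q x)).1 = seg y 0 (Nat.unpair (q y)).1)) ∨
    (¬ B x ∧ ¬ B y ∧ v x n = v y n) := by
  unfold c at h
  by_cases hx : B x
  · by_cases hy : B y
    · left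
      rw [if_pos hx, if_pos hy] at h
      have h1 := Encodable.encode_injective h
      simp only [Prod.mk.injEq, true_and] at h1
      refine ⟨hx, hy, h1.1, fun hn => ?_⟩
      subst hn
      simpa using h1.2
    · rw [if_pos hx, if_neg hy] at h
      have h1 := Encodable.encode_injective h
      simp at h1
  · by_cases hy : B y
    · rw [if_neg hx, if_pos hy] at h
      have h1 := Encodable.encode_injective h
      simp at h1
    · right
      rw [if_neg hx, if_neg hy] at h
      have h1 := Encodable.encode_injective h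
      simp only [Prod.mk.injEq, true_and, and_true] at h1
      exact ⟨hx, hy, h1⟩

theorem c_injective : Function.Injective c := by
  intro x y h
  have h0 := c_inj (congrFun h 0)
  rcases h0 with ⟨hx, hy, _, h1⟩ | ⟨hx, hy, _⟩
  · obtain ⟨hq, hs⟩ := h1 rfl
    have hw : w x = w y := by
      apply w_of_W (N := 0)
      intro n _
      rcases c_inj (congrFun h n) with h2 | h2
      · exact h2.2.2.1
      · exact absurd hx h2.1
    have hsx := q_spec hx
    have hsy := q_spec hy
    rw [← hq] at hsy hs
    rw [seg_eq_iff] at hs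
    funext i
    by_cases hi : i < (Nat.unpair (q x)).1
    · have := hs i hi
      rwa [zero_add] at this
    · obtain ⟨j, rfl⟩ : ∃ j, i = (Nat.unpair (q x)).1 + j := ⟨i - (Nat.unpair (q x)).1, by omega⟩
      rw [hsx, hsy, hw]
  · have h1 : ∀ n, 0 ≤ n → v x n = v y n := by
      intro n _
      rcases c_inj (congrFun h n) with h2 | h2
      · exact absurd h2.1 hx
      · exact h2.2.2
    have h2 := concat hx h1
    funext i
    have := h2 i
    rwa [K_zero, K_zero, zero_add] at this

theorem c_red (x y : ℕ → Bool) : (∃ m n, ∀ i, x (m + i) = y (n + i)) ↔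
      ∃ N, ∀ n, N ≤ n → c x n = c y n := by
  constructor
  · rintro ⟨m, m', h⟩
    by_cases hx : B x
    · have hy := B_tail h hx
      refine ⟨1, fun n hn => ?_⟩
      unfold c
      rw [if_pos hx, if_pos hy, if_neg (by omega), if_neg (by omega), W_tail h]
    · have hy : ¬ B y := fun hy => hx (B_tail (fun i => (h i).symm) hy)
      obtain ⟨n1, hn1⟩ := K_unbounded hx m
      obtain ⟨n2, hn2⟩ := K_unbounded hy m'
      refine ⟨max n1 n2, fun n hn => ?_⟩
      unfold c
      rw [if_neg hx, if_neg hy, v_tail h (hn1.trans (K_mono' x (le_trans (le_max_left _ _) hn)))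
        (hn2.trans (K_mono' y (le_trans (le_max_right _ _) hn)))]
  · rintro ⟨N, h⟩
    rcases c_inj (h N le_rfl) with h0 | h0
    · have hw : w x = w y := by
        apply w_of_W (N := N)
        intro n hn
        rcases c_inj (h n hn) with h2 | h2
        · exact h2.2.2.1
        · exact absurd h0.1 h2.1
      obtain ⟨a, b, hab⟩ := h0.1
      obtain ⟨a', b', hab'⟩ := h0.2.1
      refine ⟨a + b', a' + b, fun i => ?_⟩
      rw [add_assoc, add_assoc, hab, hab', hw]
      congr 1
      ring
    · have h1 : ∀ n, N ≤ n → v x n = v y n := by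
        intro n hn
        rcases c_inj (h n hn) with h2 | h2
        · exact absurd h2.1 h0.1
        · exact h2.2.2
      exact ⟨K x N, K y N, concat h0.1 h1⟩

/-! ### Measurability -/

instance : MeasurableSpace (List Bool) := ⊤
instance : DiscreteMeasurableSpace (List Bool) := ⟨fun _ => trivial⟩

theorem meas_dep {X β ι : Type} [MeasurableSpace X] [MeasurableSpace β] [MeasurableSpace ι]
    [Countable ι] [MeasurableSingletonClass ι] (k : X → ι) (hk : Measurable k)
    (F : ι → X → β) (hF : ∀ n, Measurable (F n)) : Measurable (fun x => F (k x) x) := by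
  have : Measurable fun p : X × ι => F p.2 p.1 := measurable_from_prod_countable_left fun n => hF n
  exact this.comp (measurable_id.prodMk hk)

theorem meas_seg (j n : ℕ) : Measurable (fun x : ℕ → Bool => seg x j n) := by
  induction n with
  | zero => exact measurable_const
  | succ n ih =>
    have h1 : (fun x : ℕ → Bool => seg x j (n + 1)) =
        (fun p : List Bool × Bool => p.1 ++ [p.2]) ∘ (fun x => (seg x j n, x (j + n))) := by
      funext x
      exact seg_succ x j n
    rw [h1]
    exact (measurable_of_countable _).comp (ih.prodMk (measurable_pi_apply _))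

theorem meas_Inf (u : List Bool) : MeasurableSet {x | Inf x u} := by
  have h1 : {x | Inf x u} = ⋂ k, ⋃ j, {x | k ≤ j ∧ seg x j u.length = u} := by
    ext x
    simp [Inf]
  rw [h1]
  refine MeasurableSet.iInter fun k => MeasurableSet.iUnion fun j => ?_
  exact (MeasurableSet.const _).inter ((meas_seg j u.length) (MeasurableSet.singleton u))

open Classical in
theorem meas_W (n : ℕ) : Measurable (fun x => W x n) := by
  induction n with
  | zero => exact measurable_const
  | succ n ih =>
    refine meas_dep (fun x => W x n) ih (fun l x => l ++ [if Inf x (l ++ [false]) then false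
      else true]) fun l => ?_
    exact (measurable_of_countable (fun b : Bool => l ++ [b])).comp
      (Measurable.ite (meas_Inf _) measurable_const measurable_const)

open Classical in
theorem meas_w (n : ℕ) : Measurable (fun x => w x n) := by
  refine meas_dep (fun x => W x n) (meas_W n) (fun l x => if Inf x (l ++ [false]) then false
      else true) fun l => ?_
  exact Measurable.ite (meas_Inf _) measurable_const measurable_const

theorem meas_B' (m n : ℕ) : MeasurableSet {x : ℕ → Bool | ∀ i, x (m + i) = w x (n + i)} := by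
  have h1 : {x : ℕ → Bool | ∀ i, x (m + i) = w x (n + i)} =
      ⋂ i, {x | x (m + i) = w x (n + i)} := by
    ext x
    simp
  rw [h1]
  exact MeasurableSet.iInter fun i => measurableSet_eq_fun (measurable_pi_apply _) (meas_w _)

theorem meas_B : MeasurableSet {x | B x} := by
  have h1 : {x | B x} = ⋃ m, ⋃ n, {x : ℕ → Bool | ∀ i, x (m + i) = w x (n + i)} := by
    ext x
    simp [B]
  rw [h1]
  exact MeasurableSet.iUnion fun m => MeasurableSet.iUnion fun n => meas_B' m n

theorem meas_K (n : ℕ) : Measurable (fun x => K x n) := by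
  classical
  refine measurable_find (fun x => exK x n) fun k => ?_
  exact measurableSet_eq_fun (meas_seg k n) (meas_W n)

theorem meas_v (n : ℕ) : Measurable (fun x => v x n) := by
  refine meas_dep (fun x => (K x n, K x (n + 1))) ((meas_K n).prodMk (meas_K (n + 1)))
    (fun p x => seg x p.1 (p.2 - p.1)) fun p => ?_
  exact meas_seg _ _

theorem meas_q : Measurable q := by
  classical
  refine measurable_find (fun x => exq x) fun k => ?_
  exact meas_B.compl.union (meas_B' _ _)

theorem meas_pre : Measurable (fun x => seg x 0 (Nat.unpair (q x)).1) := by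
  refine meas_dep q meas_q (fun k x => seg x 0 (Nat.unpair k).1) fun k => ?_
  exact meas_seg _ _

theorem meas_c : Measurable c := by
  classical
  rw [measurable_pi_iff]
  intro n
  refine Measurable.ite meas_B ?_ ?_
  · refine (measurable_of_countable
      (Encodable.encode : Bool × List Bool × ℕ × List Bool → ℕ)).comp ?_
    refine measurable_const.prodMk ((meas_W n).prodMk ?_)
    split_ifs
    · exact meas_q.prodMk meas_pre
    · exact measurable_const
  · refine (measurable_of_countable
      (Encodable.encode : Bool × List Bool × ℕ × List Bool → ℕ)).comp ?_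
    exact measurable_const.prodMk ((meas_v n).prodMk measurable_const)

end Tail

/-- JOB TAIL (the tail equivalence relation on Cantor space reduces injectively to eventual
equality on Baire space) -/
theorem tail_reduction : ∃ c : (ℕ → Bool) → (ℕ → ℕ), Measurable c ∧ Function.Injective c ∧
    ∀ x y : ℕ → Bool, (∃ m n, ∀ i, x (m + i) = y (n + i)) ↔
      ∃ N, ∀ n, N ≤ n → c x n = c y n :=
  ⟨Tail.c, Tail.meas_c, Tail.c_injective, Tail.c_red⟩

end Pool.Agent.TH858.CR
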