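import Pool.Agent.TH319.CDefs

set_option autoImplicit false

namespace Pool.Agent.TH319
open Module Filter Topology
universe u

/-- the bound for `y + i τ R y` when `R` is an almost isometric projection -/
theorem NP.toNH {Y : Type*} [NormedAddCommGroup Y] [NormedSpace ℂ Y] {ε : ℝ}
    {R : Y →ₗ[ℂ] Y} (hR : NP ε R) : NH ε R := by
  intro τ y
  set ρ : ℝ := Real.sqrt (1 + τ ^ 2) with hρ
  have hρ2 : ρ ^ 2 = 1 + τ ^ 2 := Real.sq_sqrt (by positivity)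
  have hρ0 : 0 ≤ ρ := Real.sqrt_nonneg _
  have hρ1 : 1 ≤ ρ := by nlinarith [sq_nonneg τ]
  have hρc : (ρ : ℂ) ≠ 0 := by exact_mod_cast (by linarith : ρ ≠ 0)
  set ζ : ℂ := (1 + (τ : ℂ) * Complex.I) / ρ with hζ
  have hζn : ‖ζ‖ = 1 := by
    rw [hζ, norm_div, Complex.norm_real, Real.norm_of_nonneg hρ0]
    have h1 : ‖(1 : ℂ) + (τ : ℂ) * Complex.I‖ = ρ := by
      have := Complex.norm_add_mul_I 1 τ
      rw [Complex.ofReal_one] at this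
      rw [this, hρ]
      norm_num
    rw [h1, div_self (by linarith)]
  have hmul : (ρ : ℂ) * ζ = 1 + (τ : ℂ) * Complex.I := by
    rw [hζ]; field_simp
  have h1 := hR.ph ζ hζn y
  have h2 := hR.ph (-ζ) (by rw [norm_neg, hζn]) y
  have key : y + ((τ : ℂ) * Complex.I) • R y =
      (((ρ + 1) / 2 : ℝ) : ℂ) • (y + (ζ - 1) • R y) -
        (((ρ - 1) / 2 : ℝ) : ℂ) • (y + (-ζ - 1) • R y) := by
    have e : (τ : ℂ) * Complex.I = (ρ : ℂ) * ζ - 1 := by rw [hmul]; ring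
    rw [e]
    push_cast
    module
  rw [key]
  calc ‖(((ρ + 1) / 2 : ℝ) : ℂ) • (y + (ζ - 1) • R y) -
        (((ρ - 1) / 2 : ℝ) : ℂ) • (y + (-ζ - 1) • R y)‖
      ≤ ‖(((ρ + 1) / 2 : ℝ) : ℂ) • (y + (ζ - 1) • R y)‖ +
        ‖(((ρ - 1) / 2 : ℝ) : ℂ) • (y + (-ζ - 1) • R y)‖ := norm_sub_le _ _
    _ = (ρ + 1) / 2 * ‖y + (ζ - 1) • R y‖ + (ρ - 1) / 2 * ‖y + (-ζ - 1) • R y‖ := by
        rw [norm_smul, norm_smul, Complex.norm_real, Complex.norm_real,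
          Real.norm_of_nonneg (by linarith), Real.norm_of_nonneg (by linarith)]
    _ ≤ (ρ + 1) / 2 * ((1 + ε) * ‖y‖) + (ρ - 1) / 2 * ((1 + ε) * ‖y‖) := by
        gcongr
    _ = (1 + ε) * ρ * ‖y‖ := by ring

theorem NP.refl_le {Y : Type*} [NormedAddCommGroup Y] [NormedSpace ℂ Y] {ε : ℝ}
    {P : Y →ₗ[ℂ] Y} (hP : NP ε P) (y : Y) : ‖(2 : ℂ) • P y - y‖ ≤ (1 + ε) * ‖y‖ := by
  have h := hP.ph (-1) (by simp) y
  have e : (2 : ℂ) • P y - y = -(y + ((-1 : ℂ) - 1) • P y) := by module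
  rw [e, norm_neg]
  exact h

-- J1
theorem NP.offd_NH {Y : Type*} [NormedAddCommGroup Y] [NormedSpace ℂ Y] {ε : ℝ} (hε : 0 ≤ ε)
    {P R : Y →ₗ[ℂ] Y} (hP : NP ε P) (hR : NP ε R) : NH ((1 + ε) ^ 3 - 1) (offd P R) := by
  intro τ y
  set ρ : ℝ := Real.sqrt (1 + τ ^ 2) with hρ
  have hρ0 : 0 ≤ ρ := Real.sqrt_nonneg _
  have h1 := hR.toNH τ y
  have h2 := hR.toNH (-τ) ((2 : ℂ) • P y - y)
  have h3 := hP.refl_le y
  rw [neg_sq] at h2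
  rw [← hρ] at h1 h2
  set sy : Y := (2 : ℂ) • P y - y with hsy
  set v : Y := sy + (((-τ : ℝ) : ℂ) * Complex.I) • R sy with hv
  have h4 := hP.refl_le v
  have hPs : P sy = P y := by
    rw [hsy, map_sub, map_smul, hP.idem]; module
  have key : y + ((τ : ℂ) * Complex.I) • offd P R y =
      (1 / 2 : ℂ) • ((y + ((τ : ℂ) * Complex.I) • R y) + ((2 : ℂ) • P v - v)) := by
    have e1 : offd P R y = P (R (y - P y)) + (R (P y) - P (R (P y))) := rfl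
    have e2 : P v = P y + (((-τ : ℝ) : ℂ) * Complex.I) • P (R sy) := by
      rw [hv, map_add, map_smul, hPs]
    rw [e1, e2, hv, hsy]
    simp only [map_sub, map_smul]
    push_cast
    module
  rw [key, norm_smul]
  have hhalf : ‖(1 / 2 : ℂ)‖ = 1 / 2 := by norm_num
  rw [hhalf]
  have h5 : ‖v‖ ≤ (1 + ε) * ρ * ((1 + ε) * ‖y‖) := by
    refine h2.trans ?_
    gcongr
  have h6 : ‖(2 : ℂ) • P v - v‖ ≤ (1 + ε) * ((1 + ε) * ρ * ((1 + ε) * ‖y‖)) := by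
    refine h4.trans ?_
    gcongr
  have h7 : (1 + ε) * ρ * ‖y‖ ≤ (1 + ε) ^ 3 * ρ * ‖y‖ := by
    have : (1 + ε) ≤ (1 + ε) ^ 3 := by
      have h8 : 1 ≤ 1 + ε := by linarith
      calc (1 + ε) = (1 + ε) ^ 1 := by ring
        _ ≤ (1 + ε) ^ 3 := pow_le_pow_right₀ h8 (by norm_num)
    gcongr
  calc 1 / 2 * ‖(y + ((τ : ℂ) * Complex.I) • R y) + ((2 : ℂ) • P v - v)‖
      ≤ 1 / 2 * (‖y + ((τ : ℂ) * Complex.I) • R y‖ + ‖(2 : ℂ) • P v - v‖) := by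
        gcongr; exact norm_add_le _ _
    _ ≤ 1 / 2 * ((1 + ε) * ρ * ‖y‖ + (1 + ε) * ((1 + ε) * ρ * ((1 + ε) * ‖y‖))) := by
        gcongr
    _ ≤ 1 / 2 * ((1 + ε) ^ 3 * ρ * ‖y‖ + (1 + ε) * ((1 + ε) * ρ * ((1 + ε) * ‖y‖))) := by
        gcongr
    _ = (1 + ((1 + ε) ^ 3 - 1)) * ρ * ‖y‖ := by ring

end Pool.Agent.TH319
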