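import Pool.Agent.TH319.CDefs

set_option autoImplicit false

namespace Pool.Agent.TH319
open Module Filter Topology
universe u

/-- iterates of `1 + i τ A` -/
noncomputable def itB {Y : Type*} [NormedAddCommGroup Y] [NormedSpace ℂ Y] (A : Y →ₗ[ℂ] Y)
    (τ : ℝ) : ℕ → Y → Y
  | 0, y => y
  | n + 1, y => itB A τ n y + ((τ : ℂ) * Complex.I) • A (itB A τ n y)

theorem itB_le {Y : Type*} [NormedAddCommGroup Y] [NormedSpace ℂ Y] {A : Y →ₗ[ℂ] Y} {ε : ℝ}
    (hε : 0 ≤ ε) (hA : NH ε A) (τ : ℝ) (n : ℕ) (y : Y) :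
    ‖itB A τ n y‖ ≤ ((1 + ε) * Real.sqrt (1 + τ ^ 2)) ^ n * ‖y‖ := by
  induction n with
  | zero => simp [itB]
  | succ n ih =>
    have h := hA τ (itB A τ n y)
    rw [itB]
    refine h.trans ?_
    calc (1 + ε) * Real.sqrt (1 + τ ^ 2) * ‖itB A τ n y‖
        ≤ (1 + ε) * Real.sqrt (1 + τ ^ 2) *
          (((1 + ε) * Real.sqrt (1 + τ ^ 2)) ^ n * ‖y‖) := by gcongr
      _ = _ := by ring

theorem small_coeff {Y : Type*} [NormedAddCommGroup Y] [NormedSpace ℂ Y] {A : Y →ₗ[ℂ] Y}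
    {s : ℂ} (hs : ∀ y, A (A (A y)) = s • A y) {τ : ℝ} (hτ : 0 ≤ τ) (N : ℕ)
    (hsmall : ‖s‖ * ((N : ℝ) ^ 2 * τ ^ 2) ≤ 1 / 2) :
    ∀ n ≤ N, ∃ a b : ℂ, (∀ y, itB A τ n y = y + a • A y + b • A (A y)) ∧
      (∀ y, itB A (-τ) n y = y - a • A y + b • A (A y)) ∧
      ‖b‖ ≤ (n : ℝ) ^ 2 * τ ^ 2 ∧ ‖a - (n : ℂ) * (τ * Complex.I)‖ ≤ n * τ / 2 := by
  intro n
  induction n with
  | zero =>
    intro _
    exact ⟨0, 0, fun y => by simp [itB], fun y => by simp [itB], by simp, by simp⟩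
  | succ n ih =>
    intro hn
    obtain ⟨a, b, h1, h2, h3, h4⟩ := ih (by omega)
    refine ⟨a + τ * Complex.I + τ * Complex.I * s * b, b + τ * Complex.I * a, ?_, ?_, ?_, ?_⟩
    · intro y
      rw [itB, h1]
      simp only [map_add, map_smul, hs]
      module
    · intro y
      rw [itB, h2]
      simp only [map_add, map_sub, map_smul, hs]
      push_cast
      module
    · have ha : ‖a‖ ≤ n * τ + n * τ / 2 := by
        have e : a = (n : ℂ) * (τ * Complex.I) + (a - (n : ℂ) * (τ * Complex.I)) := by ring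
        have e2 : ‖(n : ℂ) * (τ * Complex.I)‖ = n * τ := by
          rw [norm_mul, norm_mul, Complex.norm_I, Complex.norm_real, Complex.norm_natCast,
            Real.norm_of_nonneg hτ, mul_one]
        calc ‖a‖ = ‖(n : ℂ) * (τ * Complex.I) + (a - (n : ℂ) * (τ * Complex.I))‖ := by rw [← e]
          _ ≤ ‖(n : ℂ) * (τ * Complex.I)‖ + ‖a - (n : ℂ) * (τ * Complex.I)‖ := norm_add_le _ _
          _ ≤ _ := by rw [e2]; gcongr
      have hb : ‖τ * Complex.I * a‖ ≤ τ * (n * τ + n * τ / 2) := by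
        rw [norm_mul, norm_mul, Complex.norm_I, Complex.norm_real, Real.norm_of_nonneg hτ, mul_one]
        gcongr
      calc ‖b + τ * Complex.I * a‖ ≤ ‖b‖ + ‖τ * Complex.I * a‖ := norm_add_le _ _
        _ ≤ (n : ℝ) ^ 2 * τ ^ 2 + τ * (n * τ + n * τ / 2) := by gcongr
        _ ≤ (((n + 1 : ℕ) : ℝ)) ^ 2 * τ ^ 2 := by
          push_cast
          have : (0 : ℝ) ≤ n := Nat.cast_nonneg n
          nlinarith [sq_nonneg τ, mul_nonneg this (sq_nonneg τ)]
    · have hb : ‖τ * Complex.I * s * b‖ ≤ τ * (1 / 2) := by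
        rw [norm_mul, norm_mul, norm_mul, Complex.norm_I, Complex.norm_real,
          Real.norm_of_nonneg hτ, mul_one, mul_assoc]
        have h5 : ‖s‖ * ‖b‖ ≤ 1 / 2 := by
          refine le_trans ?_ hsmall
          have hnN : (n : ℝ) ≤ N := by exact_mod_cast (by omega : n ≤ N)
          gcongr
          refine h3.trans ?_
          gcongr
        gcongr
      have e : a + τ * Complex.I + τ * Complex.I * s * b -
          ((n + 1 : ℕ) : ℂ) * (τ * Complex.I) =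
          (a - (n : ℂ) * (τ * Complex.I)) + τ * Complex.I * s * b := by
        push_cast; ring
      rw [e]
      calc ‖(a - (n : ℂ) * (τ * Complex.I)) + τ * Complex.I * s * b‖
          ≤ ‖a - (n : ℂ) * (τ * Complex.I)‖ + ‖τ * Complex.I * s * b‖ := norm_add_le _ _
        _ ≤ n * τ / 2 + τ * (1 / 2) := by gcongr
        _ = ((n + 1 : ℕ) : ℝ) * τ / 2 := by push_cast; ring

theorem sqrt_pow_le (τ : ℝ) (n : ℕ) :
    (Real.sqrt (1 + τ ^ 2)) ^ n ≤ Real.exp (n * τ ^ 2 / 2) := by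
  have h1 : Real.sqrt (1 + τ ^ 2) ≤ Real.exp (τ ^ 2 / 2) := by
    rw [Real.sqrt_le_left (Real.exp_pos _).le, ← Real.exp_nat_mul]
    have := Real.add_one_le_exp (τ ^ 2)
    have e : ((2 : ℕ) : ℝ) * (τ ^ 2 / 2) = τ ^ 2 := by push_cast; ring
    rw [e]; linarith
  calc (Real.sqrt (1 + τ ^ 2)) ^ n ≤ (Real.exp (τ ^ 2 / 2)) ^ n := by gcongr
    _ = Real.exp (n * τ ^ 2 / 2) := by rw [← Real.exp_nat_mul]; ring_nf

theorem exp_half_le : Real.exp (1 / 2) ≤ 2 := by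
  have h := Real.exp_one_lt_d9
  have h2 : Real.exp (1 / 2) ^ 2 = Real.exp 1 := by
    rw [← Real.exp_nat_mul]; norm_num
  have h3 := Real.exp_pos (1 / 2)
  nlinarith

-- J3
theorem small_op (κ : ℝ) (hκ : 0 < κ) :
    ∃ s₀ > (0 : ℝ), ∃ ε₀ > (0 : ℝ), ∀ (Y : Type u) [NormedAddCommGroup Y] [NormedSpace ℂ Y]
      (A : Y →ₗ[ℂ] Y) (s : ℂ), NH ε₀ A → (∀ y, A (A (A y)) = s • A y) → ‖s‖ ≤ s₀ →
      ∀ y, ‖A y‖ ≤ κ * ‖y‖ := by
  set t : ℝ := 8 / κ with ht
  have ht0 : 0 < t := by positivity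
  obtain ⟨n, hn⟩ := exists_nat_ge (t ^ 2 + 1)
  have hn1 : (1 : ℝ) ≤ n := by nlinarith [sq_nonneg t]
  have hn0 : (0 : ℝ) < n := by linarith
  refine ⟨1 / (2 * t ^ 2), by positivity, 1 / (2 * n), by positivity, ?_⟩
  intro Y _ _ A s hA hs hs0 y
  set τ : ℝ := t / n with hτ
  have hτ0 : 0 ≤ τ := by positivity
  have hnτ : (n : ℝ) * τ = t := by rw [hτ]; field_simp
  have hsm : ‖s‖ * ((n : ℝ) ^ 2 * τ ^ 2) ≤ 1 / 2 := by
    have e : (n : ℝ) ^ 2 * τ ^ 2 = t ^ 2 := by rw [← mul_pow, hnτ]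
    rw [e]
    calc ‖s‖ * t ^ 2 ≤ 1 / (2 * t ^ 2) * t ^ 2 := by gcongr
      _ = 1 / 2 := by field_simp
  obtain ⟨a, b, h1, h2, -, h4⟩ := small_coeff hs hτ0 n hsm n le_rfl
  have hbound : ∀ σ : ℝ, σ ^ 2 = τ ^ 2 → ‖itB A σ n y‖ ≤ 4 * ‖y‖ := by
    intro σ hσ
    refine (itB_le (by positivity) hA σ n y).trans ?_
    have h5 : ((1 + 1 / (2 * (n : ℝ))) * Real.sqrt (1 + σ ^ 2)) ^ n ≤ 4 := by
      rw [mul_pow]
      have h6 : (1 + 1 / (2 * (n : ℝ))) ^ n ≤ 2 := by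
        calc (1 + 1 / (2 * (n : ℝ))) ^ n ≤ (Real.exp (1 / (2 * (n : ℝ)))) ^ n := by
              gcongr
              have := Real.add_one_le_exp (1 / (2 * (n : ℝ)))
              linarith
          _ = Real.exp (1 / 2) := by
              rw [← Real.exp_nat_mul]
              congr 1
              field_simp
          _ ≤ 2 := exp_half_le
      have h7 : (Real.sqrt (1 + σ ^ 2)) ^ n ≤ 2 := by
        refine (sqrt_pow_le σ n).trans ?_
        refine le_trans (Real.exp_le_exp.2 ?_) exp_half_le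
        rw [hσ]
        have e : (n : ℝ) * τ ^ 2 = t ^ 2 / n := by rw [hτ]; field_simp
        rw [e]
        have : t ^ 2 / n ≤ 1 := by
          rw [div_le_one hn0]; linarith
        linarith
      calc (1 + 1 / (2 * (n : ℝ))) ^ n * (Real.sqrt (1 + σ ^ 2)) ^ n ≤ 2 * 2 := by
            gcongr
        _ = 4 := by norm_num
    gcongr
  have h5 := hbound τ rfl
  have h6 := hbound (-τ) (by ring)
  have e : (2 * a) • A y = itB A τ n y - itB A (-τ) n y := by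
    rw [h1, h2]; module
  have h7 : ‖(2 * a) • A y‖ ≤ 8 * ‖y‖ := by
    rw [e]
    refine (norm_sub_le _ _).trans ?_
    linarith
  have ha : t / 2 ≤ ‖a‖ := by
    have e2 : ‖(n : ℂ) * (τ * Complex.I)‖ = t := by
      rw [norm_mul, norm_mul, Complex.norm_I, Complex.norm_real, Complex.norm_natCast,
        Real.norm_of_nonneg hτ0, mul_one, hnτ]
    have h8 : ‖(n : ℂ) * (τ * Complex.I)‖ ≤ ‖a‖ + ‖a - (n : ℂ) * (τ * Complex.I)‖ := by
      have : (n : ℂ) * (τ * Complex.I) = a - (a - (n : ℂ) * (τ * Complex.I)) := by ring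
      calc ‖(n : ℂ) * (τ * Complex.I)‖ = ‖a - (a - (n : ℂ) * (τ * Complex.I))‖ := by rw [← this]
        _ ≤ _ := norm_sub_le _ _
    rw [e2] at h8
    rw [hnτ] at h4
    linarith
  rw [norm_smul, norm_mul] at h7
  have h9 : ‖(2 : ℂ)‖ = 2 := by norm_num
  rw [h9] at h7
  have h10 : t * ‖A y‖ ≤ 8 * ‖y‖ := by
    refine le_trans ?_ h7
    gcongr
    linarith
  have h11 : κ * t = 8 := by rw [ht]; field_simp
  have h12 : κ * (t * ‖A y‖) ≤ κ * (8 * ‖y‖) := by gcongr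
  have h13 : 8 * ‖A y‖ ≤ 8 * (κ * ‖y‖) := by
    calc 8 * ‖A y‖ = κ * (t * ‖A y‖) := by rw [← mul_assoc, h11]
      _ ≤ κ * (8 * ‖y‖) := h12
      _ = 8 * (κ * ‖y‖) := by ring
  linarith

end Pool.Agent.TH319
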