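import Pool.Agent.TH319.CDefs
import Pool.Agent.TH858.HomogSmall

set_option autoImplicit false

namespace Pool.Agent.TH319
open Module Filter Topology
open scoped Real
universe u

theorem pow_sub_pow_norm (a b : ℂ) (M : ℝ) (hM : 1 ≤ M) (ha : ‖a‖ ≤ M) (hb : ‖b‖ ≤ M) (n : ℕ) :
    ‖a ^ n - b ^ n‖ ≤ n * M ^ n * ‖a - b‖ := by
  induction n with
  | zero => simp
  | succ n ih =>
    have hM0 : 0 ≤ M := by linarith
    have e : a ^ (n + 1) - b ^ (n + 1) = a ^ n * (a - b) + (a ^ n - b ^ n) * b := by ring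
    rw [e]
    have h1 : ‖a ^ n * (a - b)‖ ≤ M ^ (n + 1) * ‖a - b‖ := by
      rw [norm_mul, norm_pow]
      have h2 : ‖a‖ ^ n ≤ M ^ n := by gcongr
      have h3 : M ^ n ≤ M ^ (n + 1) := pow_le_pow_right₀ hM (Nat.le_succ n)
      have h4 := h2.trans h3
      gcongr
    have h2 : ‖(a ^ n - b ^ n) * b‖ ≤ n * M ^ (n + 1) * ‖a - b‖ := by
      rw [norm_mul]
      calc ‖a ^ n - b ^ n‖ * ‖b‖ ≤ (n * M ^ n * ‖a - b‖) * M := by gcongr
        _ = n * M ^ (n + 1) * ‖a - b‖ := by ring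
    calc ‖a ^ n * (a - b) + (a ^ n - b ^ n) * b‖
        ≤ ‖a ^ n * (a - b)‖ + ‖(a ^ n - b ^ n) * b‖ := norm_add_le _ _
      _ ≤ M ^ (n + 1) * ‖a - b‖ + n * M ^ (n + 1) * ‖a - b‖ := add_le_add h1 h2
      _ = ((n + 1 : ℕ) : ℝ) * M ^ (n + 1) * ‖a - b‖ := by push_cast; ring

theorem one_add_div_pow (u : ℂ) (hu : ‖u‖ ≤ 4) (n : ℕ) (hn : 4 ≤ n) :
    ‖(1 + u / n) ^ n - Complex.exp u‖ ≤ 16 * Real.exp 4 / n := by
  have hn4 : (4 : ℝ) ≤ n := by exact_mod_cast hn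
  have hn0 : (0 : ℝ) < n := by linarith
  have hnc : (n : ℂ) ≠ 0 := by
    exact_mod_cast (by omega : n ≠ 0)
  have hun : ‖u / (n : ℂ)‖ ≤ 4 / n := by
    rw [norm_div, Complex.norm_natCast]
    gcongr
  have hun1 : ‖u / (n : ℂ)‖ ≤ 1 := by
    refine hun.trans ?_
    rw [div_le_one hn0]; exact hn4
  have e : Complex.exp u = (Complex.exp (u / n)) ^ n := by
    rw [← Complex.exp_nat_mul]
    congr 1
    field_simp
  rw [e]
  have hexp : 1 + 4 / (n : ℝ) ≤ Real.exp (4 / n) := by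
    have := Real.add_one_le_exp (4 / (n : ℝ))
    linarith
  have h1 : ‖(1 : ℂ) + u / n‖ ≤ Real.exp (4 / n) := by
    refine (norm_add_le _ _).trans ?_
    rw [norm_one]
    linarith
  have h2 : ‖Complex.exp (u / n)‖ ≤ Real.exp (4 / n) := by
    rw [Complex.norm_exp]
    apply Real.exp_le_exp.2
    exact (Complex.re_le_norm _).trans hun
  have h3 : (1 : ℝ) ≤ Real.exp (4 / n) := Real.one_le_exp (by positivity)
  refine (pow_sub_pow_norm _ _ _ h3 h1 h2 n).trans ?_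
  have h4 : Real.exp (4 / n) ^ n = Real.exp 4 := by
    rw [← Real.exp_nat_mul]
    congr 1
    field_simp
  rw [h4]
  have h5 : ‖(1 + u / n) - Complex.exp (u / n)‖ ≤ 16 / (n : ℝ) ^ 2 := by
    have h6 := Complex.norm_exp_sub_one_sub_id_le hun1
    have e2 : (1 + u / n) - Complex.exp (u / n) = -(Complex.exp (u / n) - 1 - u / n) := by ring
    rw [e2, norm_neg]
    refine h6.trans ?_
    calc ‖u / (n : ℂ)‖ ^ 2 ≤ (4 / (n : ℝ)) ^ 2 := by gcongr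
      _ = 16 / (n : ℝ) ^ 2 := by rw [div_pow]; norm_num
  calc (n : ℝ) * Real.exp 4 * ‖(1 + u / n) - Complex.exp (u / n)‖
      ≤ (n : ℝ) * Real.exp 4 * (16 / (n : ℝ) ^ 2) := by gcongr
    _ = 16 * Real.exp 4 / n := by field_simp

/-- the hypotheses of `rot_NU` -/
structure RData {Y : Type*} [NormedAddCommGroup Y] [NormedSpace ℂ Y] (ε σ₀ : ℝ)
    (P A : Y →ₗ[ℂ] Y) (g w : Y) (σ : ℂ) (S : Submodule ℂ Y) : Prop where
  hP : NP ε P
  hA : NH ε A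
  hσ : σ₀ ≤ ‖σ‖
  hg : g ≠ 0
  Pg : P g = g
  Pw : P w = 0
  Ag : A g = σ • w
  Aw : A w = σ • g
  AS : ∀ k ∈ S, A k = 0
  PS : ∀ k ∈ S, P k ∈ S

namespace RData

variable {Y : Type*} [NormedAddCommGroup Y] [NormedSpace ℂ Y] {ε σ₀ : ℝ}
    {P A : Y →ₗ[ℂ] Y} {g w : Y} {σ : ℂ} {S : Submodule ℂ Y}

theorem A_le (h : RData ε σ₀ P A g w σ S) (_h0 : 0 ≤ ε) (h1 : ε ≤ 1) (y : Y) :
    ‖A y‖ ≤ 4 * ‖y‖ := by
  have h2 := h.hA 1 y
  have h3 : Real.sqrt (1 + 1 ^ 2) ≤ 3 / 2 := by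
    rw [Real.sqrt_le_left (by norm_num)]; norm_num
  have h4 : ‖y + (((1 : ℝ) : ℂ) * Complex.I) • A y‖ ≤ 3 * ‖y‖ := by
    refine h2.trans ?_
    calc (1 + ε) * Real.sqrt (1 + 1 ^ 2) * ‖y‖ ≤ (1 + 1) * (3 / 2) * ‖y‖ := by gcongr
      _ = 3 * ‖y‖ := by ring
  have h5 : ‖(((1 : ℝ) : ℂ) * Complex.I) • A y‖ = ‖A y‖ := by
    rw [norm_smul]; simp
  rw [← h5]
  have e : (((1 : ℝ) : ℂ) * Complex.I) • A y = (y + (((1 : ℝ) : ℂ) * Complex.I) • A y) - y := by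
    abel
  rw [e]
  refine (norm_sub_le _ _).trans ?_
  linarith

theorem P_le (h : RData ε σ₀ P A g w σ S) (h1 : ε ≤ 1) (y : Y) :
    ‖P y‖ ≤ 2 * ‖y‖ := by
  have h2 := h.hP.ph (-1) (by simp) y
  have h3 : ‖y + ((-1 : ℂ) - 1) • P y‖ ≤ 2 * ‖y‖ := by
    refine h2.trans ?_
    have := norm_nonneg y
    nlinarith
  have e : (2 : ℂ) • P y = y - (y + ((-1 : ℂ) - 1) • P y) := by module
  have h4 : ‖(2 : ℂ) • P y‖ ≤ 3 * ‖y‖ := by
    rw [e]
    refine (norm_sub_le _ _).trans ?_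
    linarith
  rw [norm_smul] at h4
  have h5 : ‖(2 : ℂ)‖ = 2 := by norm_num
  rw [h5] at h4
  linarith [norm_nonneg y]

theorem A_comb (h : RData ε σ₀ P A g w σ S) (α β : ℂ) {k : Y} (hk : k ∈ S) :
    A (α • g + β • w + k) = (σ * β) • g + (σ * α) • w := by
  simp only [map_add, map_smul, h.Ag, h.Aw, h.AS k hk]
  module

theorem coords (h : RData ε σ₀ P A g w σ S) (h0 : 0 ≤ ε) (h1 : ε ≤ 1) (hσ₀ : 0 < σ₀)
    (α β : ℂ) {k : Y} (hk : k ∈ S) :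
    (‖α‖ + ‖β‖) * (‖g‖ + ‖w‖) ≤
      ((32 / σ₀ ^ 2 + 8 / σ₀) * (1 + 4 / σ₀)) * ‖α • g + β • w + k‖ := by
  set y := α • g + β • w + k with hy
  have hσp : 0 < ‖σ‖ := lt_of_lt_of_le hσ₀ h.hσ
  have e1 : A y = (σ * β) • g + (σ * α) • w + 0 := by
    rw [add_zero]; exact h.A_comb α β hk
  have e2 : A (A y) = (σ * (σ * α)) • g + (σ * (σ * β)) • w := by
    rw [e1]; exact h.A_comb _ _ S.zero_mem
  have e3 : P (A y) = (σ * β) • g := by
    rw [e1]; simp only [map_add, map_smul, h.Pg, h.Pw, map_zero]; module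
  have e4 : P (A (A y)) = (σ * (σ * α)) • g := by
    rw [e2]; simp only [map_add, map_smul, h.Pg, h.Pw]; module
  have b1 : ‖σ‖ * ‖β‖ * ‖g‖ ≤ 8 * ‖y‖ := by
    have h2 := h.P_le h1 (A y)
    have h3 := h.A_le h0 h1 y
    rw [e3, norm_smul, norm_mul] at h2
    linarith
  have b2 : ‖σ‖ * (‖σ‖ * ‖α‖) * ‖g‖ ≤ 32 * ‖y‖ := by
    have h2 := h.P_le h1 (A (A y))
    have h3 := h.A_le h0 h1 (A y)
    have h4 := h.A_le h0 h1 y
    rw [e4, norm_smul, norm_mul, norm_mul] at h2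
    linarith
  have b3 : ‖σ‖ * ‖w‖ ≤ 4 * ‖g‖ := by
    have h2 := h.A_le h0 h1 g
    rwa [h.Ag, norm_smul] at h2
  have c1 : ‖β‖ * ‖g‖ ≤ 8 / σ₀ * ‖y‖ := by
    rw [div_mul_eq_mul_div, le_div_iff₀ hσ₀]
    calc ‖β‖ * ‖g‖ * σ₀ ≤ ‖β‖ * ‖g‖ * ‖σ‖ := by gcongr; exact h.hσ
      _ = ‖σ‖ * ‖β‖ * ‖g‖ := by ring
      _ ≤ 8 * ‖y‖ := b1
  have c2 : ‖α‖ * ‖g‖ ≤ 32 / σ₀ ^ 2 * ‖y‖ := by
    rw [div_mul_eq_mul_div, le_div_iff₀ (by positivity)]
    calc ‖α‖ * ‖g‖ * σ₀ ^ 2 ≤ ‖α‖ * ‖g‖ * ‖σ‖ ^ 2 := by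
          gcongr; exact h.hσ
      _ = ‖σ‖ * (‖σ‖ * ‖α‖) * ‖g‖ := by ring
      _ ≤ 32 * ‖y‖ := b2
  have c3 : ‖w‖ ≤ 4 / σ₀ * ‖g‖ := by
    rw [div_mul_eq_mul_div, le_div_iff₀ hσ₀]
    calc ‖w‖ * σ₀ ≤ ‖w‖ * ‖σ‖ := by gcongr; exact h.hσ
      _ = ‖σ‖ * ‖w‖ := by ring
      _ ≤ 4 * ‖g‖ := b3
  calc (‖α‖ + ‖β‖) * (‖g‖ + ‖w‖) ≤ (‖α‖ + ‖β‖) * (‖g‖ + 4 / σ₀ * ‖g‖) := by gcongr
    _ = (‖α‖ * ‖g‖ + ‖β‖ * ‖g‖) * (1 + 4 / σ₀) := by ring
    _ ≤ (32 / σ₀ ^ 2 * ‖y‖ + 8 / σ₀ * ‖y‖) * (1 + 4 / σ₀) := by gcongr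
    _ = _ := by ring

theorem im_le (h : RData ε σ₀ P A g w σ S) (h0 : 0 < ε) (h1 : ε ≤ 1) :
    |σ.im| ≤ 4 * Real.sqrt ε := by
  have hf : g + w ≠ 0 := by
    intro h2
    have h3 := congrArg P h2
    rw [map_add, h.Pg, h.Pw, add_zero, map_zero] at h3
    exact h.hg h3
  have hfn : 0 < ‖g + w‖ := norm_pos_iff.2 hf
  have key : ∀ τ : ℝ, -(2 * τ * σ.im) ≤ 3 * ε + 4 * τ ^ 2 := by
    intro τ
    have h2 := h.hA τ (g + w)
    have e : g + w + ((τ : ℂ) * Complex.I) • A (g + w) =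
        (1 + (τ : ℂ) * Complex.I * σ) • (g + w) := by
      rw [map_add, h.Ag, h.Aw]; module
    rw [e, norm_smul] at h2
    have h3 : ‖1 + (τ : ℂ) * Complex.I * σ‖ ≤ (1 + ε) * Real.sqrt (1 + τ ^ 2) :=
      le_of_mul_le_mul_right h2 hfn
    have h4 : ‖1 + (τ : ℂ) * Complex.I * σ‖ ^ 2 ≤ (1 + ε) ^ 2 * (1 + τ ^ 2) := by
      calc ‖1 + (τ : ℂ) * Complex.I * σ‖ ^ 2 ≤ ((1 + ε) * Real.sqrt (1 + τ ^ 2)) ^ 2 := by gcongr
        _ = (1 + ε) ^ 2 * (1 + τ ^ 2) := by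
          rw [mul_pow, Real.sq_sqrt (by positivity)]
    have h5 : ‖1 + (τ : ℂ) * Complex.I * σ‖ ^ 2 = (1 - τ * σ.im) ^ 2 + (τ * σ.re) ^ 2 := by
      rw [← Complex.normSq_eq_norm_sq, Complex.normSq_apply]
      simp
      ring
    rw [h5] at h4
    nlinarith [sq_nonneg (τ * σ.im), sq_nonneg (τ * σ.re), sq_nonneg τ, mul_nonneg h0.le (sq_nonneg τ),
      mul_nonneg (mul_nonneg h0.le h0.le) (sq_nonneg τ)]
  have hs : 0 < Real.sqrt ε := Real.sqrt_pos.2 h0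
  have hs2 : Real.sqrt ε ^ 2 = ε := Real.sq_sqrt h0.le
  have k1 := key (Real.sqrt ε)
  have k2 := key (-Real.sqrt ε)
  rw [abs_le]
  constructor
  · have h2 : 0 ≤ Real.sqrt ε * (σ.im + 4 * Real.sqrt ε) := by nlinarith
    have h3 := (mul_nonneg_iff_of_pos_left hs).1 h2
    linarith
  · have h2 : 0 ≤ Real.sqrt ε * (4 * Real.sqrt ε - σ.im) := by nlinarith
    have h3 := (mul_nonneg_iff_of_pos_left hs).1 h2
    linarith

theorem itB_comb (h : RData ε σ₀ P A g w σ S) (τ : ℝ) (n : ℕ) (α β : ℂ) {k : Y} (hk : k ∈ S) :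
    itB A τ n (α • g + β • w + k) =
      ((1 / 2) * ((α + β) * (1 + (τ : ℂ) * Complex.I * σ) ^ n +
        (α - β) * (1 - (τ : ℂ) * Complex.I * σ) ^ n)) • g +
      ((1 / 2) * ((α + β) * (1 + (τ : ℂ) * Complex.I * σ) ^ n -
        (α - β) * (1 - (τ : ℂ) * Complex.I * σ) ^ n)) • w + k := by
  induction n with
  | zero => simp only [itB, pow_zero]; module
  | succ n ih =>
    rw [itB, ih, h.A_comb _ _ hk]
    simp only [pow_succ]
    module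

/-- the rotation inequality -/
theorem rot1 (h : RData ε σ₀ P A g w σ S) (h0 : 0 < ε) (h1 : ε ≤ 1) (hσ₀ : 0 < σ₀)
    (hε : 8 * Real.sqrt ε ≤ σ₀ / 4) (n : ℕ) (hn : 4 ≤ n) (θ : ℝ) (hθ0 : 0 ≤ θ) (hθ : θ ≤ π / 2)
    (α β : ℂ) {k : Y} (hk : k ∈ S) :
    ‖((Real.cos θ : ℂ) * α + Complex.I * Real.sin θ * β) • g +
      (Complex.I * Real.sin θ * α + (Real.cos θ : ℂ) * β) • w + k‖ ≤
    ((1 + ε) ^ n * Real.exp ((π / σ₀) ^ 2 / (2 * n)) +
      ((32 / σ₀ ^ 2 + 8 / σ₀) * (1 + 4 / σ₀)) *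
        (16 * Real.exp 4 / n + 32 * Real.sqrt ε / σ₀)) * ‖α • g + β • w + k‖ := by
  have hn4 : (4 : ℝ) ≤ n := by exact_mod_cast hn
  have hn0 : (0 : ℝ) < n := by linarith
  have hnc : (n : ℂ) ≠ 0 := by exact_mod_cast (by omega : n ≠ 0)
  have him := h.im_le h0 h1
  have hsq : 0 ≤ Real.sqrt ε := Real.sqrt_nonneg ε
  have hre : σ₀ / 2 ≤ |σ.re| := by
    have h2 := Complex.norm_le_abs_re_add_abs_im σ
    have h3 := h.hσ
    linarith
  have hre0 : 0 < |σ.re| := by linarith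
  have hren : σ.re ≠ 0 := abs_pos.1 hre0
  set t : ℝ := θ / σ.re with ht
  set τ : ℝ := t / n with hτ
  set κ : ℝ := σ.im / σ.re with hκ
  have hπ : π ≤ 4 := Real.pi_le_four
  have hθ2 : θ ≤ 2 := by linarith
  have htabs : |t| ≤ π / σ₀ := by
    rw [ht, abs_div, abs_of_nonneg hθ0, div_le_div_iff₀ hre0 hσ₀]
    calc θ * σ₀ ≤ (π / 2) * σ₀ := by gcongr
      _ = π * (σ₀ / 2) := by ring
      _ ≤ π * |σ.re| := by gcongr
  have hκabs : |κ| ≤ 8 * Real.sqrt ε / σ₀ := by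
    rw [hκ, abs_div, div_le_div_iff₀ hre0 hσ₀]
    calc |σ.im| * σ₀ ≤ (4 * Real.sqrt ε) * σ₀ := by gcongr
      _ = 8 * Real.sqrt ε * (σ₀ / 2) := by ring
      _ ≤ 8 * Real.sqrt ε * |σ.re| := by gcongr
  have hκ4 : |κ| ≤ 1 / 4 := by
    refine hκabs.trans ?_
    rw [div_le_iff₀ hσ₀]; linarith
  set u : ℂ := Complex.I * θ - (θ * κ : ℝ) with hu
  have hθκ : |θ * κ| ≤ 1 / 2 := by
    rw [abs_mul, abs_of_nonneg hθ0]
    have := abs_nonneg κ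
    nlinarith
  have hunorm : ‖u‖ ≤ 4 := by
    have h2 : ‖u‖ ≤ ‖Complex.I * (θ : ℂ)‖ + ‖((θ * κ : ℝ) : ℂ)‖ := norm_sub_le _ _
    rw [norm_mul, Complex.norm_I, Complex.norm_real, Complex.norm_real, one_mul,
      Real.norm_of_nonneg hθ0, Real.norm_eq_abs] at h2
    linarith
  have hτσ : (τ : ℂ) * Complex.I * σ = u / n := by
    have hσc : (τ : ℂ) * Complex.I * σ =
        (τ : ℂ) * Complex.I * ((σ.re : ℂ) + (σ.im : ℂ) * Complex.I) := by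
      rw [Complex.re_add_im]
    have hrec : (σ.re : ℂ) ≠ 0 := by exact_mod_cast hren
    rw [hσc, hu, hτ, ht, hκ, eq_div_iff hnc]
    push_cast
    field_simp
    linear_combination (θ : ℂ) * σ.im * Complex.I_sq
  have hzp := one_add_div_pow u hunorm n hn
  have hzm := one_add_div_pow (-u) (by rwa [norm_neg]) n hn
  have hem : ∀ x : ℝ, |x| = |θ * κ| → ‖Complex.exp (x : ℂ) - 1‖ ≤ 32 * Real.sqrt ε / σ₀ := by
    intro x hx
    have h2 : ‖(x : ℂ)‖ ≤ 1 := by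
      rw [Complex.norm_real, Real.norm_eq_abs, hx]; linarith
    refine (Complex.norm_exp_sub_one_le h2).trans ?_
    rw [Complex.norm_real, Real.norm_eq_abs, hx, abs_mul, abs_of_nonneg hθ0]
    calc 2 * (θ * |κ|) ≤ 2 * (2 * (8 * Real.sqrt ε / σ₀)) := by gcongr
      _ = 32 * Real.sqrt ε / σ₀ := by ring
  set ep : ℂ := Complex.exp (Complex.I * θ) with hep
  set em' : ℂ := Complex.exp (-(Complex.I * θ)) with hem'
  have hepn : ‖ep‖ = 1 := by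
    rw [hep, mul_comm]; exact Complex.norm_exp_ofReal_mul_I θ
  have hemn : ‖em'‖ = 1 := by
    have : -(Complex.I * (θ : ℂ)) = ((-θ : ℝ) : ℂ) * Complex.I := by push_cast; ring
    rw [hem', this]; exact Complex.norm_exp_ofReal_mul_I (-θ)
  have hep2 : ep = (Real.cos θ : ℂ) + Complex.I * Real.sin θ := by
    rw [hep, mul_comm, Complex.exp_mul_I, Complex.ofReal_cos, Complex.ofReal_sin]; ring
  have hem2 : em' = (Real.cos θ : ℂ) - Complex.I * Real.sin θ := by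
    have : -(Complex.I * (θ : ℂ)) = (-(θ : ℂ)) * Complex.I := by ring
    rw [hem', this, Complex.exp_mul_I, Complex.cos_neg, Complex.sin_neg, Complex.ofReal_cos,
      Complex.ofReal_sin]; ring
  set η : ℝ := 16 * Real.exp 4 / n + 32 * Real.sqrt ε / σ₀ with hη
  have hη0 : 0 ≤ η := by positivity
  set Dp : ℂ := (1 + (τ : ℂ) * Complex.I * σ) ^ n - ep with hDp
  set Dm : ℂ := (1 - (τ : ℂ) * Complex.I * σ) ^ n - em' with hDm
  have hDpn : ‖Dp‖ ≤ η := by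
    have e : Dp = ((1 + u / n) ^ n - Complex.exp u) +
        ep * (Complex.exp ((-(θ * κ) : ℝ) : ℂ) - 1) := by
      have e1 : Complex.exp u = ep * Complex.exp ((-(θ * κ) : ℝ) : ℂ) := by
        rw [hep, ← Complex.exp_add, hu]; congr 1; push_cast; ring
      rw [hDp, hτσ, e1]; ring
    rw [e]
    refine (norm_add_le _ _).trans ?_
    rw [norm_mul, hepn, one_mul]
    exact add_le_add hzp (hem _ (abs_neg _))
  have hDmn : ‖Dm‖ ≤ η := by
    have e : Dm = ((1 + (-u) / n) ^ n - Complex.exp (-u)) +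
        em' * (Complex.exp (((θ * κ) : ℝ) : ℂ) - 1) := by
      have e1 : Complex.exp (-u) = em' * Complex.exp (((θ * κ) : ℝ) : ℂ) := by
        rw [hem', ← Complex.exp_add, hu]; congr 1; push_cast; ring
      rw [hDm, hτσ, e1]; ring
    rw [e]
    refine (norm_add_le _ _).trans ?_
    rw [norm_mul, hemn, one_mul]
    exact add_le_add hzm (hem _ rfl)
  set y := α • g + β • w + k with hy
  have key : ((Real.cos θ : ℂ) * α + Complex.I * Real.sin θ * β) • g +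
      (Complex.I * Real.sin θ * α + (Real.cos θ : ℂ) * β) • w + k =
      itB A τ n y - (((1 / 2) * ((α + β) * Dp + (α - β) * Dm)) • g +
        ((1 / 2) * ((α + β) * Dp - (α - β) * Dm)) • w) := by
    rw [hy, h.itB_comb τ n α β hk, hDp, hDm, hep2, hem2]
    module
  rw [key]
  have hB : ‖itB A τ n y‖ ≤ (1 + ε) ^ n * Real.exp ((π / σ₀) ^ 2 / (2 * n)) * ‖y‖ := by
    refine (itB_le h0.le h.hA τ n y).trans ?_
    rw [mul_pow]
    have h2 := sqrt_pow_le τ n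
    have h3 : (n : ℝ) * τ ^ 2 / 2 ≤ (π / σ₀) ^ 2 / (2 * n) := by
      have e : (n : ℝ) * τ ^ 2 / 2 = t ^ 2 / (2 * n) := by rw [hτ]; field_simp
      rw [e]
      have h4 : t ^ 2 ≤ (π / σ₀) ^ 2 := by
        rw [← sq_abs t]
        gcongr
      gcongr
    have h5 := h2.trans (Real.exp_le_exp.2 h3)
    gcongr
  have hC := h.coords h0.le h1 hσ₀ α β hk
  rw [← hy] at hC
  have hhalf : ‖(1 / 2 : ℂ)‖ = 1 / 2 := by norm_num
  have c1 : ‖(1 / 2 : ℂ) * ((α + β) * Dp + (α - β) * Dm)‖ ≤ (‖α‖ + ‖β‖) * η := by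
    rw [norm_mul, hhalf]
    have a1 : ‖(α + β) * Dp + (α - β) * Dm‖ ≤ (‖α‖ + ‖β‖) * η + (‖α‖ + ‖β‖) * η := by
      refine (norm_add_le _ _).trans ?_
      rw [norm_mul, norm_mul]
      have a2 := norm_add_le α β
      have a3 := norm_sub_le α β
      gcongr
    linarith
  have c2 : ‖(1 / 2 : ℂ) * ((α + β) * Dp - (α - β) * Dm)‖ ≤ (‖α‖ + ‖β‖) * η := by
    rw [norm_mul, hhalf]
    have a1 : ‖(α + β) * Dp - (α - β) * Dm‖ ≤ (‖α‖ + ‖β‖) * η + (‖α‖ + ‖β‖) * η := by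
      refine (norm_sub_le _ _).trans ?_
      rw [norm_mul, norm_mul]
      have a2 := norm_add_le α β
      have a3 := norm_sub_le α β
      gcongr
    linarith
  refine (norm_sub_le _ _).trans ?_
  have hbr : ‖((1 / 2) * ((α + β) * Dp + (α - β) * Dm)) • g +
        ((1 / 2) * ((α + β) * Dp - (α - β) * Dm)) • w‖ ≤
      ((32 / σ₀ ^ 2 + 8 / σ₀) * (1 + 4 / σ₀)) * η * ‖y‖ := by
    refine (norm_add_le _ _).trans ?_
    rw [norm_smul, norm_smul]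
    calc ‖(1 / 2) * ((α + β) * Dp + (α - β) * Dm)‖ * ‖g‖ +
          ‖(1 / 2) * ((α + β) * Dp - (α - β) * Dm)‖ * ‖w‖
        ≤ ((‖α‖ + ‖β‖) * η) * ‖g‖ + ((‖α‖ + ‖β‖) * η) * ‖w‖ := by gcongr
      _ = ((‖α‖ + ‖β‖) * (‖g‖ + ‖w‖)) * η := by ring
      _ ≤ (((32 / σ₀ ^ 2 + 8 / σ₀) * (1 + 4 / σ₀)) * ‖y‖) * η := by gcongr
      _ = _ := by ring
  calc ‖itB A τ n y‖ + ‖((1 / 2) * ((α + β) * Dp + (α - β) * Dm)) • g +
        ((1 / 2) * ((α + β) * Dp - (α - β) * Dm)) • w‖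
      ≤ (1 + ε) ^ n * Real.exp ((π / σ₀) ^ 2 / (2 * n)) * ‖y‖ +
        ((32 / σ₀ ^ 2 + 8 / σ₀) * (1 + 4 / σ₀)) * η * ‖y‖ := add_le_add hB hbr
    _ = _ := by ring

/-- comparison of two vectors of coordinates -/
def Rel (D : ℝ) (g w : Y) (S : Submodule ℂ Y) (a b a' b' : ℂ) : Prop :=
  ∀ k ∈ S, ‖a' • g + b' • w + k‖ ≤ D * ‖a • g + b • w + k‖

theorem Rel.trans {D D' : ℝ} (hD' : 0 ≤ D') {a b a' b' a'' b'' : ℂ}
    (h1 : Rel D g w S a b a' b') (h2 : Rel D' g w S a' b' a'' b'') :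
    Rel (D' * D) g w S a b a'' b'' := by
  intro k hk
  calc ‖a'' • g + b'' • w + k‖ ≤ D' * ‖a' • g + b' • w + k‖ := h2 k hk
    _ ≤ D' * (D * ‖a • g + b • w + k‖) := by
      have := h1 k hk
      gcongr
    _ = _ := by ring

theorem rotz (h : RData ε σ₀ P A g w σ S) (h0 : 0 ≤ ε) {D : ℝ} (hD0 : 0 ≤ D) {θ : ℝ}
    (hD : ∀ (α β : ℂ), ∀ k ∈ S, ‖((Real.cos θ : ℂ) * α + Complex.I * Real.sin θ * β) • g +
      (Complex.I * Real.sin θ * α + (Real.cos θ : ℂ) * β) • w + k‖ ≤ D * ‖α • g + β • w + k‖)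
    {z : ℂ} (hz : ‖z‖ = 1) (a b : ℂ) :
    Rel ((1 + ε) ^ 2 * D) g w S a b ((Real.cos θ : ℂ) * a + Complex.I * z * Real.sin θ * b)
      (Complex.I * z⁻¹ * Real.sin θ * a + (Real.cos θ : ℂ) * b) := by
  intro k hk
  have hz0 : z ≠ 0 := by
    intro h2; rw [h2, norm_zero] at hz; norm_num at hz
  have hzi : ‖z⁻¹‖ = 1 := by rw [norm_inv, hz, inv_one]
  have h1 := h.hP.ph z⁻¹ hzi (a • g + b • w + k)
  set k' : Y := k + (z⁻¹ - 1) • P k with hk'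
  have hk'S : k' ∈ S := S.add_mem hk (S.smul_mem _ (h.PS k hk))
  have e1 : a • g + b • w + k + (z⁻¹ - 1) • P (a • g + b • w + k) =
      (z⁻¹ * a) • g + b • w + k' := by
    simp only [map_add, map_smul, h.Pg, h.Pw, hk']
    module
  rw [e1] at h1
  have h2 := hD (z⁻¹ * a) b k' hk'S
  set v := ((Real.cos θ : ℂ) * (z⁻¹ * a) + Complex.I * Real.sin θ * b) • g +
      (Complex.I * Real.sin θ * (z⁻¹ * a) + (Real.cos θ : ℂ) * b) • w + k' with hv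
  have h3 := h.hP.ph z hz v
  have e2 : v + (z - 1) • P v = ((Real.cos θ : ℂ) * a + Complex.I * z * Real.sin θ * b) • g +
      (Complex.I * z⁻¹ * Real.sin θ * a + (Real.cos θ : ℂ) * b) • w + k := by
    have e3 : P v = ((Real.cos θ : ℂ) * (z⁻¹ * a) + Complex.I * Real.sin θ * b) • g +
        z⁻¹ • P k := by
      simp only [hv, hk', map_add, map_smul, h.Pg, h.Pw, h.hP.idem]
      module
    rw [e3, hv, hk']
    have e4 : z * z⁻¹ = 1 := mul_inv_cancel₀ hz0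
    have e5 : ((Real.cos θ : ℂ) * a + Complex.I * z * Real.sin θ * b) =
        z * ((Real.cos θ : ℂ) * (z⁻¹ * a) + Complex.I * Real.sin θ * b) := by
      linear_combination (-(Real.cos θ : ℂ) * a) * e4
    rw [e5]
    have e6 : (z - 1) • (((Real.cos θ : ℂ) * (z⁻¹ * a) + Complex.I * Real.sin θ * b) • g +
        z⁻¹ • P k) = ((z - 1) * ((Real.cos θ : ℂ) * (z⁻¹ * a) + Complex.I * Real.sin θ * b)) • g +
        (1 - z⁻¹) • P k := by
      rw [smul_add, smul_smul, smul_smul]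
      congr 2
      rw [sub_mul, e4, one_mul]
    rw [e6]
    module
  rw [e2] at h3
  calc _ ≤ (1 + ε) * ‖v‖ := h3
    _ ≤ (1 + ε) * (D * ((1 + ε) * ‖a • g + b • w + k‖)) := by
      have := h2.trans (mul_le_mul_of_nonneg_left h1 hD0)
      gcongr
    _ = _ := by ring

end RData

theorem unit_part (α : ℂ) : ∃ e : ℂ, ‖e‖ = 1 ∧ α = e * (‖α‖ : ℂ) := by
  by_cases h : α = 0
  · exact ⟨1, by simp, by simp [h]⟩
  · have hn : (‖α‖ : ℂ) ≠ 0 := by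
      exact_mod_cast (norm_pos_iff.2 h).ne'
    refine ⟨α / ‖α‖, ?_, by field_simp⟩
    rw [norm_div, Complex.norm_real, norm_norm, div_self (norm_pos_iff.2 h).ne']

open RData in
theorem NU_of_rot {Y : Type*} [NormedAddCommGroup Y] [NormedSpace ℂ Y] {ε σ₀ : ℝ}
    {P A : Y →ₗ[ℂ] Y} {g w : Y} {σ : ℂ} {S : Submodule ℂ Y} (h : RData ε σ₀ P A g w σ S)
    (h0 : 0 ≤ ε) {D δ : ℝ} (hD0 : 1 ≤ D)
    (hD : ∀ θ : ℝ, 0 ≤ θ → θ ≤ π / 2 → ∀ (α β : ℂ), ∀ k ∈ S,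
      ‖((Real.cos θ : ℂ) * α + Complex.I * Real.sin θ * β) • g +
      (Complex.I * Real.sin θ * α + (Real.cos θ : ℂ) * β) • w + k‖ ≤ D * ‖α • g + β • w + k‖)
    (hδ : ((1 + ε) ^ 2 * D) ^ 3 ≤ 1 + δ) : NU δ g w S := by
  set E : ℝ := (1 + ε) ^ 2 * D with hE
  have hE1 : 1 ≤ E := by
    have : 1 ≤ (1 + ε) ^ 2 := by nlinarith
    nlinarith
  have hE0 : 0 ≤ E := by linarith
  have hrot : ∀ θ : ℝ, 0 ≤ θ → θ ≤ π / 2 → ∀ z : ℂ, ‖z‖ = 1 → ∀ a b : ℂ,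
      Rel E g w S a b ((Real.cos θ : ℂ) * a + Complex.I * z * Real.sin θ * b)
        (Complex.I * z⁻¹ * Real.sin θ * a + (Real.cos θ : ℂ) * b) :=
    fun θ h1 h2 z hz a b => h.rotz h0 (by linarith) (hD θ h1 h2) hz a b
  have hphase : ∀ e : ℂ, ‖e‖ = 1 → ∀ a b : ℂ, Rel (E * E) g w S a b (e * a) (e⁻¹ * b) := by
    intro e he a b
    have hp := Real.pi_pos
    have h1 := hrot (π / 2) (by linarith) le_rfl 1 (by simp) a b
    have h2 := hrot (π / 2) (by linarith) le_rfl (-e) (by rwa [norm_neg])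
      ((Real.cos (π / 2) : ℂ) * a + Complex.I * 1 * Real.sin (π / 2) * b)
      (Complex.I * 1⁻¹ * Real.sin (π / 2) * a + (Real.cos (π / 2) : ℂ) * b)
    have h3 := h1.trans hE0 h2
    have e1 : (Real.cos (π / 2) : ℂ) * ((Real.cos (π / 2) : ℂ) * a +
        Complex.I * 1 * Real.sin (π / 2) * b) + Complex.I * -e * Real.sin (π / 2) *
        (Complex.I * 1⁻¹ * Real.sin (π / 2) * a + (Real.cos (π / 2) : ℂ) * b) = e * a := by
      rw [Real.cos_pi_div_two, Real.sin_pi_div_two]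
      push_cast
      rw [inv_one]
      linear_combination (-(e * a)) * Complex.I_sq
    have e2 : Complex.I * (-e)⁻¹ * Real.sin (π / 2) * ((Real.cos (π / 2) : ℂ) * a +
        Complex.I * 1 * Real.sin (π / 2) * b) + (Real.cos (π / 2) : ℂ) *
        (Complex.I * 1⁻¹ * Real.sin (π / 2) * a + (Real.cos (π / 2) : ℂ) * b) = e⁻¹ * b := by
      rw [Real.cos_pi_div_two, Real.sin_pi_div_two]
      push_cast
      rw [inv_neg]
      linear_combination (-(e⁻¹ * b)) * Complex.I_sq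
    rw [e1, e2] at h3
    exact h3
  intro α β k hk
  set r : ℝ := Real.sqrt (‖α‖ ^ 2 + ‖β‖ ^ 2) with hr
  have hr2 : r ^ 2 = ‖α‖ ^ 2 + ‖β‖ ^ 2 := Real.sq_sqrt (by positivity)
  have hr0 : 0 ≤ r := Real.sqrt_nonneg _
  by_cases hr1 : r = 0
  · have h1 : ‖α‖ ^ 2 + ‖β‖ ^ 2 = 0 := by rw [← hr2, hr1]; norm_num
    have hα : α = 0 := by
      rw [← norm_eq_zero]; nlinarith [sq_nonneg ‖α‖, sq_nonneg ‖β‖, norm_nonneg α]
    have hβ : β = 0 := by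
      rw [← norm_eq_zero]; nlinarith [sq_nonneg ‖α‖, sq_nonneg ‖β‖, norm_nonneg β]
    have hδ0 : 1 ≤ 1 + δ := le_trans (one_le_pow₀ hE1) hδ
    rw [hr1, hα, hβ]
    simp only [zero_smul, add_zero, zero_add, Complex.ofReal_zero]
    constructor <;> nlinarith [norm_nonneg k]
  · have hrp : 0 < r := lt_of_le_of_ne hr0 (Ne.symm hr1)
    obtain ⟨e, he, hαe⟩ := unit_part α
    obtain ⟨f, hf, hβf⟩ := unit_part β
    have he0 : e ≠ 0 := by intro h2; rw [h2, norm_zero] at he; norm_num at he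
    have hf0 : f ≠ 0 := by intro h2; rw [h2, norm_zero] at hf; norm_num at hf
    set c : ℝ := ‖α‖ / r with hc
    set s : ℝ := ‖β‖ / r with hs
    have hc0 : 0 ≤ c := by positivity
    have hs0 : 0 ≤ s := by positivity
    have hcs : c ^ 2 + s ^ 2 = 1 := by
      rw [hc, hs, div_pow, div_pow, ← add_div, ← hr2, div_self (by positivity)]
    have hcle : c ≤ 1 := by nlinarith [sq_nonneg s]
    set θ : ℝ := Real.arccos c with hθ
    have hθ0 : 0 ≤ θ := Real.arccos_nonneg c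
    have hθ1 : θ ≤ π / 2 := Real.arccos_le_pi_div_two.2 hc0
    have hcos : Real.cos θ = c := Real.cos_arccos (by linarith) hcle
    have hsin : Real.sin θ = s := by
      rw [hθ, Real.sin_arccos, ← hcs]
      rw [show c ^ 2 + s ^ 2 - c ^ 2 = s ^ 2 by ring, Real.sqrt_sq hs0]
    set z : ℂ := Complex.I * (e * f)⁻¹ with hz
    have hz1 : ‖z‖ = 1 := by
      rw [hz, norm_mul, Complex.norm_I, norm_inv, norm_mul, he, hf]; norm_num
    have hzinv : Complex.I * z⁻¹ = e * f := by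
      rw [hz, mul_inv, inv_inv, ← mul_assoc, mul_inv_cancel₀ Complex.I_ne_zero, one_mul]
    have hIz : Complex.I * z = -(e * f)⁻¹ := by
      rw [hz, ← mul_assoc, Complex.I_mul_I]; ring
    have hcr : (c : ℂ) * r = ‖α‖ := by
      have : c * r = ‖α‖ := by rw [hc]; field_simp
      exact_mod_cast this
    have hsr : (s : ℂ) * r = ‖β‖ := by
      have : s * r = ‖β‖ := by rw [hs]; field_simp
      exact_mod_cast this
    have hE3 : E * E * E ≤ 1 + δ := by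
      calc E * E * E = E ^ 3 := by ring
        _ ≤ 1 + δ := hδ
    constructor
    · have h1 := hrot θ hθ0 hθ1 z hz1 (r : ℂ) 0
      have h2 := hphase e he ((Real.cos θ : ℂ) * r +
        Complex.I * z * Real.sin θ * 0) (Complex.I * z⁻¹ * Real.sin θ * r +
        (Real.cos θ : ℂ) * 0)
      have h3 := (h1.trans (mul_nonneg hE0 hE0) h2) k hk
      have e1 : e * ((Real.cos θ : ℂ) * r + Complex.I * z * Real.sin θ * 0) = α := by
        rw [hcos, mul_zero, add_zero, hcr]; exact hαe.symm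
      have e2 : e⁻¹ * (Complex.I * z⁻¹ * Real.sin θ * r + (Real.cos θ : ℂ) * 0) = β := by
        rw [hsin, hzinv, mul_zero, add_zero]
        calc e⁻¹ * (e * f * s * r) = (e⁻¹ * e) * f * (s * r) := by ring
          _ = f * ‖β‖ := by rw [inv_mul_cancel₀ he0, hsr, one_mul]
          _ = β := hβf.symm
      rw [e1, e2, zero_smul, add_zero] at h3
      refine h3.trans ?_
      gcongr
    · have hei : ‖e⁻¹‖ = 1 := by rw [norm_inv, he, inv_one]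
      have h1 := hphase e⁻¹ hei α β
      have h2 := hrot θ hθ0 hθ1 (-z) (by rwa [norm_neg]) (e⁻¹ * α) (e⁻¹⁻¹ * β)
      have h3 := (h1.trans hE0 h2) k hk
      have a1 : e⁻¹ * α = ‖α‖ := by
        conv_lhs => rw [hαe]
        rw [← mul_assoc, inv_mul_cancel₀ he0, one_mul]
      have a2 : e⁻¹⁻¹ * β = e * f * ‖β‖ := by
        rw [inv_inv]
        conv_lhs => rw [hβf]
        ring
      have hef : (e * f)⁻¹ * (e * f) = 1 := inv_mul_cancel₀ (mul_ne_zero he0 hf0)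
      have e1 : (Real.cos θ : ℂ) * (e⁻¹ * α) + Complex.I * -z * Real.sin θ * (e⁻¹⁻¹ * β) = r := by
        rw [a1, a2, hcos, hsin]
        have e3 : Complex.I * -z = (e * f)⁻¹ := by rw [mul_neg, hIz, neg_neg]
        rw [e3]
        have e4 : (c : ℂ) * ‖α‖ + s * ‖β‖ = r := by
          have : c * ‖α‖ + s * ‖β‖ = r := by
            rw [hc, hs, div_mul_eq_mul_div, div_mul_eq_mul_div, ← add_div, ← pow_two, ← pow_two,
              ← hr2, pow_two, mul_div_assoc, div_self hr1, mul_one]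
          exact_mod_cast this
        calc (c : ℂ) * ‖α‖ + (e * f)⁻¹ * s * (e * f * ‖β‖)
            = (c : ℂ) * ‖α‖ + ((e * f)⁻¹ * (e * f)) * (s * ‖β‖) := by ring
          _ = r := by rw [hef, one_mul, e4]
      have e2 : Complex.I * (-z)⁻¹ * Real.sin θ * (e⁻¹ * α) +
          (Real.cos θ : ℂ) * (e⁻¹⁻¹ * β) = 0 := by
        rw [a1, a2, hcos, hsin, inv_neg, mul_neg, hzinv]
        have e3 : (s : ℂ) * ‖α‖ = c * ‖β‖ := by
          have : s * ‖α‖ = c * ‖β‖ := by rw [hc, hs]; ring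
          exact_mod_cast this
        linear_combination (-(e * f)) * e3
      rw [e1, e2, zero_smul, add_zero] at h3
      refine h3.trans ?_
      have : E * (E * E) ≤ 1 + δ := by linarith
      gcongr

-- J2
theorem rot_NU (σ₀ δ : ℝ) (hσ : 0 < σ₀) (hδ : 0 < δ) :
    ∃ ε₀ > (0 : ℝ), ∀ (Y : Type u) [NormedAddCommGroup Y] [NormedSpace ℂ Y]
      (P A : Y →ₗ[ℂ] Y) (g w : Y) (σ : ℂ) (S : Submodule ℂ Y),
      NP ε₀ P → NH ε₀ A → σ₀ ≤ ‖σ‖ → g ≠ 0 → P g = g → P w = 0 → A g = σ • w → A w = σ • g →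
      (∀ k ∈ S, A k = 0) → (∀ k ∈ S, P k ∈ S) → NU δ g w S := by
  -- choose the constant of the rotations
  obtain ⟨D, hD1, hD3⟩ : ∃ D : ℝ, 1 < D ∧ D ^ 3 < 1 + δ := by
    have h1 : Tendsto (fun D : ℝ => D ^ 3) (𝓝[>] 1) (𝓝 (1 ^ 3)) :=
      ((continuous_pow 3).tendsto 1).mono_left nhdsWithin_le_nhds
    have h2 : ∀ᶠ D : ℝ in 𝓝[>] 1, D ^ 3 < 1 + δ :=
      h1.eventually_lt_const (by linarith)
    have h3 : ∀ᶠ D : ℝ in 𝓝[>] (1 : ℝ), 1 < D := eventually_nhdsWithin_of_forall fun x hx => hx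
    obtain ⟨D, h4, h5⟩ := (h3.and h2).exists
    exact ⟨D, h4, h5⟩
  set C : ℝ := ((32 / σ₀ ^ 2 + 8 / σ₀) * (1 + 4 / σ₀)) with hC
  -- choose n
  obtain ⟨n, hn4, hn⟩ : ∃ n : ℕ, 4 ≤ n ∧
      Real.exp ((π / σ₀) ^ 2 / (2 * n)) + C * (16 * Real.exp 4 / n) < D := by
    have t1 : Tendsto (fun n : ℕ => (π / σ₀) ^ 2 / (2 * (n : ℝ))) atTop (𝓝 0) := by
      have := (tendsto_const_div_atTop_nhds_zero_nat ((π / σ₀) ^ 2 / 2))
      refine this.congr fun n => ?_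
      rw [div_div]
    have t2 : Tendsto (fun n : ℕ => 16 * Real.exp 4 / (n : ℝ)) atTop (𝓝 0) :=
      tendsto_const_div_atTop_nhds_zero_nat _
    have t3 : Tendsto (fun n : ℕ => Real.exp ((π / σ₀) ^ 2 / (2 * (n : ℝ))) +
        C * (16 * Real.exp 4 / (n : ℝ))) atTop (𝓝 (Real.exp 0 + C * 0)) :=
      ((Real.continuous_exp.tendsto 0).comp t1).add (t2.const_mul C)
    have h2 : ∀ᶠ n : ℕ in atTop, Real.exp ((π / σ₀) ^ 2 / (2 * (n : ℝ))) +
        C * (16 * Real.exp 4 / (n : ℝ)) < D :=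
      t3.eventually_lt_const (by rw [Real.exp_zero]; linarith)
    obtain ⟨n, h3, h4⟩ := ((eventually_ge_atTop 4).and h2).exists
    exact ⟨n, h3, h4⟩
  -- choose ε
  have hcont : Continuous (fun ε : ℝ => (1 + ε) ^ 2 * ((1 + ε) ^ n *
      Real.exp ((π / σ₀) ^ 2 / (2 * n)) + C * (16 * Real.exp 4 / n + 32 * Real.sqrt ε / σ₀))) := by
    fun_prop
  have hcont2 : Continuous (fun ε : ℝ => (1 + ε) ^ 2 * D) := by fun_prop
  have hcont3 : Continuous (fun ε : ℝ => 8 * Real.sqrt ε) := by fun_prop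
  have h1 : ∀ᶠ ε : ℝ in 𝓝 0, (1 + ε) ^ 2 * ((1 + ε) ^ n *
      Real.exp ((π / σ₀) ^ 2 / (2 * n)) + C * (16 * Real.exp 4 / n + 32 * Real.sqrt ε / σ₀)) <
      D := by
    apply (hcont.tendsto 0).eventually_lt_const
    simpa using hn
  have h2 : ∀ᶠ ε : ℝ in 𝓝 0, 8 * Real.sqrt ε < σ₀ / 4 := by
    apply (hcont3.tendsto 0).eventually_lt_const
    simp; positivity
  have h3 : ∀ᶠ ε : ℝ in 𝓝 0, ε < 1 := eventually_lt_nhds (by norm_num)
  have h4 : ∀ᶠ ε : ℝ in 𝓝[>] (0 : ℝ), 0 < ε := eventually_nhdsWithin_of_forall fun x hx => hx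
  obtain ⟨ε, hε0, hε1, hε2, hε3⟩ :=
    (h4.and ((h1.filter_mono nhdsWithin_le_nhds).and ((h2.filter_mono nhdsWithin_le_nhds).and
      (h3.filter_mono nhdsWithin_le_nhds)))).exists
  refine ⟨ε, hε0, ?_⟩
  intro Y _ _ P A g w σ S hP hA hσ₀ hg hPg hPw hAg hAw hAS hPS
  have h : RData ε σ₀ P A g w σ S := ⟨hP, hA, hσ₀, hg, hPg, hPw, hAg, hAw, hAS, hPS⟩
  set F : ℝ := (1 + ε) ^ n * Real.exp ((π / σ₀) ^ 2 / (2 * n)) +
      C * (16 * Real.exp 4 / n + 32 * Real.sqrt ε / σ₀) with hF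
  have hF1 : 1 ≤ F := by
    have a1 : 1 ≤ (1 + ε) ^ n := one_le_pow₀ (by linarith)
    have a2 : 1 ≤ Real.exp ((π / σ₀) ^ 2 / (2 * n)) := Real.one_le_exp (by positivity)
    have a3 : 0 ≤ C * (16 * Real.exp 4 / n + 32 * Real.sqrt ε / σ₀) := by positivity
    have a4 : 1 ≤ (1 + ε) ^ n * Real.exp ((π / σ₀) ^ 2 / (2 * n)) := by nlinarith
    linarith
  apply NU_of_rot h hε0.le hF1 (fun θ hθ0 hθ1 α β k hk =>
    h.rot1 hε0 hε3.le hσ hε2.le n hn4 θ hθ0 hθ1 α β hk)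
  calc ((1 + ε) ^ 2 * F) ^ 3 ≤ D ^ 3 := by
        have : 0 ≤ (1 + ε) ^ 2 * F := by positivity
        gcongr
    _ ≤ 1 + δ := hD3.le

end Pool.Agent.TH319
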