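import Pool.Agent.TH336.KR.Defs
set_option autoImplicit false
open MeasureTheory Polynomial
namespace Pool.Agent.TH858.J353

open Pool.Agent.TH336.KR

/-- the density with respect to which we integrate -/
noncomputable def den (S : Set ℝ) (w : ℝ → ℝ) : Measure ℝ :=
  MeasureTheory.volume.withDensity (fun x : ℝ => ENNReal.ofReal (S.indicator w x))

theorem den_smul {S : Set ℝ} {w : ℝ → ℝ} (h0 : ∀ x ∈ S, 0 ≤ w x) (g : ℝ → ℝ) (x : ℝ) :
    (ENNReal.ofReal (S.indicator w x)).toReal • g x = S.indicator (fun x => g x * w x) x := by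
  by_cases hx : x ∈ S
  · rw [Set.indicator_of_mem hx, Set.indicator_of_mem hx, ENNReal.toReal_ofReal (h0 x hx),
      smul_eq_mul, mul_comm]
  · rw [Set.indicator_of_notMem hx, Set.indicator_of_notMem hx]
    simp

theorem integral_den {S : Set ℝ} (hS : MeasurableSet S) {w : ℝ → ℝ} (hw : Measurable w)
    (h0 : ∀ x ∈ S, 0 ≤ w x) (g : ℝ → ℝ) :
    ∫ x, g x ∂(den S w) = ∫ x in S, g x * w x := by
  have hm : Measurable (fun x : ℝ => ENNReal.ofReal (S.indicator w x)) :=
    ENNReal.measurable_ofReal.comp (hw.indicator hS)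
  unfold den
  rw [integral_withDensity_eq_integral_toReal_smul hm
    (Filter.Eventually.of_forall fun x => ENNReal.ofReal_lt_top)]
  rw [← integral_indicator hS]
  refine integral_congr_ae (Filter.Eventually.of_forall fun x => ?_)
  exact den_smul h0 g x

theorem integrable_den {S : Set ℝ} (hS : MeasurableSet S) {w : ℝ → ℝ} (hw : Measurable w)
    (h0 : ∀ x ∈ S, 0 ≤ w x) (g : ℝ → ℝ) (hg : IntegrableOn (fun x => g x * w x) S) :
    Integrable g (den S w) := by
  have hm : Measurable (fun x : ℝ => ENNReal.ofReal (S.indicator w x)) :=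
    ENNReal.measurable_ofReal.comp (hw.indicator hS)
  unfold den
  rw [integrable_withDensity_iff_integrable_smul' hm
    (Filter.Eventually.of_forall fun x => ENNReal.ofReal_lt_top)]
  rw [← integrable_indicator_iff hS] at hg
  refine hg.congr (Filter.Eventually.of_forall fun x => ?_)
  exact (den_smul h0 g x).symm

theorem integral_add_dirac (μ : Measure ℝ) (A : ℝ) (hA : 0 ≤ A) (g : ℝ → ℝ) (a : ℝ)
    (hg : Integrable g μ) :
    ∫ x, g x ∂(μ + ENNReal.ofReal A • Measure.dirac a) = (∫ x, g x ∂μ) + A * g a := by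
  rw [integral_add_measure hg, integral_smul_measure, integral_dirac,
    ENNReal.toReal_ofReal hA, smul_eq_mul]
  refine Integrable.smul_measure ?_ ENNReal.ofReal_ne_top
  exact integrable_dirac (by simp)

theorem good_jacobi (Φ : ℝ[X] →ₗ[ℝ] ℝ) (c α β : ℝ) (hc : 0 < c) (hα : -1 < α) (hβ : -1 < β)
    (h : ∀ f : ℝ[X], Φ f = c * ∫ x in (0 : ℝ)..1, f.eval x * (x ^ α * (1 - x) ^ β)) :
    Good Φ := by
  refine ⟨den (Set.Icc (-1 : ℝ) 1) (fun y : ℝ => (1 - y) ^ β * (1 + y) ^ α),
    Or.inl ⟨β, α, hβ, hα, rfl⟩, 1/2, 1/2, 2 ^ (α + β + 1) / c, by norm_num,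
    (div_pos (Real.rpow_pos_of_pos two_pos _) hc).ne', fun f => ?_⟩
  rw [integral_den measurableSet_Icc (by fun_prop)]
  · rw [integral_Icc_eq_integral_Ioc, ← intervalIntegral.integral_of_le (by norm_num), h f]
    have h1 : ∫ x in (-1 : ℝ)..1, (f.comp (C (1/2) * X + C (1/2))).eval x *
        ((1 - x) ^ β * (1 + x) ^ α) = ∫ x in (-1 : ℝ)..1, 2 ^ (α + β) *
          (fun z : ℝ => f.eval z * (z ^ α * (1 - z) ^ β)) (1/2 * x + 1/2) := by
      refine intervalIntegral.integral_congr fun x hx => ?_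
      rw [Set.uIcc_of_le (by norm_num)] at hx
      have hx1 := hx.1
      have hx2 := hx.2
      have e1 : 1 + x = 2 * (1/2 * x + 1/2) := by ring
      have e2 : 1 - x = 2 * (1 - (1/2 * x + 1/2)) := by ring
      have e3 : (1 + x) ^ α = 2 ^ α * (1/2 * x + 1/2) ^ α := by
        rw [e1, Real.mul_rpow (by norm_num) (by linarith)]
      have e4 : (1 - x) ^ β = 2 ^ β * (1 - (1/2 * x + 1/2)) ^ β := by
        rw [e2, Real.mul_rpow (by norm_num) (by linarith)]
      simp only [eval_comp, eval_add, eval_mul, eval_C, eval_X]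
      rw [e3, e4, Real.rpow_add two_pos]
      ring
    rw [h1, intervalIntegral.integral_const_mul,
      intervalIntegral.integral_comp_mul_add (fun z : ℝ => f.eval z * (z ^ α * (1 - z) ^ β))
        (by norm_num : (1/2 : ℝ) ≠ 0)]
    have e5 : (1/2 : ℝ) * (-1) + 1/2 = 0 := by norm_num
    have e6 : (1/2 : ℝ) * 1 + 1/2 = 1 := by norm_num
    rw [e5, e6, smul_eq_mul, Real.rpow_add_one two_pos.ne' (α + β)]
    field_simp
  · intro x hx
    exact mul_nonneg (Real.rpow_nonneg (by linarith [hx.2]) _)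
      (Real.rpow_nonneg (by linarith [hx.1]) _)

theorem good_legendre_type (Φ : ℝ[X] →ₗ[ℝ] ℝ) (c M : ℝ) (hc : 0 < c) (hM : 0 < M)
    (h : ∀ f : ℝ[X], Φ f = c * (∫ x in (0 : ℝ)..1, f.eval x) + M * (f.eval 0 + f.eval 1)) :
    Good Φ := by
  refine ⟨MeasureTheory.volume.restrict (Set.Icc (-1 : ℝ) 1)
        + ENNReal.ofReal (1 / (c / (2 * M))) • (MeasureTheory.Measure.dirac (-1 : ℝ)
            + MeasureTheory.Measure.dirac (1 : ℝ)),
    Or.inr (Or.inr (Or.inr (Or.inl ⟨c / (2 * M), by positivity, rfl⟩))), 1/2, 1/2, 2 / c,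
    by norm_num, by positivity, fun f => ?_⟩
  have hint : Integrable (fun x => (f.comp (C (1/2) * X + C (1/2))).eval x)
      (volume.restrict (Set.Icc (-1 : ℝ) 1)) :=
    ((Polynomial.continuous _).continuousOn.integrableOn_compact isCompact_Icc)
  rw [smul_add, ← add_assoc, integral_add_dirac _ _ (by positivity), integral_add_dirac _ _
    (by positivity) _ _ hint]
  · rw [integral_Icc_eq_integral_Ioc, ← intervalIntegral.integral_of_le (by norm_num), h f]
    have h1 : ∫ x in (-1 : ℝ)..1, (f.comp (C (1/2) * X + C (1/2))).eval x =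
        ∫ x in (-1 : ℝ)..1, (fun z : ℝ => f.eval z) (1/2 * x + 1/2) := by
      refine intervalIntegral.integral_congr fun x _ => ?_
      simp only [eval_comp, eval_add, eval_mul, eval_C, eval_X]
    rw [h1, intervalIntegral.integral_comp_mul_add (fun z : ℝ => f.eval z)
        (by norm_num : (1/2 : ℝ) ≠ 0)]
    have e5 : (1/2 : ℝ) * (-1) + 1/2 = 0 := by norm_num
    have e6 : (1/2 : ℝ) * 1 + 1/2 = 1 := by norm_num
    simp only [eval_comp, eval_add, eval_mul, eval_C, eval_X]
    rw [e5, e6, smul_eq_mul]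
    field_simp
    ring
  · refine hint.add_measure (Integrable.smul_measure ?_ ENNReal.ofReal_ne_top)
    exact integrable_dirac (by simp)

theorem good_jacobi_type (Φ : ℝ[X] →ₗ[ℝ] ℝ) (c β M : ℝ) (hc : 0 < c) (hβ : -1 < β)
    (hM : 0 < M)
    (h : ∀ f : ℝ[X], Φ f = c * (∫ x in (0 : ℝ)..1, f.eval x * (1 - x) ^ β) + M * f.eval 0) :
    Good Φ := by
  refine ⟨den (Set.Ico (0 : ℝ) 1) (fun y : ℝ => (1 - y) ^ β)
        + ENNReal.ofReal (1 / (c / M)) • MeasureTheory.Measure.dirac (0 : ℝ),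
    Or.inr (Or.inr (Or.inr (Or.inr (Or.inr ⟨β, c / M, hβ, by positivity, rfl⟩)))), 1, 0, 1 / c,
    by norm_num, by positivity, fun f => ?_⟩
  have hf : f.comp (C 1 * X + C 0) = f := by simp
  rw [hf]
  have h0 : ∀ x ∈ Set.Ico (0 : ℝ) 1, 0 ≤ (1 - x) ^ β := fun x hx =>
    Real.rpow_nonneg (by linarith [hx.2]) _
  have hint : IntervalIntegrable (fun x : ℝ => f.eval x * (1 - x) ^ β) volume 0 1 := by
    have h3 : IntervalIntegrable (fun x : ℝ => x ^ β) volume 1 0 :=
      intervalIntegral.intervalIntegrable_rpow' hβ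
    have h4 := h3.comp_sub_left 1
    norm_num at h4
    exact h4.continuousOn_mul f.continuous.continuousOn
  have hint2 : IntegrableOn (fun x : ℝ => f.eval x * (1 - x) ^ β) (Set.Ico 0 1) := by
    rw [intervalIntegrable_iff_integrableOn_Ico_of_le zero_le_one] at hint
    exact hint
  rw [integral_add_dirac _ _ (by positivity) _ _
    (integrable_den measurableSet_Ico (by fun_prop) h0 _ hint2),
    integral_den measurableSet_Ico (by fun_prop) h0, integral_Ico_eq_integral_Ioc,
    ← intervalIntegral.integral_of_le zero_le_one, h f]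
  field_simp

end Pool.Agent.TH858.J353
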