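import Mathlib
set_option autoImplicit false
open MeasureTheory Polynomial
namespace Pool.Agent.TH858.J354

theorem wt_int (α β : ℝ) (hα : -1 < α) (hβ : -1 < β) :
    IntervalIntegrable (fun x : ℝ => x ^ α * (1 - x) ^ β) volume 0 1 := by
  have h1 : IntervalIntegrable (fun x : ℝ => x ^ α * (1 - x) ^ β) volume 0 (1/2) := by
    refine (intervalIntegral.intervalIntegrable_rpow' hα).mul_continuousOn ?_
    refine ContinuousOn.rpow_const (by fun_prop) ?_
    intro x hx
    rw [Set.uIcc_of_le (by norm_num)] at hx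
    left
    have := hx.2
    intro h
    linarith
  have h2 : IntervalIntegrable (fun x : ℝ => x ^ α * (1 - x) ^ β) volume (1/2) 1 := by
    have h3 : IntervalIntegrable (fun x : ℝ => x ^ β) volume (1/2) 0 :=
      intervalIntegral.intervalIntegrable_rpow' hβ
    have h4 := h3.comp_sub_left 1
    norm_num at h4
    refine h4.continuousOn_mul ?_
    refine ContinuousOn.rpow_const (by fun_prop) ?_
    intro x hx
    rw [Set.uIcc_of_le (by norm_num)] at hx
    left
    have := hx.1
    intro h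
    linarith
  exact h1.trans h2

theorem gwt_int (α β : ℝ) (hα : -1 < α) (hβ : -1 < β) (g : ℝ → ℝ) (hg : Continuous g) :
    IntervalIntegrable (fun x : ℝ => g x * (x ^ α * (1 - x) ^ β)) volume 0 1 :=
  (wt_int α β hα hβ).continuousOn_mul hg.continuousOn

/-- the Jacobi functional -/
noncomputable def J (α β : ℝ) (hα : -1 < α) (hβ : -1 < β) : ℝ[X] →ₗ[ℝ] ℝ where
  toFun f := ∫ x in (0 : ℝ)..1, f.eval x * (x ^ α * (1 - x) ^ β)
  map_add' f g := by
    rw [← intervalIntegral.integral_add (gwt_int α β hα hβ _ f.continuous)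
      (gwt_int α β hα hβ _ g.continuous)]
    refine intervalIntegral.integral_congr fun x _ => ?_
    simp only [eval_add]
    ring
  map_smul' c f := by
    simp only [RingHom.id_apply, smul_eq_mul]
    rw [← intervalIntegral.integral_const_mul]
    refine intervalIntegral.integral_congr fun x _ => ?_
    simp only [eval_smul, smul_eq_mul]
    ring

theorem J_apply (α β : ℝ) (hα : -1 < α) (hβ : -1 < β) (f : ℝ[X]) :
    J α β hα hβ f = ∫ x in (0 : ℝ)..1, f.eval x * (x ^ α * (1 - x) ^ β) := rfl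

theorem J_pearson (α β : ℝ) (hα : -1 < α) (hβ : -1 < β) (f : ℝ[X]) :
    J α β hα hβ (X * (1 - X) * derivative f
        + (C (α + 1) * (1 - X) - C (β + 1) * X) * f) = 0 := by
  rw [J_apply]
  have h1 := intervalIntegral.integral_eq_sub_of_hasDerivAt_of_le (a := 0) (b := 1)
    (f := fun x => x ^ (α + 1) * (1 - x) ^ (β + 1) * f.eval x)
    (f' := fun x => (X * (1 - X) * derivative f
        + (C (α + 1) * (1 - X) - C (β + 1) * X) * f).eval x * (x ^ α * (1 - x) ^ β))
    (by norm_num) ?_ ?_ ?_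
  · rw [h1]
    rw [Real.zero_rpow (by linarith), sub_self, Real.zero_rpow (by linarith)]
    simp
  · refine ContinuousOn.mul (ContinuousOn.mul ?_ ?_) f.continuous.continuousOn
    · exact ContinuousOn.rpow_const continuousOn_id fun x _ => Or.inr (by linarith)
    · exact ContinuousOn.rpow_const (by fun_prop) fun x _ => Or.inr (by linarith)
  · intro x hx
    have hx0 : x ≠ 0 := hx.1.ne'
    have hx1 : 1 - x ≠ 0 := by have := hx.2; intro h; linarith
    have e1 : HasDerivAt (fun x : ℝ => x ^ (α + 1)) ((α + 1) * x ^ α) x := by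
      have := Real.hasDerivAt_rpow_const (x := x) (p := α + 1) (Or.inl hx0)
      simpa using this
    have e2 : HasDerivAt (fun x : ℝ => (1 - x) ^ (β + 1)) (-((β + 1) * (1 - x) ^ β)) x := by
      have h3 := Real.hasDerivAt_rpow_const (x := 1 - x) (p := β + 1) (Or.inl hx1)
      have h4 : HasDerivAt (fun x : ℝ => 1 - x) (-1) x := by
        simpa using (hasDerivAt_id x).const_sub 1
      have := h3.comp x h4
      simpa [Function.comp_def] using this
    have e3 := (e1.mul e2).mul (f.hasDerivAt x)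
    refine e3.congr_deriv ?_
    simp only [Pi.mul_apply, eval_add, eval_mul, eval_sub, eval_X, eval_C, eval_one]
    rw [Real.rpow_add_one hx0, Real.rpow_add_one hx1]
    ring
  · exact gwt_int α β hα hβ _ (Polynomial.continuous _)

theorem J_pos (α β : ℝ) (hα : -1 < α) (hβ : -1 < β) (g : ℝ[X]) (hg0 : g ≠ 0)
    (hg : ∀ x ∈ Set.Icc (0 : ℝ) 1, 0 ≤ g.eval x) : 0 < J α β hα hβ g := by
  rw [J_apply, intervalIntegral.integral_pos_iff_support_of_nonneg_ae' _
    (gwt_int α β hα hβ _ g.continuous)]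
  · refine ⟨one_pos, ?_⟩
    have h1 : Set.Ioo (0 : ℝ) 1 \ (g.rootSet ℝ) ⊆
        Function.support (fun x : ℝ => g.eval x * (x ^ α * (1 - x) ^ β)) ∩ Set.Ioc 0 1 := by
      intro x hx
      refine ⟨?_, hx.1.1, hx.1.2.le⟩
      rw [Function.mem_support]
      refine mul_ne_zero ?_ (mul_ne_zero ?_ ?_)
      · intro h
        apply hx.2
        rw [mem_rootSet_of_ne hg0]
        simpa using h
      · exact (Real.rpow_pos_of_pos hx.1.1 _).ne'
      · exact (Real.rpow_pos_of_pos (by have := hx.1.2; linarith) _).ne'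
    refine lt_of_lt_of_le ?_ (measure_mono h1)
    rw [measure_sdiff_null ((rootSet_finite g ℝ).measure_zero volume)]
    simp
  · rw [Set.uIoc_of_le zero_le_one]
    refine (ae_restrict_iff' measurableSet_Ioc).2 (Filter.Eventually.of_forall fun x hx => ?_)
    refine mul_nonneg (hg x ⟨hx.1.le, hx.2⟩) (mul_nonneg ?_ ?_)
    · exact Real.rpow_nonneg hx.1.le _
    · exact Real.rpow_nonneg (by have := hx.2; linarith) _

theorem J_lim (α β : ℝ) (hα : -1 < α) (hβ : -1 < β) (g : ℝ[X])
    (hg : ∀ x ∈ Set.Ioo (0 : ℝ) 1, |g.eval x| < 1) :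
    Filter.Tendsto (fun n : ℕ => J α β hα hβ (g ^ n)) Filter.atTop (nhds 0) := by
  simp only [J_apply]
  have hae : ∀ᵐ x : ℝ ∂volume, x ≠ 1 := by
    rw [ae_iff]
    simp
  suffices key : Filter.Tendsto (fun n : ℕ => ∫ x in (0 : ℝ)..1,
      (g ^ n).eval x * (x ^ α * (1 - x) ^ β)) Filter.atTop
      (nhds (∫ x in (0 : ℝ)..1, (0 : ℝ))) by
    rw [intervalIntegral.integral_zero] at key
    exact key
  refine intervalIntegral.tendsto_integral_filter_of_dominated_convergence
    (l := (Filter.atTop : Filter ℕ))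
    (F := fun (n : ℕ) (x : ℝ) => (g ^ n).eval x * (x ^ α * (1 - x) ^ β)) (f := fun _ => (0 : ℝ))
    (fun x => x ^ α * (1 - x) ^ β) ?_ ?_ (wt_int α β hα hβ) ?_
  · refine Filter.Eventually.of_forall fun n => ?_
    have h2 := gwt_int α β hα hβ _ (g ^ n).continuous
    rw [Set.uIoc_of_le zero_le_one]
    exact h2.1.aestronglyMeasurable
  · refine Filter.Eventually.of_forall fun n => ?_
    filter_upwards [hae] with x hx1 hx
    rw [Set.uIoc_of_le zero_le_one] at hx
    have hx' : x ∈ Set.Ioo (0 : ℝ) 1 := ⟨hx.1, lt_of_le_of_ne hx.2 hx1⟩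
    have h3 : 0 ≤ x ^ α * (1 - x) ^ β :=
      mul_nonneg (Real.rpow_nonneg hx.1.le _) (Real.rpow_nonneg (by have := hx.2; linarith) _)
    rw [norm_mul, Real.norm_of_nonneg h3, eval_pow, norm_pow, Real.norm_eq_abs]
    exact mul_le_of_le_one_left h3 (pow_le_one₀ (abs_nonneg _) (hg x hx').le)
  · filter_upwards [hae] with x hx1 hx
    rw [Set.uIoc_of_le zero_le_one] at hx
    have hx' : x ∈ Set.Ioo (0 : ℝ) 1 := ⟨hx.1, lt_of_le_of_ne hx.2 hx1⟩
    have h4 := (tendsto_pow_atTop_nhds_zero_of_abs_lt_one (hg x hx')).mul_const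
      (x ^ α * (1 - x) ^ β)
    simpa using h4

theorem jac_facts (α β : ℝ) (hα : -1 < α) (hβ : -1 < β) :
    ∃ J : ℝ[X] →ₗ[ℝ] ℝ,
      (∀ f : ℝ[X], J f = ∫ x in (0 : ℝ)..1, f.eval x * (x ^ α * (1 - x) ^ β)) ∧
      (∀ f : ℝ[X], J (X * (1 - X) * derivative f
        + (C (α + 1) * (1 - X) - C (β + 1) * X) * f) = 0) ∧
      (∀ f : ℝ[X], f ≠ 0 → 0 < J (f * f)) ∧
      (∀ f : ℝ[X], f ≠ 0 → 0 < J (X * (1 - X) * (f * f))) ∧
      Filter.Tendsto (fun n : ℕ => J (X ^ n)) Filter.atTop (nhds 0) ∧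
      Filter.Tendsto (fun n : ℕ => J ((1 - X) ^ n)) Filter.atTop (nhds 0) := by
  have hX1 : (1 - X : ℝ[X]) ≠ 0 := by
    intro h
    have := congrArg (eval 0) h
    simp at this
  refine ⟨J α β hα hβ, fun f => rfl, J_pearson α β hα hβ, ?_, ?_, ?_, ?_⟩
  · intro f hf
    refine J_pos α β hα hβ _ (mul_ne_zero hf hf) fun x _ => ?_
    rw [eval_mul]
    exact mul_self_nonneg _
  · intro f hf
    refine J_pos α β hα hβ _ (mul_ne_zero (mul_ne_zero X_ne_zero hX1) (mul_ne_zero hf hf))
      fun x hx => ?_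
    simp only [eval_mul, eval_X, eval_sub, eval_one]
    have h1 := hx.1
    have h2 := hx.2
    exact mul_nonneg (mul_nonneg h1 (by linarith)) (mul_self_nonneg _)
  · refine J_lim α β hα hβ X fun x hx => ?_
    rw [eval_X, abs_of_pos hx.1]
    exact hx.2
  · refine J_lim α β hα hβ (1 - X) fun x hx => ?_
    have h1 := hx.1
    have h2 := hx.2
    rw [eval_sub, eval_one, eval_X, abs_of_pos (by linarith)]
    linarith

end Pool.Agent.TH858.J354
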