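import Pool.Agent.TH37.RF.Defs

/-!
# The identity `c` fails in `2 × 2` and larger matrices over large finite fields
-/

set_option autoImplicit false

namespace Pool.Agent.TH858.RF

open Matrix Polynomial Pool.Agent.TH37.RF

theorem smul_word {R : Type} [CommRing R] {n : ℕ} (s : R) (x y z : Matrix (Fin n) (Fin n) R)
    (w : List (Fin 3)) :
    (w.map ![s • x, y, z]).prod = s ^ (w.count 0) • (w.map ![x, y, z]).prod := by
  induction w with
  | nil => simp
  | cons a w ih =>
    rw [List.map_cons, List.prod_cons, ih, List.map_cons, List.prod_cons]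
    fin_cases a
    · simp [pow_succ, smul_smul, mul_comm]
    · simp
    · simp

/-- the matrices -/
def mx (R : Type) [CommRing R] (m : ℕ) : Matrix (Fin (m + 2)) (Fin (m + 2)) R :=
  Matrix.single 0 1 1
def my (R : Type) [CommRing R] (m : ℕ) : Matrix (Fin (m + 2)) (Fin (m + 2)) R :=
  Matrix.single 1 0 1
def mz {R : Type} [CommRing R] (t : R) (m : ℕ) : Matrix (Fin (m + 2)) (Fin (m + 2)) R :=
  Matrix.single 1 1 t

/-- the value of a word -/
def MW {R : Type} [CommRing R] (m : ℕ) (t : R) (w : List (Fin 3)) :
    Matrix (Fin (m + 2)) (Fin (m + 2)) R :=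
  (w.map ![mx R m, my R m, mz t m]).prod

theorem MW_nil {R : Type} [CommRing R] (m : ℕ) (t : R) : MW m t [] = 1 := rfl

theorem MW_x0 {R : Type} [CommRing R] (m : ℕ) (t : R) (w : List (Fin 3)) :
    MW m t (0 :: w) 0 0 = MW m t w 1 0 := by
  simp [MW, mx]

theorem MW_x1 {R : Type} [CommRing R] (m : ℕ) (t : R) (w : List (Fin 3)) :
    MW m t (0 :: w) 1 0 = 0 := by
  simp [MW, mx]

theorem MW_y0 {R : Type} [CommRing R] (m : ℕ) (t : R) (w : List (Fin 3)) :
    MW m t (1 :: w) 0 0 = 0 := by
  simp [MW, my]

theorem MW_y1 {R : Type} [CommRing R] (m : ℕ) (t : R) (w : List (Fin 3)) :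
    MW m t (1 :: w) 1 0 = MW m t w 0 0 := by
  simp [MW, my]

theorem MW_z0 {R : Type} [CommRing R] (m : ℕ) (t : R) (w : List (Fin 3)) :
    MW m t (2 :: w) 0 0 = 0 := by
  simp [MW, mz]

theorem MW_z1 {R : Type} [CommRing R] (m : ℕ) (t : R) (w : List (Fin 3)) :
    MW m t (2 :: w) 1 0 = t * MW m t w 1 0 := by
  simp [MW, mz]

theorem MW_a {R : Type} [CommRing R] (m : ℕ) (t : R) (w : List (Fin 3)) (hw : w.count 0 = 0)
    (hne : w ≠ []) : MW m t w 0 0 = 0 := by
  cases w with
  | nil => exact absurd rfl hne
  | cons a w =>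
    fin_cases a
    · simp at hw
    · exact MW_y0 m t w
    · exact MW_z0 m t w

theorem MW_b {R : Type} [CommRing R] (m : ℕ) (t : R) (w : List (Fin 3)) (hw : w.count 0 = 0) :
    MW m t w 1 0 = if w = List.replicate (w.count 2) 2 ++ [1] then t ^ (w.count 2) else 0 := by
  induction w with
  | nil => simp [MW_nil]
  | cons a w ih =>
    fin_cases a
    · simp at hw
    · have h1 : (1 :: w).count (2 : Fin 3) = w.count 2 := by simp
      show MW m t (1 :: w) 1 0 = if (1 :: w) = List.replicate ((1 :: w).count (2 : Fin 3)) 2 ++ [1]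
        then t ^ ((1 :: w).count (2 : Fin 3)) else 0
      rw [MW_y1, h1]
      by_cases hw0 : w = []
      · subst hw0; simp [MW_nil]
      · rw [MW_a m t w (by simpa using hw) hw0, if_neg]
        intro h
        cases hc : w.count (2 : Fin 3) with
        | zero => rw [hc] at h; simp at h; exact hw0 h
        | succ k => rw [hc, List.replicate_succ] at h; simp at h
    · have h1 : (2 :: w).count (2 : Fin 3) = w.count 2 + 1 := by simp
      show MW m t (2 :: w) 1 0 = if (2 :: w) = List.replicate ((2 :: w).count (2 : Fin 3)) 2 ++ [1]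
        then t ^ ((2 :: w).count (2 : Fin 3)) else 0
      rw [MW_z1, ih (by simpa using hw), h1, List.replicate_succ, List.cons_append]
      simp only [List.cons.injEq, true_and, mul_ite, mul_zero]
      rw [pow_succ']

theorem MW_c {R : Type} [CommRing R] (m : ℕ) (t : R) (w : List (Fin 3)) (hw : w.count 0 = 1) :
    MW m t w 0 0 =
      if w = 0 :: (List.replicate (w.count 2) 2 ++ [1]) then t ^ (w.count 2) else 0 := by
  cases w with
  | nil => simp at hw
  | cons a w =>
    fin_cases a
    · show MW m t (0 :: w) 0 0 =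
        if (0 :: w) = 0 :: (List.replicate ((0 :: w).count (2 : Fin 3)) 2 ++ [1])
        then t ^ ((0 :: w).count (2 : Fin 3)) else 0
      have h1 : (0 :: w).count (2 : Fin 3) = w.count 2 := by simp
      rw [MW_x0, MW_b m t w (by simpa using hw), h1]
      simp only [List.cons.injEq, true_and]
    · show MW m t (1 :: w) 0 0 = _
      rw [MW_y0, if_neg (by simp)]
    · show MW m t (2 :: w) 0 0 = _
      rw [MW_z0, if_neg (by simp)]

theorem poly_zero {D : Type} [Field D] [Finite D] (P : D[X]) (h : P.natDegree < Nat.card D)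
    (h0 : ∀ s, P.eval s = 0) : P = 0 := by
  classical
  have := Fintype.ofFinite D
  apply Polynomial.eq_zero_of_natDegree_lt_card_of_eval_eq_zero P (f := (id : D → D))
    Function.injective_id h0
  rwa [← Nat.card_eq_fintype_card]

/-- JOB BOUND1 -/
theorem bound_card {F : Type} [Field F] (c : List (Fin 3) →₀ F) (hc : Cond c) :
    ∃ d0 : ℕ, ∀ (n : ℕ) (D : Type) [Field D] [Finite D] [Algebra F D], 2 ≤ n →
      (∀ x y z : Matrix (Fin n) (Fin n) D, ev3 c x y z = 0) → Nat.card D ≤ d0 := by
  classical
  refine ⟨c.support.sup List.length, ?_⟩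
  intro n D _ _ _ hn hid
  obtain ⟨m, rfl⟩ : ∃ m, n = m + 2 := ⟨n - 2, by omega⟩
  by_contra hcard
  push Not at hcard
  set L := c.support.sup List.length with hL
  have hlen : ∀ w ∈ c.support, w.length ≤ L := fun w hw => Finset.le_sup (f := List.length) hw
  -- first phase: take the part of degree `1` in `x`
  have h1 : ∀ t : D, ∑ w ∈ c.support with w.count 0 = 1,
      algebraMap F D (c w) * MW m t w 0 0 = 0 := by
    intro t
    set Q : D[X] := ∑ w ∈ c.support, monomial (w.count 0) (algebraMap F D (c w) * MW m t w 0 0)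
      with hQ
    have hQ0 : Q = 0 := by
      apply poly_zero
      · refine lt_of_le_of_lt ?_ hcard
        refine Polynomial.natDegree_sum_le_of_forall_le _ _ fun w hw => ?_
        exact (Polynomial.natDegree_monomial_le _).trans ((List.count_le_length).trans (hlen w hw))
      · intro s
        have h2 := congrFun (congrFun (hid (s • mx D m) (my D m) (mz t m)) 0) 0
        rw [ev3, Finsupp.sum, Matrix.sum_apply] at h2
        rw [hQ, Polynomial.eval_finsetSum]
        rw [Matrix.zero_apply] at h2
        rw [← h2]
        refine Finset.sum_congr rfl fun w _ => ?_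
        rw [smul_word, Polynomial.eval_monomial]
        show _ = c w • (s ^ (w.count 0) * MW m t w 0 0)
        rw [Algebra.smul_def]
        ring
    have h3 := congrArg (fun P : D[X] => P.coeff 1) hQ0
    simp only [hQ, Polynomial.finsetSum_coeff, Polynomial.coeff_monomial, Polynomial.coeff_zero]
      at h3
    rw [Finset.sum_filter]
    exact h3
  -- second phase
  set P : D[X] := ∑ w ∈ c.support with w.count 0 = 1,
    C (algebraMap F D (c w)) *
      (if w = 0 :: (List.replicate (w.count 2) 2 ++ [1]) then X ^ (w.count 2) else 0) with hP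
  have hP0 : P = 0 := by
    apply poly_zero
    · refine lt_of_le_of_lt ?_ hcard
      refine Polynomial.natDegree_sum_le_of_forall_le _ _ fun w hw => ?_
      refine (Polynomial.natDegree_C_mul_le _ _).trans ?_
      split_ifs
      · refine (Polynomial.natDegree_X_pow_le _).trans ?_
        exact (List.count_le_length).trans (hlen w (Finset.mem_filter.1 hw).1)
      · simp
    · intro t
      rw [← h1 t, hP, Polynomial.eval_finsetSum]
      refine Finset.sum_congr rfl fun w hw => ?_
      rw [MW_c m t w (Finset.mem_filter.1 hw).2]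
      split_ifs <;> simp
  obtain ⟨k, hk⟩ := hc.piv
  apply hk
  have h3 := congrArg (fun P : D[X] => P.coeff k) hP0
  simp only [hP, Polynomial.finsetSum_coeff, Polynomial.coeff_C_mul, Polynomial.coeff_zero] at h3
  rw [Finset.sum_eq_single (0 :: (List.replicate k 2 ++ [1]))] at h3
  · have h4 : (0 :: (List.replicate k 2 ++ [1])).count (2 : Fin 3) = k := by
      simp [List.count_append]
    rw [h4, if_pos rfl, Polynomial.coeff_X_pow_self, mul_one] at h3
    exact (algebraMap F D).injective (by rw [h3, map_zero])
  · intro w hw hne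
    split_ifs with h5
    · rw [Polynomial.coeff_X_pow, if_neg, mul_zero]
      intro h6
      apply hne
      rw [h6]
      exact h5
    · simp
  · intro h5
    have h6 : c (0 :: (List.replicate k 2 ++ [1])) = 0 := by
      by_contra h7
      apply h5
      rw [Finset.mem_filter]
      refine ⟨Finsupp.mem_support_iff.2 h7, ?_⟩
      simp [List.count_append, List.count_replicate]
    rw [h6, map_zero, zero_mul]

end Pool.Agent.TH858.RF
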