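import Pool.Agent.TH37.RF.Defs

/-!
# `n × n` matrices satisfy no multilinear identity of degree less than `n`
-/

set_option autoImplicit false

namespace Pool.Agent.TH858.RF

open Matrix

/-- product of matrix units along a list of pairs -/
theorem prod_not_chain {R : Type} [Semiring R] {n : ℕ} (l : List (Fin n × Fin n))
    (h : ¬ l.IsChain (fun e e' => e.2 = e'.1)) :
    (l.map fun e => (Matrix.single e.1 e.2 (1 : R))).prod = 0 := by
  induction l with
  | nil => exact absurd List.isChain_nil h
  | cons e l ih =>
    cases l with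
    | nil => exact absurd (List.isChain_singleton e) h
    | cons e' l =>
      rw [List.isChain_cons_cons, not_and_or] at h
      rcases h with h | h
      · rw [List.map_cons, List.map_cons, List.prod_cons, List.prod_cons, ← mul_assoc,
          Matrix.single_mul_single_of_ne _ _ _ _ h, zero_mul]
      · rw [List.map_cons, List.prod_cons, ih h, mul_zero]

theorem prod_chain {R : Type} [Semiring R] {n : ℕ} (e : Fin n × Fin n) (l : List (Fin n × Fin n))
    (h : (e :: l).IsChain (fun e e' => e.2 = e'.1)) :
    ∃ j, ((e :: l).map fun e => (Matrix.single e.1 e.2 (1 : R))).prod = Matrix.single e.1 j 1 := by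
  induction l generalizing e with
  | nil => exact ⟨e.2, by simp⟩
  | cons e' l ih =>
    rw [List.isChain_cons_cons] at h
    obtain ⟨j, hj⟩ := ih e' h.2
    refine ⟨j, ?_⟩
    rw [List.map_cons, List.prod_cons, hj, h.1, Matrix.single_mul_single_same, one_mul]

theorem isChain_ofFn {α : Type} (r : α → α → Prop) {d : ℕ} (f : Fin d → α) :
    (List.ofFn f).IsChain r ↔ ∀ (i : ℕ) (h : i + 1 < d), r (f ⟨i, by omega⟩) (f ⟨i + 1, h⟩) := by
  rw [List.isChain_iff_getElem]
  simp only [List.length_ofFn, List.getElem_ofFn]

/-- JOB BOUND2 -/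
theorem bound_size {F D : Type} [Field F] [Field D] [Algebra F D] (n d : ℕ)
    (c : Equiv.Perm (Fin d) → F) (hc : c 1 = 1)
    (hid : ∀ a : Fin d → Matrix (Fin n) (Fin n) D,
      ∑ π, c π • (List.ofFn fun k => a (π k)).prod = 0) : n ≤ d := by
  by_contra hnd
  push Not at hnd
  set f : Fin d → Fin n × Fin n := fun k =>
    (⟨k.val / 2, by have := k.2; omega⟩, ⟨(k.val + 1) / 2, by have := k.2; omega⟩) with hf
  have key := hid fun k => Matrix.single (f k).1 (f k).2 (1 : D)
  have hmap : ∀ π : Equiv.Perm (Fin d), (List.ofFn fun k => Matrix.single (f (π k)).1 (f (π k)).2 (1 : D))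
      = (List.ofFn fun k => f (π k)).map fun e => Matrix.single e.1 e.2 (1 : D) := by
    intro π
    rw [List.map_ofFn]
    rfl
  have hzero : ∀ π : Equiv.Perm (Fin d), π ≠ 1 →
      (List.ofFn fun k => Matrix.single (f (π k)).1 (f (π k)).2 (1 : D)).prod = 0 := by
    intro π hπ
    rw [hmap]
    apply prod_not_chain
    intro hch
    rw [isChain_ofFn] at hch
    apply hπ
    -- the chain condition makes `π` strictly monotone
    have h1 : ∀ (i : ℕ) (h : i + 1 < d),
        ((π ⟨i, by omega⟩).val + 1) / 2 = (π ⟨i + 1, h⟩).val / 2 := by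
      intro i h
      have := hch i h
      simp only [hf, Fin.mk.injEq] at this
      exact this
    have h2 : ∀ (k i : ℕ) (h : i + 1 + k < d),
        ((π ⟨i, by omega⟩).val + 1) / 2 ≤ (π ⟨i + 1 + k, h⟩).val / 2 := by
      intro k
      induction k with
      | zero => intro i h; exact (h1 i h).le
      | succ k ih =>
        intro i h
        have h3 := ih i (by omega)
        have h4 := h1 (i + 1 + k) (by omega)
        have h5 : (⟨i + 1 + (k + 1), h⟩ : Fin d) = ⟨i + 1 + k + 1, by omega⟩ := by
          ext; simp; omega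
        rw [h5, ← h4]
        omega
    have hmono : StrictMono π := by
      intro i j hij
      have hij' : i.val < j.val := hij
      have h3 := h2 (j.val - (i.val + 1)) i.val (by omega)
      have h4 : (⟨i.val + 1 + (j.val - (i.val + 1)), by omega⟩ : Fin d) = j := by
        ext; simp; omega
      rw [h4] at h3
      have h5 : (⟨i.val, by omega⟩ : Fin d) = i := rfl
      rw [h5] at h3
      have h6 : π i ≠ π j := fun h => by
        have := π.injective h
        omega
      have h7 : (π i).val ≠ (π j).val := fun h => h6 (Fin.ext h)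
      show (π i).val < (π j).val
      omega
    have hsub := Subsingleton.elim (hmono.orderIsoOfSurjective π π.surjective) (OrderIso.refl (Fin d))
    ext i
    have h3 := congrArg (fun e : Fin d ≃o Fin d => (e i).val) hsub
    simpa using h3
  rw [Finset.sum_eq_single 1 (fun π _ hπ => by rw [hzero π hπ, smul_zero])
    (fun h => absurd (Finset.mem_univ _) h), hc, one_smul] at key
  rcases Nat.eq_zero_or_pos d with h0 | h0
  · subst h0
    simp only [List.ofFn_zero, List.prod_nil] at key
    have := congrFun (congrFun key ⟨0, hnd⟩) ⟨0, hnd⟩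
    simp at this
  · obtain ⟨d', rfl⟩ : ∃ d', d = d' + 1 := ⟨d - 1, by omega⟩
    rw [hmap 1, List.ofFn_succ] at key
    obtain ⟨j, hj⟩ := prod_chain (R := D) (f ((1 : Equiv.Perm (Fin (d' + 1))) 0))
      (List.ofFn fun i : Fin d' => f ((1 : Equiv.Perm (Fin (d' + 1))) i.succ)) (by
        rw [← List.ofFn_succ (f := fun i : Fin (d' + 1) => f ((1 : Equiv.Perm (Fin (d' + 1))) i)),
          isChain_ofFn]
        intro i h
        simp [hf])
    rw [hj] at key
    have := congrFun (congrFun key (f ((1 : Equiv.Perm (Fin (d' + 1))) 0)).1) j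
    simp at this

end Pool.Agent.TH858.RF
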