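import Pool.Agent.TH37.RZ.Defs
import Pool.Agent.TH858.RF_BOUND1

/-!
# The identity `c` (integer coefficients) fails in `2 × 2` and larger matrices over large finite
fields, uniformly in the characteristic
-/

set_option autoImplicit false

namespace Pool.Agent.TH858.RZ

open Matrix Polynomial Pool.Agent.TH37.RZ Pool.Agent.TH858.RF

/-- JOB Z-BOUND -/
theorem bound_card (c : List (Fin 3) →₀ ℤ) (hc : Cond c) :
    ∃ d0 : ℕ, ∀ (n : ℕ) (D : Type) [Field D] [Finite D], 2 ≤ n →
      (∀ x y z : Matrix (Fin n) (Fin n) D, ev3 c x y z = 0) → Nat.card D ≤ d0 := by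
  classical
  refine ⟨c.support.sup List.length, ?_⟩
  intro n D _ _ hn hid
  obtain ⟨m, rfl⟩ : ∃ m, n = m + 2 := ⟨n - 2, by omega⟩
  by_contra hcard
  push Not at hcard
  set L := c.support.sup List.length with hL
  have hlen : ∀ w ∈ c.support, w.length ≤ L := fun w hw => Finset.le_sup (f := List.length) hw
  -- first phase: take the part of degree `1` in `x`
  have h1 : ∀ t : D, ∑ w ∈ c.support with w.count 0 = 1,
      ((c w : ℤ) : D) * MW m t w 0 0 = 0 := by
    intro t
    set Q : D[X] := ∑ w ∈ c.support, monomial (w.count 0) (((c w : ℤ) : D) * MW m t w 0 0)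
      with hQ
    have hQ0 : Q = 0 := by
      apply poly_zero
      · refine lt_of_le_of_lt ?_ hcard
        refine Polynomial.natDegree_sum_le_of_forall_le _ _ fun w hw => ?_
        exact (Polynomial.natDegree_monomial_le _).trans ((List.count_le_length).trans (hlen w hw))
      · intro s
        have h2 := congrFun (congrFun (hid (s • mx D m) (my D m) (mz t m)) 0) 0
        rw [ev3, Finsupp.sum, Matrix.sum_apply] at h2
        rw [hQ, Polynomial.eval_finsetSum]
        rw [Matrix.zero_apply] at h2
        rw [← h2]
        refine Finset.sum_congr rfl fun w _ => ?_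
        rw [smul_word, Polynomial.eval_monomial]
        show _ = c w • (s ^ (w.count 0) * MW m t w 0 0)
        rw [zsmul_eq_mul]
        ring
    have h3 := congrArg (fun P : D[X] => P.coeff 1) hQ0
    simp only [hQ, Polynomial.finsetSum_coeff, Polynomial.coeff_monomial, Polynomial.coeff_zero]
      at h3
    rw [Finset.sum_filter]
    exact h3
  -- second phase
  set P : D[X] := ∑ w ∈ c.support with w.count 0 = 1,
    C (((c w : ℤ) : D)) *
      (if w = 0 :: (List.replicate (w.count 2) 2 ++ [1]) then X ^ (w.count 2) else 0) with hP
  have hP0 : P = 0 := by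
    apply poly_zero
    · refine lt_of_le_of_lt ?_ hcard
      refine Polynomial.natDegree_sum_le_of_forall_le _ _ fun w hw => ?_
      refine (Polynomial.natDegree_C_mul_le _ _).trans ?_
      split_ifs
      · refine (Polynomial.natDegree_X_pow_le _).trans ?_
        exact (List.count_le_length).trans (hlen w (Finset.mem_filter.1 hw).1)
      · simp
    · intro t
      rw [← h1 t, hP, Polynomial.eval_finsetSum]
      refine Finset.sum_congr rfl fun w hw => ?_
      rw [MW_c m t w (Finset.mem_filter.1 hw).2]
      split_ifs <;> simp
  obtain ⟨p, hp⟩ := CharP.exists D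
  have hpp : p.Prime := by
    rcases CharP.char_is_prime_or_zero D p with h | h
    · exact h
    · subst h
      have := CharP.charP_to_charZero D
      exact absurd (inferInstance : Finite D) (not_finite_iff_infinite.mpr inferInstance)
  obtain ⟨k, hk⟩ := hc.piv p hpp
  apply hk
  rw [← CharP.intCast_eq_zero_iff D p]
  have h3 := congrArg (fun P : D[X] => P.coeff k) hP0
  simp only [hP, Polynomial.finsetSum_coeff, Polynomial.coeff_C_mul, Polynomial.coeff_zero] at h3
  rw [Finset.sum_eq_single (0 :: (List.replicate k 2 ++ [1]))] at h3
  · have h4 : (0 :: (List.replicate k 2 ++ [1])).count (2 : Fin 3) = k := by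
      simp [List.count_append]
    rw [h4, if_pos rfl, Polynomial.coeff_X_pow_self, mul_one] at h3
    exact h3
  · intro w hw hne
    split_ifs with h5
    · rw [Polynomial.coeff_X_pow, if_neg, mul_zero]
      intro h6
      apply hne
      rw [h6]
      exact h5
    · simp
  · intro h5
    have h6 : c (0 :: (List.replicate k 2 ++ [1])) = 0 := by
      by_contra h7
      apply h5
      rw [Finset.mem_filter]
      refine ⟨Finsupp.mem_support_iff.2 h7, ?_⟩
      simp [List.count_append, List.count_replicate]
    rw [h6, Int.cast_zero, zero_mul]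

end Pool.Agent.TH858.RZ
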