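import Pool.Agent.TH37.RZ.Defs
import Pool.Agent.H854R3.CR.Stmts
import Pool.Agent.H66R3.CR.Mat
import Pool.Agent.H428R3.CRLeft
import Pool.Agent.TH28.RF_DETECT

set_option autoImplicit false

/-! Job RZ-DETECT (MP_8983b8_al, for helper37). Adapted from `Pool/Agent/TH28/RF_DETECT.lean`. -/

namespace Pool.Agent.TH858.RZDetect

open Pool.Agent.H854R3.CR (PIOn)
open Pool.Agent.H854R3.NE (npw npw_eq_pow)
open Pool.Agent.TH28.RFDetect (kerI mem_kerI finite_quot)

theorem mem_ker {C : Type} [Ring C] (ε : C →+* ℤ) (x : C) :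
    x ∈ TwoSidedIdeal.ker ε ↔ ε x = 0 := by
  rw [TwoSidedIdeal.mem_ker]

theorem fgen {C : Type} [Ring C] (ε : C →+* ℤ)
    (hfg : Pool.Agent.TH37.RZ.FGen ε) : Pool.Agent.H854R3.CR.FGen C := by
  obtain ⟨r, b, -, hb⟩ := hfg
  refine ⟨Set.range b ∪ {1}, (Set.finite_range _).union (Set.finite_singleton _), ?_⟩
  rw [eq_top_iff]
  rintro x -
  have hx : x ∈ Subring.closure (Set.range b) := by rw [hb]; trivial
  induction hx using Subring.closure_induction with
  | mem x hx => exact NonUnitalSubring.subset_closure (Or.inl hx)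
  | zero => exact zero_mem _
  | one => exact NonUnitalSubring.subset_closure (Or.inr rfl)
  | add x y _ _ hx hy => exact add_mem hx hy
  | neg x _ hx => exact neg_mem hx
  | mul x y _ _ hx hy => exact mul_mem hx hy

/-- A non-nilpotent element of a finite ring survives in a matrix ring over a finite field. -/
theorem detect_fin {E : Type} [Ring E] [Finite E] (β : E) (hβ : ∀ k, β ^ k ≠ 0) :
    ∃ (n : ℕ) (D : Type) (_ : Field D) (_ : Finite D)
      (ψ : E →+* Matrix (Fin n) (Fin n) D), Function.Surjective ψ ∧ ψ β ≠ 0 := by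
  classical
  let J : Ideal E := Ring.jacobson E
  have : J.IsTwoSided := inferInstanceAs (Ring.jacobson E).IsTwoSided
  have hβJ : β ∉ J := by
    intro h
    obtain ⟨k, hk⟩ := (IsSemiprimaryRing.isNilpotent : IsNilpotent (Ring.jacobson E))
    have h1 : β ^ k ∈ J ^ k := Ideal.pow_mem_pow h k
    have h2 : J ^ k = 0 := hk
    rw [h2] at h1
    exact hβ k h1
  obtain ⟨m, D, d, iD, hd, ⟨e⟩⟩ :=
    IsSemisimpleRing.exists_ringEquiv_pi_matrix_divisionRing (E ⧸ J)
  have h3 : e (Ideal.Quotient.mk J β) ≠ 0 := by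
    intro h
    have h4 : Ideal.Quotient.mk J β = 0 := by
      apply e.injective
      rw [h, map_zero]
    exact hβJ ((Ideal.Quotient.eq_zero_iff_mem).1 h4)
  obtain ⟨i, hi⟩ : ∃ i, e (Ideal.Quotient.mk J β) i ≠ 0 := by
    by_contra hcon
    push Not at hcon
    exact h3 (funext hcon)
  let ψ : E →+* Matrix (Fin (d i)) (Fin (d i)) (D i) :=
    (Pi.evalRingHom (fun i => Matrix (Fin (d i)) (Fin (d i)) (D i)) i).comp
      (e.toRingHom.comp (Ideal.Quotient.mk J))
  have hsurj : Function.Surjective ψ := by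
    intro M
    obtain ⟨x, hx⟩ := e.surjective (Pi.single i M)
    obtain ⟨y, rfl⟩ := Ideal.Quotient.mk_surjective x
    refine ⟨y, ?_⟩
    show e (Ideal.Quotient.mk J y) i = M
    rw [hx, Pi.single_eq_same]
  have hfin : Finite (Matrix (Fin (d i)) (Fin (d i)) (D i)) := Finite.of_surjective _ hsurj
  have : NeZero (d i) := by exact hd i
  have hD : Finite (D i) := Finite.of_injective
    (fun a : D i => (Matrix.of fun _ _ => a : Matrix (Fin (d i)) (Fin (d i)) (D i))) (by
      intro a a' h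
      exact congrFun (congrFun h 0) 0)
  exact ⟨d i, D i, littleWedderburn (D i), hD, ψ, hsurj, hi⟩

/-- JOB Z-DETECT -/
theorem detect {C : Type} [Ring C] (ε : C →+* ℤ) (hfg : Pool.Agent.TH37.RZ.FGen ε)
    (hPI : PIOn {x : C | ε x = 0})
    (β : C) (hβ : ε β = 0) (hnil : ∀ k, β ^ k ≠ 0) :
    ∃ (n : ℕ) (D : Type) (_ : Field D) (_ : Finite D)
      (ψ : C →+* Matrix (Fin n) (Fin n) D), Function.Surjective ψ ∧ ψ β ≠ 0 := by
  have hset : ((TwoSidedIdeal.ker ε : TwoSidedIdeal C) : Set C) = {x : C | ε x = 0} := by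
    ext x
    exact mem_ker ε x
  obtain ⟨K, iK, s, Θ, hΘ⟩ := Pool.Agent.H66R3.CR.taskMat C (TwoSidedIdeal.ker ε)
    (by rw [hset]; exact hPI) β ((mem_ker ε β).2 hβ) hnil
  obtain ⟨L, iL, hL, Θ', hΘ'⟩ := Pool.Agent.H428R3.CRLeft.finite_red' (fgen ε hfg)
    (Θ : C →ₙ+* Matrix (Fin s) (Fin s) K) β (fun k => by
      rw [npw_eq_pow]
      exact hΘ (k + 1))
  have := finite_quot Θ'
  have hpow : ∀ k : ℕ, Θ' (β ^ (k + 1)) = (Θ' β) ^ (k + 1) := by
    intro k
    induction k with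
    | zero => simp
    | succ k ih => rw [pow_succ, map_mul, ih, ← pow_succ]
  obtain ⟨n, D, i1, i2, ψ, h1, h2⟩ := detect_fin
    (Ideal.Quotient.mk (kerI Θ') β) (fun k hk => by
      have h3 : Ideal.Quotient.mk (kerI Θ') (β ^ (k + 1)) = 0 := by
        rw [map_pow, pow_succ, hk, zero_mul]
      have h4 : β ^ (k + 1) ∈ kerI Θ' := (Ideal.Quotient.eq_zero_iff_mem).1 h3
      rw [mem_kerI, hpow] at h4
      exact hΘ' k (by rw [npw_eq_pow]; exact h4))
  exact ⟨n, D, i1, i2, ψ.comp (Ideal.Quotient.mk (kerI Θ')),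
    h1.comp Ideal.Quotient.mk_surjective, h2⟩

end Pool.Agent.TH858.RZDetect
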