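import Pool.Agent.TH609.J368
import Pool.Agent.TH563.V.Defs

/-!
# Several hubs of weight zero: the critical value is the maximal volume
-/

set_option autoImplicit false

namespace Pool.Agent.TH858.J1745

open Pool.Agent.TH563.UV
open Pool.Agent.TH563.Z
open Pool.Agent.TH563.V
open Pool.Agent.W711.HT hiding XX
open Pool.Agent.W719.AR (Fl Gap flS)
open Pool.Agent.W737.AR (Lf ze TT vol_le alt_zero)
open Pool.Agent.W709.VC (S_TET)
open Pool.Agent.W374.HT.Cch (der1 der2 valh valq)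
open Pool.Agent.W571.AR (eqn' im_eq val_re)
open Pool.Agent.TH609.UV (fe VL vc_facts hq vt_re vl_im shape_cases wt_eq vertex)
open Pool.Agent.TH609.Z (valz HB exists_g EG vok shp vlf edge_id hg_symm hg_of_hq HG)
open scoped Real

/-! ### The number of a vertex -/

lemma kz_ne {D : ℕ} {b : Bool} {n : ℕ} {a : ℤ} (h : kz D b n a ≠ 0) :
    b = false ∧ a = 0 ∧ 3 ≤ kz D b n a ∧ kz D b n a < D := by
  unfold kz at h ⊢
  split_ifs at h ⊢ with h1
  · exact h1
  · exact absurd rfl h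

/-- the number of a vertex different from the root -/
def kc (D : ℕ) (c : PB) : ℕ := kz D c.bl (c.nc + 1) c.wt

lemma kc_ne {D : ℕ} {c : PB} (h : kc D c ≠ 0) :
    c.bl = false ∧ c.wt = 0 ∧ 3 ≤ kc D c ∧ kc D c < D := kz_ne h

/-- the equation at a vertex -/
lemma vl_of {D : ℕ} {ρ τ g : ℝ} {b : Bool} {n : ℕ} {a : ℤ} {z G l : ℂ}
    (h : VCV ρ τ g (kz D b n a) b a z G) (hG : G = -(1 / (2 * π)) * l) : VL b a z l := by
  by_cases hk : kz D b n a = 0
  · have h1 := h.1 hk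
    refine ⟨h1.1, fun hb => ?_⟩
    obtain ⟨-, h2⟩ := h1.2 hb
    exact eqn' _ _ _ _ hG h2
  · obtain ⟨hb, ha, -, -⟩ := kz_ne hk
    refine ⟨fun hb' => ?_, fun _ => ?_⟩
    · rw [hb] at hb'
      exact absurd hb' (by simp)
    · refine eqn' _ _ G _ hG ?_
      rw [ha]
      simpa using (h.2 hk).2

/-! ### The edges -/

/-- the position of the variable of a vertex with the number `k` -/
def Ps (ρ τ g : ℝ) (k : ℕ) (z : ℂ) : Prop :=
  (k = 0 → z ∈ Rc ρ τ ∧ ‖z‖ ≤ 1 / 10) ∧ (k ≠ 0 → ‖z - et k * Complex.I‖ ≤ g)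

lemma ps_of {ρ τ g : ℝ} (hρ : 0 < ρ) (hτ : 0 < τ) {k : ℕ} {b : Bool} {a : ℤ} {z G : ℂ}
    (h : VCV ρ τ g k b a z G) : Ps ρ τ g k z :=
  ⟨fun hk => vc_facts hρ hτ (h.1 hk), fun hk => (h.2 hk).1⟩

/-- the parameter of an edge -/
noncomputable def ee (dl : ℂ → ℂ → ℂ) (Dl : ℕ → ℂ → ℂ → ℂ) (k k' : ℕ) (z' z : ℂ) : ℂ :=
  if k ≠ 0 then Dl k z' z else if k' ≠ 0 then Dl k' z z' else dl z' z

/-- everything that is needed at an edge -/
structure EF (f : ℂ → ℂ → ℂ) (z' z δ : ℂ) : Prop where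
  hg : HG z' z (2 * π * δ)
  d1 : deriv (fun w => f w z) z' = -(1 / (2 * π)) * Lg (2 * π * δ) z'
  d2 : deriv (fun w => f z' w) z = -(1 / (2 * π)) * Lg (2 * π * δ) z
  val : 2 * π * (f z' z).re = hv z' z (2 * π * δ) + z'.im * (Lg (2 * π * δ) z').im +
    z.im * (Lg (2 * π * δ) z).im

lemma hv_symm {ψ ψ' u : ℂ} (h : HG ψ ψ' u) : hv ψ ψ' u = hv ψ' ψ u := by
  rw [← vlf h, ← vlf (hg_symm h)]
  ring

theorem ef {ρ τ κ c : ℝ} {s dl : ℂ → ℂ → ℂ} (hK : KD ρ τ κ c s dl) {D : ℕ}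
    {S Dl : ℕ → ℂ → ℂ → ℂ} {r : ℕ → ℝ}
    (hS : ∀ k, 3 ≤ k → k < D → ∃ c' C, SDZ (et k) (r k) c' C (S k) (Dl k)) {g : ℝ}
    (hg : ∀ k, 3 ≤ k → k < D → ∀ ψ φ : ℂ, ‖ψ‖ ≤ g → ‖φ - et k * Complex.I‖ ≤ g →
      HB (et k) (r k) (Dl k) ψ φ) {k k' : ℕ} {z' z : ℂ} (hk : k ≠ 0 → 3 ≤ k ∧ k < D)
    (hk' : k' ≠ 0 → 3 ≤ k' ∧ k' < D) (h1 : Ps ρ τ g k z) (h2 : Ps ρ τ g k' z')
    (h3 : k ≠ 0 → k' = 0 ∧ ‖z'‖ ≤ g) (h4 : k' ≠ 0 → k = 0 ∧ ‖z‖ ≤ g) :
    EF (pt S s k k') z' z (ee dl Dl k k' z' z) := by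
  by_cases hk0 : k = 0
  · by_cases hk1 : k' = 0
    · subst hk0 hk1
      obtain ⟨t1, t3⟩ := h1.1 rfl
      obtain ⟨d1, d3⟩ := h2.1 rfl
      have e1 : ee dl Dl 0 0 z' z = dl z' z := by simp [ee]
      have e2 : pt S s 0 0 = s := by
        funext x y
        simp [pt]
      rw [e1, e2]
      refine ⟨hg_of_hq (hq hK d1 t1 d3 t3), der1 hK d1 t1, der2 hK d1 t1, ?_⟩
      exact valh Pool.Agent.W583.HTP.poth hK d1 t1 d3 t3
    · subst hk0
      obtain ⟨k1, k2⟩ := hk' hk1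
      obtain ⟨c', C, hS'⟩ := hS k' k1 k2
      have hb := hg k' k1 k2 z z' (h4 hk1).2 (h2.2 hk1)
      have e1 : ee dl Dl 0 k' z' z = Dl k' z z' := by simp [ee, hk1]
      have e2 : pt S s 0 k' = fun x y => S k' y x := by
        funext x y
        simp [pt, hk1]
      rw [e1, e2]
      have hV := valz hS' hb.m1 hb.m2 hb.dr hb.r1 hb.r2
      refine ⟨hg_symm hb.hg, (hS'.sder2 z hb.m1 z' hb.m2).deriv,
        (hS'.sder1 z hb.m1 z' hb.m2).deriv, ?_⟩
      rw [hv_symm hb.hg] at hV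
      linarith
  · obtain ⟨k1, k2⟩ := hk hk0
    obtain ⟨c', C, hS'⟩ := hS k k1 k2
    have hb := hg k k1 k2 z' z (h3 hk0).2 (h1.2 hk0)
    have e1 : ee dl Dl k k' z' z = Dl k z' z := by simp [ee, hk0]
    have e2 : pt S s k k' = S k := by
      funext x y
      simp [pt, hk0]
    rw [e1, e2]
    exact ⟨hb.hg, (hS'.sder1 z' hb.m1 z hb.m2).deriv, (hS'.sder2 z' hb.m1 z hb.m2).deriv,
      valz hS' hb.m1 hb.m2 hb.dr hb.r1 hb.r2⟩

/-! ### Solutions -/

/-- the parameter `u` of the edge between `c` and its parent -/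
noncomputable def uu (D : ℕ) (e : ℕ → ℕ → ℂ → ℂ → ℂ) (k : ℕ) (t c : PB) : ℂ :=
  2 * π * e k (kc D c) c.rz t.rz

/-- the conditions at the edges -/
def hpv (D : ℕ) (e : ℕ → ℕ → ℂ → ℂ → ℂ) (k : ℕ) : PB → Prop
  | .vx _ _ _ => True
  | .br t c => hpv D e k t ∧ hpv D e (kc D c) c ∧ HG c.rz t.rz (uu D e k t c)

/-- sum over the children of the root -/
noncomputable def lgv (D : ℕ) (e : ℕ → ℕ → ℂ → ℂ → ℂ) (k : ℕ) : PB → ℂ
  | .vx _ _ _ => 0
  | .br t c => lgv D e k t + Lg (uu D e k t c) t.rz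

/-- the equations at the vertices other than the root -/
def lcv (D : ℕ) (e : ℕ → ℕ → ℂ → ℂ → ℂ) (k : ℕ) : PB → Prop
  | .vx _ _ _ => True
  | .br t c => lcv D e k t ∧ lcv D e (kc D c) c ∧
      VL c.bl c.wt c.rz (Lg (uu D e k t c) c.rz + lgv D e (kc D c) c)

/-- sum of the hinge volumes -/
noncomputable def hsv (D : ℕ) (e : ℕ → ℕ → ℂ → ℂ → ℂ) (k : ℕ) : PB → ℝ
  | .vx _ _ _ => 0
  | .br t c => hsv D e k t + hsv D e (kc D c) c + hv c.rz t.rz (uu D e k t c)

/-- the angle structure -/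
noncomputable def agv (D : ℕ) (e : ℕ → ℕ → ℂ → ℂ → ℂ) (k : ℕ) : PB → AB
  | .vx b a _ => .vx b a
  | .br t c => .br (agv D e k t) (agv D e (kc D c) c) (fe t.rz (uu D e k t c))
      (fe c.rz (uu D e k t c))

/-- the critical configurations are solutions -/
theorem indv {ρ τ κ c : ℝ} {s dl : ℂ → ℂ → ℂ} (hK : KD ρ τ κ c s dl) {D : ℕ}
    {S Dl : ℕ → ℂ → ℂ → ℂ} {r : ℕ → ℝ}
    (hS : ∀ k, 3 ≤ k → k < D → ∃ c' C, SDZ (et k) (r k) c' C (S k) (Dl k)) {g : ℝ}
    (hg : ∀ k, 3 ≤ k → k < D → ∀ ψ φ : ℂ, ‖ψ‖ ≤ g → ‖φ - et k * Complex.I‖ ≤ g →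
      HB (et k) (r k) (Dl k) ψ φ) :
    ∀ (p : PB) (k : ℕ), (k ≠ 0 → 3 ≤ k ∧ k < D) → CV D S s ρ τ g k p → Ps ρ τ g k p.rz →
      gv D S s k p = -(1 / (2 * π)) * lgv D (ee dl Dl) k p ∧ hpv D (ee dl Dl) k p ∧
      lcv D (ee dl Dl) k p ∧
      2 * π * (vv D S s k p).re = hsv D (ee dl Dl) k p + p.rz.im * (lgv D (ee dl Dl) k p).im
  | .vx b a z, k, _, _, _ => by
      refine ⟨?_, trivial, trivial, ?_⟩
      · simp [gv, lgv]
      · simp [vv, hsv, lgv]
  | .br t d, k, hk, hCr, hP => by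
      obtain ⟨hC1, hC2, hC3, hC4, hC5⟩ := hCr
      have hkd : kc D d ≠ 0 → 3 ≤ kc D d ∧ kc D d < D := fun h => (kc_ne h).2.2
      have hPt : Ps ρ τ g k t.rz := hP
      have hPd : Ps ρ τ g (kc D d) d.rz := ps_of hK.hρ.1 hK.hτ.1 hC3
      obtain ⟨i1, i2, i3, i4⟩ := indv hK hS hg t k hk hC1 hPt
      obtain ⟨j1, j2, j3, j4⟩ := indv hK hS hg d (kc D d) hkd hC2 hPd
      have hE := ef hK hS hg hk hkd hPt hPd hC4 hC5
      obtain ⟨e1, e2, e3, e4⟩ := hE
      have hV : VL d.bl d.wt d.rz (Lg (uu D (ee dl Dl) k t d) d.rz +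
          lgv D (ee dl Dl) (kc D d) d) := by
        refine vl_of hC3 ?_
        have h1 : gv D S s (kz D d.bl (d.nc + 1) d.wt) d =
          -(1 / (2 * π)) * lgv D (ee dl Dl) (kc D d) d := j1
        have h2 : deriv (fun w => pt S s k (kz D d.bl (d.nc + 1) d.wt) w t.rz) d.rz =
          -(1 / (2 * π)) * Lg (uu D (ee dl Dl) k t d) d.rz := e2
        rw [h1, h2]
        ring
      have hI := vt_re hV
      rw [Complex.add_im] at hI
      refine ⟨?_, ⟨i2, j2, e1⟩, ⟨i3, j3, hV⟩, ?_⟩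
      · have h3 : deriv (fun w => pt S s k (kz D d.bl (d.nc + 1) d.wt) d.rz w) t.rz =
          -(1 / (2 * π)) * Lg (uu D (ee dl Dl) k t d) t.rz := e3
        simp only [gv, lgv]
        rw [i1, h3]
        ring
      · have h4 : 2 * π * (pt S s k (kz D d.bl (d.nc + 1) d.wt) d.rz t.rz).re =
          hv d.rz t.rz (uu D (ee dl Dl) k t d) +
            d.rz.im * (Lg (uu D (ee dl Dl) k t d) d.rz).im +
            t.rz.im * (Lg (uu D (ee dl Dl) k t d) t.rz).im := e4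
        have h5 : 2 * π * (vv D S s (kz D d.bl (d.nc + 1) d.wt) d).re =
          hsv D (ee dl Dl) (kc D d) d + d.rz.im * (lgv D (ee dl Dl) (kc D d) d).im := j4
        simp only [vv, hsv, lgv, PB.rz]
        rw [Complex.add_im]
        simp only [Complex.add_re]
        linear_combination i4 + hI + h5 + h4

/-! ### The angle structure -/

section
variable (D : ℕ) (e : ℕ → ℕ → ℂ → ℂ → ℂ)

theorem agv_wt (k : ℕ) : ∀ p : PB, (agv D e k p).wt = p.wt
  | .vx _ _ _ => rfl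
  | .br t _ => agv_wt k t

theorem agv_bl (k : ℕ) : ∀ p : PB, (agv D e k p).bl = p.bl
  | .vx _ _ _ => rfl
  | .br t _ => agv_bl k t

theorem agv_shape : ∀ (p : PB) (k : ℕ), (agv D e k p).shape = p.shape
  | .vx _ _ _, _ => rfl
  | .br t c, k => by
    change Tb.br (agv D e k t).shape (agv D e (kc D c) c).shape = Tb.br t.shape c.shape
    rw [agv_shape t k, agv_shape c (kc D c)]

theorem agv_fl (k : ℕ) : ∀ p : PB, hpv D e k p →
    (∀ x ∈ (agv D e k p).fl, EG p.rz x) ∧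
      ((agv D e k p).fl.map fun y => y.1.cr).sum = (lgv D e k p).im
  | .vx b a z, _ => by
    refine ⟨?_, ?_⟩
    · intro x hx
      simp [agv, AB.fl] at hx
    · simp [agv, AB.fl, lgv]
  | .br t c, h => by
    obtain ⟨h1, h2, h3⟩ := h
    obtain ⟨g1, g2⟩ := agv_fl k t h1
    have h4 := hg_symm h3
    refine ⟨?_, ?_⟩
    · intro x hx
      have hx' : x ∈ (agv D e k t).fl ++ [(fe t.rz (uu D e k t c),
          fe c.rz (uu D e k t c))] := hx
      rcases List.mem_append.1 hx' with h | h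
      · exact g1 x h
      · rw [List.mem_singleton] at h
        exact ⟨_, _, h4, h⟩
    · change (((agv D e k t).fl ++ [(fe t.rz (uu D e k t c),
          fe c.rz (uu D e k t c))]).map fun y => y.1.cr).sum =
        (lgv D e k t + Lg (uu D e k t c) t.rz).im
      rw [List.map_append, List.sum_append, g2, Complex.add_im]
      simp only [List.map_cons, List.map_nil, List.sum_cons, List.sum_nil, add_zero]
      rw [(shp h4).2.2.2.2.2]

theorem agv_isok : ∀ (p : PB) (k : ℕ), hpv D e k p → lcv D e k p → (agv D e k p).OK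
  | .vx _ _ _, _, _, _ => trivial
  | .br t c, k, h, h' => by
    obtain ⟨h1, h2, h3⟩ := h
    obtain ⟨k1, k2, k3⟩ := h'
    have h4 := hg_symm h3
    obtain ⟨g1, g2⟩ := agv_fl D e (kc D c) c h2
    have s3 := shp h3
    have s4 := shp h4
    refine ⟨agv_isok t k h1 k1, agv_isok c (kc D c) h2 k2, s4.1, s3.1, s4.2.1, ?_⟩
    rw [agv_wt, agv_bl]
    apply vok (ψ := c.rz)
    · intro x hx
      rcases List.mem_cons.1 hx with rfl | hx
      · exact ⟨_, _, h3, rfl⟩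
      · exact g1 x hx
    · intro hb
      rw [List.map_cons, List.sum_cons, g2]
      simp only
      rw [s3.2.2.2.2.2, ← Complex.add_im]
      exact vl_im k3 hb

theorem agv_vol : ∀ (p : PB) (k : ℕ), hpv D e k p → (agv D e k p).vol = hsv D e k p
  | .vx _ _ _, _, _ => rfl
  | .br t c, k, h => by
    obtain ⟨h1, h2, h3⟩ := h
    change (agv D e k t).vol + (agv D e (kc D c) c).vol + 2 * ((fe t.rz (uu D e k t c)).vol +
      (fe c.rz (uu D e k t c)).vol) = hsv D e k t + hsv D e (kc D c) c + hv c.rz t.rz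
        (uu D e k t c)
    rw [agv_vol t k h1, agv_vol c (kc D c) h2, ← vlf h3]
    ring

/-! ### Maximality -/

/-- the edges at the root: parameter, number at the child, the two `Fl` of `y` -/
noncomputable def elv (k : ℕ) : PB → AB → List ((ℂ × ℂ) × (Fl × Fl))
  | .br t c, .br t' _ f g => elv k t t' ++ [((uu D e k t c, c.rz), (f, g))]
  | _, _ => []

/-- the total derivative -/
noncomputable def LLv (k : ℕ) : PB → AB → ℝ
  | .br t c, .br t' c' f g => LLv k t t' + LLv (kc D c) c c' +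
      (Lf (fe t.rz (uu D e k t c)) f + Lf (fe c.rz (uu D e k t c)) g)
  | _, _ => 0

lemma elv_map (k : ℕ) (p : PB) (y : AB) (h : y.shape = p.shape) :
    (elv D e k p y).map Prod.snd = y.fl := by
  induction p generalizing y with
  | vx b a z =>
    rcases shape_cases _ y h with ⟨b', a', z', h1, rfl⟩ | ⟨t, c, t', c', f, g, h1, -⟩
    · simp [elv, AB.fl]
    · simp at h1
  | br t c iht ihc =>
    rcases shape_cases _ y h with ⟨b', a', z', h1, -⟩ | ⟨t, c, t', c', f, g, h1, rfl, h2, h3⟩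
    · simp at h1
    · simp only [PB.br.injEq] at h1
      obtain ⟨rfl, rfl⟩ := h1
      simp [elv, AB.fl, iht t' h2]

lemma elv_lg (k : ℕ) (p : PB) (y : AB) (h : y.shape = p.shape) :
    ((elv D e k p y).map (fun x => Lg x.1.1 p.rz)).sum = lgv D e k p := by
  induction p generalizing y with
  | vx b a z =>
    rcases shape_cases _ y h with ⟨b', a', z', h1, rfl⟩ | ⟨t, c, t', c', f, g, h1, -⟩
    · simp [elv, lgv]
    · simp at h1
  | br t c iht ihc =>
    rcases shape_cases _ y h with ⟨b', a', z', h1, -⟩ | ⟨t, c, t', c', f, g, h1, rfl, h2, h3⟩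
    · simp at h1
    · simp only [PB.br.injEq] at h1
      obtain ⟨rfl, rfl⟩ := h1
      have := iht t' h2
      simp only [elv, List.map_append, List.map_cons, List.map_nil, List.sum_append, List.sum_cons,
        List.sum_nil, add_zero, lgv, PB.rz]
      rw [this]

lemma elv_pos (k : ℕ) (p : PB) (y : AB) (h : y.shape = p.shape) (hy : y.OK) :
    ∀ x ∈ elv D e k p y, x.2.1.Pos ∧ x.2.2.Pos := by
  induction p generalizing y with
  | vx b a z =>
    rcases shape_cases _ y h with ⟨b', a', z', h1, rfl⟩ | ⟨t, c, t', c', f, g, h1, -⟩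
    · simp [elv]
    · simp at h1
  | br t c iht ihc =>
    rcases shape_cases _ y h with ⟨b', a', z', h1, -⟩ | ⟨t, c, t', c', f, g, h1, rfl, h2, h3⟩
    · simp at h1
    · simp only [PB.br.injEq] at h1
      obtain ⟨rfl, rfl⟩ := h1
      obtain ⟨k1, k2, k3, k4, k5, k6⟩ := hy
      intro x hx
      simp only [elv, List.mem_append, List.mem_singleton] at hx
      rcases hx with hx | rfl
      · exact iht t' h2 k1 x hx
      · exact ⟨k3, k4⟩

lemma LLv_eq (p : PB) (k : ℕ) (hp : hpv D e k p)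
    (hcr : lcv D e k p) (y : AB) (h : y.shape = p.shape) (hy : y.OK) :
    LLv D e k p y = ((elv D e k p y).map (fun x => TT p.rz x.1.1 x.2.1 x.2.2)).sum := by
  induction p generalizing y k with
  | vx b a z =>
    rcases shape_cases _ y h with ⟨b', a', z', h1, rfl⟩ | ⟨t, c, t', c', f, g, h1, -⟩
    · simp [elv, LLv]
    · simp at h1
  | br t c iht ihc =>
    rcases shape_cases _ y h with ⟨b', a', z', h1, -⟩ | ⟨t, c, t', c', f, g, h1, rfl, h2, h3⟩
    · simp at h1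
    · simp only [PB.br.injEq] at h1
      obtain ⟨rfl, rfl⟩ := h1
      obtain ⟨k1, k2, k3, k4, k5, k6⟩ := hy
      obtain ⟨n1, n2, n3⟩ := hp
      obtain ⟨r1, r2, r3⟩ := hcr
      have e1 := iht k n1 r1 t' h2 k1
      have e2 := ihc (kc D c) n2 r2 c' h3 k2
      have e3 := edge_id (hg_symm n3) f g k3 k4 k5
      have e4 := vertex c.bl c.rz c.wt
        (((uu D e k t c, t.rz), (g, f)) :: elv D e (kc D c) c c')
        (by
          intro x hx
          rcases List.mem_cons.mp hx with rfl | hx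
          · exact ⟨k4, k3⟩
          · exact elv_pos D e (kc D c) c c' h3 k2 x hx)
        (by
          rw [List.map_cons, elv_map D e (kc D c) c c' h3, ← (wt_eq c c' h3).1,
            ← (wt_eq c c' h3).2]
          exact k6)
        (by
          rw [List.map_cons, List.sum_cons, elv_lg D e (kc D c) c c' h3]
          exact r3)
      simp only [List.map_cons, List.sum_cons] at e4
      simp only [LLv, elv, List.map_append, List.map_cons, List.map_nil, List.sum_append,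
        List.sum_cons, List.sum_nil, add_zero, PB.rz]
      rw [e1, e2, e3]
      linarith

lemma vol_LLv (htet : S_TET) (p : PB) (k : ℕ) (hp : hpv D e k p)
    (y : AB) (h : y.shape = p.shape) (hy : y.OK) :
    y.vol ≤ (agv D e k p).vol - 2 * LLv D e k p y := by
  induction p generalizing y k with
  | vx b a z =>
    rcases shape_cases _ y h with ⟨b', a', z', h1, rfl⟩ | ⟨t, c, t', c', f, g, h1, -⟩
    · simp [LLv, AB.vol, agv]
    · simp at h1
  | br t c iht ihc =>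
    rcases shape_cases _ y h with ⟨b', a', z', h1, -⟩ | ⟨t, c, t', c', f, g, h1, rfl, h2, h3⟩
    · simp at h1
    · simp only [PB.br.injEq] at h1
      obtain ⟨rfl, rfl⟩ := h1
      obtain ⟨k1, k2, k3, k4, k5, k6⟩ := hy
      obtain ⟨n1, n2, n3⟩ := hp
      have e1 := iht k n1 t' h2 k1
      have e2 := ihc (kc D c) n2 c' h3 k2
      have e3 := vol_le htet _ f (shp (hg_symm n3)).1 k3
      have e4 := vol_le htet _ g (shp n3).1 k4
      simp only [LLv, AB.vol, agv]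
      linarith

end

/-! ### The radius -/

lemma exists_g' (P : ℕ → ℝ → Prop) (hm : ∀ k g g', g' ≤ g → P k g → P k g')
    (h : ∀ k, ∃ g : ℝ, 0 < g ∧ P k g) (D : ℕ) : ∃ g : ℝ, 0 < g ∧ ∀ k < D, P k g := by
  induction D with
  | zero => exact ⟨1, one_pos, fun k hk => absurd hk (by omega)⟩
  | succ D ih =>
    obtain ⟨g, hg, h1⟩ := ih
    obtain ⟨g', hg', h2⟩ := h D
    refine ⟨min g g', lt_min hg hg', fun k hk => ?_⟩
    rcases Nat.lt_succ_iff_lt_or_eq.1 hk with hk | rfl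
    · exact hm k g _ (min_le_left _ _) (h1 k hk)
    · exact hm k g' _ (min_le_right _ _) h2

/-- the value at a critical configuration is the maximal volume of the angle structures -/
theorem geov : S_GEOV := by
  intro ρ τ κ c s dl hK D S hSD
  have H : ∀ k, ∃ (r : ℝ) (dl' : ℂ → ℂ → ℂ), 3 ≤ k → k < D → Adm (et k) ∧
      ∃ c' C, SDZ (et k) r c' C (S k) dl' := by
    intro k
    by_cases h : 3 ≤ k ∧ k < D
    · obtain ⟨h1, r, c', C, dl', h2⟩ := hSD k h.1 h.2
      exact ⟨r, dl', fun _ _ => ⟨h1, c', C, h2⟩⟩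
    · exact ⟨0, fun _ _ => 0, fun h1 h2 => absurd ⟨h1, h2⟩ h⟩
  choose r Dl H using H
  have hS : ∀ k, 3 ≤ k → k < D → ∃ c' C, SDZ (et k) (r k) c' C (S k) (Dl k) :=
    fun k h1 h2 => (H k h1 h2).2
  obtain ⟨g, hg0, hg⟩ := exists_g' (fun k g => 3 ≤ k → k < D → ∀ ψ φ : ℂ, ‖ψ‖ ≤ g →
      ‖φ - et k * Complex.I‖ ≤ g → HB (et k) (r k) (Dl k) ψ φ)
    (fun k g g' hgg h h1 h2 ψ φ a b => h h1 h2 ψ φ (a.trans hgg) (b.trans hgg))
    (by
      intro k
      by_cases h : 3 ≤ k ∧ k < D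
      · obtain ⟨hA, c', C, h2⟩ := H k h.1 h.2
        obtain ⟨g, hg0, hg⟩ := exists_g hA h2
        exact ⟨g, hg0, fun _ _ => hg⟩
      · exact ⟨1, one_pos, fun h1 h2 => absurd ⟨h1, h2⟩ h⟩) D
  have hg' : ∀ k, 3 ≤ k → k < D → ∀ ψ φ : ℂ, ‖ψ‖ ≤ g →
      ‖φ - et k * Complex.I‖ ≤ g → HB (et k) (r k) (Dl k) ψ φ :=
    fun k h1 h2 => hg k h2 h1 h2
  refine ⟨g, hg0, fun p hCr hV hnc => ?_⟩
  set k := kz D p.bl p.nc p.wt with hkdef
  have hk : k ≠ 0 → 3 ≤ k ∧ k < D := fun h => (kz_ne h).2.2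
  obtain ⟨i1, i2, i3, i4⟩ := indv hK hS hg' p k hk hCr (ps_of hK.hρ.1 hK.hτ.1 hV)
  set e := ee dl Dl with he
  have hE : VL p.bl p.wt p.rz (lgv D e k p) := vl_of hV i1
  have hI' := vt_re hE
  have hval : 2 * π * (vt p.bl p.wt p.rz + vv D S s k p).re = hsv D e k p := by
    rw [Complex.add_re]
    linear_combination hI' + i4
  have hvol := agv_vol D e p k i2
  obtain ⟨g1, g2⟩ := agv_fl D e k p i2
  rw [hval]
  constructor
  · refine ⟨agv D e k p, agv_shape D e p k, ⟨agv_isok D e p k i2 i3, ?_⟩, hvol⟩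
    rw [agv_wt, agv_bl]
    refine vok g1 fun hb => ?_
    rw [g2]
    exact vl_im hE hb
  · rintro W ⟨y, hshape, hy, rfl⟩
    have h1 := vol_LLv D e W120.VC.tet p k i2 y hshape hy.1
    have h2 := LLv_eq D e p k i2 i3 y hshape hy.1
    have h3 := vertex p.bl p.rz p.wt (elv D e k p y) (elv_pos D e k p y hshape hy.1)
      (by rw [elv_map D e k p y hshape, ← (wt_eq p y hshape).1, ← (wt_eq p y hshape).2]
          exact hy.2)
      (by rw [elv_lg D e k p y hshape]; exact hE)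
    rw [h3] at h2
    rw [h2] at h1
    linarith

end Pool.Agent.TH858.J1745
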