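import Pool.Agent.TH597.IV.Stm

/-!
Ivrii's conjecture for almost every linear image: from operators to matrices.
-/

set_option autoImplicit false

namespace Pool.Agent.TH858.IV_FINAL

open MeasureTheory Set Filter Topology Matrix
open Pool.Agent.TH597.IV

/-- The linear isomorphism between matrices and operators. -/
noncomputable def Phi0 (d : ℕ) : (Fin d → Fin d → ℝ) ≃ₗ[ℝ]
    (EuclideanSpace ℝ (Fin d) →L[ℝ] EuclideanSpace ℝ (Fin d)) :=
  ((Matrix.ofLinearEquiv ℝ).trans
    (Matrix.toEuclideanLin : Matrix (Fin d) (Fin d) ℝ ≃ₗ[ℝ] _)).trans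
    (LinearMap.toContinuousLinearMap : (EuclideanSpace ℝ (Fin d) →ₗ[ℝ] EuclideanSpace ℝ (Fin d)) ≃ₗ[ℝ] _)

noncomputable def Phi (d : ℕ) : (Fin d → Fin d → ℝ) ≃L[ℝ]
    (EuclideanSpace ℝ (Fin d) →L[ℝ] EuclideanSpace ℝ (Fin d)) :=
  (Phi0 d).toContinuousLinearEquiv

lemma Phi_apply (d : ℕ) (A : Fin d → Fin d → ℝ) (x : EuclideanSpace ℝ (Fin d)) :
    Phi d A x = WithLp.toLp 2 ((Matrix.of A) *ᵥ x.ofLp) := rfl

lemma Phi_lin (d : ℕ) (A : Fin d → Fin d → ℝ) : ⇑(Phi d A) = lin A := by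
  funext x
  rw [Phi_apply]
  rfl

lemma isUnit_Phi (d : ℕ) (A : Fin d → Fin d → ℝ) (h : (Matrix.of A).det ≠ 0) : IsUnit (Phi d A) := by
  have hu : IsUnit (Matrix.of A).det := isUnit_iff_ne_zero.mpr h
  obtain ⟨B, hB⟩ : ∃ B : Fin d → Fin d → ℝ, Matrix.of B = (Matrix.of A)⁻¹ := ⟨Matrix.of.symm (Matrix.of A)⁻¹, by simp⟩
  have h1 : Phi d A * Phi d B = 1 := by
    ext1 x
    rw [mul_apply_eq_comp, Phi_apply, Phi_apply, Matrix.mulVec_mulVec, hB,
      Matrix.mul_nonsing_inv _ hu, Matrix.one_mulVec]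
    rfl
  have h2 : Phi d B * Phi d A = 1 := by
    ext1 x
    rw [mul_apply_eq_comp, Phi_apply, Phi_apply, Matrix.mulVec_mulVec, hB,
      Matrix.nonsing_inv_mul _ hu, Matrix.one_mulVec]
    rfl
  exact ⟨⟨Phi d A, Phi d B, h1, h2⟩, rfl⟩

lemma ae_det (d : ℕ) : ∀ᵐ A : Fin d → Fin d → ℝ, (Matrix.of A).det ≠ 0 := by
  have hcont : Continuous fun A : Fin d → Fin d → ℝ => (Matrix.of A).det := by
    have : Continuous fun A : Matrix (Fin d) (Fin d) ℝ => A.det := continuous_id.matrix_det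
    exact this
  have hs : MeasurableSet {A : Fin d → Fin d → ℝ | (Matrix.of A).det ≠ 0} :=
    (isOpen_ne_fun hcont continuous_const).measurableSet
  let L : ℝ →ₗ[ℝ] (Fin d → Fin d → ℝ) :=
    { toFun := fun s => fun i j => s * (1 : Matrix (Fin d) (Fin d) ℝ) i j
      map_add' := fun s t => by funext i j; simp [add_mul]
      map_smul' := fun s t => by funext i j; simp [mul_assoc] }
  refine ae_mem_of_ae_add_linearMap_mem L volume volume hs ?_
  intro A
  have hfin : {s : ℝ | (Matrix.of (A + L s)).det = 0}.Finite := by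
    refine ((-(Matrix.of A)).charpoly.roots.toFinset.finite_toSet).subset ?_
    intro s hs
    rw [Finset.mem_coe, Multiset.mem_toFinset, Polynomial.mem_roots (Matrix.charpoly_monic _).ne_zero,
      Polynomial.IsRoot.def, Matrix.eval_charpoly]
    have e : Matrix.scalar (Fin d) s - -(Matrix.of A) = Matrix.of (A + L s) := by
      ext i j
      simp [L, Matrix.one_apply, Matrix.diagonal_apply]
      ring
    rw [e]
    exact hs
  have h0 := hfin.measure_zero (volume : Measure ℝ)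
  rw [ae_iff]
  refine measure_mono_null ?_ h0
  intro s hs
  exact not_not.mp hs

theorem final (h : Pool.Agent.TH597.IV.OPER) : Pool.Agent.TH597.IV.FINAL := by
  intro d hd Ω
  have hv : (volume : Measure (Fin d → Fin d → ℝ)).IsAddHaarMeasure := by
    have h0 : ∀ i : Fin d, ((fun _ : Fin d => (volume : Measure (Fin d → ℝ))) i).IsAddHaarMeasure :=
      fun i => inferInstance
    have h1 : (Measure.pi (fun _ : Fin d => (volume : Measure (Fin d → ℝ)))).IsAddHaarMeasure := inferInstance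
    exact h1
  have hm : ((volume : Measure (Fin d → Fin d → ℝ)).map (Phi d)).IsAddHaarMeasure :=
    ContinuousLinearEquiv.isAddHaarMeasure_map (Phi d) (volume : Measure (Fin d → Fin d → ℝ))
  have h1 := h (EuclideanSpace ℝ (Fin d)) ((volume : Measure (Fin d → Fin d → ℝ)).map (Phi d)) Ω
    (by rw [finrank_euclideanSpace_fin]; exact hd)
  have h2 := ae_of_ae_map (Phi d).continuous.measurable.aemeasurable h1
  filter_upwards [h2, ae_det d] with A hA hdet
  have h3 := hA (isUnit_Phi d A hdet)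
  rw [finrank_euclideanSpace_fin] at h3
  rw [← Phi_lin]
  exact h3

end Pool.Agent.TH858.IV_FINAL
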