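import Pool.Agent.TH625.GM.Props

set_option autoImplicit false

open Complex MeasureTheory
open UpperHalfPlane hiding I
open scoped Real MatrixGroups ModularForm

namespace Pool.Agent.TH858.J694

open Pool.Agent.TH625.GM

noncomputable section

lemma cos_two_pi_div_five : Real.cos (2 * π / 5) = (Real.sqrt 5 - 1) / 4 := by
  have h : (2 * π / 5) = 2 * (π / 5) := by ring
  rw [h, Real.cos_two_mul, Real.cos_pi_div_five]
  have h5 : Real.sqrt 5 ^ 2 = 5 := Real.sq_sqrt (by norm_num)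
  nlinarith [h5]

lemma cos_four_pi_div_five : Real.cos (4 * π / 5) = -(Real.sqrt 5 + 1) / 4 := by
  have h : (4 * π / 5) = 2 * (2 * π / 5) := by ring
  rw [h, Real.cos_two_mul, cos_two_pi_div_five]
  have h5 : Real.sqrt 5 ^ 2 = 5 := Real.sq_sqrt (by norm_num)
  nlinarith [h5]

lemma sum_pair (j : ℤ) : (ZMod.stdAddChar ((j : ℤ) : ZMod 5) : ℂ) +
    ZMod.stdAddChar ((-j : ℤ) : ZMod 5) = 2 * (Real.cos (2 * π * j / 5) : ℂ) := by
  rw [ZMod.stdAddChar_coe, ZMod.stdAddChar_coe, Complex.ofReal_cos, Complex.cos]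
  push_cast
  have h1 : 2 * (π : ℂ) * I * j / 5 = 2 * π * j / 5 * I := by ring
  have h2 : 2 * (π : ℂ) * I * -j / 5 = -(2 * π * j / 5) * I := by ring
  rw [h1, h2]
  ring

lemma pair1 : (ZMod.stdAddChar (1 : ZMod 5) : ℂ) + ZMod.stdAddChar (4 : ZMod 5) =
    ((Real.sqrt 5 - 1) / 2 : ℝ) := by
  have h := sum_pair 1
  have e : ((-1 : ℤ) : ZMod 5) = 4 := by decide
  have e' : ((1 : ℤ) : ZMod 5) = 1 := by decide
  rw [e, e'] at h
  rw [h]
  have : (2 * π * ((1 : ℤ) : ℝ) / 5) = 2 * π / 5 := by push_cast; ring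
  rw [this, cos_two_pi_div_five]
  push_cast; ring

lemma pair2 : (ZMod.stdAddChar (2 : ZMod 5) : ℂ) + ZMod.stdAddChar (3 : ZMod 5) =
    (-(Real.sqrt 5 + 1) / 2 : ℝ) := by
  have h := sum_pair 2
  have e : ((-2 : ℤ) : ZMod 5) = 3 := by decide
  have e' : ((2 : ℤ) : ZMod 5) = 2 := by decide
  rw [e, e'] at h
  rw [h]
  have : (2 * π * ((2 : ℤ) : ℝ) / 5) = 4 * π / 5 := by push_cast; ring
  rw [this, cos_four_pi_div_five]
  push_cast; ring

lemma sum5 (f : ZMod 5 → ℂ) : ∑ k : ZMod 5, f k = f 0 + f 1 + f 2 + f 3 + f 4 :=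
  Fin.sum_univ_five f

/-- quadratic Gauss sum mod 5 -/
lemma gauss (A : ZMod 5) (hA : A ≠ 0) :
    ∑ k : ZMod 5, (ZMod.stdAddChar (A * k ^ 2) : ℂ) = (chi5 A : ℂ) * (Real.sqrt 5 : ℂ) := by
  have h1 := pair1
  have h2 := pair2
  have key : ∀ A : ZMod 5, A ≠ 0 → ∑ k : ZMod 5, (ZMod.stdAddChar (A * k ^ 2) : ℂ) =
      1 + 2 * (ZMod.stdAddChar A + ZMod.stdAddChar (4 * A)) := by
    intro A hA
    rw [sum5]
    have e0 : A * (0 : ZMod 5) ^ 2 = 0 := by ring
    have e1 : A * (1 : ZMod 5) ^ 2 = A := by ring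
    have e2 : A * (2 : ZMod 5) ^ 2 = 4 * A := by ring
    have e3 : A * (3 : ZMod 5) ^ 2 = 4 * A := by
      have : (3 : ZMod 5) ^ 2 = 4 := by decide
      rw [this]; ring
    have e4 : A * (4 : ZMod 5) ^ 2 = A := by
      have : (4 : ZMod 5) ^ 2 = 1 := by decide
      rw [this]; ring
    rw [e0, e1, e2, e3, e4, AddChar.map_zero_eq_one]
    ring
  rw [key A hA]
  have hcases : A = 1 ∨ A = 2 ∨ A = 3 ∨ A = 4 := by
    revert hA; revert A; decide
  rcases hcases with rfl | rfl | rfl | rfl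
  · have e : (4 : ZMod 5) * 1 = 4 := by decide
    have c : chi5 1 = 1 := by decide
    rw [e, c, h1]; push_cast; ring
  · have e : (4 : ZMod 5) * 2 = 3 := by decide
    have c : chi5 2 = -1 := by decide
    rw [e, c, h2]; push_cast; ring
  · have e : (4 : ZMod 5) * 3 = 2 := by decide
    have c : chi5 3 = -1 := by decide
    rw [e, c, add_comm (ZMod.stdAddChar (3 : ZMod 5) : ℂ), h2]; push_cast; ring
  · have e : (4 : ZMod 5) * 4 = 1 := by decide
    have c : chi5 4 = 1 := by decide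
    rw [e, c, add_comm (ZMod.stdAddChar (4 : ZMod 5) : ℂ), h1]; push_cast; ring

/-- Gauss sum with a linear term -/
lemma gauss_lin (A l : ZMod 5) (hA : A ≠ 0) :
    ∑ k : ZMod 5, (ZMod.stdAddChar (A * k ^ 2 + 2 * k * l) : ℂ) =
      ZMod.stdAddChar (-(A⁻¹ * l ^ 2)) * ((chi5 A : ℂ) * (Real.sqrt 5 : ℂ)) := by
  have : Fact (Nat.Prime 5) := ⟨by norm_num⟩
  rw [← gauss A hA, Finset.mul_sum]
  rw [← Equiv.sum_comp (Equiv.addRight (-(A⁻¹ * l)))
    (fun k : ZMod 5 => (ZMod.stdAddChar (A * k ^ 2 + 2 * k * l) : ℂ))]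
  refine Finset.sum_congr rfl fun k _ => ?_
  rw [← AddChar.map_add_eq_mul]
  congr 1
  simp only [Equiv.coe_addRight]
  field_simp
  ring

/-- character sum -/
lemma char_sum (l : ZMod 5) :
    ∑ k : ZMod 5, (ZMod.stdAddChar (2 * k * l) : ℂ) = if l = 0 then 5 else 0 := by
  have h1 := pair1
  have h2 := pair2
  rw [sum5]
  have hcases : l = 0 ∨ l = 1 ∨ l = 2 ∨ l = 3 ∨ l = 4 := by
    revert l; decide
  have tot : (1 : ℂ) + ZMod.stdAddChar (1 : ZMod 5) + ZMod.stdAddChar (2 : ZMod 5) +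
      ZMod.stdAddChar (3 : ZMod 5) + ZMod.stdAddChar (4 : ZMod 5) = 0 := by
    have : (1 : ℂ) + ZMod.stdAddChar (1 : ZMod 5) + ZMod.stdAddChar (2 : ZMod 5) +
      ZMod.stdAddChar (3 : ZMod 5) + ZMod.stdAddChar (4 : ZMod 5) =
      1 + (ZMod.stdAddChar (1 : ZMod 5) + ZMod.stdAddChar (4 : ZMod 5)) +
      (ZMod.stdAddChar (2 : ZMod 5) + ZMod.stdAddChar (3 : ZMod 5)) := by ring
    rw [this, h1, h2]; push_cast; ring
  rcases hcases with rfl | rfl | rfl | rfl | rfl
  · simp only [mul_zero, AddChar.map_zero_eq_one]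
    norm_num
  · have a0 : 2 * (0 : ZMod 5) * 1 = 0 := by decide
    have a1 : 2 * (1 : ZMod 5) * 1 = 2 := by decide
    have a2 : 2 * (2 : ZMod 5) * 1 = 4 := by decide
    have a3 : 2 * (3 : ZMod 5) * 1 = 1 := by decide
    have a4 : 2 * (4 : ZMod 5) * 1 = 3 := by decide
    rw [a0, a1, a2, a3, a4, AddChar.map_zero_eq_one, if_neg (by decide), ← tot]; ring
  · have a0 : 2 * (0 : ZMod 5) * 2 = 0 := by decide
    have a1 : 2 * (1 : ZMod 5) * 2 = 4 := by decide
    have a2 : 2 * (2 : ZMod 5) * 2 = 3 := by decide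
    have a3 : 2 * (3 : ZMod 5) * 2 = 2 := by decide
    have a4 : 2 * (4 : ZMod 5) * 2 = 1 := by decide
    rw [a0, a1, a2, a3, a4, AddChar.map_zero_eq_one, if_neg (by decide), ← tot]; ring
  · have a0 : 2 * (0 : ZMod 5) * 3 = 0 := by decide
    have a1 : 2 * (1 : ZMod 5) * 3 = 1 := by decide
    have a2 : 2 * (2 : ZMod 5) * 3 = 2 := by decide
    have a3 : 2 * (3 : ZMod 5) * 3 = 3 := by decide
    have a4 : 2 * (4 : ZMod 5) * 3 = 4 := by decide
    rw [a0, a1, a2, a3, a4, AddChar.map_zero_eq_one, if_neg (by decide), ← tot]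
  · have a0 : 2 * (0 : ZMod 5) * 4 = 0 := by decide
    have a1 : 2 * (1 : ZMod 5) * 4 = 3 := by decide
    have a2 : 2 * (2 : ZMod 5) * 4 = 1 := by decide
    have a3 : 2 * (3 : ZMod 5) * 4 = 4 := by decide
    have a4 : 2 * (4 : ZMod 5) * 4 = 2 := by decide
    rw [a0, a1, a2, a3, a4, AddChar.map_zero_eq_one, if_neg (by decide), ← tot]; ring

/-- right-hand side of the transformation law for bottom row `(c, d)` -/
def R (c d : ZMod 5) (t : ZMod 5 → ℂ) : ℂ :=
  if c = 0 then (chi5 d : ℂ) * t 0 else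
    (chi5 c : ℂ) * (1 / Real.sqrt 5 : ℝ) * ∑ k : ZMod 5, ZMod.stdAddChar (-d * c⁻¹ * k ^ 2) * t k

lemma sqrt5_ne : (Real.sqrt 5 : ℂ) ≠ 0 := by
  have : (0 : ℝ) < Real.sqrt 5 := Real.sqrt_pos.mpr (by norm_num)
  exact_mod_cast this.ne'

lemma sqrt5_mul : (Real.sqrt 5 : ℂ) * (Real.sqrt 5 : ℂ) = 5 := by
  have : Real.sqrt 5 * Real.sqrt 5 = 5 := Real.mul_self_sqrt (by norm_num)
  exact_mod_cast this

lemma R_T (c d : ZMod 5) (t : ZMod 5 → ℂ) :
    R c d (fun k => ZMod.stdAddChar (-(k ^ 2)) * t k) = R c (c + d) t := by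
  have : Fact (Nat.Prime 5) := ⟨by norm_num⟩
  unfold R
  split_ifs with hc
  · subst hc
    have h0 : (-((0 : ZMod 5) ^ 2)) = 0 := by simp
    simp only [h0, AddChar.map_zero_eq_one, zero_add, one_mul]
  · congr 1
    refine Finset.sum_congr rfl fun k _ => ?_
    rw [← mul_assoc, ← AddChar.map_add_eq_mul]
    congr 2
    field_simp
    ring

lemma R_T' (c d : ZMod 5) (t : ZMod 5 → ℂ) :
    R c d (fun k => ZMod.stdAddChar (k ^ 2) * t k) = R c (d - c) t := by
  have : Fact (Nat.Prime 5) := ⟨by norm_num⟩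
  unfold R
  split_ifs with hc
  · subst hc
    have h0 : ((0 : ZMod 5) ^ 2) = 0 := by simp
    simp only [h0, AddChar.map_zero_eq_one, sub_zero, one_mul]
  · congr 1
    refine Finset.sum_congr rfl fun k _ => ?_
    rw [← mul_assoc, ← AddChar.map_add_eq_mul]
    congr 2
    field_simp
    ring

lemma chi5_neg (c : ZMod 5) : chi5 (-c) = chi5 c := by
  revert c; decide

lemma chi5_mul' (c d : ZMod 5) (hc : c ≠ 0) : chi5 c * chi5 (-d * c⁻¹) = chi5 d := by
  have h : c ^ 3 * c = 1 := by revert hc; revert c; decide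
  have e : c⁻¹ = c ^ 3 := by
    have : Fact (Nat.Prime 5) := ⟨by norm_num⟩
    exact (eq_inv_of_mul_eq_one_left h).symm
  rw [e]
  clear e h
  revert hc; revert c d; decide

lemma R_S (c d : ZMod 5) (h : c ≠ 0 ∨ d ≠ 0) (t : ZMod 5 → ℂ) :
    R c d (fun k => (1 / Real.sqrt 5 : ℝ) * ∑ l : ZMod 5, ZMod.stdAddChar (2 * k * l) * t l) =
      R d (-c) t := by
  have : Fact (Nat.Prime 5) := ⟨by norm_num⟩
  have s5 := sqrt5_ne
  by_cases hc : c = 0
  · subst hc
    have hd : d ≠ 0 := by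
      rcases h with h | h
      · exact absurd rfl h
      · exact h
    unfold R
    rw [if_pos rfl, if_neg hd]
    simp only [neg_zero, zero_mul, mul_zero, AddChar.map_zero_eq_one, one_mul]
    ring
  · unfold R
    rw [if_neg hc]
    have step : ∑ k : ZMod 5, ZMod.stdAddChar (-d * c⁻¹ * k ^ 2) *
        ((1 / Real.sqrt 5 : ℝ) * ∑ l : ZMod 5, ZMod.stdAddChar (2 * k * l) * t l) =
        (1 / Real.sqrt 5 : ℝ) * ∑ l : ZMod 5,
          (∑ k : ZMod 5, (ZMod.stdAddChar ((-d * c⁻¹) * k ^ 2 + 2 * k * l) : ℂ)) * t l := by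
      rw [Finset.mul_sum]
      simp only [Finset.mul_sum, Finset.sum_mul]
      rw [Finset.sum_comm]
      refine Finset.sum_congr rfl fun l _ => Finset.sum_congr rfl fun k _ => ?_
      rw [AddChar.map_add_eq_mul]
      ring
    rw [step]
    by_cases hd : d = 0
    · subst hd
      rw [if_pos rfl]
      have : ∀ l : ZMod 5, (∑ k : ZMod 5, (ZMod.stdAddChar ((-(0 : ZMod 5) * c⁻¹) * k ^ 2 +
          2 * k * l) : ℂ)) = if l = 0 then 5 else 0 := by
        intro l
        rw [← char_sum l]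
        refine Finset.sum_congr rfl fun k _ => ?_
        congr 1
        ring
      simp only [this, ite_mul, zero_mul, Finset.sum_ite_eq', Finset.mem_univ, if_true]
      rw [chi5_neg]
      push_cast
      field_simp
      rw [pow_two, sqrt5_mul]
    · rw [if_neg hd]
      have hA : -d * c⁻¹ ≠ 0 := mul_ne_zero (neg_ne_zero.mpr hd) (inv_ne_zero hc)
      simp only [gauss_lin _ _ hA]
      rw [← chi5_mul' c d hc]
      push_cast
      simp only [Finset.mul_sum]
      refine Finset.sum_congr rfl fun l _ => ?_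
      have e : -((-d * c⁻¹)⁻¹ * l ^ 2) = - -c * d⁻¹ * l ^ 2 := by
        field_simp
      rw [e]
      field_simp

lemma R_negneg (c d : ZMod 5) (t : ZMod 5 → ℂ) : R (-c) (-d) t = R c d t := by
  have : Fact (Nat.Prime 5) := ⟨by norm_num⟩
  unfold R
  by_cases hc : c = 0
  · subst hc
    rw [neg_zero, if_pos rfl, if_pos rfl, chi5_neg]
  · rw [if_neg (neg_ne_zero.mpr hc), if_neg hc, chi5_neg]
    congr 1
    refine Finset.sum_congr rfl fun k _ => ?_
    congr 2
    field_simp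

lemma symmS (z : ℍ) : ModularGroup.S⁻¹ • z = ModularGroup.S • z := by
  rw [ModularGroup.S_inv, ModularGroup.SL_neg_smul]

/-- the combined transformation law -/
def P (g : SL(2, ℤ)) : Prop := ∀ (s : ℝ) (z : ℍ),
  thk 0 s (g • z) = R ((g 1 0 : ℤ) : ZMod 5) ((g 1 1 : ℤ) : ZMod 5) (fun k => thk k s z)

lemma bottom_ne (g : SL(2, ℤ)) : ((g 1 0 : ℤ) : ZMod 5) ≠ 0 ∨ ((g 1 1 : ℤ) : ZMod 5) ≠ 0 := by
  by_contra h
  push Not at h
  have hd := g.det_coe
  rw [Matrix.det_fin_two] at hd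
  have h2 : (((g 0 0 * g 1 1 - g 0 1 * g 1 0 : ℤ)) : ZMod 5) = ((1 : ℤ) : ZMod 5) :=
    congrArg (fun n : ℤ => (n : ZMod 5)) hd
  push_cast at h2
  rw [h.1, h.2, mul_zero, mul_zero, sub_zero] at h2
  revert h2
  decide

lemma P_one : P 1 := by
  intro s z
  unfold R
  have c1 : chi5 1 = 1 := by decide
  simp [c1]

lemma P_mul_T (hT : LawT) (g : SL(2, ℤ)) (h : P g) : P (g * ModularGroup.T) := by
  intro s z
  rw [mul_smul, h s]
  have e0 : (g * ModularGroup.T) 1 0 = g 1 0 := by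
    simp [Matrix.SpecialLinearGroup.coe_mul, Matrix.mul_apply, Fin.sum_univ_two,
      ModularGroup.coe_T]
  have e1 : (g * ModularGroup.T) 1 1 = g 1 0 + g 1 1 := by
    simp [Matrix.SpecialLinearGroup.coe_mul, Matrix.mul_apply, Fin.sum_univ_two,
      ModularGroup.coe_T]
  rw [e0, e1, Int.cast_add, ← R_T]
  congr 1
  funext k
  exact hT k s z

lemma P_mul_T_inv (hT : LawT) (g : SL(2, ℤ)) (h : P g) : P (g * (ModularGroup.T)⁻¹) := by
  intro s z
  rw [mul_smul, h s]
  have e0 : (g * (ModularGroup.T)⁻¹) 1 0 = g 1 0 := by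
    simp [Matrix.SpecialLinearGroup.coe_mul, Matrix.mul_apply, Fin.sum_univ_two,
      ModularGroup.coe_T_inv, -Matrix.SpecialLinearGroup.coe_inv]
  have e1 : (g * (ModularGroup.T)⁻¹) 1 1 = g 1 1 - g 1 0 := by
    simp [Matrix.SpecialLinearGroup.coe_mul, Matrix.mul_apply, Fin.sum_univ_two,
      ModularGroup.coe_T_inv, -Matrix.SpecialLinearGroup.coe_inv]
    ring
  rw [e0, e1, Int.cast_sub, ← R_T']
  congr 1
  funext k
  have := hT k s ((ModularGroup.T)⁻¹ • z)
  rw [smul_inv_smul] at this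
  rw [this, ← mul_assoc, ← AddChar.map_add_eq_mul, add_neg_cancel, AddChar.map_zero_eq_one,
    one_mul]

lemma P_mul_S (hS : LawS) (g : SL(2, ℤ)) (h : P g) : P (g * ModularGroup.S) := by
  intro s z
  rw [mul_smul, h s]
  have e0 : (g * ModularGroup.S) 1 0 = g 1 1 := by
    simp [Matrix.SpecialLinearGroup.coe_mul, Matrix.mul_apply, Fin.sum_univ_two,
      ModularGroup.coe_S]
  have e1 : (g * ModularGroup.S) 1 1 = -g 1 0 := by
    simp [Matrix.SpecialLinearGroup.coe_mul, Matrix.mul_apply, Fin.sum_univ_two,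
      ModularGroup.coe_S]
  rw [e0, e1, Int.cast_neg, ← R_S _ _ (bottom_ne g)]
  congr 1
  funext k
  exact hS k s z

lemma P_neg (g : SL(2, ℤ)) (h : P g) : P (-g) := by
  intro s z
  rw [ModularGroup.SL_neg_smul, h s]
  have e0 : (-g) 1 0 = -(g 1 0) := by simp
  have e1 : (-g) 1 1 = -(g 1 1) := by simp
  rw [e0, e1, Int.cast_neg, Int.cast_neg, R_negneg]

lemma P_all (hT : LawT) (hS : LawS) (g : SL(2, ℤ)) : P g := by
  have hg : g ∈ Subgroup.closure {ModularGroup.S, ModularGroup.T} := by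
    rw [SpecialLinearGroup.SL2Z_generators]
    exact Subgroup.mem_top g
  induction hg using Subgroup.closure_induction_right with
  | one => exact P_one
  | mul_right x hx y hy ih =>
    rcases hy with rfl | hy
    · exact P_mul_S hS x ih
    · rw [Set.mem_singleton_iff] at hy
      subst hy
      exact P_mul_T hT x ih
  | mul_inv_cancel x hx y hy ih =>
    rcases hy with rfl | hy
    · rw [ModularGroup.S_inv, mul_neg]
      exact P_neg _ (P_mul_S hS x ih)
    · rw [Set.mem_singleton_iff] at hy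
      subst hy
      exact P_mul_T_inv hT x ih

theorem lawSL2 (hT : LawT) (hS : LawS) : LawSL2 := by
  constructor
  · intro s γ z h
    have := P_all hT hS γ s z
    unfold R at this
    rw [if_pos h] at this
    exact this
  · intro s γ z h
    have := P_all hT hS γ s z
    unfold R at this
    rw [if_neg h] at this
    exact this

end

end Pool.Agent.TH858.J694
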