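import Pool.Agent.TH625.GM.Props

set_option autoImplicit false

open Complex MeasureTheory
open UpperHalfPlane hiding I
open scoped Real MatrixGroups ModularForm

namespace Pool.Agent.TH858.J695

open Pool.Agent.TH625.GM

noncomputable section

lemma sum5 (f : ZMod 5 → ℂ) : ∑ k : ZMod 5, f k = f 0 + f 1 + f 2 + f 3 + f 4 :=
  Fin.sum_univ_five f

lemma om0 : om 0 = 0 := rfl
lemma om1 : om 1 = 1 := rfl
lemma om2 : om 2 = I := rfl
lemma om3 : om 3 = -I := rfl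
lemma om4 : om 4 = -1 := rfl

lemma cases5 (n : ZMod 5) : n = 0 ∨ n = 1 ∨ n = 2 ∨ n = 3 ∨ n = 4 := by
  revert n; decide

/-- the Gauss sum -/
def tau : ℂ := ∑ j : ZMod 5, (starRingEnd ℂ) (om j) * ZMod.stdAddChar j

lemma tau_eq : tau = ZMod.stdAddChar (1 : ZMod 5) - I * ZMod.stdAddChar (2 : ZMod 5) +
    I * ZMod.stdAddChar (3 : ZMod 5) - ZMod.stdAddChar (4 : ZMod 5) := by
  unfold tau
  rw [sum5, om0, om1, om2, om3, om4]
  simp only [map_zero, map_one, map_neg, Complex.conj_I]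
  ring

lemma gauss_om (n : ZMod 5) :
    ∑ j : ZMod 5, (starRingEnd ℂ) (om j) * ZMod.stdAddChar (j * n) = tau * om n := by
  rw [tau_eq, sum5, om0, om1, om2, om3, om4]
  simp only [map_zero, map_one, map_neg, Complex.conj_I]
  have hI : I * I = -1 := Complex.I_mul_I
  rcases cases5 n with rfl | rfl | rfl | rfl | rfl
  · simp only [mul_zero, AddChar.map_zero_eq_one, om0]
    ring
  · rw [om1]; simp only [mul_one]; ring
  · have a1 : (1 : ZMod 5) * 2 = 2 := by decide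
    have a2 : (2 : ZMod 5) * 2 = 4 := by decide
    have a3 : (3 : ZMod 5) * 2 = 1 := by decide
    have a4 : (4 : ZMod 5) * 2 = 3 := by decide
    rw [a1, a2, a3, a4, om2]
    linear_combination (ZMod.stdAddChar (2 : ZMod 5) - ZMod.stdAddChar (3 : ZMod 5)) * hI
  · have a1 : (1 : ZMod 5) * 3 = 3 := by decide
    have a2 : (2 : ZMod 5) * 3 = 1 := by decide
    have a3 : (3 : ZMod 5) * 3 = 4 := by decide
    have a4 : (4 : ZMod 5) * 3 = 2 := by decide
    rw [a1, a2, a3, a4, om3]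
    linear_combination (-ZMod.stdAddChar (2 : ZMod 5) + ZMod.stdAddChar (3 : ZMod 5)) * hI
  · have a1 : (1 : ZMod 5) * 4 = 4 := by decide
    have a2 : (2 : ZMod 5) * 4 = 3 := by decide
    have a3 : (3 : ZMod 5) * 4 = 2 := by decide
    have a4 : (4 : ZMod 5) * 4 = 1 := by decide
    rw [a1, a2, a3, a4, om4]
    ring

lemma sub_pair (j : ℤ) : (ZMod.stdAddChar ((j : ℤ) : ZMod 5) : ℂ) -
    ZMod.stdAddChar ((-j : ℤ) : ZMod 5) = 2 * I * (Real.sin (2 * π * j / 5) : ℂ) := by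
  rw [ZMod.stdAddChar_coe, ZMod.stdAddChar_coe, Complex.ofReal_sin, Complex.sin]
  push_cast
  have h1 : 2 * (π : ℂ) * I * j / 5 = 2 * π * j / 5 * I := by ring
  have h2 : 2 * (π : ℂ) * I * -j / 5 = -(2 * π * j / 5) * I := by ring
  rw [h1, h2]
  have hI : I * I = -1 := Complex.I_mul_I
  linear_combination (cexp (2 * π * j / 5 * I) - cexp (-(2 * π * j / 5) * I)) * hI

lemma tau_ne : tau ≠ 0 := by
  have h1 := sub_pair 1
  have h2 := sub_pair 2
  have e : ((-1 : ℤ) : ZMod 5) = 4 := by decide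
  have e' : ((1 : ℤ) : ZMod 5) = 1 := by decide
  have e2 : ((-2 : ℤ) : ZMod 5) = 3 := by decide
  have e2' : ((2 : ℤ) : ZMod 5) = 2 := by decide
  rw [e, e'] at h1
  rw [e2, e2'] at h2
  have ht : tau = ((2 * Real.sin (2 * π * (2 : ℤ) / 5) : ℝ) : ℂ) +
      ((2 * Real.sin (2 * π * (1 : ℤ) / 5) : ℝ) : ℂ) * I := by
    rw [tau_eq]
    have hI : I * I = -1 := Complex.I_mul_I
    push_cast at h1 h2 ⊢
    linear_combination h1 - I * h2 - 2 * Complex.sin (2 * π * 2 / 5) * hI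
  intro h0
  have hre := congrArg Complex.re h0
  rw [ht, Complex.add_re, Complex.re_ofReal_mul, Complex.ofReal_re, Complex.I_re, mul_zero,
    add_zero, Complex.zero_re] at hre
  have hpos : 0 < Real.sin (2 * π * (2 : ℤ) / 5) := by
    apply Real.sin_pos_of_pos_of_lt_pi
    · have := Real.pi_pos; push_cast; positivity
    · have := Real.pi_pos; push_cast; linarith
  linarith

lemma nm_rs (b : ℤ × ℤ) : ((nm b : ℤ) : ZMod 5) = rs b ^ 2 := by
  unfold nm rs
  push_cast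
  generalize ((b.1 : ℤ) : ZMod 5) = u
  generalize ((b.2 : ℤ) : ZMod 5) = v
  revert u v
  decide

lemma om_sq (k : ZMod 5) : om (k ^ 2) = (chi5 k : ℂ) := by
  rcases cases5 k with rfl | rfl | rfl | rfl | rfl
  · have a : (0 : ZMod 5) ^ 2 = 0 := by decide
    have c : chi5 0 = 0 := by decide
    rw [a, c, om0]; simp
  · have a : (1 : ZMod 5) ^ 2 = 1 := by decide
    have c : chi5 1 = 1 := by decide
    rw [a, c, om1]; simp
  · have a : (2 : ZMod 5) ^ 2 = 4 := by decide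
    have c : chi5 2 = -1 := by decide
    rw [a, c, om4]; simp
  · have a : (3 : ZMod 5) ^ 2 = 4 := by decide
    have c : chi5 3 = -1 := by decide
    rw [a, c, om4]; simp
  · have a : (4 : ZMod 5) ^ 2 = 1 := by decide
    have c : chi5 4 = 1 := by decide
    rw [a, c, om1]; simp

lemma om_nm (b : ℤ × ℤ) : om ((nm b : ℤ) : ZMod 5) = (h5 b : ℂ) := by
  rw [nm_rs, om_sq]; rfl

/-- the shifted term -/
lemma term_shift (j : ZMod 5) (b : ℤ × ℤ) (x : ℝ) (r : ℝ) :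
    cexp ((r : ℂ) + ((2 * π * ((j.val : ℝ) / 5 + x) * nm b : ℝ) : ℂ) * I) =
      ZMod.stdAddChar (j * ((nm b : ℤ) : ZMod 5)) *
        cexp ((r : ℂ) + ((2 * π * x * nm b : ℝ) : ℂ) * I) := by
  have e : j * ((nm b : ℤ) : ZMod 5) = (((j.val : ℤ) * nm b : ℤ) : ZMod 5) := by
    push_cast
    rw [ZMod.natCast_zmod_val]
  rw [e, ZMod.stdAddChar_coe, ← Complex.exp_add]
  congr 1
  push_cast
  ring

theorem lawTw5 (hs : ThSummable) : LawTw5 := by
  refine ⟨?_, tau_ne⟩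
  intro s z
  change _ = tau * _
  have hsum : Summable (fun b : ℤ × ℤ =>
      (1 : ℂ) * cexp (((-(π * z.im * maj s b) : ℝ) : ℂ) + ((2 * π * z.re * nm b : ℝ) : ℂ) * I)) :=
    hs (fun _ => 1) 0 1 (by intro b; simp) s z.re z.im z.im_pos
  simp only [one_mul] at hsum
  unfold E Th
  simp only [vadd_im, vadd_re, one_mul]
  have h1 : ∀ j : ZMod 5, (starRingEnd ℂ) (om j) * ((Real.sqrt z.im : ℂ) *
      ∑' b : ℤ × ℤ, cexp (((-(π * z.im * maj s b) : ℝ) : ℂ) +
        ((2 * π * ((j.val : ℝ) / 5 + z.re) * nm b : ℝ) : ℂ) * I)) =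
      (Real.sqrt z.im : ℂ) * ∑' b : ℤ × ℤ, (starRingEnd ℂ) (om j) *
        (ZMod.stdAddChar (j * ((nm b : ℤ) : ZMod 5)) *
        cexp (((-(π * z.im * maj s b) : ℝ) : ℂ) + ((2 * π * z.re * nm b : ℝ) : ℂ) * I)) := by
    intro j
    rw [tsum_mul_left]
    simp only [term_shift]
    ring
  rw [Finset.sum_congr rfl fun j _ => h1 j, ← Finset.mul_sum]
  have hsj : ∀ j ∈ (Finset.univ : Finset (ZMod 5)), Summable (fun b : ℤ × ℤ =>
      (starRingEnd ℂ) (om j) * (ZMod.stdAddChar (j * ((nm b : ℤ) : ZMod 5)) *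
        cexp (((-(π * z.im * maj s b) : ℝ) : ℂ) +
          ((2 * π * z.re * nm b : ℝ) : ℂ) * I))) := by
    intro j _
    apply Summable.mul_left
    refine Summable.of_norm_bounded hsum.norm ?_
    intro b
    rw [norm_mul, AddChar.norm_apply, one_mul]
  rw [← Summable.tsum_finsetSum hsj]
  rw [mul_left_comm]
  congr 1
  rw [← tsum_mul_left]
  congr 1
  funext b
  have h2 := gauss_om ((nm b : ℤ) : ZMod 5)
  rw [om_nm] at h2
  rw [← mul_assoc tau, ← h2, Finset.sum_mul]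
  refine Finset.sum_congr rfl fun j _ => ?_
  ring

/-- comparison of two Möbius actions -/
lemma smul_compare (γ γ' : SL(2, ℤ)) (x x' : ℝ)
    (h00 : (γ' 0 0 : ℝ) = γ 0 0 + x * γ 1 0)
    (h01 : (γ' 0 0 : ℝ) * x' + γ' 0 1 = γ 0 1 + x * γ 1 1)
    (h10 : (γ' 1 0 : ℝ) = γ 1 0)
    (h11 : (γ' 1 0 : ℝ) * x' + γ' 1 1 = γ 1 1) (z : ℍ) :
    x +ᵥ (γ • z) = γ' • (x' +ᵥ z) := by
  rw [UpperHalfPlane.ext_iff, coe_vadd, coe_specialLinearGroup_apply,
    coe_specialLinearGroup_apply, coe_vadd]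
  simp only [algebraMap_int_eq, eq_intCast]
  have hden : ((γ 1 0 : ℝ) : ℂ) * z + ((γ 1 1 : ℝ) : ℂ) ≠ 0 := by
    intro h
    have him := congrArg Complex.im h
    have hre := congrArg Complex.re h
    simp only [Complex.add_im, Complex.mul_im, Complex.ofReal_re, Complex.ofReal_im,
      zero_mul, add_zero, Complex.zero_im] at him
    simp only [Complex.add_re, Complex.mul_re, Complex.ofReal_re, Complex.ofReal_im,
      zero_mul, sub_zero, Complex.zero_re] at hre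
    have hc : (γ 1 0 : ℝ) = 0 := by
      rcases mul_eq_zero.mp him with h | h
      · exact h
      · exact absurd h z.im_pos.ne'
    rw [hc, zero_mul, zero_add] at hre
    have hd := γ.det_coe
    rw [Matrix.det_fin_two] at hd
    have hc' : γ 1 0 = 0 := by exact_mod_cast hc
    have hd' : γ 1 1 = 0 := by exact_mod_cast hre
    rw [hc', hd'] at hd
    simp at hd
  have e10 : ((γ' 1 0 : ℝ) : ℂ) = ((γ 1 0 : ℝ) : ℂ) := by rw [h10]
  have e11 : ((γ 1 1 : ℝ) : ℂ) = ((γ' 1 0 : ℝ) : ℂ) * x' + ((γ' 1 1 : ℝ) : ℂ) := by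
    rw [← h11]; push_cast; ring
  have e00 : ((γ' 0 0 : ℝ) : ℂ) = ((γ 0 0 : ℝ) : ℂ) + x * ((γ 1 0 : ℝ) : ℂ) := by
    rw [h00]; push_cast; ring
  have e01 : ((γ' 0 0 : ℝ) : ℂ) * x' + ((γ' 0 1 : ℝ) : ℂ) =
      ((γ 0 1 : ℝ) : ℂ) + x * ((γ 1 1 : ℝ) : ℂ) := by
    exact_mod_cast h01
  have hden' : ((γ' 1 0 : ℝ) : ℂ) * ((x' : ℂ) + z) + ((γ' 1 1 : ℝ) : ℂ) =
      ((γ 1 0 : ℝ) : ℂ) * z + ((γ 1 1 : ℝ) : ℂ) := by
    rw [e11, e10]; ring
  rw [hden', eq_div_iff hden, add_mul, div_mul_cancel₀ _ hden]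
  linear_combination (-(z : ℂ)) * e00 - e01

/-- existence of the matrix `g'` -/
lemma exists_conj (γ : SL(2, ℤ)) (hγ : γ ∈ CongruenceSubgroup.Gamma0 25) (j j' : ℤ)
    (hj : (j' : ZMod 5) = j * ((γ 1 1 : ℤ) : ZMod 5) ^ 2) :
    ∃ γ' : SL(2, ℤ), ((γ' 1 0 : ℤ) : ZMod 5) = 0 ∧
      ((γ' 1 1 : ℤ) : ZMod 5) = ((γ 1 1 : ℤ) : ZMod 5) ∧
      ∀ z : ℍ, ((j : ℝ) / 5) +ᵥ (γ • z) = γ' • (((j' : ℝ) / 5) +ᵥ z) := by
  rw [CongruenceSubgroup.Gamma0_mem] at hγ
  have hdvd : (25 : ℤ) ∣ γ 1 0 := by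
    have := (ZMod.intCast_zmod_eq_zero_iff_dvd (γ 1 0) 25).mp hγ
    exact_mod_cast this
  obtain ⟨c, hc⟩ := hdvd
  have hdet := γ.det_coe
  rw [Matrix.det_fin_two] at hdet
  have hq : (5 : ℤ) ∣ j * γ 1 1 - j' * γ 0 0 := by
    have h5 : ((j * γ 1 1 - j' * γ 0 0 : ℤ) : ZMod 5) = 0 := by
      have hdet5 : ((γ 0 0 : ℤ) : ZMod 5) * ((γ 1 1 : ℤ) : ZMod 5) = 1 := by
        have h := congrArg (fun n : ℤ => (n : ZMod 5)) hdet
        rw [hc] at h
        push_cast at h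
        have h25 : (25 : ZMod 5) = 0 := by decide
        rw [h25] at h
        rw [← h]; ring
      push_cast
      rw [hj]
      linear_combination (-(j : ZMod 5) * ((γ 1 1 : ℤ) : ZMod 5)) * hdet5
    have := (ZMod.intCast_zmod_eq_zero_iff_dvd (j * γ 1 1 - j' * γ 0 0) 5).mp h5
    exact_mod_cast this
  obtain ⟨q, hq⟩ := hq
  let M : Matrix (Fin 2) (Fin 2) ℤ :=
    !![γ 0 0 + 5 * j * c, γ 0 1 + q - j * j' * c; γ 1 0, γ 1 1 - 5 * j' * c]
  have hM : M.det = 1 := by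
    simp only [M, Matrix.det_fin_two_of]
    rw [hc] at hdet ⊢
    linear_combination hdet + 5 * c * hq
  refine ⟨⟨M, hM⟩, ?_, ?_, ?_⟩
  · change ((γ 1 0 : ℤ) : ZMod 5) = 0
    rw [hc]
    push_cast
    have h25 : (25 : ZMod 5) = 0 := by decide
    rw [h25, zero_mul]
  · change ((γ 1 1 - 5 * j' * c : ℤ) : ZMod 5) = _
    push_cast
    have h25 : (5 : ZMod 5) = 0 := by decide
    rw [h25]; ring
  · intro z
    apply smul_compare
    · change ((γ 0 0 + 5 * j * c : ℤ) : ℝ) = _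
      rw [hc]; push_cast; ring
    · change ((γ 0 0 + 5 * j * c : ℤ) : ℝ) * _ + ((γ 0 1 + q - j * j' * c : ℤ) : ℝ) = _
      have hqr : (j : ℝ) * (γ 1 1 : ℝ) - j' * (γ 0 0 : ℝ) = 5 * q := by exact_mod_cast hq
      push_cast
      linear_combination (-(1 / 5) : ℝ) * hqr
    · change ((γ 1 0 : ℤ) : ℝ) = _
      rfl
    · change ((γ 1 0 : ℤ) : ℝ) * _ + ((γ 1 1 - 5 * j' * c : ℤ) : ℝ) = _
      rw [hc]; push_cast; ring

lemma om_mul_sq (j d : ZMod 5) : om (j * d ^ 2) = om j * (chi5 d : ℂ) := by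
  rcases cases5 d with rfl | rfl | rfl | rfl | rfl
  · have a : j * (0 : ZMod 5) ^ 2 = 0 := by ring
    have c : chi5 0 = 0 := by decide
    rw [a, c, om0]; simp
  · have a : j * (1 : ZMod 5) ^ 2 = j := by ring
    have c : chi5 1 = 1 := by decide
    rw [a, c]; simp
  · have a : (2 : ZMod 5) ^ 2 = 4 := by decide
    have c : chi5 2 = -1 := by decide
    rw [a, c]
    rcases cases5 j with rfl | rfl | rfl | rfl | rfl
    · have b : (0 : ZMod 5) * 4 = 0 := by decide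
      rw [b, om0]; simp
    · have b : (1 : ZMod 5) * 4 = 4 := by decide
      rw [b, om4, om1]; simp
    · have b : (2 : ZMod 5) * 4 = 3 := by decide
      rw [b, om3, om2]; simp
    · have b : (3 : ZMod 5) * 4 = 2 := by decide
      rw [b, om3, om2]; simp
    · have b : (4 : ZMod 5) * 4 = 1 := by decide
      rw [b, om4, om1]; simp
  · have a : (3 : ZMod 5) ^ 2 = 4 := by decide
    have c : chi5 3 = -1 := by decide
    rw [a, c]
    rcases cases5 j with rfl | rfl | rfl | rfl | rfl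
    · have b : (0 : ZMod 5) * 4 = 0 := by decide
      rw [b, om0]; simp
    · have b : (1 : ZMod 5) * 4 = 4 := by decide
      rw [b, om4, om1]; simp
    · have b : (2 : ZMod 5) * 4 = 3 := by decide
      rw [b, om3, om2]; simp
    · have b : (3 : ZMod 5) * 4 = 2 := by decide
      rw [b, om3, om2]; simp
    · have b : (4 : ZMod 5) * 4 = 1 := by decide
      rw [b, om4, om1]; simp
  · have a : (4 : ZMod 5) ^ 2 = 1 := by decide
    have c : chi5 4 = 1 := by decide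
    rw [a, c]; simp

theorem lawAut (h1 : LawOne) (h2 : LawSL2) (h3 : LawTw5) : LawAut := by
  intro s γ hγ z
  have hτ := h3.ne
  apply mul_left_cancel₀ hτ
  rw [← h3.eq, ← h3.eq]
  set d : ZMod 5 := ((γ 1 1 : ℤ) : ZMod 5) with hd
  have hd0 : d ≠ 0 := by
    intro h0
    rw [CongruenceSubgroup.Gamma0_mem] at hγ
    have hdvd : (25 : ℤ) ∣ γ 1 0 := by
      have := (ZMod.intCast_zmod_eq_zero_iff_dvd (γ 1 0) 25).mp hγ
      exact_mod_cast this
    obtain ⟨c, hc⟩ := hdvd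
    have hdet := γ.det_coe
    rw [Matrix.det_fin_two, hc] at hdet
    have h := congrArg (fun n : ℤ => (n : ZMod 5)) hdet
    push_cast at h
    have h25 : (25 : ZMod 5) = 0 := by decide
    rw [h25, ← hd, h0, mul_zero, zero_mul, mul_zero, sub_zero] at h
    revert h
    decide
  have hbij : Function.Bijective (fun j : ZMod 5 => j * d ^ 2) := by
    clear_value d
    revert hd0
    rcases cases5 d with rfl | rfl | rfl | rfl | rfl <;> decide
  rw [← hbij.sum_comp (fun j : ZMod 5 => (starRingEnd ℂ) (om j) *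
    E (fun _ => 1) s (((j.val : ℝ) / 5) +ᵥ z))]
  refine Finset.sum_congr rfl fun j _ => ?_
  obtain ⟨γ', h10, h11, hact⟩ := exists_conj γ hγ (j.val : ℤ) ((j * d ^ 2).val : ℤ) (by
    push_cast
    rw [ZMod.natCast_zmod_val, ZMod.natCast_zmod_val])
  have hz := hact z
  push_cast at hz
  rw [hz, h1, h1, h2.dvd s γ' _ h10, h11, om_mul_sq, map_mul]
  have hreal : (starRingEnd ℂ) ((chi5 d : ℤ) : ℂ) = ((chi5 d : ℤ) : ℂ) := by
    rw [map_intCast]
  rw [hreal]
  ring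

end

end Pool.Agent.TH858.J695
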