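import Mathlib

/-!
Tools for the jobs of project CR (MP_97bde0_lc).
-/

set_option autoImplicit false

namespace Pool.Agent.TH858.CR

open Set MeasureTheory

/-- glue countably many measurable maps along disjoint measurable sets, identity elsewhere -/
theorem glue {X : Type} [MeasurableSpace X] (M : ℕ → Set X) (hM : ∀ n, MeasurableSet (M n))
    (hd : ∀ m n x, x ∈ M m → x ∈ M n → m = n) (g : ℕ → X → X) (hg : ∀ n, Measurable (g n)) :
    ∃ f : X → X, Measurable f ∧ (∀ n, ∀ x ∈ M n, f x = g n x) ∧ ∀ x, (∀ n, x ∉ M n) → f x = x := by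
  classical
  let p : ℕ → X → Prop := fun n x => match n with
    | 0 => ∀ k, x ∉ M k
    | n + 1 => x ∈ M n
  let F : ℕ → X → X := fun n => match n with
    | 0 => id
    | n + 1 => g n
  have hp : ∀ n, MeasurableSet {x | p n x} := by
    intro n
    cases n with
    | zero =>
      show MeasurableSet {x | ∀ k, x ∉ M k}
      have : {x | ∀ k, x ∉ M k} = ⋂ k, (M k)ᶜ := by ext x; simp
      rw [this]
      exact MeasurableSet.iInter fun k => (hM k).compl
    | succ n => exact hM n
  have hF : ∀ n, Measurable (F n) := by
    intro n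
    cases n with
    | zero => exact measurable_id
    | succ n => exact hg n
  have h : ∀ x, ∃ n, p n x := by
    intro x
    by_cases hx : ∀ k, x ∉ M k
    · exact ⟨0, hx⟩
    · push Not at hx
      obtain ⟨k, hk⟩ := hx
      exact ⟨k + 1, hk⟩
  refine ⟨fun x => F (Nat.find (h x)) x, Measurable.find hF hp h, ?_, ?_⟩
  · intro n x hx
    have h1 : Nat.find (h x) = n + 1 := by
      rw [Nat.find_eq_iff]
      refine ⟨hx, ?_⟩
      intro k hk hpk
      cases k with
      | zero => exact hpk n hx
      | succ k => have := hd k n x hpk hx; omega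
    show F (Nat.find (h x)) x = g n x
    rw [h1]
  · intro x hx
    have h1 : Nat.find (h x) = 0 := by
      rw [Nat.find_eq_zero]
      exact hx
    show F (Nat.find (h x)) x = x
    rw [h1]
    rfl

theorem eqset {X Y : Type} [MeasurableSpace X] [MeasurableSpace Y] [StandardBorelSpace Y]
    {g h : X → Y} (hg : Measurable g) (hh : Measurable h) : MeasurableSet {x | g x = h x} := by
  have e := MeasureTheory.measurableEmbedding_embeddingReal Y
  have h1 : {x | g x = h x} = {x | embeddingReal Y (g x) = embeddingReal Y (h x)} := by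
    ext x
    simp only [mem_ofPred_eq]
    exact ⟨fun h => by rw [h], fun h => e.injective h⟩
  rw [h1]
  exact measurableSet_eq_fun (e.measurable.comp hg) (e.measurable.comp hh)

end Pool.Agent.TH858.CR
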