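import Pool.Agent.TH719.ED.Defs

/-! Words attached to labelled ternary trees (for `growth_of_sweepable`). -/

set_option autoImplicit false

namespace Pool.Agent.TH719.ED.H858

variable {G : Type} [Group G] {α : Type}

/-- the inverse word -/
def inv (l : List G) : List G := (l.map fun x => x⁻¹).reverse

theorem inv_length (l : List G) : (inv l).length = l.length := by simp [inv]

theorem inv_prod (l : List G) : (inv l).prod = l.prod⁻¹ := by
  rw [inv, List.prod_inv_reverse]

theorem inv_mem {E : Finset G} (hE : ∀ x ∈ E, x⁻¹ ∈ E) {l : List G} (h : ∀ x ∈ l, x ∈ E) :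
    ∀ x ∈ inv l, x ∈ E := by
  intro x hx
  simp only [inv, List.mem_reverse, List.mem_map] at hx
  obtain ⟨y, hy, rfl⟩ := hx
  exact hE _ (h y hy)

/-- number of labels of a tree of height `k` -/
def nn : ℕ → ℕ
  | 0 => 0
  | k + 1 => 3 * (nn k + 1)

/-- length of the word of a tree of height `k` -/
def ll (R : ℕ) : ℕ → ℕ
  | 0 => 2 * R
  | k + 1 => 3 * (2 * R + ll R k)

/-- the block of a node -/
def blk (e : α → List G) (w : ℕ → List G) (lam : ℕ → α) (o : ℕ) : List G :=
  e (lam o) ++ w (o + 1) ++ inv (e (lam o))

/-- the word of a labelled tree -/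
def W (e : α → List G) (p : G) (R : ℕ) : ℕ → (ℕ → α) → ℕ → List G
  | 0, _, _ => (List.replicate R [p, p⁻¹]).flatten
  | k + 1, lam, off =>
    blk e (W e p R k lam) lam off ++ blk e (W e p R k lam) lam (off + 1 * (nn k + 1)) ++
      blk e (W e p R k lam) lam (off + 2 * (nn k + 1))

section
variable (e : α → List G) (p : G) (R : ℕ)

theorem blk_length (hlen : ∀ s, (e s).length = R) (w : ℕ → List G) (n : ℕ)
    (hw : ∀ o, (w o).length = n) (lam : ℕ → α) (o : ℕ) :
    (blk e w lam o).length = 2 * R + n := by
  simp only [blk, List.length_append, inv_length, hlen, hw]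
  ring

theorem W_length (hlen : ∀ s, (e s).length = R) (k : ℕ) (lam : ℕ → α) :
    ∀ off, (W e p R k lam off).length = ll R k := by
  induction k with
  | zero =>
    intro off
    simp [W, ll, List.length_flatten]
    ring
  | succ k ih =>
    intro off
    simp only [W, List.length_append, blk_length e R hlen _ _ ih, ll]
    ring

theorem blk_prod (w : ℕ → List G) (hw : ∀ o, (w o).prod = 1) (lam : ℕ → α) (o : ℕ) :
    (blk e w lam o).prod = 1 := by
  simp only [blk, List.prod_append, inv_prod, hw]
  group

theorem W_prod (k : ℕ) (lam : ℕ → α) : ∀ off, (W e p R k lam off).prod = 1 := by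
  induction k with
  | zero =>
    intro off
    simp only [W]
    induction R with
    | zero => simp
    | succ R ih => rw [List.replicate_succ, List.flatten_cons, List.prod_append, ih]; simp
  | succ k ih =>
    intro off
    simp only [W, List.prod_append, blk_prod e _ ih, mul_one]

theorem W_mem {E : Finset G} (hE : ∀ x ∈ E, x⁻¹ ∈ E) (hp : p ∈ E) (he : ∀ s, ∀ x ∈ e s, x ∈ E)
    (k : ℕ) (lam : ℕ → α) : ∀ off, ∀ x ∈ W e p R k lam off, x ∈ E := by
  induction k with
  | zero =>
    intro off x hx
    simp only [W, List.mem_flatten, List.mem_replicate] at hx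
    obtain ⟨l, ⟨-, rfl⟩, hx⟩ := hx
    simp only [List.mem_cons, List.not_mem_nil, or_false] at hx
    rcases hx with rfl | rfl
    · exact hp
    · exact hE _ hp
  | succ k ih =>
    intro off x hx
    have hb : ∀ o, ∀ x ∈ blk e (W e p R k lam) lam o, x ∈ E := by
      intro o x hx
      simp only [blk, List.mem_append] at hx
      rcases hx with (hx | hx) | hx
      · exact he _ _ hx
      · exact ih _ _ hx
      · exact inv_mem hE (he _) _ hx
    simp only [W, List.mem_append] at hx
    rcases hx with (hx | hx) | hx
    · exact hb _ _ hx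
    · exact hb _ _ hx
    · exact hb _ _ hx

theorem W_congr (k : ℕ) (lam lam' : ℕ → α) : ∀ off,
    (∀ j, off ≤ j → j < off + nn k → lam j = lam' j) → W e p R k lam off = W e p R k lam' off := by
  induction k with
  | zero => intro off _; rfl
  | succ k ih =>
    intro off h
    have hb : ∀ i < 3, blk e (W e p R k lam) lam (off + i * (nn k + 1)) =
        blk e (W e p R k lam') lam' (off + i * (nn k + 1)) := by
      intro i hi
      have h3 : i * (nn k + 1) + (nn k + 1) ≤ 3 * (nn k + 1) := by
        have : (i + 1) * (nn k + 1) ≤ 3 * (nn k + 1) := Nat.mul_le_mul_right _ hi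
        linarith
      have h1 : lam (off + i * (nn k + 1)) = lam' (off + i * (nn k + 1)) :=
        h _ (by omega) (by simp only [nn]; omega)
      have h2 : W e p R k lam (off + i * (nn k + 1) + 1) =
          W e p R k lam' (off + i * (nn k + 1) + 1) :=
        ih _ fun j hj1 hj2 => h j (by omega) (by simp only [nn]; omega)
      simp only [blk, h1, h2]
    have h0 := hb 0 (by norm_num)
    rw [Nat.zero_mul, Nat.add_zero] at h0
    simp only [W]
    rw [h0, hb 1 (by norm_num), hb 2 (by norm_num)]

/-- the subtree of height `k` with labels from `off` on sits at position `a` of the word -/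
def Sub (N : ℕ) (lam : ℕ → α) (off k a : ℕ) : Prop :=
  ∃ pre post : List G, pre.length = a ∧
    ∀ lam' : ℕ → α, (∀ j, ¬ (off ≤ j ∧ j < off + nn k) → lam' j = lam j) →
      W e p R N lam' 0 = pre ++ W e p R k lam' off ++ post

/-- the block with label `o` and subtree of height `k` sits at position `a` -/
def SubB (N : ℕ) (lam : ℕ → α) (o k a : ℕ) : Prop :=
  ∃ pre post : List G, pre.length = a ∧
    ∀ lam' : ℕ → α, (∀ j, ¬ (o ≤ j ∧ j < o + nn k + 1) → lam' j = lam j) →
      W e p R N lam' 0 = pre ++ blk e (W e p R k lam') lam' o ++ post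

/-- dependence on the label `j` -/
def Node (N : ℕ) (lam : ℕ → α) (j k a : ℕ) : Prop :=
  ∃ pre post : List G, pre.length = a ∧
    ∀ s : α, W e p R N (Function.update lam j s) 0 =
      pre ++ (e s ++ W e p R k lam (j + 1) ++ inv (e s)) ++ post

theorem Sub_root (N : ℕ) (lam : ℕ → α) : Sub e p R N lam 0 N 0 :=
  ⟨[], [], rfl, fun lam' _ => by simp⟩

theorem SubB_node {N : ℕ} {lam : ℕ → α} {o k a : ℕ} (h : SubB e p R N lam o k a) :
    Node e p R N lam o k a := by
  obtain ⟨pre, post, h1, h2⟩ := h
  refine ⟨pre, post, h1, fun s => ?_⟩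
  rw [h2 (Function.update lam o s) (fun j hj => by
    rw [Function.update_of_ne]
    rintro rfl
    exact hj ⟨le_rfl, by omega⟩)]
  have h3 : W e p R k (Function.update lam o s) (o + 1) = W e p R k lam (o + 1) :=
    W_congr e p R k _ _ _ fun j hj _ => by
      rw [Function.update_of_ne]
      omega
  simp only [blk, Function.update_self, h3]

theorem SubB_sub {N : ℕ} {lam : ℕ → α} {o k a : ℕ} (hlen : ∀ s, (e s).length = R)
    (h : SubB e p R N lam o k a) : Sub e p R N lam (o + 1) k (a + R) := by
  obtain ⟨pre, post, h1, h2⟩ := h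
  refine ⟨pre ++ e (lam o), inv (e (lam o)) ++ post, ?_, fun lam' hl => ?_⟩
  · rw [List.length_append, h1, hlen]
  · rw [h2 lam' (fun j hj => hl j (by omega))]
    have h3 : lam' o = lam o := hl o (by omega)
    simp only [blk, h3, List.append_assoc]

theorem Sub_child {N : ℕ} {lam : ℕ → α} {off k a : ℕ} (hlen : ∀ s, (e s).length = R)
    (h : Sub e p R N lam off (k + 1) a) (i : ℕ) (hi : i < 3) :
    SubB e p R N lam (off + i * (nn k + 1)) k (a + i * (2 * R + ll R k)) := by
  obtain ⟨pre, post, h1, h2⟩ := h
  have hbl : ∀ (l : ℕ → α) (o : ℕ), (blk e (W e p R k l) l o).length = 2 * R + ll R k :=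
    fun l o => blk_length e R hlen _ _ (W_length e p R hlen k l) l o
  -- congruence of the blocks
  have hb : ∀ lam' : ℕ → α, ∀ i' < 3, (∀ j, off + i' * (nn k + 1) ≤ j →
      j < off + i' * (nn k + 1) + nn k + 1 → lam' j = lam j) →
      blk e (W e p R k lam') lam' (off + i' * (nn k + 1)) =
        blk e (W e p R k lam) lam (off + i' * (nn k + 1)) := by
    intro lam' i' _ h4
    have h5 : lam' (off + i' * (nn k + 1)) = lam (off + i' * (nn k + 1)) :=
      h4 _ le_rfl (by omega)
    have h6 : W e p R k lam' (off + i' * (nn k + 1) + 1) =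
        W e p R k lam (off + i' * (nn k + 1) + 1) :=
      W_congr e p R k _ _ _ fun j hj1 hj2 => h4 j (by omega) (by omega)
    simp only [blk, h5, h6]
  have hW : ∀ lam' : ℕ → α, W e p R (k + 1) lam' off =
      blk e (W e p R k lam') lam' (off + 0 * (nn k + 1)) ++
      blk e (W e p R k lam') lam' (off + 1 * (nn k + 1)) ++
      blk e (W e p R k lam') lam' (off + 2 * (nn k + 1)) := by
    intro lam'
    rw [Nat.zero_mul, Nat.add_zero]
    rfl
  obtain rfl | rfl | rfl : i = 0 ∨ i = 1 ∨ i = 2 := by omega
  · refine ⟨pre, blk e (W e p R k lam) lam (off + 1 * (nn k + 1)) ++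
      blk e (W e p R k lam) lam (off + 2 * (nn k + 1)) ++ post, by omega, fun lam' hl => ?_⟩
    rw [h2 lam' (fun j hj => hl j (by simp only [nn] at hj; omega)), hW,
      hb lam' 1 (by norm_num) (fun j hj1 hj2 => hl j (by omega)),
      hb lam' 2 (by norm_num) (fun j hj1 hj2 => hl j (by omega))]
    simp only [List.append_assoc]
  · refine ⟨pre ++ blk e (W e p R k lam) lam (off + 0 * (nn k + 1)),
      blk e (W e p R k lam) lam (off + 2 * (nn k + 1)) ++ post, ?_, fun lam' hl => ?_⟩
    · rw [List.length_append, hbl]; omega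
    rw [h2 lam' (fun j hj => hl j (by simp only [nn] at hj; omega)), hW,
      hb lam' 0 (by norm_num) (fun j hj1 hj2 => hl j (by omega)),
      hb lam' 2 (by norm_num) (fun j hj1 hj2 => hl j (by omega))]
    simp only [List.append_assoc]
  · refine ⟨pre ++ blk e (W e p R k lam) lam (off + 0 * (nn k + 1)) ++
      blk e (W e p R k lam) lam (off + 1 * (nn k + 1)), post, ?_, fun lam' hl => ?_⟩
    · rw [List.length_append, List.length_append, hbl, hbl]; omega
    rw [h2 lam' (fun j hj => hl j (by simp only [nn] at hj; omega)), hW,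
      hb lam' 0 (by norm_num) (fun j hj1 hj2 => hl j (by omega)),
      hb lam' 1 (by norm_num) (fun j hj1 hj2 => hl j (by omega))]
    simp only [List.append_assoc]

end

/-- the path of a word -/
def pth (w : List G) (i : ℕ) : G := (w.take i).prod

theorem pth_zero (w : List G) : pth w 0 = 1 := by simp [pth]

theorem pth_length (w : List G) : pth w w.length = w.prod := by simp [pth]

theorem pth_step {E : Finset G} (w : List G) (hw : ∀ x ∈ w, x ∈ E) (i : ℕ) (hi : i < w.length) :
    (pth w i)⁻¹ * pth w (i + 1) ∈ (E : Set G) := by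
  have h : pth w (i + 1) = pth w i * w[i] := by
    unfold pth
    rw [List.take_succ_eq_append_getElem hi, List.prod_append, List.prod_singleton]
  rw [h, inv_mul_cancel_left]
  exact hw _ (List.getElem_mem hi)

/-- values of the path of a word with a block `u ++ U ++ v`, `U.prod = 1`, `v.prod = u.prod⁻¹` -/
theorem pth_left (pre B post : List G) {q : ℕ} (hq : q ≤ pre.length) :
    pth (pre ++ B ++ post) q = (pre.take q).prod := by
  unfold pth
  rw [List.append_assoc, List.take_append_of_le_length hq]

theorem pth_right (pre B post : List G) (hB : B.prod = 1) {q : ℕ}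
    (hq : pre.length + B.length ≤ q) :
    pth (pre ++ B ++ post) q = pre.prod * (post.take (q - (pre.length + B.length))).prod := by
  unfold pth
  rw [List.take_append, List.prod_append, List.take_of_length_le (by
    rw [List.length_append]; exact hq), List.prod_append, hB, mul_one, List.length_append]

theorem pth_mid (pre u U v post : List G) {q : ℕ}
    (hq1 : pre.length + u.length ≤ q) (hq2 : q ≤ pre.length + u.length + U.length) :
    pth (pre ++ (u ++ U ++ v) ++ post) q =
      pre.prod * u.prod * (U.take (q - (pre.length + u.length))).prod := by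
  unfold pth
  have e1 : pre ++ (u ++ U ++ v) ++ post = (pre ++ u) ++ (U ++ (v ++ post)) := by
    simp only [List.append_assoc]
  rw [e1, List.take_append, List.prod_append, List.take_of_length_le (by
    rw [List.length_append]; exact hq1), List.prod_append, List.length_append,
    List.take_append_of_le_length (by omega)]

end Pool.Agent.TH719.ED.H858
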