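import Pool.Agent.TH858.ED1

/-! Decoding a label from a crossing relation, and the number of bad labels. -/

set_option autoImplicit false

namespace Pool.Agent.TH719.ED.H858

open scoped Pointwise

variable {G : Type} [Group G] {α : Type}

/-- the value of a datum -/
def dval (S : ℕ → G) : (ℕ × ℕ) ⊕ G → G
  | Sum.inl x => (S x.1)⁻¹ * S x.2
  | Sum.inr h => h

/-- encoding of an entry of the relation -/
def enc (S : ℕ → G) (x : Bool × ℕ × ℕ) : (ℕ × ℕ) ⊕ G :=
  if x.1 = true then Sum.inl x.2 else Sum.inr ((S x.2.1)⁻¹ * S x.2.2)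

theorem dval_enc (S : ℕ → G) (x : Bool × ℕ × ℕ) : dval S (enc S x) = (S x.2.1)⁻¹ * S x.2.2 := by
  unfold enc
  split_ifs <;> rfl

/-- the long intervals of a list of data -/
def lng (D : List ((ℕ × ℕ) ⊕ G)) : List (ℕ × ℕ) := D.filterMap Sum.getLeft?

theorem lng_enc (S : ℕ → G) (M : List (Bool × ℕ × ℕ)) :
    lng (M.map (enc S)) = (M.filter (fun a => a.1)).map (fun a => a.2) := by
  unfold lng
  induction M with
  | nil => rfl
  | cons x M ih =>
    rcases x with ⟨b, x⟩
    cases b
    · have h1 : enc S (false, x) = Sum.inr ((S x.1)⁻¹ * S x.2) := by simp [enc]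
      rw [List.map_cons, h1, List.filterMap_cons_none (by rfl), ih]
      simp
    · simp [enc, ih]

/-- exactly one interval of the list crosses -/
def Crossing (In Out : ℕ → Prop) (L : List (ℕ × ℕ)) : Prop :=
  ∃ (L1 : List (ℕ × ℕ)) (x : ℕ × ℕ) (L2 : List (ℕ × ℕ)), L = L1 ++ x :: L2 ∧
    ((In x.1 ∧ Out x.2) ∨ (Out x.1 ∧ In x.2)) ∧
    (∀ y ∈ L1, (In y.1 ∧ In y.2) ∨ (Out y.1 ∧ Out y.2)) ∧
    (∀ y ∈ L2, (In y.1 ∧ In y.2) ∨ (Out y.1 ∧ Out y.2))

theorem decode (In Out : ℕ → Prop) (S S' : ℕ → G) (g s s' : G) (X : ℕ → G)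
    (hout : ∀ q, Out q → S q = S' q)
    (hin : ∀ q, In q → S q = g * s * X q ∧ S' q = g * s' * X q)
    (D : List ((ℕ × ℕ) ⊕ G)) (h : (D.map (dval S)).prod = 1) (h' : (D.map (dval S')).prod = 1)
    (hc : Crossing In Out (lng D)) : s = s' := by
  obtain ⟨L1, x, L2, hL, hx, hL1, hL2⟩ := hc
  unfold lng at hL
  rw [List.filterMap_eq_append_iff] at hL
  obtain ⟨D1, D', rfl, hD1, hD'⟩ := hL
  rw [List.filterMap_eq_cons_iff] at hD'
  obtain ⟨D0, d, D2, rfl, hD0, hd, hD2⟩ := hD'
  have hd' : d = Sum.inl x := by
    rcases d with d | d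
    · simp only [Sum.getLeft?_inl, Option.some.injEq] at hd
      rw [hd]
    · simp at hd
  subst hd'
  -- products of non-crossing data agree
  have key : ∀ (D : List ((ℕ × ℕ) ⊕ G)) (L : List (ℕ × ℕ)), D.filterMap Sum.getLeft? = L →
      (∀ y ∈ L, (In y.1 ∧ In y.2) ∨ (Out y.1 ∧ Out y.2)) →
      (D.map (dval S)).prod = (D.map (dval S')).prod := by
    intro D L hDL hL
    congr 1
    apply List.map_congr_left
    intro d hd
    rcases d with y | y
    · have hy : y ∈ L := by
        rw [← hDL, List.mem_filterMap]
        exact ⟨_, hd, rfl⟩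
      rcases hL y hy with ⟨h1, h2⟩ | ⟨h1, h2⟩
      · simp only [dval]
        rw [(hin _ h1).1, (hin _ h1).2, (hin _ h2).1, (hin _ h2).2]
        group
      · simp only [dval]
        rw [hout _ h1, hout _ h2]
    · rfl
  have k1 := key D1 L1 hD1 hL1
  have k2 := key D2 L2 hD2 hL2
  have k0 := key D0 [] (by
    rw [List.filterMap_eq_nil_iff]; exact hD0) (by simp)
  simp only [List.map_append, List.map_cons, List.prod_append, List.prod_cons] at h h'
  rw [k1, k2, k0] at h
  have h3 : dval S (Sum.inl x) = dval S' (Sum.inl x) := by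
    have h4 := h.trans h'.symm
    exact mul_right_cancel (mul_left_cancel (mul_left_cancel h4))
  simp only [dval] at h3
  rcases hx with ⟨h1, h2⟩ | ⟨h1, h2⟩
  · rw [(hin _ h1).1, (hin _ h1).2, hout _ h2] at h3
    have h4 := inv_injective (mul_right_cancel h3)
    exact mul_left_cancel (mul_right_cancel h4)
  · rw [(hin _ h2).1, (hin _ h2).2, hout _ h1] at h3
    have h4 := mul_left_cancel h3
    exact mul_left_cancel (mul_right_cancel h4)

/-- the alphabet of the data -/
noncomputable def alph [DecidableEq G] (E : Finset G) (K m : ℕ) : Finset ((ℕ × ℕ) ⊕ G) :=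
  ((Finset.range (m + 1)) ×ˢ (Finset.range (m + 1))).disjSum ((insert 1 E) ^ K)

theorem alph_card [DecidableEq G] (E : Finset G) (K m : ℕ) :
    (alph E K m).card ≤ (m + 1) ^ 2 + (E.card + 1) ^ K := by
  unfold alph
  rw [Finset.card_disjSum, Finset.card_product, Finset.card_range, pow_two]
  gcongr
  exact (Finset.card_pow_le).trans (Nat.pow_le_pow_left (Finset.card_insert_le _ _) _)

theorem pth_ball [DecidableEq G] {E : Finset G} (w : List G) (hw : ∀ x ∈ w, x ∈ E) (i K : ℕ) :
    ∀ j, i + j ≤ w.length → (pth w i)⁻¹ * pth w (i + j) ∈ (insert 1 E) ^ j := by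
  intro j
  induction j with
  | zero => intro _; simp
  | succ j ih =>
    intro h
    have h1 := ih (by omega)
    have h2 := pth_step w hw (i + j) (by omega)
    have e : (pth w i)⁻¹ * pth w (i + (j + 1)) =
        ((pth w i)⁻¹ * pth w (i + j)) * ((pth w (i + j))⁻¹ * pth w (i + j + 1)) := by
      rw [← add_assoc]; group
    rw [e, pow_succ]
    exact Finset.mul_mem_mul h1 (Finset.mem_insert_of_mem h2)

/-- lists over a finite alphabet of bounded length -/
theorem card_le_of_lists {β γ : Type} [DecidableEq β] (B : Finset γ) (A : Finset β) (c : ℕ)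
    (D : γ → List β) (hlen : ∀ s ∈ B, (D s).length ≤ c) (hA : ∀ s ∈ B, ∀ x ∈ D s, x ∈ A)
    (hinj : ∀ s ∈ B, ∀ s' ∈ B, D s = D s' → s = s') : B.card ≤ (A.card + 1) ^ c := by
  classical
  have h1 : B.card ≤ (Fintype.piFinset (fun _ : Fin c => Finset.insertNone A)).card := by
    apply Finset.card_le_card_of_injOn (fun s => fun i : Fin c => (D s)[(i : ℕ)]?)
    · intro s hs
      simp only [Finset.mem_coe, Fintype.mem_piFinset, Finset.mem_insertNone]
      intro i x hx
      exact hA s hs x (List.mem_of_getElem? hx)
    · intro s hs s' hs' h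
      apply hinj s hs s' hs'
      apply List.ext_getElem?
      intro i
      by_cases hi : i < c
      · exact congrFun h ⟨i, hi⟩
      · rw [List.getElem?_eq_none ((hlen s hs).trans (by omega)),
          List.getElem?_eq_none ((hlen s' hs').trans (by omega))]
  rw [Fintype.card_piFinset] at h1
  simpa using h1

/-- the number of bad labels at one node and one position -/
theorem bad_card [DecidableEq G] [Fintype α] (e : α → List G) (p : G) (R N : ℕ)
    (E : Finset G) (hE : ∀ x ∈ E, x⁻¹ ∈ E) (hp : p ∈ E) (hlen : ∀ s, (e s).length = R)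
    (he : ∀ s, ∀ x ∈ e s, x ∈ E) (hinj : ∀ s s', (e s).prod = (e s').prod → s = s')
    (r c K : ℕ) (lam : ℕ → α) (j k a : ℕ) (hnode : Node e p R N lam j k a)
    (T : α → ℕ) (Lf : α → ℕ → List (ℕ × ℕ))
    (hsweep : ∀ s, Sweep r c K (ll R N) (pth (W e p R N (Function.update lam j s) 0)) (T s) (Lf s))
    (B : Finset α) (hB : ∀ s ∈ B, ∃ t, Crossing (fun x => a + R ≤ x ∧ x ≤ a + R + ll R k)
      (fun x => x ≤ a ∨ a + (2 * R + ll R k) ≤ x) (Lf s t)) :
    B.card ≤ ((ll R N + 1) ^ 2 + (E.card + 1) ^ K + 1) ^ c := by
  classical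
  obtain ⟨pre, post, hpre, hW⟩ := hnode
  have hdata : ∀ s, ∃ D : List ((ℕ × ℕ) ⊕ G), s ∈ B → D.length ≤ c ∧
      (∀ x ∈ D, x ∈ alph E K (ll R N)) ∧
      (D.map (dval (pth (W e p R N (Function.update lam j s) 0)))).prod = 1 ∧
      Crossing (fun x => a + R ≤ x ∧ x ≤ a + R + ll R k)
        (fun x => x ≤ a ∨ a + (2 * R + ll R k) ≤ x) (lng D) := by
    intro s
    by_cases hs : s ∈ B
    swap
    · exact ⟨[], fun h => absurd h hs⟩
    obtain ⟨t, ht⟩ := hB s hs
    obtain ⟨M, hM1, hM2, hM3, hM4⟩ := (hsweep s).rel t
    have hw := W_mem e p R hE hp he N (Function.update lam j s) 0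
    have hwl := W_length e p R hlen N (Function.update lam j s) 0
    set w := W e p R N (Function.update lam j s) 0 with hwdef
    refine ⟨M.map (enc (pth w)), fun _ => ⟨by rwa [List.length_map], ?_, ?_, ?_⟩⟩
    · intro x hx
      rw [List.mem_map] at hx
      obtain ⟨y, hy, rfl⟩ := hx
      unfold alph enc
      by_cases hy1 : y.1 = true
      · rw [if_pos hy1, Finset.inl_mem_disjSum, Finset.mem_product, Finset.mem_range,
          Finset.mem_range]
        have hy2 : y.2 ∈ Lf s t := by
          rw [← hM2, List.mem_map]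
          exact ⟨y, List.mem_filter.2 ⟨hy, hy1⟩, rfl⟩
        have := (hsweep s).bdd t y.2 hy2
        omega
      · rw [if_neg hy1, Finset.inr_mem_disjSum]
        have hy3 := hM3 y hy (by simpa using hy1)
        obtain ⟨i, hi⟩ := Nat.exists_eq_add_of_le hy3.1
        rw [hi]
        have hb := pth_ball w hw y.2.1 K i (by omega)
        exact Finset.pow_subset_pow_right (Finset.mem_insert_self 1 E) (by omega) hb
    · rw [List.map_map]
      have : (dval (pth w)) ∘ (enc (pth w)) =
          fun a : Bool × ℕ × ℕ => (pth w a.2.1)⁻¹ * pth w a.2.2 := by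
        funext x
        exact dval_enc _ x
      rw [this]
      exact hM4
    · rw [lng_enc, hM2]
      exact ht
  choose D hD using hdata
  refine (card_le_of_lists B (alph E K (ll R N)) c D (fun s hs => (hD s hs).1)
    (fun s hs => (hD s hs).2.1) ?_).trans ?_
  · intro s hs s' hs' hDD
    have h1 := (hD s hs).2.2
    have h2 := (hD s' hs').2.2
    rw [← hDD] at h2
    apply hinj
    have hUl := W_length e p R hlen k lam (j + 1)
    have hUp := W_prod e p R k lam (j + 1)
    set U := W e p R k lam (j + 1) with hU
    have hBl : ∀ s, (e s ++ U ++ inv (e s)).length = 2 * R + ll R k := by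
      intro s
      simp only [List.length_append, inv_length, hlen, hUl]
      ring
    have hBp : ∀ s, (e s ++ U ++ inv (e s)).prod = 1 := by
      intro s
      simp only [List.prod_append, inv_prod, hUp]
      group
    refine decode _ _ (pth (W e p R N (Function.update lam j s) 0))
      (pth (W e p R N (Function.update lam j s') 0)) pre.prod (e s).prod (e s').prod
      (fun q => (U.take (q - (pre.length + R))).prod) ?_ ?_ (D s) h1.1 h2.1 h1.2
    · intro q hq
      rw [hW s, hW s']
      rcases hq with hq | hq
      · rw [pth_left _ _ _ (by omega), pth_left _ _ _ (by omega)]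
      · rw [pth_right _ _ _ (hBp s) (by rw [hBl, hpre]; exact hq),
          pth_right _ _ _ (hBp s') (by rw [hBl, hpre]; exact hq), hBl, hBl]
    · intro q hq
      rw [hW s, hW s']
      rw [pth_mid pre (e s) U (inv (e s)) post (by rw [hpre, hlen]; exact hq.1)
        (by rw [hpre, hlen, hUl]; exact hq.2),
        pth_mid pre (e s') U (inv (e s')) post (by rw [hpre, hlen]; exact hq.1)
        (by rw [hpre, hlen, hUl]; exact hq.2), hlen, hlen]
      exact ⟨rfl, rfl⟩
  · have := alph_card E K (ll R N)
    gcongr

/-- avoiding bad labels -/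
theorem avoid {α : Type} [Fintype α] (n Φ : ℕ) (Bad : ℕ → (ℕ → α) → Prop) (lam0 : ℕ → α)
    (h : ∀ (lam : ℕ → α) (j : ℕ), j < n → ∀ B : Finset α,
      (∀ s ∈ B, Bad j (Function.update lam j s)) → B.card ≤ Φ)
    (hcard : n * Φ < Fintype.card α) : ∃ lam : ℕ → α, ∀ j < n, ¬ Bad j lam := by
  classical
  by_contra hcon
  push Not at hcon
  let ext : (Fin n → α) → ℕ → α := fun f i => if hi : i < n then f ⟨i, hi⟩ else lam0 i
  have hupd : ∀ (f : Fin n → α) (j : Fin n) (s : α),
      ext (Function.update f j s) = Function.update (ext f) (j : ℕ) s := by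
    intro f j s
    funext i
    by_cases hij : i = j
    · subst hij
      simp [ext]
    · rw [Function.update_of_ne hij]
      by_cases hi : i < n
      · simp only [ext, dif_pos hi]
        rw [Function.update_of_ne]
        intro h
        exact hij (by rw [← h])
      · simp only [ext, dif_neg hi]
  have hα : 0 < Fintype.card α := by omega
  -- count for one index
  have hone : ∀ j : Fin n, (Finset.univ.filter (fun f : Fin n → α => Bad j (ext f))).card *
      Fintype.card α ≤ Φ * Fintype.card (Fin n → α) := by
    intro j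
    have h1 : ((Finset.univ.filter (fun f : Fin n → α => Bad j (ext f))) ×ˢ
        (Finset.univ : Finset α)).card ≤
        (Finset.univ.filter (fun q : (Fin n → α) × α =>
          Bad j (ext (Function.update q.1 j q.2)))).card := by
      apply Finset.card_le_card_of_injOn (fun q => (Function.update q.1 j q.2, q.1 j))
      · intro q hq
        simp only [Finset.coe_product, Set.mem_prod, Finset.mem_coe, Finset.mem_filter,
          Finset.mem_univ, true_and, and_true] at hq
        simp only [Finset.coe_filter, Finset.mem_univ, true_and, Set.mem_ofPred_eq,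
          Function.update_idem, Function.update_eq_self]
        exact hq
      · intro q _ q' _ hqq
        simp only [Prod.mk.injEq] at hqq
        obtain ⟨h2, h3⟩ := hqq
        apply Prod.ext
        · funext i
          by_cases hij : i = j
          · rw [hij]; exact h3
          · have := congrFun h2 i
            rwa [Function.update_of_ne hij, Function.update_of_ne hij] at this
        · have := congrFun h2 j
          rwa [Function.update_self, Function.update_self] at this
    rw [Finset.card_product, Finset.card_univ] at h1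
    refine h1.trans ?_
    have h2 : (Finset.univ.filter (fun q : (Fin n → α) × α =>
        Bad j (ext (Function.update q.1 j q.2)))).card =
        ∑ f : Fin n → α, (Finset.univ.filter (fun s : α =>
          Bad j (ext (Function.update f j s)))).card := by
      rw [← Finset.univ_product_univ, Finset.card_filter, Finset.sum_product]
      refine Finset.sum_congr rfl fun f _ => ?_
      rw [Finset.card_filter]
    rw [h2]
    calc ∑ f : Fin n → α, (Finset.univ.filter (fun s : α =>
          Bad j (ext (Function.update f j s)))).card ≤ ∑ _f : Fin n → α, Φ := by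
          refine Finset.sum_le_sum fun f _ => ?_
          apply h (ext f) j j.isLt
          intro s hs
          rw [Finset.mem_filter, hupd] at hs
          exact hs.2
      _ = Φ * Fintype.card (Fin n → α) := by
          rw [Finset.sum_const, Finset.card_univ, smul_eq_mul, mul_comm]
  have htot : Fintype.card (Fin n → α) ≤
      ∑ j : Fin n, (Finset.univ.filter (fun f : Fin n → α => Bad j (ext f))).card := by
    have h1 : (Finset.univ : Finset (Fin n → α)) ⊆ Finset.univ.biUnion
        (fun j : Fin n => Finset.univ.filter (fun f : Fin n → α => Bad j (ext f))) := by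
      intro f _
      obtain ⟨j, hj, hb⟩ := hcon (ext f)
      rw [Finset.mem_biUnion]
      exact ⟨⟨j, hj⟩, Finset.mem_univ _, Finset.mem_filter.2 ⟨Finset.mem_univ _, hb⟩⟩
    have h2 := (Finset.card_le_card h1).trans Finset.card_biUnion_le
    rwa [Finset.card_univ] at h2
  have hpos : 0 < Fintype.card (Fin n → α) := by
    rw [Fintype.card_fun]
    positivity
  have h3 : Fintype.card (Fin n → α) * Fintype.card α ≤
      (n * Φ) * Fintype.card (Fin n → α) := by
    calc Fintype.card (Fin n → α) * Fintype.card α ≤
        (∑ j : Fin n, (Finset.univ.filter (fun f : Fin n → α => Bad j (ext f))).card) *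
          Fintype.card α := Nat.mul_le_mul_right _ htot
      _ = ∑ j : Fin n, (Finset.univ.filter (fun f : Fin n → α => Bad j (ext f))).card *
          Fintype.card α := Finset.sum_mul _ _ _
      _ ≤ ∑ _j : Fin n, Φ * Fintype.card (Fin n → α) := Finset.sum_le_sum fun j _ => hone j
      _ = (n * Φ) * Fintype.card (Fin n → α) := by
          rw [Finset.sum_const, Finset.card_univ, Fintype.card_fin, smul_eq_mul, mul_assoc]
  rw [mul_comm (n * Φ)] at h3
  have h4 := Nat.le_of_mul_le_mul_left h3 hpos
  omega

end Pool.Agent.TH719.ED.H858
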