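import Pool.Agent.TH858.ED2

/-! The intervals of a sweep inside the word of a tree without bad nodes. -/

set_option autoImplicit false

namespace Pool.Agent.TH719.ED.H858

open scoped Pointwise

/-- the end points of the intervals -/
def ends (L : List (ℕ × ℕ)) : List ℕ := L.flatMap fun a => [a.1, a.2]

theorem ends_length (L : List (ℕ × ℕ)) : (ends L).length = 2 * L.length := by
  unfold ends
  induction L with
  | nil => rfl
  | cons x L ih =>
    rw [List.flatMap_cons, List.length_append, ih, List.length_cons]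
    simp only [List.length_cons, List.length_nil]
    omega

theorem ends_mem {L : List (ℕ × ℕ)} {a : ℕ × ℕ} (h : a ∈ L) : a.1 ∈ ends L ∧ a.2 ∈ ends L := by
  unfold ends
  constructor
  · exact List.mem_flatMap.2 ⟨a, h, by simp⟩
  · exact List.mem_flatMap.2 ⟨a, h, by simp⟩

theorem sep {L : List (ℕ × ℕ)} {x y : ℕ} (hx : x ∈ Cov L) (hy : y ∉ Cov L) :
    ∃ z ∈ ends L, min x y < z ∧ z ≤ max x y := by
  obtain ⟨a, ha, h1, h2⟩ := hx
  have h3 : ¬ (a.1 ≤ y ∧ y < a.2) := fun h => hy ⟨a, ha, h⟩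
  rcases Nat.lt_or_ge y a.1 with h4 | h4
  · exact ⟨a.1, (ends_mem ha).1, by omega, by omega⟩
  · exact ⟨a.2, (ends_mem ha).2, by omega, by omega⟩

theorem crossing_of {L : List (ℕ × ℕ)} (hs : L.Pairwise (fun a b => a.2 ≤ b.1))
    (hb : ∀ a ∈ L, a.1 ≤ a.2) {lo' lo hi hi' : ℕ} (h1 : lo' ≤ lo) (h2 : lo < hi) (h3 : hi < hi')
    (hends : ∀ z ∈ ends L, z ≤ lo' ∨ (lo < z ∧ z < hi) ∨ hi' ≤ z)
    (hst : (lo ∉ Cov L ∧ hi ∈ Cov L) ∨ (lo ∈ Cov L ∧ hi ∉ Cov L)) :
    Crossing (fun x => lo ≤ x ∧ x ≤ hi) (fun x => x ≤ lo' ∨ hi' ≤ x) L := by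
  have hE : ∀ a ∈ L, (a.1 ≤ lo' ∨ (lo < a.1 ∧ a.1 < hi) ∨ hi' ≤ a.1) ∧
      (a.2 ≤ lo' ∨ (lo < a.2 ∧ a.2 < hi) ∨ hi' ≤ a.2) ∧ a.1 ≤ a.2 :=
    fun a ha => ⟨hends _ (ends_mem ha).1, hends _ (ends_mem ha).2, hb a ha⟩
  have hC : ∀ z, z ∉ Cov L → ∀ a ∈ L, ¬ (a.1 ≤ z ∧ z < a.2) := fun z hz a ha h => hz ⟨a, ha, h⟩
  rcases hst with ⟨hlo, x, hxL, hx1, hx2⟩ | ⟨⟨x, hxL, hx1, hx2⟩, hhi⟩
  · obtain ⟨L1, L2, rfl⟩ := List.append_of_mem hxL
    rw [List.pairwise_append, List.pairwise_cons] at hs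
    obtain ⟨-, ⟨hs2, -⟩, hs1⟩ := hs
    have ex := hE x hxL
    have cx := hC lo hlo x hxL
    refine ⟨L1, x, L2, rfl, Or.inl ⟨by omega, by omega⟩, ?_, ?_⟩
    · intro y hy
      have ey := hE y (List.mem_append_left _ hy)
      have cy := hC lo hlo y (List.mem_append_left _ hy)
      have sy := hs1 y hy x (List.mem_cons_self)
      omega
    · intro y hy
      have ey := hE y (List.mem_append_right _ (List.mem_cons_of_mem _ hy))
      have sy := hs2 y hy
      omega
  · obtain ⟨L1, L2, rfl⟩ := List.append_of_mem hxL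
    rw [List.pairwise_append, List.pairwise_cons] at hs
    obtain ⟨-, ⟨hs2, -⟩, hs1⟩ := hs
    have ex := hE x hxL
    have cx := hC hi hhi x hxL
    refine ⟨L1, x, L2, rfl, Or.inr ⟨by omega, by omega⟩, ?_, ?_⟩
    · intro y hy
      have ey := hE y (List.mem_append_left _ hy)
      have sy := hs1 y hy x (List.mem_cons_self)
      omega
    · intro y hy
      have ey := hE y (List.mem_append_right _ (List.mem_cons_of_mem _ hy))
      have cy := hC hi hhi y (List.mem_append_right _ (List.mem_cons_of_mem _ hy))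
      have sy := hs2 y hy
      omega

theorem median (t : ℕ → ℕ) : ∃ b i1 i3 : ℕ, b < 3 ∧ i1 < 3 ∧ i3 < 3 ∧ i1 ≠ b ∧ i3 ≠ b ∧
    t i1 ≤ t b ∧ t b ≤ t i3 := by
  rcases le_total (t 0) (t 1) with h1 | h1 <;> rcases le_total (t 1) (t 2) with h2 | h2 <;>
    rcases le_total (t 0) (t 2) with h3 | h3
  · exact ⟨1, 0, 2, by norm_num, by norm_num, by norm_num, by norm_num, by norm_num, h1, h2⟩
  · exact ⟨1, 0, 2, by norm_num, by norm_num, by norm_num, by norm_num, by norm_num, h1, h2⟩
  · exact ⟨2, 0, 1, by norm_num, by norm_num, by norm_num, by norm_num, by norm_num, h3, h2⟩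
  · exact ⟨0, 2, 1, by norm_num, by norm_num, by norm_num, by norm_num, by norm_num, h3, h1⟩
  · exact ⟨0, 1, 2, by norm_num, by norm_num, by norm_num, by norm_num, by norm_num, h1, h3⟩
  · exact ⟨2, 1, 0, by norm_num, by norm_num, by norm_num, by norm_num, by norm_num, h2, h3⟩
  · exact ⟨1, 2, 0, by norm_num, by norm_num, by norm_num, by norm_num, by norm_num, h2, h1⟩
  · exact ⟨1, 2, 0, by norm_num, by norm_num, by norm_num, by norm_num, by norm_num, h2, h1⟩

theorem countP_mono' (l : List ℕ) (P Q : ℕ → Bool) (h : ∀ z, P z = true → Q z = true) :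
    l.countP P ≤ l.countP Q := List.countP_mono_left fun z _ => h z

theorem countP_lt' (l : List ℕ) (P Q : ℕ → Bool) (h : ∀ z, P z = true → Q z = true)
    (hz : ∃ z ∈ l, Q z = true ∧ P z = false) : l.countP P + 1 ≤ l.countP Q := by
  induction l with
  | nil => obtain ⟨z, hz, -⟩ := hz; simp at hz
  | cons x l ih =>
    rw [List.countP_cons, List.countP_cons]
    obtain ⟨z, hz, hq, hp⟩ := hz
    rcases List.mem_cons.1 hz with rfl | hz
    · have := countP_mono' l P Q h
      rw [if_pos hq, if_neg (by rw [hp]; simp)]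
      omega
    · have := ih ⟨z, hz, hq, hp⟩
      by_cases hpx : P x = true
      · rw [if_pos hpx, if_pos (h x hpx)]; omega
      · rw [if_neg hpx]; omega

variable {G : Type} [Group G] {α : Type}

theorem Cov_anti {r c K m : ℕ} {S : ℕ → G} {T : ℕ} {L : ℕ → List (ℕ × ℕ)}
    (h : Sweep r c K m S T L) {t t' : ℕ} (htt : t ≤ t') : Cov (L t') ⊆ Cov (L t) := by
  induction htt with
  | refl => exact subset_rfl
  | step _ ih => exact (h.anti _).trans ih

theorem Cov_sub {r c K m : ℕ} {S : ℕ → G} {T : ℕ} {L : ℕ → List (ℕ × ℕ)}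
    (h : Sweep r c K m S T L) (t : ℕ) : Cov (L t) ⊆ Set.Iio m := by
  rintro x ⟨a, ha, h1, h2⟩
  have := h.bdd t a ha
  simp only [Set.mem_Iio]
  omega

theorem leaf_claim {r c K m : ℕ} {S : ℕ → G} {T : ℕ} {L : ℕ → List (ℕ × ℕ)}
    (h : Sweep r c K m S T L) {a ℓ : ℕ} (hℓ : K < ℓ) (ha : a + ℓ ≤ m) :
    ∃ t, (∃ x, a ≤ x ∧ x < a + ℓ ∧ x ∉ Cov (L t)) ∧ (∃ y, a ≤ y ∧ y < a + ℓ ∧ y ∈ Cov (L t)) ∧
      0 + 1 ≤ (ends (L t)).countP (fun z => decide (a < z ∧ z < a + ℓ)) := by
  classical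
  have hreg : (Set.Ico a (a + ℓ)).ncard = ℓ := by
    rw [← Nat.card_coe_set_eq, Nat.card_eq_fintype_card]
    simp
  have hex : ∃ t, ∀ x, a ≤ x → x < a + ℓ → x ∉ Cov (L t) := ⟨T, fun x _ _ => by
    rw [h.final]; exact Set.notMem_empty x⟩
  set t0 := Nat.find hex with ht0
  have hspec : ∀ x, a ≤ x → x < a + ℓ → x ∉ Cov (L t0) := Nat.find_spec hex
  have hne : t0 ≠ 0 := by
    intro h0
    rw [h0] at hspec
    have h1 : Set.Ico a (a + ℓ) ⊆ Set.Iio m \ Cov (L 0) := by
      intro x hx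
      exact ⟨by simp only [Set.mem_Iio]; have := hx.2; omega, hspec x hx.1 hx.2⟩
    have h2 := Set.ncard_le_ncard h1 ((Set.finite_Iio m).subset Set.sdiff_subset)
    rw [hreg] at h2
    have h3 := h.start
    omega
  obtain ⟨t, ht⟩ := Nat.exists_eq_succ_of_ne_zero hne
  have hmin : ¬ ∀ x, a ≤ x → x < a + ℓ → x ∉ Cov (L t) := Nat.find_min hex (by omega)
  push Not at hmin
  obtain ⟨y, hy1, hy2, hy3⟩ := hmin
  have hpast : ∃ x, a ≤ x ∧ x < a + ℓ ∧ x ∉ Cov (L t) := by
    by_contra hcon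
    push Not at hcon
    have h1 : Set.Ico a (a + ℓ) ⊆ Cov (L t) \ Cov (L (t + 1)) := by
      intro x hx
      refine ⟨hcon x hx.1 hx.2, ?_⟩
      have := hspec x hx.1 hx.2
      rwa [ht] at this
    have h2 := Set.ncard_le_ncard h1
      (((Set.finite_Iio m).subset (Cov_sub h t)).subset Set.sdiff_subset)
    rw [hreg] at h2
    have h3 := h.step t
    omega
  obtain ⟨x, hx1, hx2, hx3⟩ := hpast
  refine ⟨t, ⟨x, hx1, hx2, hx3⟩, ⟨y, hy1, hy2, hy3⟩, ?_⟩
  obtain ⟨z, hz, hz1, hz2⟩ := sep hy3 hx3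
  rw [Nat.zero_add, Nat.one_le_iff_ne_zero, Ne, List.countP_eq_zero]
  push Not
  refine ⟨z, hz, ?_⟩
  simp only [decide_eq_true_eq]
  omega

theorem claim (e : α → List G) (p : G) (R N : ℕ) (hlen : ∀ s, (e s).length = R) (hR : 1 ≤ R)
    (lam : ℕ → α) {r c K T : ℕ} {S : ℕ → G} {L : ℕ → List (ℕ × ℕ)}
    (h : Sweep r c K (ll R N) S T L) (hK : K < 2 * R)
    (hgood : ∀ j < nn N, ∀ k ≤ N, ∀ a ≤ ll R N, Node e p R N lam j k a → ∀ t,
      ¬ Crossing (fun x => a + R ≤ x ∧ x ≤ a + R + ll R k)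
        (fun x => x ≤ a ∨ a + (2 * R + ll R k) ≤ x) (L t)) :
    ∀ k off a, k ≤ N → off + nn k ≤ nn N → Sub e p R N lam off k a →
      ∃ t, (∃ x, a ≤ x ∧ x < a + ll R k ∧ x ∉ Cov (L t)) ∧
        (∃ y, a ≤ y ∧ y < a + ll R k ∧ y ∈ Cov (L t)) ∧
        k + 1 ≤ (ends (L t)).countP (fun z => decide (a < z ∧ z < a + ll R k)) := by
  have hle : ∀ {off k a}, Sub e p R N lam off k a → a + ll R k ≤ ll R N := by
    rintro off k a ⟨pre, post, h1, h2⟩
    have h3 := congrArg List.length (h2 lam fun _ _ => rfl)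
    rw [List.length_append, List.length_append, W_length e p R hlen, W_length e p R hlen, h1] at h3
    omega
  have hpos : ∀ k, 1 ≤ ll R k := by
    intro k
    cases k with
    | zero => simp only [ll]; omega
    | succ k => simp only [ll]; omega
  intro k
  induction k with
  | zero =>
    intro off a _ _ hsub
    exact leaf_claim h (by simp only [ll]; exact hK) (hle hsub)
  | succ k ih =>
    intro off a hk hoff hsub
    have hnn : nn (k + 1) = 3 * (nn k + 1) := rfl
    have hll : ll R (k + 1) = 3 * (2 * R + ll R k) := rfl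
    have hmul : ∀ i < 3, i * (nn k + 1) + (nn k + 1) ≤ 3 * (nn k + 1) := by
      intro i hi
      have : (i + 1) * (nn k + 1) ≤ 3 * (nn k + 1) := Nat.mul_le_mul_right _ hi
      linarith
    have hmul2 : ∀ i j : ℕ, i < j → i * (2 * R + ll R k) + (2 * R + ll R k) ≤
        j * (2 * R + ll R k) := by
      intro i j hij
      have : (i + 1) * (2 * R + ll R k) ≤ j * (2 * R + ll R k) := Nat.mul_le_mul_right _ hij
      linarith
    -- the children
    have hch : ∀ i, ∃ t, i < 3 →
        (∃ x, a + i * (2 * R + ll R k) + R ≤ x ∧ x < a + i * (2 * R + ll R k) + R + ll R k ∧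
          x ∉ Cov (L t)) ∧
        (∃ y, a + i * (2 * R + ll R k) + R ≤ y ∧ y < a + i * (2 * R + ll R k) + R + ll R k ∧
          y ∈ Cov (L t)) ∧
        k + 1 ≤ (ends (L t)).countP (fun z => decide (a + i * (2 * R + ll R k) + R < z ∧
          z < a + i * (2 * R + ll R k) + R + ll R k)) := by
      intro i
      by_cases hi : i < 3
      · obtain ⟨t, ht⟩ := ih (off + i * (nn k + 1) + 1) (a + i * (2 * R + ll R k) + R)
          (by omega) (by have := hmul i hi; omega)
          (SubB_sub e p R hlen (Sub_child e p R hlen hsub i hi))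
        exact ⟨t, fun _ => ht⟩
      · exact ⟨0, fun h => absurd h hi⟩
    choose tt htt using hch
    obtain ⟨b, i1, i3, hb, hi1, hi3, hb1, hb3, ht1, ht3⟩ := median tt
    set A := a + b * (2 * R + ll R k) with hA
    have hAle : A + (2 * R + ll R k) ≤ a + ll R (k + 1) := by
      have := hmul2 b 3 hb
      omega
    have haA : a ≤ A := Nat.le_add_right _ _
    obtain ⟨-, ⟨y0, hy01, hy02, hy03⟩, hcount⟩ := htt b hb
    obtain ⟨⟨x, hx1, hx2, hx3⟩, -, -⟩ := htt i1 hi1
    obtain ⟨-, ⟨y, hy1, hy2, hy3⟩, -⟩ := htt i3 hi3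
    have hx3' : x ∉ Cov (L (tt b)) := fun hx => hx3 (Cov_anti h ht1 hx)
    have hy3' : y ∈ Cov (L (tt b)) := Cov_anti h ht3 hy3
    have hi1le := hmul2 i1 3 hi1
    have hi3le := hmul2 i3 3 hi3
    refine ⟨tt b, ⟨x, by omega, by omega, hx3'⟩, ⟨y, by omega, by omega, hy3'⟩, ?_⟩
    by_cases hout : ∃ z ∈ ends (L (tt b)), (a < z ∧ z < a + ll R (k + 1)) ∧
        ¬ (A + R < z ∧ z < A + R + ll R k)
    · obtain ⟨z, hz, hz1, hz2⟩ := hout
      refine le_trans (Nat.succ_le_succ hcount) ?_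
      apply countP_lt'
      · intro z hz
        simp only [decide_eq_true_eq] at hz ⊢
        omega
      · refine ⟨z, hz, by simpa using hz1, ?_⟩
        simp only [decide_eq_false_iff_not]
        exact hz2
    · exfalso
      push Not at hout
      have hends : ∀ z ∈ ends (L (tt b)), z ≤ a ∨ (A + R < z ∧ z < A + R + ll R k) ∨
          a + ll R (k + 1) ≤ z := by
        intro z hz
        by_cases hz1 : a < z ∧ z < a + ll R (k + 1)
        · right; left
          exact hout z hz hz1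
        · omega
      -- uniform status
      have huni : ∀ u v, u ∈ Cov (L (tt b)) → v ∉ Cov (L (tt b)) →
          ¬ ((a ≤ u ∧ u ≤ A + R ∧ a ≤ v ∧ v ≤ A + R) ∨
            (A + R + ll R k ≤ u ∧ u < a + ll R (k + 1) ∧ A + R + ll R k ≤ v ∧
              v < a + ll R (k + 1))) := by
        intro u v hu hv hcase
        obtain ⟨z, hz, hz1, hz2⟩ := sep hu hv
        have := hends z hz
        omega
      have hloc : ∀ i, i < 3 → i ≠ b → ∀ u, a + i * (2 * R + ll R k) + R ≤ u →
          u < a + i * (2 * R + ll R k) + R + ll R k →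
          (a ≤ u ∧ u ≤ A + R) ∨ (A + R + ll R k ≤ u ∧ u < a + ll R (k + 1)) := by
        intro i hi hib u hu1 hu2
        have h3 := hmul2 i 3 hi
        rcases Nat.lt_or_gt_of_ne hib with hlt | hgt
        · left
          have := hmul2 i b hlt
          omega
        · right
          have := hmul2 b i hgt
          omega
      have hlx := hloc i1 hi1 hb1 x hx1 hx2
      have hly := hloc i3 hi3 hb3 y hy1 hy2
      refine hgood (off + b * (nn k + 1)) (by have := hmul b hb; omega) k (by omega) A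
        (by have := hle hsub; omega) (SubB_node e p R (Sub_child e p R hlen hsub b hb)) (tt b) ?_
      have hp := hpos k
      refine crossing_of (h.sorted _) (fun a ha => (h.bdd _ a ha).1) (by omega) (by omega)
        (by omega) (fun z hz => ?_) ?_
      · have := hends z hz
        omega
      · -- status of the two border points
        have hlo : ∀ u, a ≤ u ∧ u ≤ A + R → (u ∈ Cov (L (tt b)) ↔ A + R ∈ Cov (L (tt b))) := by
          intro u hu
          constructor
          · intro h1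
            by_contra h2
            exact huni _ _ h1 h2 (Or.inl ⟨by omega, by omega, by omega, by omega⟩)
          · intro h1
            by_contra h2
            exact huni _ _ h1 h2 (Or.inl ⟨by omega, by omega, by omega, by omega⟩)
        have hhi : ∀ u, A + R + ll R k ≤ u ∧ u < a + ll R (k + 1) →
            (u ∈ Cov (L (tt b)) ↔ A + R + ll R k ∈ Cov (L (tt b))) := by
          intro u hu
          constructor
          · intro h1
            by_contra h2
            exact huni _ _ h1 h2 (Or.inr ⟨by omega, by omega, by omega, by omega⟩)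
          · intro h1
            by_contra h2
            exact huni _ _ h1 h2 (Or.inr ⟨by omega, by omega, by omega, by omega⟩)
        rcases hlx with hlx | hlx <;> rcases hly with hly | hly
        · exact absurd ((hlo x hlx).2 ((hlo y hly).1 hy3')) hx3'
        · left
          exact ⟨fun h1 => hx3' ((hlo x hlx).2 h1), (hhi y hly).1 hy3'⟩
        · right
          exact ⟨(hlo y hly).1 hy3', fun h1 => hx3' ((hhi x hlx).2 h1)⟩
        · exact absurd ((hhi x hlx).2 ((hhi y hly).1 hy3')) hx3'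

end Pool.Agent.TH719.ED.H858
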