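import Pool.Agent.TH91.NB.Defs
import Pool.Agent.TH73.J887

set_option autoImplicit false

namespace Pool.Agent.TH91.NB

open Finset Pool.Agent.TH91.RF

/-- upper unitriangular matrices -/
def UT {N : ℕ} (M : Matrix (Fin N) (Fin N) ℝ) : Prop := (∀ i, M i i = 1) ∧ ∀ i j, j < i → M i j = 0

namespace J1002

open J887

/-- words of length at most `N` -/
abbrev VV (r N : ℕ) := {l : List (Fin r) // l.length ≤ N}

noncomputable instance (r N : ℕ) : Fintype (VV r N) :=
  @Fintype.ofFinite _ (List.finite_length_le (Fin r) N).to_subtype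

variable {r N : ℕ}

/-- the empty word -/
def ee (r N : ℕ) : VV r N := ⟨[], Nat.zero_le N⟩

/-- the length -/
def dg (v : VV r N) : ℕ := v.1.length

/-- the shift -/
def xi (r N : ℕ) (i : Fin r) : Matrix (VV r N) (VV r N) ℚ :=
  fun v w => if v.1 = i :: w.1 then 1 else 0

theorem xi_hom (i : Fin r) : Hom1 (dg (r := r) (N := N)) (xi r N i) := by
  intro v w h
  unfold xi at h
  by_cases h1 : v.1 = i :: w.1
  · unfold dg
    rw [h1]
    rfl
  · rw [if_neg h1] at h
    exact absurd rfl h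

/-- its real version -/
def xr (r N : ℕ) (i : Fin r) : Matrix (VV r N) (VV r N) ℝ := (xi r N i).map (fun q : ℚ => (q : ℝ))

theorem xr_apply (i : Fin r) (v w : VV r N) :
    xr r N i v w = if v.1 = i :: w.1 then 1 else 0 := by
  change (((if v.1 = i :: w.1 then 1 else 0 : ℚ)) : ℝ) = _
  split_ifs <;> simp

theorem xr_hom (i : Fin r) : Hom1 (dg (r := r) (N := N)) (xr r N i) := by
  intro v w h
  rw [xr_apply] at h
  by_cases h1 : v.1 = i :: w.1
  · unfold dg
    rw [h1]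
    rfl
  · rw [if_neg h1] at h
    exact absurd rfl h

theorem Hom1_sum {V : Type} {deg : V → ℕ} {ι : Type} (s : Finset ι)
    (f : ι → Matrix V V ℝ) (h : ∀ i, Hom1 deg (f i)) : Hom1 deg (∑ i ∈ s, f i) := by
  intro v w hvw
  rw [Matrix.sum_apply] at hvw
  obtain ⟨i, _, hi⟩ := Finset.exists_ne_zero_of_sum_ne_zero hvw
  exact h i v w hi

theorem Hom1_smul {V : Type} {deg : V → ℕ} (c : ℝ)
    (f : Matrix V V ℝ) (h : Hom1 deg f) : Hom1 deg (c • f) := by
  intro v w hvw
  rw [Matrix.smul_apply] at hvw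
  exact h v w (right_ne_zero_of_smul hvw)

variable (y : Fin r → Matrix (Fin N) (Fin N) ℝ)

/-- the product along a word -/
def wy (v : VV r N) : Matrix (Fin N) (Fin N) ℝ := (v.1.map y).prod

/-- the first column -/
noncomputable def phi (Z : Matrix (VV r N) (VV r N) ℝ) : Matrix (Fin N) (Fin N) ℝ :=
  ∑ v, Z v (ee r N) • wy y v

theorem phi_add (Z Z' : Matrix (VV r N) (VV r N) ℝ) : phi y (Z + Z') = phi y Z + phi y Z' := by
  unfold phi
  rw [← Finset.sum_add_distrib]
  exact Finset.sum_congr rfl fun v _ => by rw [Matrix.add_apply, add_smul]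

theorem phi_sub (Z Z' : Matrix (VV r N) (VV r N) ℝ) : phi y (Z - Z') = phi y Z - phi y Z' := by
  unfold phi
  rw [← Finset.sum_sub_distrib]
  exact Finset.sum_congr rfl fun v _ => by rw [Matrix.sub_apply, sub_smul]

theorem phi_smul (c : ℝ) (Z : Matrix (VV r N) (VV r N) ℝ) : phi y (c • Z) = c • phi y Z := by
  unfold phi
  rw [Finset.smul_sum]
  exact Finset.sum_congr rfl fun v _ => by rw [Matrix.smul_apply, smul_eq_mul, mul_smul]

theorem phi_zero : phi y (0 : Matrix (VV r N) (VV r N) ℝ) = 0 := by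
  unfold phi
  exact Finset.sum_eq_zero fun v _ => by rw [Matrix.zero_apply, zero_smul]

theorem phi_one : phi y (1 : Matrix (VV r N) (VV r N) ℝ) = 1 := by
  unfold phi
  rw [Finset.sum_eq_single (ee r N)]
  · rw [Matrix.one_apply_eq, one_smul]
    rfl
  · intro v _ hv
    rw [Matrix.one_apply_ne hv, zero_smul]
  · intro h
    exact absurd (Finset.mem_univ _) h

/-- `B` represents `A` -/
def Rl (A : Matrix (VV r N) (VV r N) ℝ) (B : Matrix (Fin N) (Fin N) ℝ) : Prop :=
  ∀ Z, phi y (A * Z) = B * phi y Z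

variable {y}

theorem Rl.one : Rl y (1 : Matrix (VV r N) (VV r N) ℝ) 1 := fun Z => by rw [one_mul, one_mul]

theorem Rl.zero : Rl y (0 : Matrix (VV r N) (VV r N) ℝ) 0 := fun Z => by
  rw [zero_mul, zero_mul, phi_zero]

theorem Rl.add {A A' : Matrix (VV r N) (VV r N) ℝ} {B B' : Matrix (Fin N) (Fin N) ℝ}
    (h : Rl y A B) (h' : Rl y A' B') : Rl y (A + A') (B + B') := fun Z => by
  rw [add_mul, add_mul, phi_add, h, h']

theorem Rl.smul {A : Matrix (VV r N) (VV r N) ℝ} {B : Matrix (Fin N) (Fin N) ℝ}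
    (c : ℝ) (h : Rl y A B) : Rl y (c • A) (c • B) := fun Z => by
  rw [smul_mul_assoc, smul_mul_assoc, phi_smul, h]

theorem Rl.qsmul {A : Matrix (VV r N) (VV r N) ℝ} {B : Matrix (Fin N) (Fin N) ℝ}
    (c : ℚ) (h : Rl y A B) : Rl y (c • A) (c • B) := by
  rw [← Rat.cast_smul_eq_qsmul ℝ c A, ← Rat.cast_smul_eq_qsmul ℝ c B]
  exact h.smul _

theorem Rl.mul {A A' : Matrix (VV r N) (VV r N) ℝ} {B B' : Matrix (Fin N) (Fin N) ℝ}
    (h : Rl y A B) (h' : Rl y A' B') : Rl y (A * A') (B * B') := fun Z => by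
  rw [mul_assoc, mul_assoc, h, h']

theorem Rl.pow {A : Matrix (VV r N) (VV r N) ℝ} {B : Matrix (Fin N) (Fin N) ℝ}
    (h : Rl y A B) (k : ℕ) : Rl y (A ^ k) (B ^ k) := by
  induction k with
  | zero => rw [pow_zero, pow_zero]; exact Rl.one
  | succ k ih => rw [pow_succ, pow_succ]; exact ih.mul h

theorem Rl.sum {ι : Type} (s : Finset ι) {A : ι → Matrix (VV r N) (VV r N) ℝ}
    {B : ι → Matrix (Fin N) (Fin N) ℝ} (h : ∀ i, Rl y (A i) (B i)) :
    Rl y (∑ i ∈ s, A i) (∑ i ∈ s, B i) := by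
  classical
  induction s using Finset.induction_on with
  | empty => rw [Finset.sum_empty, Finset.sum_empty]; exact Rl.zero
  | insert a s ha ih => rw [Finset.sum_insert ha, Finset.sum_insert ha]; exact (h a).add ih

theorem Rl.exp {A : Matrix (VV r N) (VV r N) ℝ} {B : Matrix (Fin N) (Fin N) ℝ}
    (h : Rl y A B) (hA : IsNilpotent A) (hB : IsNilpotent B) :
    Rl y (IsNilpotent.exp A) (IsNilpotent.exp B) := by
  obtain ⟨a, ha⟩ := hA
  obtain ⟨b, hb⟩ := hB
  have ha' : A ^ (a + b) = 0 := by rw [pow_add, ha, zero_mul]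
  have hb' : B ^ (a + b) = 0 := by rw [pow_add, hb, mul_zero]
  rw [IsNilpotent.exp_eq_sum ha', IsNilpotent.exp_eq_sum hb']
  exact Rl.sum _ fun i => (h.pow i).qsmul _

theorem list_prod_mem (hy : ∀ i, y i ∈ (matFiltR N).F 1) (l : List (Fin r)) (hl : l ≠ []) :
    (l.map y).prod ∈ (matFiltR N).F l.length := by
  induction l with
  | nil => exact absurd rfl hl
  | cons a l ih =>
    by_cases h : l = []
    · subst h
      simpa using hy a
    · rw [List.map_cons, List.prod_cons, List.length_cons, add_comm]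
      exact (matFiltR N).mul (hy a) (ih h)

theorem Rl.gen (hy : ∀ i, y i ∈ (matFiltR N).F 1) (i : Fin r) : Rl y (xr r N i) (y i) := by
  intro Z
  unfold phi
  rw [Finset.mul_sum]
  have h1 : ∀ v : VV r N, (xr r N i * Z) v (ee r N) • wy y v =
      ∑ w : VV r N, (xr r N i v w * Z w (ee r N)) • wy y v := by
    intro v
    rw [Matrix.mul_apply, Finset.sum_smul]
  rw [Finset.sum_congr rfl fun v _ => h1 v, Finset.sum_comm]
  refine Finset.sum_congr rfl fun w _ => ?_
  rw [mul_smul_comm]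
  by_cases hw : w.1.length < N
  · rw [Finset.sum_eq_single (⟨i :: w.1, by rw [List.length_cons]; omega⟩ : VV r N)]
    · rw [xr_apply, if_pos rfl, one_mul]
      congr 1
    · intro v _ hv
      rw [xr_apply, if_neg, zero_mul, zero_smul]
      intro h
      exact hv (Subtype.ext h)
    · intro h
      exact absurd (Finset.mem_univ _) h
  · have h2 : y i * wy y w = 0 := by
      have h3 := list_prod_mem hy (i :: w.1) (by simp)
      rw [List.map_cons, List.prod_cons, List.length_cons] at h3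
      exact (matFiltR N).eq_zero_of_le (by omega) h3
    rw [h2, smul_zero]
    refine Finset.sum_eq_zero fun v _ => ?_
    rw [xr_apply, if_neg, zero_mul, zero_smul]
    intro h
    have := v.2
    rw [h, List.length_cons] at this
    omega

theorem Rl.rep (hy : ∀ i, y i ∈ (matFiltR N).F 1) (γ : Fin r → (Matrix (Fin N) (Fin N) ℝ)ˣ)
    (hγ : ∀ i, ((γ i : (Matrix (Fin N) (Fin N) ℝ)ˣ) : Matrix (Fin N) (Fin N) ℝ) =
      IsNilpotent.exp (y i)) (g : FreeGroup (Fin r)) :
    Rl y ((expRep (xi r N) xi_hom g).map (fun q : ℚ => (q : ℝ)))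
      ((FreeGroup.lift γ g : (Matrix (Fin N) (Fin N) ℝ)ˣ) : Matrix (Fin N) (Fin N) ℝ) := by
  have hmap : ∀ M : Matrix (VV r N) (VV r N) ℚ, M.map (fun q : ℚ => (q : ℝ)) =
      (Rat.castHom ℝ).mapMatrix M := fun _ => rfl
  have hexp : ∀ M : Matrix (VV r N) (VV r N) ℚ, IsNilpotent M →
      (Rat.castHom ℝ).mapMatrix (IsNilpotent.exp M) =
        IsNilpotent.exp ((Rat.castHom ℝ).mapMatrix M) := fun M hM => hM.map_exp _
  induction g using FreeGroup.induction_on with
  | C1 =>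
    rw [map_one, map_one, hmap, map_one]
    exact Rl.one
  | of i =>
    have e1 : expRep (xi r N) xi_hom (FreeGroup.of i) = IsNilpotent.exp (xi r N i) := by
      unfold expRep
      rw [MonoidHom.comp_apply, FreeGroup.lift_apply_of]
      rfl
    rw [e1, FreeGroup.lift_apply_of, hγ, hmap, hexp _ (xi_hom i).isNilpotent]
    exact (Rl.gen hy i).exp (xr_hom i).isNilpotent ((matFiltR N).nilp (hy i))
  | inv_of i _ =>
    have e1 : expRep (xi r N) xi_hom (FreeGroup.of i)⁻¹ = IsNilpotent.exp (-(xi r N i)) := by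
      unfold expRep
      rw [MonoidHom.comp_apply, map_inv, FreeGroup.lift_apply_of]
      rfl
    have e2 : (((FreeGroup.lift γ (FreeGroup.of i)⁻¹ : (Matrix (Fin N) (Fin N) ℝ)ˣ)) :
        Matrix (Fin N) (Fin N) ℝ) = IsNilpotent.exp (-(y i)) := by
      rw [map_inv, FreeGroup.lift_apply_of]
      have h1 := IsNilpotent.exp_mul_exp_neg_self ((matFiltR N).nilp (hy i))
      rw [← hγ] at h1
      calc (((γ i)⁻¹ : (Matrix (Fin N) (Fin N) ℝ)ˣ) : Matrix (Fin N) (Fin N) ℝ)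
          = (((γ i)⁻¹ : (Matrix (Fin N) (Fin N) ℝ)ˣ) : Matrix (Fin N) (Fin N) ℝ) *
            ((γ i : Matrix (Fin N) (Fin N) ℝ) * IsNilpotent.exp (-(y i))) := by
              rw [h1, mul_one]
        _ = IsNilpotent.exp (-(y i)) := by
              rw [← mul_assoc, ← Units.val_mul, inv_mul_cancel, Units.val_one, one_mul]
    have hn : IsNilpotent (-(xi r N i)) := (xi_hom i).isNilpotent.neg
    rw [e1, e2, hmap, hexp _ hn, map_neg]
    have h3 : Rl y (-(xr r N i)) (-(y i)) := by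
      have := (Rl.gen hy i).smul (-1)
      rwa [neg_one_smul, neg_one_smul] at this
    exact h3.exp (xr_hom i).isNilpotent.neg ((matFiltR N).nilp (hy i)).neg
  | mul g h hg hh =>
    rw [map_mul, map_mul, hmap, map_mul, Units.val_mul]
    exact hg.mul hh

/-- conjugation of exponentials -/
theorem conj_exp {V : Type} [Fintype V] [DecidableEq V] {D a b : Matrix V V ℝ}
    (h : D * a = b * D) (ha : IsNilpotent a) (hb : IsNilpotent b) :
    D * IsNilpotent.exp a = IsNilpotent.exp b * D := by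
  obtain ⟨k, hk⟩ := ha
  obtain ⟨l, hl⟩ := hb
  have hk' : a ^ (k + l) = 0 := by rw [pow_add, hk, zero_mul]
  have hl' : b ^ (k + l) = 0 := by rw [pow_add, hl, mul_zero]
  have hp : ∀ i, D * a ^ i = b ^ i * D := by
    intro i
    induction i with
    | zero => rw [pow_zero, pow_zero, mul_one, one_mul]
    | succ i ih => rw [pow_succ, ← mul_assoc, ih, mul_assoc, h, ← mul_assoc, ← pow_succ]
  rw [IsNilpotent.exp_eq_sum hk', IsNilpotent.exp_eq_sum hl', Finset.mul_sum, Finset.sum_mul]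
  refine Finset.sum_congr rfl fun i _ => ?_
  rw [mul_smul_comm, smul_mul_assoc, hp]

end J1002

open J1002 J887 in
theorem nil_core (S : Set ℕ)
    (hmain : ∀ (V : Type) [Fintype V] [DecidableEq V] (deg : V → ℕ) (X : Matrix V V ℝ),
      Hom1 deg X → ∀ ε : ℝ, 0 < ε → ∃ s ∈ S, ∃ γ : Matrix V V ℝ, Uni deg γ ∧ IntM γ ∧
        ∀ v w, |(IsNilpotent.exp ((s : ℝ) • X) * γ) v w - (1 : Matrix V V ℝ) v w| < ε)
    (hdil : ∀ (V : Type) [Fintype V] [DecidableEq V] (deg : V → ℕ) (r : ℕ)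
      (ξ : Fin r → Matrix V V ℚ) (hξ : ∀ i, Hom1 deg (ξ i)),
      ∃ M : ℕ, 0 < M ∧ ∃ ε : ℝ, 0 < ε ∧ ∀ (t : Fin r → ℝ) (γ : Matrix V V ℝ), Uni deg γ → IntM γ →
        (∀ v w, |(IsNilpotent.exp (∑ i, t i • (ξ i).map (fun q : ℚ => (q : ℝ))) * γ) v w -
          (1 : Matrix V V ℝ) v w| < ε) →
        ∃ g : FreeGroup (Fin r), ∀ v w,
          (M : ℝ) ^ (deg v) * γ v w = ((expRep ξ hξ g v w : ℚ) : ℝ) * (M : ℝ) ^ (deg w))
    {N : ℕ} (G Γ : Subgroup (Matrix (Fin N) (Fin N) ℝ)ˣ) (hΓ : Γ ≤ G)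
    (hG : ∀ g ∈ G, UT (g : Matrix (Fin N) (Fin N) ℝ)) (C : ℝ)
    (hC : ∀ g ∈ G, ∃ γ ∈ Γ, ∀ i j, |((g * γ : (Matrix (Fin N) (Fin N) ℝ)ˣ) :
      Matrix (Fin N) (Fin N) ℝ) i j| ≤ C)
    (g : (Matrix (Fin N) (Fin N) ℝ)ˣ) (hg : g ∈ G) (ε : ℝ) (hε : 0 < ε) :
    ∃ s ∈ S, ∃ γ ∈ Γ, ∀ i j, |((g ^ s * γ : (Matrix (Fin N) (Fin N) ℝ)ˣ) :
      Matrix (Fin N) (Fin N) ℝ) i j - (1 : Matrix (Fin N) (Fin N) ℝ) i j| < ε := by
  -- logarithms
  have hlog : ∀ g ∈ G, ∃ x ∈ (matFiltR N).F 1, IsNilpotent.exp x =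
      (g : Matrix (Fin N) (Fin N) ℝ) := by
    intro g hg
    apply (matFiltR N).exp_surj
    intro i j hij
    obtain ⟨h1, h2⟩ := hG g hg
    rcases Nat.lt_or_ge (j : ℕ) (i : ℕ) with h | h
    · rw [Matrix.sub_apply, h2 i j h, Matrix.one_apply_ne (by
        intro h3; rw [h3] at h; exact lt_irrefl _ h), sub_zero]
    · have h3 : i = j := Fin.ext (by omega)
      rw [← h3, Matrix.sub_apply, h1, Matrix.one_apply_eq, sub_self]
  obtain ⟨x0, hx0, hgx⟩ := hlog g hg
  have hpow : ∀ n : ℕ, IsNilpotent.exp ((n : ℝ) • x0) =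
      (((g ^ n : (Matrix (Fin N) (Fin N) ℝ)ˣ)) : Matrix (Fin N) (Fin N) ℝ) := by
    intro n
    rw [Nat.cast_smul_eq_nsmul, exp_nsmul hx0 n, hgx, Units.val_pow_eq_pow_val]
  have hspan := log_mem_span Γ (fun γ hγ => by
    obtain ⟨x, hx, h⟩ := hlog γ (hΓ hγ)
    exact ⟨x, sup_iff.2 hx, h.symm⟩) x0 (sup_iff.2 hx0) C (fun n => by
    obtain ⟨γ, hγ, h⟩ := hC (g ^ n) (G.pow_mem hg n)
    refine ⟨γ, hγ, fun i j => ?_⟩
    rw [hpow n, ← Units.val_mul]
    exact h i j)
  rw [Submodule.mem_span_set'] at hspan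
  obtain ⟨r, t, yy, hsum⟩ := hspan
  choose hyS gam hgam hgamy using fun i => (yy i).2
  set y : Fin r → Matrix (Fin N) (Fin N) ℝ := fun i => (yy i : Matrix (Fin N) (Fin N) ℝ) with hydef
  have hy : ∀ i, y i ∈ (matFiltR N).F 1 := fun i => sup_iff.1 (hyS i)
  -- the constants
  obtain ⟨M, hM, ε1, hε1, hdil'⟩ := hdil (VV r N) dg r (xi r N) xi_hom
  set B : ℝ := 1 + ∑ v : VV r N, ∑ i, ∑ j, |wy y v i j| with hB
  have hB0 : 0 < B := by positivity
  have hM0 : (0 : ℝ) < M := by exact_mod_cast hM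
  have hM1 : (1 : ℝ) ≤ M := by exact_mod_cast hM
  set ε3 : ℝ := ε / (2 * B) with hε3
  have hε30 : 0 < ε3 := by positivity
  set ε2 : ℝ := min ε1 (ε3 / (M : ℝ) ^ N) with hε2
  have hε20 : 0 < ε2 := lt_min hε1 (by positivity)
  set X : Matrix (VV r N) (VV r N) ℝ := ∑ i, (t i / M) • xr r N i with hX
  have hXh : Hom1 (dg (r := r) (N := N)) X := Hom1_sum _ _ fun i => Hom1_smul _ _ (xr_hom i)
  obtain ⟨s, hs, γ, hγU, hγI, hclose⟩ := hmain (VV r N) dg X hXh ε2 hε20
  obtain ⟨g', hg'⟩ := hdil' (fun i => s * (t i / M)) γ hγU hγI (fun v w => by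
    have e : (∑ i, ((s : ℝ) * (t i / M)) • (xi r N i).map (fun q : ℚ => (q : ℝ))) =
        (s : ℝ) • X := by
      rw [hX, Finset.smul_sum]
      exact Finset.sum_congr rfl fun i _ => by rw [smul_smul]; rfl
    rw [e]
    exact (hclose v w).trans_le (min_le_left _ _))
  set E : Matrix (VV r N) (VV r N) ℝ :=
    (expRep (xi r N) xi_hom g').map (fun q : ℚ => (q : ℝ)) with hE
  -- conjugation with the dilation
  set Dg : Matrix (VV r N) (VV r N) ℝ := Matrix.diagonal fun v => (M : ℝ) ^ (dg v) with hDg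
  set Y : Matrix (VV r N) (VV r N) ℝ := (s : ℝ) • ((M : ℝ) • X) with hY
  have hMX : Hom1 (dg (r := r) (N := N)) Y := Hom1_smul _ _ (Hom1_smul _ _ hXh)
  have hsX : Hom1 (dg (r := r) (N := N)) ((s : ℝ) • X) := Hom1_smul _ _ hXh
  have hc1 : Dg * ((s : ℝ) • X) = Y * Dg := by
    ext v w
    rw [hDg, Matrix.diagonal_mul, Matrix.mul_diagonal, hY, Matrix.smul_apply, Matrix.smul_apply,
      Matrix.smul_apply]
    by_cases h0 : X v w = 0
    · rw [h0]; simp
    · rw [hXh v w h0, pow_succ]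
      simp only [smul_eq_mul]
      ring
  have hc2 := conj_exp hc1 hsX.isNilpotent hMX.isNilpotent
  have hc3 : Dg * γ = E * Dg := by
    ext v w
    rw [hDg, Matrix.diagonal_mul, Matrix.mul_diagonal, hg' v w]
    rfl
  have hc4 : Dg * (IsNilpotent.exp ((s : ℝ) • X) * γ) = (IsNilpotent.exp Y * E) * Dg := by
    rw [← mul_assoc, hc2, mul_assoc, hc3, ← mul_assoc]
  have hent : ∀ v, |(IsNilpotent.exp Y * E) v (ee r N) -
      (1 : Matrix (VV r N) (VV r N) ℝ) v (ee r N)| ≤ ε3 := by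
    intro v
    have h1 := congrFun (congrFun hc4 v) (ee r N)
    rw [hDg, Matrix.diagonal_mul, Matrix.mul_diagonal] at h1
    have h2 : dg (ee r N) = 0 := rfl
    rw [h2, pow_zero, mul_one] at h1
    have h3 : (1 : Matrix (VV r N) (VV r N) ℝ) v (ee r N) =
        (M : ℝ) ^ (dg v) * (1 : Matrix (VV r N) (VV r N) ℝ) v (ee r N) := by
      by_cases h4 : v = ee r N
      · rw [h4, h2, pow_zero, one_mul]
      · rw [Matrix.one_apply_ne h4, mul_zero]
    rw [← h1, h3, ← mul_sub, abs_mul, abs_of_pos (by positivity)]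
    have h5 := hclose v (ee r N)
    have h6 : (M : ℝ) ^ (dg v) ≤ (M : ℝ) ^ N := pow_le_pow_right₀ hM1 v.2
    calc (M : ℝ) ^ (dg v) * |(IsNilpotent.exp ((s : ℝ) • X) * γ) v (ee r N) -
          (1 : Matrix (VV r N) (VV r N) ℝ) v (ee r N)| ≤ (M : ℝ) ^ N * ε2 := by gcongr
      _ ≤ (M : ℝ) ^ N * (ε3 / (M : ℝ) ^ N) := by
          gcongr
          exact min_le_right _ _
      _ = ε3 := by field_simp
  -- representation
  have hRX : Rl y Y ((s : ℝ) • x0) := by
    rw [hY]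
    refine Rl.smul _ ?_
    have e1 : (M : ℝ) • X = ∑ i, t i • xr r N i := by
      rw [hX, Finset.smul_sum]
      refine Finset.sum_congr rfl fun i _ => ?_
      rw [smul_smul]
      congr 1
      field_simp
    rw [e1, ← hsum]
    exact Rl.sum _ fun i => (Rl.gen hy i).smul _
  have hsx0 : (s : ℝ) • x0 ∈ (matFiltR N).F 1 := (FR N 1).smul_mem _ hx0
  have hR1 := hRX.exp hMX.isNilpotent ((matFiltR N).nilp hsx0)
  have hR2 := Rl.rep hy gam hgamy g'
  rw [← hE] at hR2
  have hR3 := hR1.mul hR2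
  refine ⟨s, hs, FreeGroup.lift gam g', ?_, fun i j => ?_⟩
  · have : (FreeGroup.lift gam).range ≤ Γ := by
      refine FreeGroup.range_lift_le ?_
      rintro _ ⟨i, rfl⟩
      exact hgam i
    exact this ⟨g', rfl⟩
  · have h1 : (((g ^ s * FreeGroup.lift gam g' : (Matrix (Fin N) (Fin N) ℝ)ˣ)) :
        Matrix (Fin N) (Fin N) ℝ) - 1 = phi y (IsNilpotent.exp Y * E - 1) := by
      rw [phi_sub, phi_one]
      have h2 := hR3 1
      rw [mul_one, phi_one, mul_one, hpow s] at h2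
      rw [h2, Units.val_mul]
    rw [← Matrix.sub_apply, h1]
    unfold phi
    rw [Matrix.sum_apply]
    calc |∑ v : VV r N, ((IsNilpotent.exp Y * E - 1) v (ee r N) • wy y v) i j|
        ≤ ∑ v : VV r N, |((IsNilpotent.exp Y * E - 1) v (ee r N) • wy y v) i j| :=
          Finset.abs_sum_le_sum_abs _ _
      _ ≤ ∑ v : VV r N, ε3 * ∑ i, ∑ j, |wy y v i j| := by
          refine Finset.sum_le_sum fun v _ => ?_
          rw [Matrix.smul_apply, smul_eq_mul, abs_mul]
          have h3 : |wy y v i j| ≤ ∑ i, ∑ j, |wy y v i j| :=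
            (Finset.single_le_sum (f := fun j => |wy y v i j|) (fun _ _ => abs_nonneg _)
              (Finset.mem_univ j)).trans
            (Finset.single_le_sum (f := fun i => ∑ j, |wy y v i j|)
              (fun _ _ => Finset.sum_nonneg fun _ _ => abs_nonneg _) (Finset.mem_univ i))
          have h4 := hent v
          rw [← Matrix.sub_apply] at h4
          gcongr
      _ = ε3 * ∑ v : VV r N, ∑ i, ∑ j, |wy y v i j| := by rw [Finset.mul_sum]
      _ ≤ ε3 * B := by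
          gcongr
          rw [hB]; linarith
      _ = ε / 2 := by rw [hε3]; field_simp
      _ < ε := by linarith

end Pool.Agent.TH91.NB
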