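import Pool.Agent.TH981.LO.Defs

set_option autoImplicit false
set_option linter.unusedSectionVars false

open scoped BigOperators symmDiff

namespace Pool.Agent.TH981.LO.MG

variable {V E : Type} [DecidableEq V] [DecidableEq E] (G : MG V E)

namespace J339

theorem addself (f : V → ZMod 2) : f + f = 0 := by
  funext v
  exact CharTwo.add_self_eq_zero (f v)

theorem bdE : G.bd ∅ = 0 := by simp [bd]

theorem bdS (e : E) : G.bd {e} = G.inc e := by simp [bd]

theorem bdU {η ξ : Finset E} (h : Disjoint η ξ) : G.bd (η ∪ ξ) = G.bd η + G.bd ξ := by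
  simp only [bd]
  exact Finset.sum_union h

theorem bdD (η ξ : Finset E) : G.bd (η ∆ ξ) = G.bd η + G.bd ξ := by
  have h1 : G.bd η = G.bd (η \ ξ) + G.bd (η ∩ ξ) := by
    rw [← bdU G (Finset.disjoint_sdiff_inter η ξ), Finset.sdiff_union_inter]
  have h2 : G.bd ξ = G.bd (ξ \ η) + G.bd (η ∩ ξ) := by
    rw [Finset.inter_comm, ← bdU G (Finset.disjoint_sdiff_inter ξ η), Finset.sdiff_union_inter]
  have h3 : G.bd (η ∆ ξ) = G.bd (η \ ξ) + G.bd (ξ \ η) := by
    rw [← bdU G]
    · rfl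
    · exact disjoint_sdiff_sdiff
  rw [h1, h2, h3]
  have := addself (G.bd (η ∩ ξ))
  calc G.bd (η \ ξ) + G.bd (ξ \ η) = G.bd (η \ ξ) + G.bd (ξ \ η) + (G.bd (η ∩ ξ) + G.bd (η ∩ ξ)) := by
        rw [this, add_zero]
    _ = _ := by abel

theorem two_self (a : V) : two a a = 0 := addself _

theorem two_comm (a b : V) : two a b = two b a := add_comm _ _

theorem two_add (a b c : V) : two a b + two b c = two a c := by
  unfold two
  calc Pi.single a 1 + Pi.single b 1 + (Pi.single b 1 + Pi.single c 1)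
      = Pi.single a 1 + ((Pi.single b 1 + Pi.single b 1) + Pi.single c 1) := by abel
    _ = _ := by rw [addself, zero_add]

theorem bwnn {w : E → ℝ} {F ω : Finset E} (hω : ω ⊆ F) (hw0 : ∀ e ∈ F, 0 ≤ w e)
    (hw1 : ∀ e ∈ F, w e ≤ 1) : 0 ≤ bw w F ω := by
  unfold bw
  refine mul_nonneg (Finset.prod_nonneg fun e he => hw0 e (hω he)) ?_
  refine Finset.prod_nonneg fun e he => ?_
  have := hw1 e (Finset.mem_sdiff.1 he).1
  linarith

theorem Lnn {w : E → ℝ} {F : Finset E} (A : V → ZMod 2) (hw : ∀ e ∈ F, 0 ≤ w e) :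
    0 ≤ G.Z w F A := by
  classical
  unfold Z L
  refine Finset.sum_nonneg fun η hη => ?_
  rw [Finset.mem_filter, Finset.mem_powerset] at hη
  rw [mul_one]
  exact Finset.prod_nonneg fun e he => hw e (hη.1 he)

theorem oneZ {w : E → ℝ} {F : Finset E} (hw : ∀ e ∈ F, 0 ≤ w e) : 1 ≤ G.Z w F 0 := by
  classical
  unfold Z L
  have h0 : (∅ : Finset E) ∈ F.powerset.filter (fun η => G.bd η = 0) := by
    rw [Finset.mem_filter]
    exact ⟨Finset.empty_mem_powerset F, bdE G⟩
  have h1 := Finset.single_le_sum (s := F.powerset.filter (fun η => G.bd η = 0))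
    (f := fun η => (∏ e ∈ η, w e) * 1) (fun η hη => by
      rw [Finset.mem_filter, Finset.mem_powerset] at hη
      rw [mul_one]
      exact Finset.prod_nonneg fun e he => hw e (hη.1 he)) h0
  simpa using h1

end J339

open J339

theorem PS_congr {w w' : E → ℝ} {F : Finset E} (A : V → ZMod 2) {g g' : Finset E → Finset E → ℝ}
    (hw : ∀ e ∈ F, w e = w' e) (hg : ∀ ω ⊆ F, ∀ η ⊆ ω, G.bd η = A → g ω η = g' ω η) :
    G.PS w F A g = G.PS w' F A g' := by
  classical
  unfold PS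
  refine Finset.sum_congr rfl fun ω hω => ?_
  rw [Finset.mem_powerset] at hω
  congr 1
  · unfold bw
    congr 1
    · exact Finset.prod_congr rfl fun e he => hw e (hω he)
    · exact Finset.prod_congr rfl fun e he => by rw [hw e (Finset.mem_sdiff.1 he).1]
  · refine Finset.sum_congr rfl fun η hη => ?_
    rw [Finset.mem_filter, Finset.mem_powerset] at hη
    exact hg ω hω η hη.1 hη.2

theorem PS_mono {w : E → ℝ} {F : Finset E} (A : V → ZMod 2) {g g' : Finset E → Finset E → ℝ}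
    (hw0 : ∀ e ∈ F, 0 ≤ w e) (hw1 : ∀ e ∈ F, w e ≤ 1)
    (hg : ∀ ω ⊆ F, ∀ η ⊆ ω, G.bd η = A → g ω η ≤ g' ω η) :
    G.PS w F A g ≤ G.PS w F A g' := by
  classical
  unfold PS
  refine Finset.sum_le_sum fun ω hω => ?_
  rw [Finset.mem_powerset] at hω
  refine mul_le_mul_of_nonneg_left ?_ (bwnn hω hw0 hw1)
  refine Finset.sum_le_sum fun η hη => ?_
  rw [Finset.mem_filter, Finset.mem_powerset] at hη
  exact hg ω hω η hη.1 hη.2

theorem PS_add (w : E → ℝ) (F : Finset E) (A : V → ZMod 2) (g g' : Finset E → Finset E → ℝ) :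
    G.PS w F A (fun ω η => g ω η + g' ω η) = G.PS w F A g + G.PS w F A g' := by
  unfold PS
  rw [← Finset.sum_add_distrib]
  refine Finset.sum_congr rfl fun ω _ => ?_
  rw [Finset.sum_add_distrib, mul_add]

theorem PS_smul (w : E → ℝ) (F : Finset E) (A : V → ZMod 2) (c : ℝ)
    (g : Finset E → Finset E → ℝ) :
    G.PS w F A (fun ω η => c * g ω η) = c * G.PS w F A g := by
  unfold PS
  rw [Finset.mul_sum]
  refine Finset.sum_congr rfl fun ω _ => ?_
  rw [← Finset.mul_sum, mul_left_comm]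

/-- sum of the Bernoulli weights over the supersets of `η` -/
theorem sum_bw_superset (w : E → ℝ) {F η : Finset E} (h : η ⊆ F) :
    ∑ ω ∈ F.powerset with η ⊆ ω, bw w F ω = ∏ e ∈ η, w e := by
  have h1 : ∑ ω ∈ F.powerset with η ⊆ ω, bw w F ω
      = ∑ ζ ∈ (F \ η).powerset, (∏ e ∈ η, w e) * ((∏ e ∈ ζ, w e) *
        ∏ e ∈ (F \ η) \ ζ, (1 - w e)) := by
    refine Finset.sum_nbij' (fun ω => ω \ η) (fun ζ => η ∪ ζ) ?_ ?_ ?_ ?_ ?_
    · intro ω hω
      rw [Finset.mem_filter, Finset.mem_powerset] at hω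
      rw [Finset.mem_powerset]
      exact Finset.sdiff_subset_sdiff hω.1 le_rfl
    · intro ζ hζ
      rw [Finset.mem_powerset] at hζ
      rw [Finset.mem_filter, Finset.mem_powerset]
      exact ⟨Finset.union_subset h (hζ.trans Finset.sdiff_subset), Finset.subset_union_left⟩
    · intro ω hω
      rw [Finset.mem_filter, Finset.mem_powerset] at hω
      exact Finset.union_sdiff_of_subset hω.2
    · intro ζ hζ
      rw [Finset.mem_powerset] at hζ
      show (η ∪ ζ) \ η = ζ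
      rw [Finset.union_sdiff_left]
      exact Finset.sdiff_eq_self_of_disjoint
        ((Finset.disjoint_of_subset_left hζ Finset.sdiff_disjoint))
    · intro ω hω
      rw [Finset.mem_filter, Finset.mem_powerset] at hω
      have h2 : (F \ η) \ (ω \ η) = F \ ω := by
        ext e
        simp only [Finset.mem_sdiff]
        have := @hω.2 e
        tauto
      rw [h2, ← mul_assoc, ← Finset.prod_union Finset.disjoint_sdiff,
        Finset.union_sdiff_of_subset hω.2]
      rfl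
  rw [h1, ← Finset.mul_sum, ← Finset.prod_add]
  simp

/-- A1: the η-marginal of the pair measure is the loop O(1) model -/
theorem PS_eta (w : E → ℝ) (F : Finset E) (A : V → ZMod 2) (f : Finset E → ℝ) :
    G.PS w F A (fun _ η => f η) = G.L w F A f := by
  classical
  unfold PS L
  simp_rw [Finset.mul_sum]
  rw [Finset.sum_comm' (t' := F.powerset.filter (fun η => G.bd η = A))
    (s' := fun η => F.powerset.filter (fun ω => η ⊆ ω))]
  · refine Finset.sum_congr rfl fun η hη => ?_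
    rw [Finset.mem_filter, Finset.mem_powerset] at hη
    rw [← Finset.sum_mul, sum_bw_superset w hη.1]
  · intro ω η
    simp only [Finset.mem_filter, Finset.mem_powerset]
    constructor
    · rintro ⟨h1, h2, h3⟩
      exact ⟨⟨h1, h2⟩, h2.trans h1, h3⟩
    · rintro ⟨⟨h1, h2⟩, h3, h4⟩
      exact ⟨h1, h2, h4⟩

open Classical in
/-- A2: the number of `η ⊆ ω` with `bd η = A` is zero or equals the number of even ones -/
theorem PS_omega (w : E → ℝ) (F : Finset E) (A : V → ZMod 2) (g : Finset E → ℝ) :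
    G.PS w F A (fun ω _ => g ω) = G.PS w F 0 (fun ω _ => if G.fe ω A then g ω else 0) := by
  unfold PS
  refine Finset.sum_congr rfl fun ω _ => ?_
  congr 1
  by_cases h : G.fe ω A
  · simp only [if_pos h]
    obtain ⟨η0, h0, h0'⟩ := h
    have hsub : ∀ η : Finset E, η ⊆ ω → η ∆ η0 ⊆ ω := by
      intro η hη e he
      rw [Finset.mem_symmDiff] at he
      rcases he with he | he
      · exact hη he.1
      · exact h0 he.1
    refine Finset.sum_nbij' (fun η => η ∆ η0) (fun η => η ∆ η0) ?_ ?_ ?_ ?_ ?_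
    · intro η hη
      rw [Finset.mem_filter, Finset.mem_powerset] at hη ⊢
      refine ⟨hsub η hη.1, ?_⟩
      rw [bdD, hη.2, h0', addself]
    · intro η hη
      rw [Finset.mem_filter, Finset.mem_powerset] at hη ⊢
      refine ⟨hsub η hη.1, ?_⟩
      rw [bdD, hη.2, h0', zero_add]
    · intro η _
      exact symmDiff_symmDiff_cancel_right _ _
    · intro η _
      exact symmDiff_symmDiff_cancel_right _ _
    · intro η _
      rfl
  · simp only [if_neg h, Finset.sum_const_zero]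
    refine Finset.sum_eq_zero fun η hη => ?_
    rw [Finset.mem_filter, Finset.mem_powerset] at hη
    exact absurd ⟨η, hη.1, hη.2⟩ h

theorem corr_eq_fkp (w : E → ℝ) (F : Finset E) (A : V → ZMod 2) :
    G.corr w F A = G.fkp w F (fun ω => G.fe ω A) := by
  classical
  unfold corr fkp
  have h1 : G.Z w F A = G.PS w F A (fun _ _ => 1) := (PS_eta G w F A fun _ => 1).symm
  rw [h1, PS_omega]

namespace J339

theorem s_iff {ω : Finset E} {a : V} {e : E} (he : e ∈ ω) :
    G.Cn ω a (G.s e) ↔ G.Cn ω a (G.t e) := by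
  constructor
  · intro h
    exact h.tail ⟨e, he, Or.inl ⟨rfl, rfl⟩⟩
  · intro h
    exact h.tail ⟨e, he, Or.inr ⟨rfl, rfl⟩⟩

end J339

/-- A6 -/
theorem fe_two_iff {ω : Finset E} {a b : V} : G.fe ω (two a b) ↔ G.Cn ω a b := by
  classical
  constructor
  · rintro ⟨η, hη, hb⟩
    by_contra hn
    set W : Finset V := ((insert a (ω.image G.s ∪ ω.image G.t)).filter (fun v => G.Cn ω a v))
      with hW
    have hmemS : ∀ e ∈ ω, (G.s e ∈ W ↔ G.Cn ω a (G.s e)) := by
      intro e he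
      rw [hW, Finset.mem_filter]
      refine ⟨fun h => h.2, fun h => ⟨?_, h⟩⟩
      exact Finset.mem_insert_of_mem (Finset.mem_union_left _ (Finset.mem_image_of_mem _ he))
    have hmemT : ∀ e ∈ ω, (G.t e ∈ W ↔ G.Cn ω a (G.t e)) := by
      intro e he
      rw [hW, Finset.mem_filter]
      refine ⟨fun h => h.2, fun h => ⟨?_, h⟩⟩
      exact Finset.mem_insert_of_mem (Finset.mem_union_right _ (Finset.mem_image_of_mem _ he))
    have hst : ∀ e ∈ ω, (G.s e ∈ W ↔ G.t e ∈ W) := by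
      intro e he
      rw [hmemS e he, hmemT e he]
      exact s_iff G he
    have hsum : ∀ u v : V, ∑ x ∈ W, two u v x = (if u ∈ W then 1 else 0) + (if v ∈ W then 1 else 0)
        := by
      intro u v
      unfold two
      simp only [Pi.add_apply, Finset.sum_add_distrib, Pi.single_apply, Finset.sum_ite_eq']
    have h1 : ∑ x ∈ W, G.bd η x = 0 := by
      unfold bd
      simp only [Finset.sum_apply]
      rw [Finset.sum_comm]
      refine Finset.sum_eq_zero fun e he => ?_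
      unfold inc
      rw [hsum]
      by_cases hs : G.s e ∈ W
      · rw [if_pos hs, if_pos ((hst e (hη he)).1 hs)]
        exact CharTwo.add_self_eq_zero 1
      · rw [if_neg hs, if_neg (fun h => hs ((hst e (hη he)).2 h)), add_zero]
    rw [hb, hsum, if_pos, if_neg] at h1
    · simp at h1
    · intro hbW
      rw [hW, Finset.mem_filter] at hbW
      exact hn hbW.2
    · rw [hW, Finset.mem_filter]
      exact ⟨Finset.mem_insert_self _ _, Relation.ReflTransGen.refl⟩
  · intro h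
    induction h with
    | refl => exact ⟨∅, Finset.empty_subset _, by rw [bdE, two_self]⟩
    | tail _ hbc ih =>
      obtain ⟨η, hη, hb⟩ := ih
      obtain ⟨e, he, hbc⟩ := hbc
      refine ⟨η ∆ {e}, ?_, ?_⟩
      · intro x hx
        rw [Finset.mem_symmDiff] at hx
        rcases hx with hx | hx
        · exact hη hx.1
        · rw [Finset.mem_singleton] at hx
          rw [hx.1]
          exact he
      · rw [bdD, hb, bdS, inc]
        rcases hbc with ⟨h1, h2⟩ | ⟨h1, h2⟩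
        · rw [h1, h2, two_add]
        · rw [← h1, ← h2, two_comm (G.s e) (G.t e), two_add]

theorem fkp_nonneg {w : E → ℝ} {F : Finset E} (P : Finset E → Prop)
    (hw0 : ∀ e ∈ F, 0 ≤ w e) (hw1 : ∀ e ∈ F, w e ≤ 1) : 0 ≤ G.fkp w F P := by
  classical
  unfold fkp
  refine div_nonneg ?_ (Lnn G 0 hw0)
  unfold PS
  refine Finset.sum_nonneg fun ω hω => ?_
  rw [Finset.mem_powerset] at hω
  refine mul_nonneg (bwnn hω hw0 hw1) (Finset.sum_nonneg fun η _ => ?_)
  show (0 : ℝ) ≤ if P ω then 1 else 0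
  split_ifs <;> norm_num

theorem fkp_le_one {w : E → ℝ} {F : Finset E} (P : Finset E → Prop)
    (hw0 : ∀ e ∈ F, 0 ≤ w e) (hw1 : ∀ e ∈ F, w e ≤ 1) : G.fkp w F P ≤ 1 := by
  classical
  unfold fkp
  rw [div_le_one (lt_of_lt_of_le one_pos (oneZ G hw0))]
  have h1 : G.Z w F 0 = G.PS w F 0 (fun _ _ => 1) := (PS_eta G w F 0 fun _ => 1).symm
  rw [h1]
  refine PS_mono G 0 hw0 hw1 fun ω _ η _ _ => ?_
  show (if P ω then 1 else 0 : ℝ) ≤ 1
  split_ifs <;> norm_num

theorem fkp_imp {w : E → ℝ} {F : Finset E} {P Q : Finset E → Prop}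
    (hw0 : ∀ e ∈ F, 0 ≤ w e) (hw1 : ∀ e ∈ F, w e ≤ 1) (h : ∀ ω ⊆ F, P ω → Q ω) :
    G.fkp w F P ≤ G.fkp w F Q := by
  classical
  unfold fkp
  refine div_le_div_of_nonneg_right ?_ (Lnn G 0 hw0)
  refine PS_mono G 0 hw0 hw1 fun ω hω η _ _ => ?_
  show (if P ω then 1 else 0 : ℝ) ≤ if Q ω then 1 else 0
  by_cases hP : P ω
  · rw [if_pos hP, if_pos (h ω hω hP)]
  · rw [if_neg hP]
    split_ifs <;> norm_num

theorem fkp_or {w : E → ℝ} {F : Finset E} (P Q : Finset E → Prop)
    (hw0 : ∀ e ∈ F, 0 ≤ w e) (hw1 : ∀ e ∈ F, w e ≤ 1) :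
    G.fkp w F (fun ω => P ω ∨ Q ω) ≤ G.fkp w F P + G.fkp w F Q := by
  classical
  unfold fkp
  rw [← add_div]
  refine div_le_div_of_nonneg_right ?_ (Lnn G 0 hw0)
  rw [← PS_add]
  refine PS_mono G 0 hw0 hw1 fun ω hω η _ _ => ?_
  by_cases hP : P ω <;> by_cases hQ : Q ω <;> simp [hP, hQ]

theorem corr_nonneg {w : E → ℝ} {F : Finset E} (A : V → ZMod 2)
    (hw0 : ∀ e ∈ F, 0 ≤ w e) : 0 ≤ G.corr w F A :=
  div_nonneg (Lnn G A hw0) (Lnn G 0 hw0)

theorem corr_le_one {w : E → ℝ} {F : Finset E} (A : V → ZMod 2)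
    (hw0 : ∀ e ∈ F, 0 ≤ w e) (hw1 : ∀ e ∈ F, w e ≤ 1) : G.corr w F A ≤ 1 := by
  rw [corr_eq_fkp]
  exact fkp_le_one G _ hw0 hw1

theorem corr_zero {w : E → ℝ} {F : Finset E} (hw0 : ∀ e ∈ F, 0 ≤ w e) : G.corr w F 0 = 1 := by
  unfold corr
  exact div_self (lt_of_lt_of_le one_pos (oneZ G hw0)).ne'

/-- A5: lower bound for the partition function with sources -/
theorem Z_ge_of_join {w : E → ℝ} {F T : Finset E} (hT : T ⊆ F) (A : V → ZMod 2)
    (hA : G.bd T = A) (hw0 : ∀ e ∈ F, 0 ≤ w e) (hw1 : ∀ e ∈ F, w e ≤ 1) :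
    (∏ e ∈ T, w e) * G.Z w F 0 ≤ G.Z w F A := by
  classical
  have h1 : G.Z w F A = ∑ η ∈ F.powerset with G.bd η = 0, (∏ e ∈ η ∆ T, w e) := by
    unfold Z L
    have hsub : ∀ η : Finset E, η ⊆ F → η ∆ T ⊆ F := by
      intro η hη e he
      rw [Finset.mem_symmDiff] at he
      rcases he with he | he
      · exact hη he.1
      · exact hT he.1
    refine Finset.sum_nbij' (fun η => η ∆ T) (fun η => η ∆ T) ?_ ?_ ?_ ?_ ?_
    · intro η hη
      rw [Finset.mem_filter, Finset.mem_powerset] at hη ⊢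
      refine ⟨hsub η hη.1, ?_⟩
      rw [bdD, hη.2, hA, addself]
    · intro η hη
      rw [Finset.mem_filter, Finset.mem_powerset] at hη ⊢
      refine ⟨hsub η hη.1, ?_⟩
      rw [bdD, hη.2, hA, zero_add]
    · intro η _
      exact symmDiff_symmDiff_cancel_right _ _
    · intro η _
      exact symmDiff_symmDiff_cancel_right _ _
    · intro η _
      show (∏ e ∈ η, w e) * 1 = ∏ e ∈ (η ∆ T) ∆ T, w e
      rw [symmDiff_symmDiff_cancel_right, mul_one]
  rw [h1, Z, L, Finset.mul_sum]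
  refine Finset.sum_le_sum fun η hη => ?_
  rw [Finset.mem_filter, Finset.mem_powerset] at hη
  rw [mul_one]
  have h2 : ∏ e ∈ η, w e = (∏ e ∈ η \ T, w e) * ∏ e ∈ η ∩ T, w e := by
    rw [← Finset.prod_union (Finset.disjoint_sdiff_inter η T), Finset.sdiff_union_inter]
  have h3 : ∏ e ∈ T, w e = (∏ e ∈ T \ η, w e) * ∏ e ∈ η ∩ T, w e := by
    rw [Finset.inter_comm, ← Finset.prod_union (Finset.disjoint_sdiff_inter T η),
      Finset.sdiff_union_inter]
  have h4 : ∏ e ∈ η ∆ T, w e = (∏ e ∈ η \ T, w e) * ∏ e ∈ T \ η, w e := by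
    rw [← Finset.prod_union disjoint_sdiff_sdiff]
    rfl
  have h5 : 0 ≤ ∏ e ∈ η \ T, w e :=
    Finset.prod_nonneg fun e he => hw0 e (hη.1 (Finset.mem_sdiff.1 he).1)
  have h6 : 0 ≤ ∏ e ∈ T \ η, w e :=
    Finset.prod_nonneg fun e he => hw0 e (hT (Finset.mem_sdiff.1 he).1)
  have h7 : 0 ≤ ∏ e ∈ η ∩ T, w e :=
    Finset.prod_nonneg fun e he => hw0 e (hη.1 (Finset.mem_inter.1 he).1)
  have h8 : ∏ e ∈ η ∩ T, w e ≤ 1 :=
    Finset.prod_le_one (fun e he => hw0 e (hη.1 (Finset.mem_inter.1 he).1))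
      fun e he => hw1 e (hη.1 (Finset.mem_inter.1 he).1)
  rw [h2, h3, h4]
  have h9 : (∏ e ∈ η ∩ T, w e) * (∏ e ∈ η ∩ T, w e) ≤ 1 := mul_le_one₀ h8 h7 h8
  calc (∏ e ∈ T \ η, w e) * (∏ e ∈ η ∩ T, w e) * ((∏ e ∈ η \ T, w e) * ∏ e ∈ η ∩ T, w e)
      = ((∏ e ∈ η \ T, w e) * ∏ e ∈ T \ η, w e) *
        ((∏ e ∈ η ∩ T, w e) * (∏ e ∈ η ∩ T, w e)) := by ring
    _ ≤ ((∏ e ∈ η \ T, w e) * ∏ e ∈ T \ η, w e) * 1 :=
        mul_le_mul_of_nonneg_left h9 (mul_nonneg h5 h6)
    _ = _ := mul_one _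

end Pool.Agent.TH981.LO.MG
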