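import Pool.Agent.TH614.HS.Base

/-! Project HS, piece B4. -/

set_option autoImplicit false

namespace Pool.Agent.TH858.J3877

open Pool.Agent.TH614.HS

lemma hat_eq {L : Type} [Field L] (D : HD L) (x s mu eta P Y : L) (hx : x ≠ 0) (hs : s ≠ 0) :
    hat D.th (D.nt s) (x ^ (D.q ^ 4)) (x ^ D.q) (D.mM x s mu eta) (D.mE x s mu eta) (P ^ D.q) (Y ^ D.q) =
      (mu * s * P + eta * Y) ^ D.q := by
  have h1 : (mu * s * P + eta * Y) ^ D.q = mu ^ D.q * s ^ D.q * P ^ D.q + eta ^ D.q * Y ^ D.q := by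
    rw [D.add, mul_pow, mul_pow, mul_pow]
  rw [h1]
  have hx4 : x ^ (D.q ^ 4) ≠ 0 := pow_ne_zero _ hx
  have hxq : x ^ D.q ≠ 0 := pow_ne_zero _ hx
  have hsq : s ^ D.q ≠ 0 := pow_ne_zero _ hs
  have hs2 : s ^ (2 * D.q) = (s ^ D.q) ^ 2 := by rw [mul_comm, pow_mul]
  unfold hat HD.mM HD.mE HD.nt
  rw [hs2]
  have h3 := D.th2
  generalize x ^ (D.q ^ 4) = a at *
  generalize x ^ D.q = b at *
  generalize s ^ D.q = c at *
  generalize mu ^ D.q = m at *
  generalize eta ^ D.q = n at *
  generalize P ^ D.q = p at *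
  generalize Y ^ D.q = y at *
  field_simp
  linear_combination (-(c * p * m) - n * y) * h3

theorem B4 : S_B4 := by
  intro L _ _ D x x' s mu eta be g ep mu' eta' e be' g' rho' P Y hx hx' hR hS hm hm' hsp
  obtain ⟨hRD, hmt, heta, hcirc, hNm, hbe, hg, hbg, hEp, hU, hV, hW, -⟩ := hR
  obtain ⟨hRD', hmt', hC2⟩ := hS
  obtain ⟨⟨hH, hbe', hg', hbg', -, hC⟩, -, hCH, -⟩ := hC2
  have h2 := D.two_ne
  have hth := D.th2
  have hs : s ≠ 0 := hRD.1
  obtain ⟨a1, a2, a3⟩ := hU _ _ _ _ (hm.onL hx)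
  obtain ⟨b1, b2⟩ := hV _ _ _ _ (hm.onL' hx)
  have c1 := hW P Y hm
  obtain ⟨d1, d2, d3, -⟩ := hC _ _ _ _ (hm'.onL hx')
  obtain ⟨e1, e2⟩ := hCH _ _ _ _ (hm'.onL' hx')
  rw [hat_eq D x' s mu' eta' P Y hx'.ne hs] at e1 e2
  -- `l1` does not vanish
  have hl1 : l1 s (D.nt s) P (P ^ (D.q ^ 4)) ≠ 0 := by
    intro h0
    rw [h0, mul_zero] at a2
    unfold l1 at h0
    unfold l2 at a1
    apply hsp
    have hw : P ^ (D.q ^ 2) / (s * D.nt s) = -(s * P) := by
      have h3 : (2 : L) * (P ^ (D.q ^ 2) / (s * D.nt s) + s * P) = 0 := by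
        linear_combination a1 + h0 + D.th * a2 - (P ^ (D.q ^ 2) / (s * D.nt s)) * hth
      rcases mul_eq_zero.mp h3 with h | h
      · exact absurd h h2
      · linear_combination h
    refine ⟨by linear_combination h0, by rw [hw]; ring, ?_⟩
    rw [hw] at a2
    linear_combination a2
  rw [a1, mul_zero, add_zero] at d3
  rw [a1, zero_div] at d2
  rw [b1, mul_zero] at e2
  have hgg : g' = g := by
    have h3 : (g' - g) * l1 s (D.nt s) P (P ^ (D.q ^ 4)) = 0 := by
      linear_combination a2 - d3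
    rcases mul_eq_zero.mp h3 with h | h
    · linear_combination h
    · exact absurd h hl1
  rw [hgg] at e1 hbg'
  have hbb : be' = be ∨ be' = -be := by
    have h3 : (be' - be) * (be' + be) = 0 := by linear_combination hbg' - hbg
    rcases mul_eq_zero.mp h3 with h | h
    · left; linear_combination h
    · right; linear_combination h
  obtain ⟨r, hr⟩ : ∃ r : L, r = mu * s * P + eta * Y := ⟨_, rfl⟩
  obtain ⟨r', hr'⟩ : ∃ r' : L, r' = mu' * s * P + eta' * Y := ⟨_, rfl⟩
  rw [← hr] at a3 c1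
  rw [← hr'] at d1 d2 e1 e2
  have h2r' : 2 * r' = be' * l1 s (D.nt s) P (P ^ (D.q ^ 4)) := by linear_combination d1 + d2
  have hr0 : r ≠ 0 := by
    intro h
    rw [h, mul_zero] at a3
    exact mul_ne_zero hbe hl1 a3.symm
  have hrq : r ^ D.q ≠ 0 := pow_ne_zero _ hr0
  obtain ⟨m, hmdef⟩ : ∃ m : L, m = m1 s (D.nt s) (P ^ (D.q ^ 3)) (P ^ D.q) := ⟨_, rfl⟩
  rw [← hmdef] at c1 e1
  have hm0 : be / g * m ≠ 0 := by
    intro h
    rw [mul_assoc, h, mul_zero] at c1
    exact mul_ne_zero h2 hrq c1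
  have hee : e * e = 1 := by
    rcases hH with h | h <;> rw [h] <;> ring
  -- `2 e r'^q = (be' / g) m`
  have k1 : 2 * e * r' ^ D.q = be' / g * m := by linear_combination e2 - e1
  have k2 : 2 * e * r ^ D.q = be / g * m := by
    rcases hbb with h | h
    · have hrr : r' = r := by
        rw [h] at h2r'
        have : 2 * (r' - r) = 0 := by linear_combination h2r' - a3
        rcases mul_eq_zero.mp this with h' | h'
        · exact absurd h' h2
        · linear_combination h'
      rw [hrr, h] at k1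
      exact k1
    · have hrr : r' = -r := by
        rw [h] at h2r'
        have : 2 * (r' + r) = 0 := by linear_combination h2r' + a3
        rcases mul_eq_zero.mp this with h' | h'
        · exact absurd h' h2
        · linear_combination h'
      rw [hrr, h, D.neg_q] at k1
      linear_combination -k1
  have k3 : (e - ep) * (be / g * m) = 0 := by
    linear_combination c1 - e * k2 + 2 * r ^ D.q * hee
  rcases mul_eq_zero.mp k3 with h | h
  · linear_combination h
  · exact absurd h hm0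

end Pool.Agent.TH858.J3877
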