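import Pool.Agent.TH981.LO.Bas

set_option autoImplicit false

open Pool.Agent.TH981.LO
open scoped BigOperators symmDiff MeasureTheory

namespace Pool.Agent.TH858.J462

theorem summ (d : ℕ) {c : ℝ} (hc : 0 < c) :
    Summable (fun k : ℕ => (d : ℝ) * (2 * k + 1) ^ d * Real.exp (-c * k)) := by
  have h1 := (summable_nat_add_iff 1).2 (Real.summable_pow_mul_exp_neg_nat_mul d hc)
  have h2 := (h1.mul_left ((d : ℝ) * 2 ^ d * Real.exp c))
  refine Summable.of_nonneg_of_le (fun k => by positivity) (fun k => ?_) h2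
  have h3 : Real.exp (-c * k) = Real.exp c * Real.exp (-c * ((k + 1 : ℕ) : ℝ)) := by
    rw [← Real.exp_add]
    congr 1
    push_cast
    ring
  rw [h3]
  have h4 : (2 * (k : ℝ) + 1) ^ d ≤ 2 ^ d * ((k + 1 : ℕ) : ℝ) ^ d := by
    rw [← mul_pow]
    refine pow_le_pow_left₀ (by positivity) ?_ d
    push_cast
    linarith
  calc (d : ℝ) * (2 * k + 1) ^ d * (Real.exp c * Real.exp (-c * ((k + 1 : ℕ) : ℝ)))
      ≤ (d : ℝ) * (2 ^ d * ((k + 1 : ℕ) : ℝ) ^ d) *
        (Real.exp c * Real.exp (-c * ((k + 1 : ℕ) : ℝ))) := by gcongr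
    _ = _ := by ring

theorem card_shell {d : ℕ} (R : Finset (Ed d)) (a : Vt d) (k : ℕ) :
    (R.filter (fun e => nm (e.1 - a) = k)).card ≤ d * (2 * k + 1) ^ d := by
  have h1 : (R.filter (fun e => nm (e.1 - a) = k)).card ≤
      (box d k ×ˢ (Finset.univ : Finset (Fin d))).card := by
    refine Finset.card_le_card_of_injOn (fun e => (e.1 - a, e.2)) ?_ ?_
    · intro e he
      rw [Finset.mem_coe, Finset.mem_filter] at he
      rw [Finset.mem_coe, Finset.mem_product]
      exact ⟨mem_box.2 he.2.le, Finset.mem_univ _⟩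
    · intro e _ f _ h
      simp only [Prod.mk.injEq, sub_left_inj] at h
      exact Prod.ext h.1 h.2
  rw [Finset.card_product, card_box, Finset.card_univ, Fintype.card_fin, mul_comm] at h1
  exact h1

theorem sum_exp (d : ℕ) {c : ℝ} (hc : 0 < c) : ∃ K : ℝ, 0 ≤ K ∧
    ∀ (R : Finset (Ed d)) (a : Vt d), ∑ e ∈ R, Real.exp (-c * nm (e.1 - a)) ≤ K := by
  refine ⟨∑' k : ℕ, (d : ℝ) * (2 * k + 1) ^ d * Real.exp (-c * k),
    tsum_nonneg fun k => by positivity, fun R a => ?_⟩
  have h1 : ∑ e ∈ R, Real.exp (-c * nm (e.1 - a)) =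
      ∑ k ∈ R.image (fun e => nm (e.1 - a)),
        ∑ e ∈ R with nm (e.1 - a) = k, Real.exp (-c * nm (e.1 - a)) :=
    (Finset.sum_fiberwise_of_maps_to (fun e he => Finset.mem_image_of_mem _ he) _).symm
  rw [h1]
  refine le_trans ?_ ((summ d hc).sum_le_tsum (R.image (fun e => nm (e.1 - a)))
    fun k _ => by positivity)
  refine Finset.sum_le_sum fun k _ => ?_
  calc ∑ e ∈ R with nm (e.1 - a) = k, Real.exp (-c * nm (e.1 - a))
      = ∑ e ∈ R with nm (e.1 - a) = k, Real.exp (-c * k) := by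
        refine Finset.sum_congr rfl fun e he => ?_
        rw [(Finset.mem_filter.1 he).2]
    _ = ((R.filter (fun e => nm (e.1 - a) = k)).card : ℝ) * Real.exp (-c * k) := by
        rw [Finset.sum_const, nsmul_eq_mul]
    _ ≤ _ := by
        refine mul_le_mul_of_nonneg_right ?_ (Real.exp_pos _).le
        exact_mod_cast card_shell R a k

/-- adding one edge -/
theorem one_edge (h1 : S_TRUNC) (h2 : S_CMONO) {d : ℕ} {x : ℝ} (hx0 : 0 < x) (hx1 : x < 1)
    {c C : ℝ} (hc : 0 < c) (hC : 0 ≤ C)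
    (hd : ∀ (D : Finset (Ed d)) (a b : Vt d), CC d x D (two a b) ≤ C * Real.exp (-c * nm (a - b)))
    (D : Finset (Ed d)) (e : Ed d) (he : e ∉ D) (A : Finset (Vt d)) :
    0 ≤ CC d x (insert e D) (ind A) - CC d x D (ind A) ∧
      CC d x (insert e D) (ind A) - CC d x D (ind A) ≤
        ∑ a ∈ A, 2 * C * Real.exp c * Real.exp (-c * nm (e.1 - a)) := by
  have hw0 : ∀ F : Finset (Ed d), ∀ e ∈ F, 0 ≤ (fun _ : Ed d => x) e := fun _ _ _ => hx0.le
  have hw1 : ∀ F : Finset (Ed d), ∀ e ∈ F, (fun _ : Ed d => x) e ≤ 1 := fun _ _ _ => hx1.le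
  constructor
  · have := h2 (lat d) (fun _ => x) (fun _ => x) D (insert e D) (ind A) (Finset.subset_insert e D)
      (hw0 _) (fun _ _ => le_rfl) (hw0 _) (hw1 _)
    unfold CC
    linarith
  · have hZ := MG.one_le_Z_zero (lat d) (hw0 D)
    have hcinc : 0 ≤ CC d x D ((lat d).inc e) := MG.corr_nonneg (lat d) _ (hw0 D)
    have htr := h1 (lat d) (fun _ => x) D A ((lat d).s e) ((lat d).t e) (hw0 D) (hw1 D)
    have hsum : ∑ a ∈ A, (CC d x D (two a ((lat d).s e)) + CC d x D (two a ((lat d).t e))) ≤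
        ∑ a ∈ A, 2 * C * Real.exp c * Real.exp (-c * nm (e.1 - a)) := by
      refine Finset.sum_le_sum fun a _ => ?_
      have e1 := hd D a ((lat d).s e)
      have e2 := hd D a ((lat d).t e)
      rw [lat_s] at e1
      rw [lat_t] at e2
      have e3 : Real.exp (-c * nm (a - e.1)) ≤ Real.exp c * Real.exp (-c * nm (e.1 - a)) := by
        rw [nm_sub_comm, ← Real.exp_add]
        apply Real.exp_le_exp.2
        linarith
      have e4 : Real.exp (-c * nm (a - (e.1 + ev e.2))) ≤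
          Real.exp c * Real.exp (-c * nm (e.1 - a)) := by
        rw [← Real.exp_add]
        apply Real.exp_le_exp.2
        have e5 : nm (e.1 - a) ≤ nm (a - (e.1 + ev e.2)) + 1 := by
          have e6 : e.1 - a = -(a - (e.1 + ev e.2)) + -(ev e.2) := by abel
          rw [e6]
          refine (nm_add_le _ _).trans ?_
          rw [nm_neg, nm_neg, nm_ev]
        have e7 : (nm (e.1 - a) : ℝ) ≤ nm (a - (e.1 + ev e.2)) + 1 := by exact_mod_cast e5
        nlinarith
      calc CC d x D (two a ((lat d).s e)) + CC d x D (two a ((lat d).t e))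
          ≤ C * Real.exp (-c * nm (a - e.1)) + C * Real.exp (-c * nm (a - (e.1 + ev e.2))) :=
            add_le_add e1 e2
        _ ≤ C * (Real.exp c * Real.exp (-c * nm (e.1 - a))) +
            C * (Real.exp c * Real.exp (-c * nm (e.1 - a))) :=
            add_le_add (mul_le_mul_of_nonneg_left e3 hC) (mul_le_mul_of_nonneg_left e4 hC)
        _ = _ := by ring
    have hpos : 0 ≤ ∑ a ∈ A, 2 * C * Real.exp c * Real.exp (-c * nm (e.1 - a)) :=
      Finset.sum_nonneg fun a _ => by positivity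
    have hkey : CC d x (insert e D) (ind A) - CC d x D (ind A) =
        x * (CC d x D (ind A + (lat d).inc e) - CC d x D (ind A) * CC d x D ((lat d).inc e)) /
          (1 + x * CC d x D ((lat d).inc e)) := by
      unfold CC MG.corr
      rw [MG.Z_insert _ _ he, MG.Z_insert _ _ he, zero_add]
      have hZ0 : (lat d).Z (fun _ => x) D 0 ≠ 0 := by
        have : (0 : ℝ) < (lat d).Z (fun _ => x) D 0 := lt_of_lt_of_le one_pos hZ
        exact this.ne'
      have hZi : 0 ≤ (lat d).Z (fun _ => x) D ((lat d).inc e) := MG.Z_nonneg _ _ (hw0 D)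
      have hden : (lat d).Z (fun _ => x) D 0 + x * (lat d).Z (fun _ => x) D ((lat d).inc e) ≠ 0 := by
        have : 0 ≤ x * (lat d).Z (fun _ => x) D ((lat d).inc e) := mul_nonneg hx0.le hZi
        have h5 : (0 : ℝ) < (lat d).Z (fun _ => x) D 0 +
            x * (lat d).Z (fun _ => x) D ((lat d).inc e) := by linarith
        exact h5.ne'
      field_simp
      ring
    rw [hkey]
    have hT : CC d x D (ind A + (lat d).inc e) - CC d x D (ind A) * CC d x D ((lat d).inc e) ≤
        ∑ a ∈ A, 2 * C * Real.exp c * Real.exp (-c * nm (e.1 - a)) := htr.trans hsum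
    rw [div_le_iff₀ (by positivity)]
    have h6 : x * (CC d x D (ind A + (lat d).inc e) - CC d x D (ind A) * CC d x D ((lat d).inc e))
        ≤ x * ∑ a ∈ A, 2 * C * Real.exp c * Real.exp (-c * nm (e.1 - a)) :=
      mul_le_mul_of_nonneg_left hT hx0.le
    have h7 : x * ∑ a ∈ A, 2 * C * Real.exp c * Real.exp (-c * nm (e.1 - a)) ≤
        ∑ a ∈ A, 2 * C * Real.exp c * Real.exp (-c * nm (e.1 - a)) :=
      mul_le_of_le_one_left hpos hx1.le
    have h8 : 0 ≤ (∑ a ∈ A, 2 * C * Real.exp c * Real.exp (-c * nm (e.1 - a))) *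
        (x * CC d x D ((lat d).inc e)) := mul_nonneg hpos (mul_nonneg hx0.le hcinc)
    nlinarith

theorem many_edges (h1 : S_TRUNC) (h2 : S_CMONO) {d : ℕ} {x : ℝ} (hx0 : 0 < x) (hx1 : x < 1)
    {c C : ℝ} (hc : 0 < c) (hC : 0 ≤ C)
    (hd : ∀ (D : Finset (Ed d)) (a b : Vt d), CC d x D (two a b) ≤ C * Real.exp (-c * nm (a - b)))
    (D R : Finset (Ed d)) (A : Finset (Vt d)) (hDR : Disjoint D R) :
    0 ≤ CC d x (D ∪ R) (ind A) - CC d x D (ind A) ∧
      CC d x (D ∪ R) (ind A) - CC d x D (ind A) ≤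
        ∑ e ∈ R, ∑ a ∈ A, 2 * C * Real.exp c * Real.exp (-c * nm (e.1 - a)) := by
  classical
  induction R using Finset.induction_on with
  | empty => simp
  | insert e R he ih =>
    rw [Finset.disjoint_insert_right] at hDR
    obtain ⟨ih1, ih2⟩ := ih hDR.2
    have heD : e ∉ D ∪ R := by
      rw [Finset.mem_union, not_or]
      exact ⟨hDR.1, he⟩
    obtain ⟨o1, o2⟩ := one_edge h1 h2 hx0 hx1 hc hC hd (D ∪ R) e heD A
    rw [Finset.union_insert, Finset.sum_insert he]
    constructor <;> linarith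

theorem cloc (h1 : S_TRUNC) (h2 : S_CMONO) (d : ℕ) (x : ℝ) (hx0 : 0 < x) (hx1 : x < 1)
    (h : S_DEC d x) : S_CLOC d x := by
  obtain ⟨c, hc, C, hC, hd⟩ := h
  obtain ⟨K, hK, hKs⟩ := sum_exp d (half_pos hc)
  refine ⟨c / 2, half_pos hc, 2 * C * Real.exp c * K, by positivity, ?_⟩
  intro D₁ D₂ A ρ hloc
  have key : ∀ D' : Finset (Ed d), (∀ e ∈ D' \ (D₁ ∩ D₂), ∀ a ∈ A, ρ < nm (e.1 - a)) →
      D₁ ∩ D₂ ⊆ D' →
      0 ≤ CC d x D' (ind A) - CC d x (D₁ ∩ D₂) (ind A) ∧
      CC d x D' (ind A) - CC d x (D₁ ∩ D₂) (ind A) ≤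
        2 * C * Real.exp c * K * A.card * Real.exp (-(c / 2) * ρ) := by
    intro D' hD' hsub
    have h3 := many_edges h1 h2 hx0 hx1 hc hC hd (D₁ ∩ D₂) (D' \ (D₁ ∩ D₂)) A
      Finset.disjoint_sdiff
    rw [Finset.union_sdiff_of_subset hsub] at h3
    refine ⟨h3.1, h3.2.trans ?_⟩
    rw [Finset.sum_comm]
    have h4 : ∀ a ∈ A, ∑ e ∈ D' \ (D₁ ∩ D₂), 2 * C * Real.exp c * Real.exp (-c * nm (e.1 - a)) ≤
        2 * C * Real.exp c * K * Real.exp (-(c / 2) * ρ) := by
      intro a ha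
      calc ∑ e ∈ D' \ (D₁ ∩ D₂), 2 * C * Real.exp c * Real.exp (-c * nm (e.1 - a))
          ≤ ∑ e ∈ D' \ (D₁ ∩ D₂), 2 * C * Real.exp c * (Real.exp (-(c / 2) * ρ) *
            Real.exp (-(c / 2) * nm (e.1 - a))) := by
            refine Finset.sum_le_sum fun e he => ?_
            refine mul_le_mul_of_nonneg_left ?_ (by positivity)
            rw [← Real.exp_add]
            apply Real.exp_le_exp.2
            have h5 : (ρ : ℝ) < nm (e.1 - a) := by exact_mod_cast hD' e he a ha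
            nlinarith
        _ = 2 * C * Real.exp c * Real.exp (-(c / 2) * ρ) *
            ∑ e ∈ D' \ (D₁ ∩ D₂), Real.exp (-(c / 2) * nm (e.1 - a)) := by
            rw [Finset.mul_sum]
            refine Finset.sum_congr rfl fun e _ => ?_
            ring
        _ ≤ 2 * C * Real.exp c * Real.exp (-(c / 2) * ρ) * K :=
            mul_le_mul_of_nonneg_left (hKs _ _) (by positivity)
        _ = _ := by ring
    refine (Finset.sum_le_sum h4).trans ?_
    rw [Finset.sum_const, nsmul_eq_mul]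
    exact le_of_eq (by ring)
  have k1 := key D₁ (fun e he a ha => by
    rw [Finset.mem_sdiff, Finset.mem_inter] at he
    by_contra hlt
    push Not at hlt
    exact he.2 ⟨he.1, (hloc e ⟨a, ha, hlt⟩).1 he.1⟩) Finset.inter_subset_left
  have k2 := key D₂ (fun e he a ha => by
    rw [Finset.mem_sdiff, Finset.mem_inter] at he
    by_contra hlt
    push Not at hlt
    exact he.2 ⟨(hloc e ⟨a, ha, hlt⟩).2 he.1, he.1⟩) Finset.inter_subset_right
  rw [abs_le]
  constructor <;> linarith [k1.1, k1.2, k2.1, k2.2]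

end Pool.Agent.TH858.J462
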