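import Pool.Agent.TH981.LO.Bas

set_option autoImplicit false

open Pool.Agent.TH981.LO
open scoped BigOperators symmDiff MeasureTheory

namespace Pool.Agent.TH858.J464

theorem sdiff_ins {E : Type} [DecidableEq E] (D A : Finset E) (e : E) :
    D \ insert e A = (D \ A).erase e := by
  ext f
  simp only [Finset.mem_sdiff, Finset.mem_insert, Finset.mem_erase]
  tauto

theorem sdiff_ins2 {E : Type} [DecidableEq E] (D A B : Finset E) (e : E) :
    D \ (insert e A ∪ B) = (D \ (A ∪ B)).erase e := by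
  ext f
  simp only [Finset.mem_sdiff, Finset.mem_insert, Finset.mem_erase, Finset.mem_union]
  tauto

theorem log_diff_le {x α β : ℝ} (hx0 : 0 < x) (hx1 : x < 1) (hα : 0 ≤ α) (hβ : 0 ≤ β) :
    Real.log (1 + x * α) - Real.log (1 + x * β) ≤ |α - β| := by
  have h1 : (0 : ℝ) < 1 + x * α := by positivity
  have h2 : (0 : ℝ) < 1 + x * β := by positivity
  rw [← Real.log_div h1.ne' h2.ne']
  refine (Real.log_le_sub_one_of_pos (div_pos h1 h2)).trans ?_
  rw [div_sub_one h2.ne', div_le_iff₀ h2]
  have h3 : α - β ≤ |α - β| := le_abs_self _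
  have h4 : 0 ≤ |α - β| := abs_nonneg _
  have h5 : x * (α - β) ≤ x * |α - β| := mul_le_mul_of_nonneg_left h3 hx0.le
  have h6 : x * |α - β| ≤ |α - β| := mul_le_of_le_one_left h4 hx1.le
  have h7 : 0 ≤ |α - β| * (x * β) := by positivity
  nlinarith

theorem log_diff {x α β : ℝ} (hx0 : 0 < x) (hx1 : x < 1) (hα : 0 ≤ α) (hβ : 0 ≤ β) :
    |Real.log (1 + x * α) - Real.log (1 + x * β)| ≤ |α - β| := by
  rw [abs_le]
  constructor
  · have := log_diff_le hx0 hx1 hβ hα
    rw [abs_sub_comm] at this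
    linarith
  · exact log_diff_le hx0 hx1 hα hβ

theorem CC_nonneg {d : ℕ} {x : ℝ} (hx0 : 0 < x) (D : Finset (Ed d)) (A : Vt d → ZMod 2) :
    0 ≤ CC d x D A := MG.corr_nonneg (lat d) _ fun _ _ => hx0.le

theorem CC_le_one {d : ℕ} {x : ℝ} (hx0 : 0 < x) (hx1 : x < 1) (D : Finset (Ed d))
    (A : Vt d → ZMod 2) : CC d x D A ≤ 1 :=
  MG.corr_le_one (lat d) _ (fun _ _ => hx0.le) fun _ _ => hx1.le

theorem logZ_erase {d : ℕ} {x : ℝ} (hx0 : 0 < x) (D : Finset (Ed d)) {e : Ed d} (he : e ∈ D) :
    Real.log (ZZ d x D 0) = Real.log (ZZ d x (D.erase e) 0) +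
      Real.log (1 + x * CC d x (D.erase e) ((lat d).inc e)) := by
  have h1 : ZZ d x D 0 = ZZ d x (D.erase e) 0 + x * ZZ d x (D.erase e) ((lat d).inc e) := by
    have h2 := MG.Z_insert (lat d) (fun _ => x) (Finset.notMem_erase e D) 0
    rw [Finset.insert_erase he, zero_add] at h2
    exact h2
  have hZ : (0 : ℝ) < ZZ d x (D.erase e) 0 :=
    lt_of_lt_of_le one_pos (MG.one_le_Z_zero (lat d) fun _ _ => hx0.le)
  have h3 := CC_nonneg hx0 (D.erase e) ((lat d).inc e)
  rw [← Real.log_mul hZ.ne' (by positivity), h1]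
  congr 1
  unfold CC MG.corr
  unfold ZZ at hZ ⊢
  field_simp

theorem inc_eq_ind {d : ℕ} (e : Ed d) :
    (lat d).inc e = ind ({e.1, e.1 + ev e.2} : Finset (Vt d)) := by
  have hne : e.1 ≠ e.1 + ev e.2 := by
    intro h
    have h1 : (ev e.2 : Vt d) = 0 := by
      have := congrArg (fun v => v - e.1) h
      simpa using this.symm
    have h2 := nm_ev (d := d) e.2
    rw [h1, nm_zero] at h2
    exact absurd h2 (by norm_num)
  funext v
  rw [MG.inc, two, lat_s, lat_t, ind, Pi.add_apply, Pi.single_apply, Pi.single_apply]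
  simp only [Finset.mem_insert, Finset.mem_singleton]
  by_cases h1 : v = e.1
  · have h2 : v ≠ e.1 + ev e.2 := by rw [h1]; exact hne
    simp [h1, hne]
  · by_cases h2 : v = e.1 + ev e.2
    · rw [if_neg h1, if_pos h2, if_pos (Or.inr h2), zero_add]
    · rw [if_neg h1, if_neg h2, if_neg (by tauto), zero_add]

theorem nm_tri {d : ℕ} (u v : Vt d) : nm u ≤ nm (u - v) + nm v := by
  have := nm_add_le (u - v) v
  rwa [sub_add_cancel] at this

theorem nm_t_le {d : ℕ} (e : Ed d) : nm (e.1 + ev e.2) ≤ nm e.1 + 1 := by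
  have := nm_add_le e.1 (ev e.2)
  rwa [nm_ev] at this

theorem nm_s_le {d : ℕ} (e : Ed d) : nm e.1 ≤ nm (e.1 + ev e.2) + 1 := by
  have := nm_tri e.1 (e.1 + ev e.2)
  rw [nm_sub_comm, add_sub_cancel_left, nm_ev] at this
  omega

section

variable {d : ℕ} {x : ℝ} (hx0 : 0 < x) (hx1 : x < 1) {c C : ℝ} (hc : 0 < c) (hC : 0 ≤ C)
  (hcl : ∀ (D₁ D₂ : Finset (Ed d)) (A : Finset (Vt d)) (ρ : ℕ),
      (∀ e : Ed d, (∃ a ∈ A, nm (e.1 - a) ≤ ρ) → (e ∈ D₁ ↔ e ∈ D₂)) →
      |CC d x D₁ (ind A) - CC d x D₂ (ind A)| ≤ C * A.card * Real.exp (-c * ρ))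

include hx0 hx1 hc hC hcl

/-- comparison of the correlations of one edge in two domains which agree near it -/
theorem edge_cmp (D₁ D₂ : Finset (Ed d)) (e : Ed d) (s : ℕ)
    (hsmall : |(nm e.1 : ℝ) - s| ≤ 2 ∨ ∃ ρ : ℕ, |(nm e.1 : ℝ) - s| = ρ + 2 ∧
      ∀ f : Ed d, (nm (f.1 - e.1) ≤ ρ ∨ nm (f.1 - (e.1 + ev e.2)) ≤ ρ) → (f ∈ D₁ ↔ f ∈ D₂)) :
    |CC d x D₁ ((lat d).inc e) - CC d x D₂ ((lat d).inc e)| ≤
      (2 * C + 1) * Real.exp (2 * c) * Real.exp (-c * |(nm e.1 : ℝ) - s|) := by
  rcases hsmall with h | ⟨ρ, h, hρ⟩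
  · have h1 := CC_nonneg hx0 D₁ ((lat d).inc e)
    have h2 := CC_nonneg hx0 D₂ ((lat d).inc e)
    have h3 := CC_le_one hx0 hx1 D₁ ((lat d).inc e)
    have h4 := CC_le_one hx0 hx1 D₂ ((lat d).inc e)
    have h5 : |CC d x D₁ ((lat d).inc e) - CC d x D₂ ((lat d).inc e)| ≤ 1 := by
      rw [abs_le]
      constructor <;> linarith
    have h6 : 1 ≤ Real.exp (2 * c) * Real.exp (-c * |(nm e.1 : ℝ) - s|) := by
      rw [← Real.exp_add]
      apply Real.one_le_exp
      nlinarith
    refine h5.trans (h6.trans ?_)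
    rw [mul_assoc]
    exact le_mul_of_one_le_left (by positivity) (by linarith)
  · rw [inc_eq_ind]
    have h1 := hcl D₁ D₂ {e.1, e.1 + ev e.2} ρ (by
      rintro f ⟨a, ha, haf⟩
      apply hρ
      rw [Finset.mem_insert, Finset.mem_singleton] at ha
      rcases ha with rfl | rfl
      · exact Or.inl haf
      · exact Or.inr haf)
    refine h1.trans ?_
    have h2 : (({e.1, e.1 + ev e.2} : Finset (Vt d)).card : ℝ) ≤ 2 := by
      exact_mod_cast Finset.card_le_two
    have h3 : Real.exp (-c * ρ) = Real.exp (2 * c) * Real.exp (-c * |(nm e.1 : ℝ) - s|) := by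
      rw [← Real.exp_add, h]
      congr 1
      ring
    rw [h3]
    calc C * (({e.1, e.1 + ev e.2} : Finset (Vt d)).card : ℝ) *
          (Real.exp (2 * c) * Real.exp (-c * |(nm e.1 : ℝ) - s|))
        ≤ C * 2 * (Real.exp (2 * c) * Real.exp (-c * |(nm e.1 : ℝ) - s|)) := by gcongr
      _ ≤ (2 * C + 1) * (Real.exp (2 * c) * Real.exp (-c * |(nm e.1 : ℝ) - s|)) := by
        refine mul_le_mul_of_nonneg_right ?_ (by positivity)
        linarith
      _ = _ := by ring

/-- first step: no outer holes -/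
theorem inner (i : Fin d) (D Fi : Finset (Ed d)) (s : ℕ) (hs : 1 ≤ s) (hD : EB d (s + 1) ⊆ D)
    (hFi : ∀ e ∈ Fi, shE (ev i) e ∈ EB d (s - 1)) :
    |Real.log (ZZ d x (D \ Fi) 0) - Real.log (ZZ d x (D \ shF (ev i) Fi) 0)| ≤
      (2 * C + 1) * Real.exp (2 * c) * ∑ e ∈ Fi, Real.exp (-c * |(nm e.1 : ℝ) - s|) := by
  classical
  induction Fi using Finset.induction_on with
  | empty =>
    have : shF (ev i) (∅ : Finset (Ed d)) = ∅ := rfl
    simp [this]
  | insert e Fi he ih =>
    have ih := ih fun f hf => hFi f (Finset.mem_insert_of_mem hf)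
    have heB := hFi e (Finset.mem_insert_self _ _)
    have hshe : (shE (ev i) e).1 = e.1 + ev i := rfl
    have hshe2 : (shE (ev i) e).2 = e.2 := rfl
    have hinEB : ∀ f : Ed d, nm f.1 ≤ s - 1 + 1 → nm (f.1 + ev f.2) ≤ s - 1 + 1 → f ∈ EB d s := by
      intro f h1 h2
      rw [mem_EB]
      omega
    have heD : e ∈ D := by
      apply hD
      rw [mem_EB, hshe, hshe2] at heB
      have h1 := nm_tri e.1 (e.1 + ev i)
      rw [nm_sub_comm, add_sub_cancel_left, nm_ev] at h1
      have h2 := nm_tri (e.1 + ev e.2) (e.1 + ev i + ev e.2)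
      have h3 : e.1 + ev e.2 - (e.1 + ev i + ev e.2) = -(ev i) := by abel
      rw [h3, nm_neg, nm_ev] at h2
      rw [mem_EB]
      omega
    have hnme : nm e.1 ≤ s := by
      rw [mem_EB, hshe] at heB
      have h1 := nm_tri e.1 (e.1 + ev i)
      rw [nm_sub_comm, add_sub_cancel_left, nm_ev] at h1
      omega
    have heDa : e ∈ D \ Fi := Finset.mem_sdiff.2 ⟨heD, he⟩
    have hmemsh : ∀ f : Ed d, shE (ev i) f ∈ shF (ev i) Fi ↔ f ∈ Fi := by
      intro f
      rw [mem_shF]
      have : ((shE (ev i) f).1 - ev i, (shE (ev i) f).2) = f := by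
        show (f.1 + ev i - ev i, f.2) = f
        rw [add_sub_cancel_right]
      rw [this]
    have heDb : shE (ev i) e ∈ D \ shF (ev i) Fi := by
      rw [Finset.mem_sdiff]
      refine ⟨hD (EB_mono (by omega) heB), ?_⟩
      rw [hmemsh]
      exact he
    have hDa : D \ insert e Fi = (D \ Fi).erase e := sdiff_ins _ _ _
    have hshins : shF (ev i) (insert e Fi) = insert (shE (ev i) e) (shF (ev i) Fi) := by
      unfold shF
      rw [Finset.map_insert]
      rfl
    have hDb : D \ shF (ev i) (insert e Fi) = (D \ shF (ev i) Fi).erase (shE (ev i) e) := by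
      rw [hshins]
      exact sdiff_ins _ _ _
    have l1 := logZ_erase hx0 (D \ Fi) heDa
    have l2 := logZ_erase hx0 (D \ shF (ev i) Fi) heDb
    rw [hDa, hDb, Finset.sum_insert he, mul_add]
    -- comparison of the two one-edge correlations
    have hβ : CC d x ((D \ shF (ev i) Fi).erase (shE (ev i) e)) ((lat d).inc (shE (ev i) e)) =
        CC d x (shF (-(ev i)) ((D \ shF (ev i) Fi).erase (shE (ev i) e))) ((lat d).inc e) := by
      rw [← CC_shF x (ev i) (shF (-(ev i)) ((D \ shF (ev i) Fi).erase (shE (ev i) e)))]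
      rw [shF_shF, add_neg_cancel, shF_zero]
      congr 1
      funext v
      exact inc_shE_340 (ev i) e v
    have hcmp := edge_cmp hx0 hx1 hc hC hcl ((D \ Fi).erase e)
      (shF (-(ev i)) ((D \ shF (ev i) Fi).erase (shE (ev i) e))) e s (by
        have habs : |(nm e.1 : ℝ) - s| = (s : ℝ) - nm e.1 := by
          rw [abs_sub_comm, abs_of_nonneg]
          have : (nm e.1 : ℝ) ≤ s := by exact_mod_cast hnme
          linarith
        by_cases hlt : s < nm e.1 + 2
        · left
          rw [habs]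
          have : (s : ℝ) < nm e.1 + 2 := by exact_mod_cast hlt
          linarith
        · right
          push Not at hlt
          refine ⟨s - 2 - nm e.1, ?_, ?_⟩
          · rw [habs, Nat.cast_sub (by omega), Nat.cast_sub (by omega)]
            push_cast
            ring
          · intro f hf
            have hf1 : nm f.1 ≤ s - 1 := by
              rcases hf with hf | hf
              · have := nm_tri f.1 e.1
                omega
              · have h1 := nm_tri f.1 (e.1 + ev e.2)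
                have h2 := nm_t_le e
                omega
            have hfB : f ∈ EB d s := by
              have := nm_t_le f
              rw [mem_EB]
              omega
            have hfB2 : shE (ev i) f ∈ EB d (s + 1) := by
              rw [mem_EB] at hfB ⊢
              have h1 := nm_add_le f.1 (ev i)
              have h2 := nm_add_le (f.1 + ev f.2) (ev i)
              rw [nm_ev] at h1 h2
              show nm (f.1 + ev i) ≤ s + 1 ∧ nm (f.1 + ev i + ev f.2) ≤ s + 1
              rw [add_right_comm f.1 (ev i) (ev f.2)]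
              omega
            have hfz : ((f.1 - -(ev i), f.2) : Ed d) = shE (ev i) f := by
              show (f.1 - -(ev i), f.2) = (f.1 + ev i, f.2)
              rw [sub_neg_eq_add]
            rw [mem_shF, hfz, Finset.mem_erase, Finset.mem_erase, Finset.mem_sdiff,
              Finset.mem_sdiff, hmemsh]
            have h1 : f ∈ D := hD (EB_mono (by omega) hfB)
            have h2 : shE (ev i) f ∈ D := hD hfB2
            have h3 : shE (ev i) f ≠ shE (ev i) e ↔ f ≠ e := (shE (ev i)).injective.ne_iff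
            rw [h3]
            tauto)
    rw [hβ] at l2
    have hlog := log_diff hx0 hx1 (CC_nonneg hx0 ((D \ Fi).erase e) ((lat d).inc e))
      (CC_nonneg hx0 (shF (-(ev i)) ((D \ shF (ev i) Fi).erase (shE (ev i) e))) ((lat d).inc e))
    have hfin : Real.log (ZZ d x ((D \ Fi).erase e) 0) -
        Real.log (ZZ d x ((D \ shF (ev i) Fi).erase (shE (ev i) e)) 0) =
        (Real.log (ZZ d x (D \ Fi) 0) - Real.log (ZZ d x (D \ shF (ev i) Fi) 0)) -
        (Real.log (1 + x * CC d x ((D \ Fi).erase e) ((lat d).inc e)) -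
          Real.log (1 + x * CC d x (shF (-(ev i)) ((D \ shF (ev i) Fi).erase (shE (ev i) e)))
            ((lat d).inc e))) := by
      rw [l1, l2]
      ring
    rw [hfin]
    refine (abs_sub _ _).trans ?_
    rw [add_comm]
    exact add_le_add (hlog.trans hcmp) ih

/-- second step -/
theorem outer (i : Fin d) (D Fo Fi : Finset (Ed d)) (s : ℕ) (hs : 1 ≤ s)
    (hD : EB d (s + 1) ⊆ D) (hFo : Fo ⊆ D) (hdis : Disjoint Fo (EB d (s + 1)))
    (hFi : ∀ e ∈ Fi, shE (ev i) e ∈ EB d (s - 1)) :
    |Real.log (ZZ d x (D \ (Fo ∪ Fi)) 0) - Real.log (ZZ d x (D \ (Fo ∪ shF (ev i) Fi)) 0)| ≤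
      (2 * C + 1) * Real.exp (2 * c) * ∑ e ∈ Fo, Real.exp (-c * |(nm e.1 : ℝ) - s|) +
      (2 * C + 1) * Real.exp (2 * c) * ∑ e ∈ Fi, Real.exp (-c * |(nm e.1 : ℝ) - s|) := by
  classical
  have hFiB : Fi ⊆ EB d s := by
    intro e he
    have heB := hFi e he
    have hshe : (shE (ev i) e).1 = e.1 + ev i := rfl
    have hshe2 : (shE (ev i) e).2 = e.2 := rfl
    rw [mem_EB, hshe, hshe2] at heB
    have h1 := nm_tri e.1 (e.1 + ev i)
    rw [nm_sub_comm, add_sub_cancel_left, nm_ev] at h1
    have h2 := nm_tri (e.1 + ev e.2) (e.1 + ev i + ev e.2)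
    have h3 : e.1 + ev e.2 - (e.1 + ev i + ev e.2) = -(ev i) := by abel
    rw [h3, nm_neg, nm_ev] at h2
    rw [mem_EB]
    omega
  have hFiB2 : shF (ev i) Fi ⊆ EB d s := by
    intro f hf
    rw [mem_shF] at hf
    have heB := hFi _ hf
    have : shE (ev i) ((f.1 - ev i, f.2) : Ed d) = f := by
      show (f.1 - ev i + ev i, f.2) = f
      rw [sub_add_cancel]
    rw [this] at heB
    exact EB_mono (by omega) heB
  induction Fo using Finset.induction_on with
  | empty =>
    rw [Finset.empty_union, Finset.empty_union, Finset.sum_empty, mul_zero, zero_add]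
    exact inner hx0 hx1 hc hC hcl i D Fi s hs hD hFi
  | insert e Fo he ih =>
    rw [Finset.disjoint_insert_left] at hdis
    have ih := ih (fun f hf => hFo (Finset.mem_insert_of_mem hf)) hdis.2
    have heD : e ∈ D := hFo (Finset.mem_insert_self _ _)
    have heB : e ∉ EB d s := fun h => hdis.1 (EB_mono (by omega) h)
    have hnm : s + 1 < nm e.1 ∨ s + 1 < nm (e.1 + ev e.2) := by
      have h1 := hdis.1
      rw [mem_EB] at h1
      omega
    have ht1 := nm_t_le e
    have ht2 := nm_s_le e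
    have heDa : e ∈ D \ (Fo ∪ Fi) := by
      rw [Finset.mem_sdiff, Finset.mem_union]
      exact ⟨heD, fun h => h.elim he fun h => heB (hFiB h)⟩
    have heDb : e ∈ D \ (Fo ∪ shF (ev i) Fi) := by
      rw [Finset.mem_sdiff, Finset.mem_union]
      exact ⟨heD, fun h => h.elim he fun h => heB (hFiB2 h)⟩
    have hDa : D \ (insert e Fo ∪ Fi) = (D \ (Fo ∪ Fi)).erase e := sdiff_ins2 _ _ _ _
    have hDb : D \ (insert e Fo ∪ shF (ev i) Fi) = (D \ (Fo ∪ shF (ev i) Fi)).erase e :=
      sdiff_ins2 _ _ _ _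
    have l1 := logZ_erase hx0 (D \ (Fo ∪ Fi)) heDa
    have l2 := logZ_erase hx0 (D \ (Fo ∪ shF (ev i) Fi)) heDb
    rw [hDa, hDb, Finset.sum_insert he, mul_add]
    have hcmp := edge_cmp hx0 hx1 hc hC hcl ((D \ (Fo ∪ Fi)).erase e)
      ((D \ (Fo ∪ shF (ev i) Fi)).erase e) e s (by
        have habs : |(nm e.1 : ℝ) - s| = (nm e.1 : ℝ) - s := by
          rw [abs_of_nonneg]
          have : (s : ℝ) ≤ nm e.1 := by exact_mod_cast (by omega : s ≤ nm e.1)
          linarith
        by_cases hlt : nm e.1 < s + 2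
        · left
          rw [habs]
          have : (nm e.1 : ℝ) < s + 2 := by exact_mod_cast hlt
          linarith
        · right
          push Not at hlt
          refine ⟨nm e.1 - s - 2, ?_, ?_⟩
          · rw [habs, Nat.cast_sub (by omega), Nat.cast_sub (by omega)]
            push_cast
            ring
          · intro f hf
            have hf1 : s < nm f.1 := by
              rcases hf with hf | hf
              · have := nm_tri e.1 f.1
                rw [nm_sub_comm] at this
                omega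
              · have h1 := nm_tri (e.1 + ev e.2) f.1
                rw [nm_sub_comm] at h1
                omega
            have hfB : f ∉ EB d s := by
              rw [mem_EB]
              omega
            have h1 : f ∉ Fi := fun h => hfB (hFiB h)
            have h2 : f ∉ shF (ev i) Fi := fun h => hfB (hFiB2 h)
            simp only [Finset.mem_erase, Finset.mem_sdiff, Finset.mem_union, h1, h2, or_false])
    have hlog := log_diff hx0 hx1 (CC_nonneg hx0 ((D \ (Fo ∪ Fi)).erase e) ((lat d).inc e))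
      (CC_nonneg hx0 ((D \ (Fo ∪ shF (ev i) Fi)).erase e) ((lat d).inc e))
    have hfin : Real.log (ZZ d x ((D \ (Fo ∪ Fi)).erase e) 0) -
        Real.log (ZZ d x ((D \ (Fo ∪ shF (ev i) Fi)).erase e) 0) =
        (Real.log (ZZ d x (D \ (Fo ∪ Fi)) 0) - Real.log (ZZ d x (D \ (Fo ∪ shF (ev i) Fi)) 0)) -
        (Real.log (1 + x * CC d x ((D \ (Fo ∪ Fi)).erase e) ((lat d).inc e)) -
          Real.log (1 + x * CC d x ((D \ (Fo ∪ shF (ev i) Fi)).erase e) ((lat d).inc e))) := by
      rw [l1, l2]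
      ring
    rw [hfin]
    refine (abs_sub _ _).trans ?_
    have h9 := add_le_add (hlog.trans hcmp) ih
    linarith

end

theorem pf (d : ℕ) (x : ℝ) (hx0 : 0 < x) (hx1 : x < 1) (h : S_CLOC d x) : S_PF d x := by
  classical
  obtain ⟨c, hc, C, hC, hcl⟩ := h
  refine ⟨c, hc, (2 * C + 1) * Real.exp (2 * c), by positivity, ?_⟩
  intro i D Fo Fi s hs hD hFo hdis hFi
  have h1 := outer hx0 hx1 hc hC hcl i D Fo Fi s hs hD hFo hdis hFi
  have h2 : Disjoint Fo Fi := by
    rw [Finset.disjoint_left]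
    intro e he he2
    have heB := hFi e he2
    have hshe : (shE (ev i) e).1 = e.1 + ev i := rfl
    have hshe2 : (shE (ev i) e).2 = e.2 := rfl
    rw [mem_EB, hshe, hshe2] at heB
    have h1 := nm_tri e.1 (e.1 + ev i)
    rw [nm_sub_comm, add_sub_cancel_left, nm_ev] at h1
    have h2 := nm_tri (e.1 + ev e.2) (e.1 + ev i + ev e.2)
    have h3 : e.1 + ev e.2 - (e.1 + ev i + ev e.2) = -(ev i) := by abel
    rw [h3, nm_neg, nm_ev] at h2
    refine Finset.disjoint_left.1 hdis he ?_
    rw [mem_EB]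
    omega
  rw [Finset.sum_union h2, mul_add]
  exact h1

end Pool.Agent.TH858.J464
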