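import Mathlib

/-!
The sum of `1/p` over the primes in an invertible residue class diverges, and for every `d > 0`
almost all integers have a prime factor congruent to `1` modulo `d`.
-/

set_option autoImplicit false

namespace Pool.Agent.TH858.AP

open Filter Topology ArithmeticFunction ArithmeticFunction.vonMangoldt

theorem not_summable_ap {q : ℕ} [NeZero q] {a : ZMod q} (ha : IsUnit a) :
    ¬ Summable (fun n : ℕ => if n.Prime ∧ (n : ZMod q) = a then ((n : ℝ))⁻¹ else 0) := by
  intro H
  have B := H.add (summable_residueClass_non_primes_div a)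
  have T : Tendsto (fun x : ℝ => ∑' n : ℕ, (x - 1) * (residueClass a n / (n : ℝ) ^ x))
      (𝓝[>] (1 : ℝ)) (𝓝 (∑' _n : ℕ, (0 : ℝ))) := by
    refine tendsto_tsum_of_dominated_convergence B (fun n => ?_) ?_
    · rcases Nat.eq_zero_or_pos n with rfl | hn
      · simp
      · have hn' : (n : ℝ) ≠ 0 := by positivity
        have hc : ContinuousAt (fun x : ℝ => (x - 1) * (residueClass a n / (n : ℝ) ^ x)) 1 := by
          refine ContinuousAt.mul (by fun_prop) (ContinuousAt.div continuousAt_const ?_ ?_)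
          · exact (Real.continuousAt_const_rpow hn')
          · simpa using hn'
        have h2 := hc.tendsto.mono_left (nhdsWithin_le_nhds (s := Set.Ioi (1 : ℝ)))
        simpa using h2
    · have hev : ∀ᶠ x : ℝ in 𝓝[>] (1 : ℝ), x ∈ Set.Ioo (1 : ℝ) 2 :=
        Ioo_mem_nhdsGT (by norm_num)
      filter_upwards [hev] with x hx n
      have hr := residueClass_nonneg a n
      have hx1 : 0 ≤ x - 1 := by linarith [hx.1]
      rw [Real.norm_of_nonneg (mul_nonneg hx1 (div_nonneg hr (by positivity)))]
      rcases Nat.eq_zero_or_pos n with rfl | hn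
      · simp
      have hn0 : (0 : ℝ) < n := by exact_mod_cast hn
      have hn1 : (1 : ℝ) ≤ n := by exact_mod_cast hn
      by_cases hp : n.Prime
      · by_cases hna : (n : ZMod q) = a
        · have hrc : residueClass a n = Real.log n := by
            rw [show residueClass a n = ({n : ℕ | (n : ZMod q) = a}.indicator (vonMangoldt ·)) n
              from rfl, Set.indicator_of_mem (by exact hna)]
            exact vonMangoldt_apply_prime hp
          simp only [hp, hna, and_self, if_true, zero_div, add_zero, hrc]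
          have hpow : (n : ℝ) ^ x = n * (n : ℝ) ^ (x - 1) := by
            rw [← Real.rpow_one_add' hn0.le (by linarith)]
            congr 1; ring
          rw [hpow]
          have hpp : 0 < (n : ℝ) ^ (x - 1) := Real.rpow_pos_of_pos hn0 _
          have hlog : (x - 1) * Real.log n ≤ (n : ℝ) ^ (x - 1) := by
            have := Real.log_le_sub_one_of_pos hpp
            rw [Real.log_rpow hn0] at this
            linarith
          rw [← mul_div_assoc, div_le_iff₀ (by positivity)]
          have : (n : ℝ)⁻¹ * (n * (n : ℝ) ^ (x - 1)) = (n : ℝ) ^ (x - 1) := by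
            field_simp
          rw [this]; exact hlog
        · have hrc : residueClass a n = 0 := by
            rw [show residueClass a n = ({n : ℕ | (n : ZMod q) = a}.indicator (vonMangoldt ·)) n
              from rfl, Set.indicator_of_notMem (by exact hna)]
          simp only [hrc, zero_div, mul_zero, hna, and_false, if_false, ite_self, add_zero, le_refl]
      · simp only [hp, false_and, if_false, zero_add]
        have hle : (n : ℝ) ≤ (n : ℝ) ^ x := by
          conv_lhs => rw [← Real.rpow_one (n : ℝ)]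
          exact Real.rpow_le_rpow_of_exponent_le hn1 hx.1.le
        calc (x - 1) * (residueClass a n / (n : ℝ) ^ x)
            ≤ 1 * (residueClass a n / (n : ℝ) ^ x) :=
              mul_le_mul_of_nonneg_right (by linarith [hx.2]) (div_nonneg hr (by positivity))
          _ = residueClass a n / (n : ℝ) ^ x := one_mul _
          _ ≤ residueClass a n / n := div_le_div_of_nonneg_left hr hn0 hle
  obtain ⟨C, hC⟩ := LSeries_residueClass_lower_bound ha
  have hq : 0 < (q.totient : ℝ)⁻¹ := inv_pos.mpr (mod_cast q.totient.pos_of_neZero)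
  have L : Tendsto (fun x : ℝ => (q.totient : ℝ)⁻¹ - C * (x - 1)) (𝓝[>] (1 : ℝ))
      (𝓝 ((q.totient : ℝ)⁻¹ - C * (1 - 1))) :=
    Tendsto.mono_left (by
      have : Continuous (fun x : ℝ => (q.totient : ℝ)⁻¹ - C * (x - 1)) := by fun_prop
      exact this.tendsto 1) nhdsWithin_le_nhds
  have hev : ∀ᶠ x : ℝ in 𝓝[>] (1 : ℝ), x ∈ Set.Ioo (1 : ℝ) 2 :=
    Ioo_mem_nhdsGT (by norm_num)
  have key := le_of_tendsto_of_tendsto L T (by
    filter_upwards [hev] with x hx
    have h1 : 0 < x - 1 := by linarith [hx.1]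
    have := hC (x := x) ⟨hx.1, hx.2.le⟩
    rw [tsum_mul_left]
    have h2 := mul_le_mul_of_nonneg_left this h1.le
    have h3 : (x - 1) * ((q.totient : ℝ)⁻¹ / (x - 1) - C) = (q.totient : ℝ)⁻¹ - C * (x - 1) := by
      field_simp
    rw [h3] at h2
    exact h2)
  simp at key
  exact NeZero.ne q key

/-- Integers without a prime factor congruent to `1` modulo `d`. -/
def NoFactor (d m : ℕ) : Prop := ∀ p : ℕ, p.Prime → p ≡ 1 [MOD d] → ¬ p ∣ m

open Classical in
theorem noFactor_density (d : ℕ) (hd : 0 < d) (ε : ℝ) (hε : 0 < ε) :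
    ∃ X₀ : ℕ, ∀ X : ℕ, X₀ ≤ X →
      (((Finset.range X).filter (fun m => NoFactor d m)).card : ℝ) ≤ ε * X := by
  have : NeZero d := ⟨hd.ne'⟩
  have hns := not_summable_ap (q := d) (a := 1) isUnit_one
  rw [not_summable_iff_tendsto_nat_atTop_of_nonneg (fun n => by split_ifs <;> positivity)] at hns
  obtain ⟨N, hN⟩ := (hns.eventually (eventually_ge_atTop (- Real.log (ε / 2)))).exists
  set P : Finset ℕ := (Finset.range N).filter (fun p => p.Prime ∧ (p : ZMod d) = 1) with hP
  have hPp : ∀ p ∈ P, p.Prime := fun p hp => (Finset.mem_filter.1 hp).2.1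
  set Q : ℕ := ∏ p ∈ P, p with hQ
  have hQ0 : 0 < Q := Finset.prod_pos fun p hp => (hPp p hp).pos
  have hpf : Q.primeFactors = P := Nat.primeFactors_prod hPp
  have hsum : - Real.log (ε / 2) ≤ ∑ p ∈ P, ((p : ℝ))⁻¹ := by
    rw [hP, Finset.sum_filter]; exact hN
  have htot : ((Nat.totient Q : ℕ) : ℝ) ≤ Q * (ε / 2) := by
    have h1 : ((Nat.totient Q : ℕ) : ℝ) = Q * ∏ p ∈ P, (1 - ((p : ℝ))⁻¹) := by
      have := Nat.totient_eq_mul_prod_factors Q
      rw [hpf] at this
      have h2 : (((Nat.totient Q : ℕ) : ℚ) : ℝ) = ((Q * ∏ p ∈ P, (1 - ((p : ℚ))⁻¹) : ℚ) : ℝ) := by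
        rw [this]
      push_cast at h2
      exact h2
    rw [h1]
    refine mul_le_mul_of_nonneg_left ?_ (by positivity)
    calc ∏ p ∈ P, (1 - ((p : ℝ))⁻¹) ≤ ∏ p ∈ P, Real.exp (-((p : ℝ))⁻¹) := by
          refine Finset.prod_le_prod (fun p hp => ?_) (fun p hp => ?_)
          · have : (1 : ℝ) ≤ p := by exact_mod_cast (hPp p hp).one_lt.le
            have := inv_le_one_of_one_le₀ this
            linarith
          · have := Real.add_one_le_exp (-((p : ℝ))⁻¹)
            linarith
      _ = Real.exp (- ∑ p ∈ P, ((p : ℝ))⁻¹) := by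
          rw [← Real.exp_sum, Finset.sum_neg_distrib]
      _ ≤ Real.exp (Real.log (ε / 2)) := Real.exp_le_exp.2 (by linarith)
      _ = ε / 2 := Real.exp_log (by positivity)
  refine ⟨⌈2 * (Nat.totient Q : ℝ) / ε⌉₊, fun X hX => ?_⟩
  have hsub : (Finset.range X).filter (fun m => NoFactor d m) ⊆
      (Finset.Ico 0 (0 + X)).filter (fun m => Q.Coprime m) := by
    intro m hm
    rw [Finset.mem_filter] at hm ⊢
    refine ⟨by simpa using hm.1, ?_⟩
    refine Nat.Coprime.prod_left fun p hp => ?_
    have hpp := hPp p hp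
    have hp1 : (p : ZMod d) = 1 := (Finset.mem_filter.1 hp).2.2
    have hmod : p ≡ 1 [MOD d] := by
      rw [← ZMod.natCast_eq_natCast_iff]; simpa using hp1
    exact (Nat.Prime.coprime_iff_not_dvd hpp).2 (hm.2 p hpp hmod)
  have hcard := (Finset.card_le_card hsub).trans (Nat.Ico_filter_coprime_le 0 X hQ0.ne')
  have hcard' : (((Finset.range X).filter (fun m => NoFactor d m)).card : ℝ) ≤
      (Nat.totient Q : ℝ) * ((X / Q : ℕ) + 1) := by
    exact_mod_cast hcard
  have hdiv : ((X / Q : ℕ) : ℝ) ≤ (X : ℝ) / Q := Nat.cast_div_le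
  have hQR : (0 : ℝ) < Q := by exact_mod_cast hQ0
  have hX' : 2 * (Nat.totient Q : ℝ) / ε ≤ X := (Nat.le_ceil _).trans (by exact_mod_cast hX)
  have h2 : 2 * (Nat.totient Q : ℝ) ≤ X * ε := (div_le_iff₀ hε).1 hX'
  have h3 : (Nat.totient Q : ℝ) * ((X / Q : ℕ) : ℝ) ≤ (ε / 2) * X := by
    calc (Nat.totient Q : ℝ) * ((X / Q : ℕ) : ℝ) ≤ (Q * (ε / 2)) * ((X : ℝ) / Q) :=
          mul_le_mul htot hdiv (by positivity) (by positivity)
      _ = (ε / 2) * X := by field_simp
  calc (((Finset.range X).filter (fun m => NoFactor d m)).card : ℝ)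
      ≤ (Nat.totient Q : ℝ) * ((X / Q : ℕ) + 1) := hcard'
    _ = (Nat.totient Q : ℝ) * ((X / Q : ℕ) : ℝ) + Nat.totient Q := by ring
    _ ≤ ε * X := by linarith

end Pool.Agent.TH858.AP
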