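import Mathlib
import Pool.Agent.TH858.PrimesAPDiv

/-!
MP_61a569_nt, Q1.  There is a function `f` tending to infinity such that for almost all `n` the
number `q(n,k) = φ(k) + φ(n-k)/2 + 1` is composite for all `k` within distance `f(n)` of one of the
two ends of the range `1 ≤ k < n - 2`; in particular no such `k` is admissible for `n`.
-/

set_option autoImplicit false

namespace Pool.Agent.Results.MP_61a569_nt.NotNearTheEnds

open Filter Pool.Agent.TH858.AP

/-- `q(n,k) = φ(k) + φ(n-k)/2 + 1`. -/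
def q (n k : ℕ) : ℕ := Nat.totient k + Nat.totient (n - k) / 2 + 1

/-- Some `k` with `1 ≤ k < n - 2` and (`k ≤ K` or `n - k ≤ K`) has `q(n,k)` prime.  (Every `k`
that is admissible for `n` has `q(n,k)` prime.) -/
def PrimeNearEnd (K n : ℕ) : Prop :=
  ∃ k : ℕ, 1 ≤ k ∧ k < n - 2 ∧ (k ≤ K ∨ n - k ≤ K) ∧ (q n k).Prime

theorem PrimeNearEnd.mono {K L n : ℕ} (h : K ≤ L) (hn : PrimeNearEnd K n) : PrimeNearEnd L n := by
  obtain ⟨k, h1, h2, h3, h4⟩ := hn
  exact ⟨k, h1, h2, h3.imp (fun h' => h'.trans h) (fun h' => h'.trans h), h4⟩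

theorem dvd_totient_of {D p m : ℕ} (hp : p.Prime) (hmod : p ≡ 1 [MOD D]) (hpm : p ∣ m) :
    D ∣ Nat.totient m := by
  have h1 : D ∣ p - 1 := (Nat.modEq_iff_dvd' hp.one_lt.le).1 hmod.symm
  have h2 : Nat.totient p ∣ Nat.totient m := Nat.totient_dvd_of_dvd hpm
  rw [Nat.totient_prime hp] at h2
  exact h1.trans h2

theorem near_sub {K n : ℕ} (h : PrimeNearEnd K n) :
    ∃ s ∈ Finset.range (K + 1), s ≤ n ∧ NoFactor (2 * K + 2).factorial (n - s) := by
  obtain ⟨k, h1, h2, h3, h4⟩ := h
  have hn : 3 ≤ n - k := by omega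
  have hkpos : 0 < Nat.totient k := Nat.totient_pos.2 h1
  have hmpos : 0 < Nat.totient (n - k) := Nat.totient_pos.2 (by omega)
  rcases h3 with h3 | h3
  · refine ⟨k, Finset.mem_range.2 (by omega), by omega, fun p hp hmod hpm => ?_⟩
    have hD := dvd_totient_of hp hmod hpm
    have hle : Nat.totient k ≤ k := Nat.totient_le k
    have hc : 2 * (Nat.totient k + 1) ∣ (2 * K + 2).factorial :=
      Nat.dvd_factorial (by omega) (by omega)
    obtain ⟨t, ht⟩ := hc.trans hD
    have ht0 : t ≠ 0 := by
      rintro rfl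
      rw [mul_zero] at ht
      omega
    have hhalf : Nat.totient (n - k) / 2 = (Nat.totient k + 1) * t := by
      rw [ht, mul_assoc, Nat.mul_div_cancel_left _ (by norm_num)]
    have hq : q n k = (Nat.totient k + 1) * (t + 1) := by
      unfold q
      rw [hhalf]; ring
    rw [hq] at h4
    exact Nat.not_prime_mul (by omega) (by omega) h4
  · refine ⟨n - k, Finset.mem_range.2 (by omega), by omega, fun p hp hmod hpm => ?_⟩
    have hnk : n - (n - k) = k := by omega
    rw [hnk] at hpm
    have hD := dvd_totient_of hp hmod hpm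
    have hle : Nat.totient (n - k) ≤ n - k := Nat.totient_le _
    have heven : Even (Nat.totient (n - k)) := Nat.totient_even (by omega)
    have h2' : 2 ≤ Nat.totient (n - k) := by
      rcases heven with ⟨r, hr⟩
      omega
    have hc : Nat.totient (n - k) / 2 + 1 ∣ (2 * K + 2).factorial :=
      Nat.dvd_factorial (by omega) (by omega)
    obtain ⟨t, ht⟩ := hc.trans hD
    have ht0 : t ≠ 0 := by
      rintro rfl
      rw [mul_zero] at ht
      omega
    have hq : q n k = (Nat.totient (n - k) / 2 + 1) * (t + 1) := by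
      unfold q
      rw [ht]; ring
    rw [hq] at h4
    exact Nat.not_prime_mul (by omega) (by omega) h4

open Classical in
theorem count_K (K : ℕ) (ε : ℝ) (hε : 0 < ε) :
    ∃ X₀ : ℕ, ∀ X : ℕ, X₀ ≤ X →
      (((Finset.range X).filter (fun n => PrimeNearEnd K n)).card : ℝ) ≤ ε * X := by
  obtain ⟨X₀, hX₀⟩ := noFactor_density (2 * K + 2).factorial (Nat.factorial_pos _)
    (ε / (K + 1)) (by positivity)
  refine ⟨X₀, fun X hX => ?_⟩
  have hsub : (Finset.range X).filter (fun n => PrimeNearEnd K n) ⊆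
      (Finset.range (K + 1)).biUnion (fun s => (Finset.range X).filter
        (fun n => s ≤ n ∧ NoFactor (2 * K + 2).factorial (n - s))) := by
    intro n hn
    rw [Finset.mem_filter] at hn
    obtain ⟨s, hs, h1, h2⟩ := near_sub hn.2
    rw [Finset.mem_biUnion]
    exact ⟨s, hs, Finset.mem_filter.2 ⟨hn.1, h1, h2⟩⟩
  have hone : ∀ s ∈ Finset.range (K + 1), ((Finset.range X).filter
        (fun n => s ≤ n ∧ NoFactor (2 * K + 2).factorial (n - s))).card ≤
      ((Finset.range X).filter (fun m => NoFactor (2 * K + 2).factorial m)).card := by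
    intro s _
    refine Finset.card_le_card_of_injOn (fun n => n - s) ?_ ?_
    · intro n hn
      simp only [Finset.coe_filter, Finset.mem_range, Set.mem_ofPred_eq] at hn ⊢
      exact ⟨by omega, hn.2.2⟩
    · intro a ha b hb hab
      simp only [Finset.coe_filter, Finset.mem_range, Set.mem_ofPred_eq] at ha hb hab
      omega
  have hcard : ((Finset.range X).filter (fun n => PrimeNearEnd K n)).card ≤
      (K + 1) * ((Finset.range X).filter (fun m => NoFactor (2 * K + 2).factorial m)).card := by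
    refine (Finset.card_le_card hsub).trans (Finset.card_biUnion_le.trans ?_)
    refine (Finset.sum_le_sum hone).trans ?_
    rw [Finset.sum_const, Finset.card_range, smul_eq_mul]
  have h1 := hX₀ X hX
  calc (((Finset.range X).filter (fun n => PrimeNearEnd K n)).card : ℝ)
      ≤ ((K + 1 : ℕ) : ℝ) *
        (((Finset.range X).filter (fun m => NoFactor (2 * K + 2).factorial m)).card : ℝ) := by
        exact_mod_cast hcard
    _ ≤ ((K + 1 : ℕ) : ℝ) * (ε / (K + 1) * X) := by
        refine mul_le_mul_of_nonneg_left h1 (by positivity)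
    _ = ε * X := by push_cast; field_simp

open Classical in
/-- There is a nondecreasing function `f` with `f(n) → ∞` such that, for almost all `n` (all but
`o(X)` of the `n < X`), the number `q(n,k)` is composite for every `k` with `1 ≤ k < n - 2` and
(`k ≤ f(n)` or `n - k ≤ f(n)`); as an admissible `k` has `q(n,k)` prime, every admissible `k`
satisfies `f(n) < k < n - f(n)` for these `n`. -/
theorem result :
    ∃ f : ℕ → ℕ, Monotone f ∧ Tendsto f atTop atTop ∧
      ∀ ε : ℝ, 0 < ε → ∃ X₀ : ℕ, ∀ X : ℕ, X₀ ≤ X →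
        (((Finset.range X).filter (fun n => PrimeNearEnd (f n) n)).card : ℝ) ≤ ε * X := by
  have hK : ∀ K : ℕ, ∃ X₀ : ℕ, ∀ X : ℕ, X₀ ≤ X →
      (((Finset.range X).filter (fun n => PrimeNearEnd K n)).card : ℝ) ≤ (1 / (K + 1 : ℝ)) * X :=
    fun K => count_K K _ (by positivity)
  choose N hN using hK
  set f : ℕ → ℕ := fun n => Nat.findGreatest (fun j => N j ≤ n) n with hf
  have hmono : Monotone f := by
    intro a b hab
    exact Nat.findGreatest_mono (fun j hj => le_trans hj hab) hab
  have htend : Tendsto f atTop atTop := by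
    rw [tendsto_atTop_atTop]
    intro b
    refine ⟨max b (N b), fun n hn => ?_⟩
    exact Nat.le_findGreatest ((le_max_left _ _).trans hn) ((le_max_right _ _).trans hn)
  refine ⟨f, hmono, htend, ?_⟩
  intro ε hε
  obtain ⟨X₁, hX₁⟩ := (tendsto_atTop_atTop.1 htend) (⌈1 / ε⌉₊ + 1)
  refine ⟨X₁, fun X hX => ?_⟩
  have hfX : ⌈1 / ε⌉₊ + 1 ≤ f X := hX₁ X hX
  have hspec : N (f X) ≤ X :=
    Nat.findGreatest_of_ne_zero (P := fun j => N j ≤ X) (n := X) rfl (by omega)
  have hsub : (Finset.range X).filter (fun n => PrimeNearEnd (f n) n) ⊆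
      (Finset.range X).filter (fun n => PrimeNearEnd (f X) n) := by
    intro n hn
    rw [Finset.mem_filter] at hn ⊢
    exact ⟨hn.1, hn.2.mono (hmono (Finset.mem_range.1 hn.1).le)⟩
  have h1 : (((Finset.range X).filter (fun n => PrimeNearEnd (f n) n)).card : ℝ) ≤
      (((Finset.range X).filter (fun n => PrimeNearEnd (f X) n)).card : ℝ) := by
    exact_mod_cast Finset.card_le_card hsub
  have h2 := hN (f X) X hspec
  have h3 : 1 / ((f X : ℝ) + 1) ≤ ε := by
    have h4 : (1 / ε) ≤ (f X : ℝ) := by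
      have := Nat.le_ceil (1 / ε)
      have h5 : ((⌈1 / ε⌉₊ : ℕ) : ℝ) + 1 ≤ (f X : ℝ) := by exact_mod_cast hfX
      linarith
    rw [div_le_iff₀ (by positivity)]
    rw [div_le_iff₀ hε] at h4
    nlinarith
  calc (((Finset.range X).filter (fun n => PrimeNearEnd (f n) n)).card : ℝ)
      ≤ (1 / ((f X : ℝ) + 1)) * X := h1.trans h2
    _ ≤ ε * X := mul_le_mul_of_nonneg_right h3 (by positivity)

end Pool.Agent.Results.MP_61a569_nt.NotNearTheEnds
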